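import Pool.Agent.TH686.MC.Sup

set_option autoImplicit false

/-! Transfer of Martin's conjecture through interpretations. -/

namespace Pool.Agent.TH686.MC

open FirstOrder FirstOrder.Language Filter
open Pool.Agent.W889.FO
open Pool.Agent.TH686.FO

/-- Martin's conjecture for `T`, structures on the natural numbers -/
def MartinN {L : FirstOrder.Language.{0, 0}} (T : L.Theory) : Prop :=
  ∀ S S' : L.Structure ℕ, @Theory.Model L ℕ S T → @Theory.Model L ℕ S' T →
    (∀ φ : L1 T 0, φ.Sat S Fin.elim0 ↔ φ.Sat S' Fin.elim0) → SIso S S'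

variable {L L' : FirstOrder.Language.{0, 0}} [L.IsRelational] [L'.IsRelational]

omit [L.IsRelational] in
theorem sat_iso {T : L.Theory} {S S' : L.Structure ℕ}
    (g : @FirstOrder.Language.Equiv L ℕ ℕ S S') {n : ℕ} (φ : L1 T n) (a : Fin n → ℕ) :
    φ.Sat S a ↔ φ.Sat S' (fun i => g (a i)) := by
  have hsurj : ∀ v, ∃ u, g u = v := fun v =>
    @FirstOrder.Language.Equiv.surjective L ℕ ℕ S S' g v
  induction φ with
  | fo φ => exact rz_iso g φ a
  | conj p hp v => exact forall_congr' fun φ => imp_congr_right fun _ => rz_iso g φ _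
  | not φ ih => exact not_congr (ih a)
  | and φ ψ ih1 ih2 => exact and_congr (ih1 a) (ih2 a)
  | @all n φ ih =>
    have e : ∀ x, (fun i => g (Fin.snoc (α := fun _ => ℕ) a x i)) =
        Fin.snoc (α := fun _ => ℕ) (fun i => g (a i)) (g x) := by
      intro x
      funext i
      refine Fin.lastCases ?_ (fun j => ?_) i
      · simp
      · simp
    constructor
    · intro h y
      obtain ⟨x, rfl⟩ := hsurj y
      have := (ih (Fin.snoc (α := fun _ => ℕ) a x)).1 (h x)
      rw [e] at this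
      exact this
    · intro h x
      refine (ih (Fin.snoc (α := fun _ => ℕ) a x)).2 ?_
      rw [e]
      exact h (g x)

omit [L.IsRelational] in
theorem var_of [L.IsRelational] {n : ℕ} (t : L.Term (Empty ⊕ Fin n)) :
    ∃ i, t = Term.var (Sum.inr i) := by
  cases t with
  | var i =>
    rcases i with i | i
    · exact i.elim
    · exact ⟨i, rfl⟩
  | func f _ => exact isEmptyElim f

omit [L.IsRelational] in
/-- formulas about types are formulas of the fragment -/
theorem to_L1 {ι : Type} {a : ι → ℕ} (T : L.Theory)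
    (p : ∀ i, Set (L.BoundedFormula Empty (a i))) (hp : ∀ i, IsCompleteType T (p i)) {n : ℕ}
    (ψ : (Lx L a).BoundedFormula Empty n) :
    ∃ φ : L1 T n, ∀ (S : L.Structure ℕ) (R : (Lx L a).Structure ℕ),
      (∀ (m : ℕ) (Q : L.Relations m) v, @Structure.RelMap (Lx L a) ℕ R m (Rx.old Q) v ↔
        @Structure.RelMap L ℕ S m Q v) →
      (∀ i v, px R i v ↔ ∀ θ ∈ p i, Rz S θ v) → ∀ v, φ.Sat S v ↔ Rz R ψ v := by
  induction ψ with
  | falsum => exact ⟨.fo ⊥, fun S R _ _ v => Iff.rfl⟩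
  | @equal n t1 t2 =>
    obtain ⟨i, rfl⟩ := var_of t1
    obtain ⟨j, rfl⟩ := var_of t2
    obtain ⟨χ, hχ⟩ := rz_of_fd (FD.eq (L := L) (W := fun _ => True) i j)
    exact ⟨.fo χ, fun S R _ _ v => hχ S trivial v⟩
  | @rel n l Q ts =>
    choose g hg using fun i => var_of (ts i)
    obtain rfl : ts = fun i => Term.var (Sum.inr (g i)) := funext hg
    cases Q with
    | old Q =>
      obtain ⟨χ, hχ⟩ := rz_of_fd (FD.rel (L := L) (W := fun _ => True) Q g)
      exact ⟨.fo χ, fun S R h1 _ v => (hχ S trivial v).trans (h1 _ Q _).symm⟩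
    | new i =>
      exact ⟨.conj (p i) (hp i) g, fun S R _ h2 v => (h2 i _).symm⟩
  | @imp n f1 f2 h1 h2 =>
    obtain ⟨φ1, k1⟩ := h1
    obtain ⟨φ2, k2⟩ := h2
    refine ⟨.not (.and φ1 (.not φ2)), fun S R h3 h4 v => ?_⟩
    show ¬ (φ1.Sat S v ∧ ¬ φ2.Sat S v) ↔ (Rz R f1 v → Rz R f2 v)
    rw [← k1 S R h3 h4 v, ← k2 S R h3 h4 v]
    tauto
  | @all n f ih =>
    obtain ⟨φ, k⟩ := ih
    exact ⟨.all φ, fun S R h3 h4 v => forall_congr' fun x => k S R h3 h4 _⟩

/-- Transfer of Martin's conjecture. -/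
theorem transfer [Countable (Σ n, L.Relations n)] [Countable (Σ n, L'.Relations n)]
    (I : Itq L L') (hs : Sup I) (T : L.Theory) (hfew : FewCountableModels T)
    (hex : ∀ M : L.Structure ℕ, @Theory.Model L ℕ M T → ∃ S, I.W S ∧ SIso (I.D S) M)
    (hM : ∀ T' : L'.Theory, T'.IsComplete → FewCountableModels T' →
      (∀ S : L'.Structure ℕ, @Theory.Model L' ℕ S T' → I.W S) → MartinN T') : MartinN T := by
  classical
  intro M N hMT hNT hMN
  obtain ⟨S, hS, hSM⟩ := hex M hMT
  obtain ⟨S', hS', hSN⟩ := hex N hNT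
  have cb : ∀ n, Countable (L.BoundedFormula Empty n) := cbf
  have cb' : ∀ n, Countable (L'.BoundedFormula Empty n) := cbf
  -- the two structures
  let St : Bool → L'.Structure ℕ := fun b => if b then S else S'
  have hSt : ∀ b, I.W (St b) := fun b => by cases b <;> assumption
  have hTm : ∀ b, @Theory.Model L ℕ (I.D (St b)) T := by
    intro b
    cases b
    · exact hSN.symm.model hNT
    · exact hSM.symm.model hMT
  have hL1 : ∀ φ : L1 T 0, φ.Sat (I.D (St true)) Fin.elim0 ↔ φ.Sat (I.D (St false)) Fin.elim0 := by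
    intro φ
    obtain ⟨g⟩ := hSM
    obtain ⟨g'⟩ := hSN
    have h1 := sat_iso g φ Fin.elim0
    have h2 := sat_iso g' φ Fin.elim0
    have e1 : (fun i : Fin 0 => g (Fin.elim0 i)) = Fin.elim0 := Subsingleton.elim _ _
    have e2 : (fun i : Fin 0 => g' (Fin.elim0 i)) = Fin.elim0 := Subsingleton.elim _ _
    rw [e1] at h1
    rw [e2] at h2
    exact h1.trans ((hMN φ).trans h2.symm)
  -- the tuples, their shapes, supports and types
  let ι : Type := Bool × Σ m : ℕ, (Fin m → ℕ)
  choose sh sw hsw using fun i : ι => hs.tot (St i.1) (hSt i.1) i.2.2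
  let a : ι → ℕ := fun i => hs.wd (sh i)
  let p : ∀ i : ι, Set (L.BoundedFormula Empty (a i)) := fun i =>
    {θ | Rz (I.D (St i.1)) θ (fun j => lbl I (St i.1) (sw i j))}
  have hp : ∀ i, IsCompleteType T (p i) := fun i => ⟨I.D (St i.1), _, hTm i.1, rfl⟩
  have hpn : ∀ i θ, θ ∉ p i → θ.not ∈ p i := fun i θ h => (rz_not _ _ _).2 h
  -- the expansions
  let X : Bool → (Lx L' a).Structure ℕ := fun b => xp (St b) fun i v =>
    (∀ j, I.dom (St b) (v j)) ∧ ∀ θ ∈ p i, Rz (I.D (St b)) θ (fun j => lbl I (St b) (v j))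
  have hrd : ∀ b, rd (X b) = St b := fun b => rd_xp _ _
  have hpx : ∀ b i v, px (X b) i v ↔ (∀ j, I.dom (St b) (v j)) ∧
      ∀ θ ∈ p i, Rz (I.D (St b)) θ (fun j => lbl I (St b) (v j)) := fun b i v => Iff.rfl
  have hXW : ∀ b, (ixp I a).W (X b) := by
    intro b
    refine ⟨?_, ?_, ?_⟩
    · rw [hrd]
      exact hSt b
    · intro i u h
      rw [hrd]
      exact h.1
    · intro i u u' h h1 h2
      rw [hrd] at h1 h2
      refine ⟨h1, fun θ hθ => ?_⟩
      have e : (fun j => lbl I (St b) (u' j)) = fun j => lbl I (St b) (u j) := by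
        funext j
        exact ((I.lab_eq (hSt b) (lbl_spec (hSt b) (h.1 j)) (lbl_spec (hSt b) (h1 j))).1
          (h2 j)).symm
      rw [e]
      exact h.2 θ hθ
  have : Countable (Σ n, (Lx L a).Relations n) := countable_Lx
  have : Countable (Σ n, (Lx L' a).Relations n) := countable_Lx
  have cx : ∀ n, Countable ((Lx L a).BoundedFormula Empty n) := cbf
  have cx' : ∀ n, Countable ((Lx L' a).BoundedFormula Empty n) := cbf
  -- the interpreted expansions
  have hD1 : ∀ b (m : ℕ) (Q : L.Relations m) v,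
      @Structure.RelMap (Lx L a) ℕ ((ixp I a).D (X b)) m (Rx.old Q) v ↔
        @Structure.RelMap L ℕ (I.D (St b)) m Q v := by
    intro b m Q v
    have h1 : @Structure.RelMap (Lx L a) ℕ ((ixp I a).D (X b)) m (Rx.old Q) v ↔
      @Structure.RelMap L ℕ (I.D (rd (X b))) m Q v := Iff.rfl
    rw [hrd b] at h1
    exact h1
  have hD2 : ∀ b i (v : Fin (a i) → ℕ), px ((ixp I a).D (X b)) i v ↔
      ∀ θ ∈ p i, Rz (I.D (St b)) θ v := by
    intro b i v
    choose u hu using fun j => I.lab_surj (hSt b) (v j)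
    have h1 := (ixp I a).rel_iff (hXW b) (Rx.new i : Rx L a (a i)) (u := u) (v := v) (fun j => by
      show I.lab (rd (X b)) (v j) (u j)
      rw [hrd]
      exact hu j)
    refine Iff.trans h1 ((hpx b i u).trans ?_)
    have e : (fun j => lbl I (St b) (u j)) = v := funext fun j => lbl_eq (hSt b) (hu j)
    rw [e]
    exact ⟨fun h => h.2, fun h => ⟨fun j => (hu j).1, h⟩⟩
  have hXE : ∀ ψ : (Lx L' a).BoundedFormula Empty 0,
      Rz (X true) ψ Fin.elim0 ↔ Rz (X false) ψ Fin.elim0 := by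
    refine exp_eq I hs (hXW true) (hXW false) fun φ => ?_
    obtain ⟨φ', h1⟩ := to_L1 T p hp φ
    rw [← h1 _ _ (hD1 true) (hD2 true), ← h1 _ _ (hD1 false) (hD2 false)]
    exact hL1 φ'
  -- the theory
  let T' : L'.Theory := @FirstOrder.Language.completeTheory L' ℕ S
  have hT' : T'.IsComplete := @FirstOrder.Language.completeTheory.isComplete L' ℕ S _
  have hmem : ∀ σ : L'.Sentence, σ ∈ T' ↔ @Sentence.Realize L' ℕ S σ := fun σ => Iff.rfl
  have hW' : ∀ S1 : L'.Structure ℕ, @Theory.Model L' ℕ S1 T' → I.W S1 := by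
    intro S1 h1
    obtain ⟨T1, hT1⟩ := I.axW
    refine (hT1 S1).1 (ax_iff.2 fun φ hφ => ax_iff.1 h1 φ ?_)
    rw [hmem]
    exact ax_iff.1 ((hT1 S).2 hS) φ hφ
  have hm' : ∀ S1 : L'.Structure ℕ, @Theory.Model L' ℕ S1 T' →
      @Theory.Model L ℕ (I.D S1) T := by
    intro S1 h1
    obtain ⟨T1, hT1⟩ := I.ax_theory T
    refine ((hT1 S1).1 (ax_iff.2 fun φ hφ => ax_iff.1 h1 φ ?_)).2
    rw [hmem]
    exact ax_iff.1 ((hT1 S).2 ⟨hS, hSM.symm.model hMT⟩) φ hφ
  have hfew' : FewCountableModels T' := by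
    rintro ⟨f, hf1, hf2⟩
    refine hfew ⟨fun x => I.D (f x), fun x => hm' _ (hf1 x), fun x y h => hf2 x y ?_⟩
    obtain ⟨e⟩ := h
    obtain ⟨g, -⟩ := hs.up (f x) (f y) (hW' _ (hf1 x)) (hW' _ (hf1 y)) e
    exact ⟨g⟩
  -- formulas of the fragment are formulas about types
  have key : ∀ {n : ℕ} (φ : L1 T' n), ∃ ψ : (Lx L' a).BoundedFormula Empty n,
      ∀ b v, φ.Sat (St b) v ↔ Rz (X b) ψ v := by
    intro n φ
    induction φ with
    | fo φ =>
      obtain ⟨ψ, hψ⟩ := rz_of_fd (fd_rd (a := a) (fd_rz (W := fun _ => True) φ id))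
      refine ⟨ψ, fun b v => ?_⟩
      rw [hψ (X b) trivial v, hrd]
      exact Iff.rfl
    | @conj n k q hq v0 =>
      by_cases hreal : ∃ (b : Bool) (u : Fin k → ℕ), ∀ θ ∈ q, Rz (St b) θ u
      · obtain ⟨b0, u, hu⟩ := hreal
        obtain ⟨S3, a3, -, hq3⟩ := hq
        have hqi : ∀ θ, θ ∈ q ↔ Rz (St b0) θ u := by
          intro θ
          refine ⟨hu θ, fun h1 => ?_⟩
          by_contra h2
          have h3 : θ.not ∈ q := by
            rw [hq3]
            rw [hq3] at h2
            exact (rz_not S3 θ a3).2 h2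
          exact (rz_not _ _ _).1 (hu _ h3) h1
        let i : ι := (b0, ⟨k, u⟩)
        have hfd : FD (fun S : (Lx L' a).Structure ℕ => I.W (rd S))
            (fun S (v : Fin n → ℕ) => ∃ w : Fin (a i) → ℕ,
              hs.χ (sh i) (rd S) (fun j => v (v0 j)) w ∧ px S i w) := by
          refine FD.ex (P := fun S (v : Fin n → ℕ) (w : Fin (a i) → ℕ) =>
            hs.χ (sh i) (rd S) (fun j => v (v0 j)) w ∧ px S i w) ?_
          refine FD.and ?_ (fd_px i fun j => Sum.inr j)
          exact (fd_rd (a := a) (hs.fd (sh i))).sub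
            (Sum.elim (fun j => Sum.inl (v0 j)) (fun j => Sum.inr j))
        obtain ⟨ψ, hψ⟩ := rz_of_fd hfd
        refine ⟨ψ, fun b v => ?_⟩
        rw [hψ (X b) (by rw [hrd]; exact hSt b) v, hrd]
        show (∀ θ ∈ q, Rz (St b) θ (fun j => v (v0 j))) ↔ _
        constructor
        · intro h1
          have hth : ∀ θ : L.BoundedFormula Empty (a i), θ ∈ p i → ∃ w : Fin (a i) → ℕ,
              hs.χ (sh i) (St b) (fun j => v (v0 j)) w ∧
                Rz (I.D (St b)) θ (fun j => lbl I (St b) (w j)) := by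
            intro θ hθ
            obtain ⟨θ', hθ'⟩ := translate' I θ
            have hfe : FD I.W (fun S (x : Fin k → ℕ) => ∃ w : Fin (a i) → ℕ,
                hs.χ (sh i) S x w ∧ Rz S θ' w) := by
              refine FD.ex (P := fun S (x : Fin k → ℕ) (w : Fin (a i) → ℕ) =>
                hs.χ (sh i) S x w ∧ Rz S θ' w) ?_
              exact (hs.fd (sh i)).and (fd_rz θ' fun j => Sum.inr j)
            obtain ⟨ε, hε⟩ := rz_of_fd hfe
            have h2 : ε ∈ q := by
              rw [hqi, hε _ (hSt b0)]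
              refine ⟨sw i, hsw i, ?_⟩
              rw [hθ' _ (hSt b0) _ (fun j => lbl I (St b0) (sw i j)) (fun j =>
                lbl_spec (hSt b0) (hs.dom _ _ _ _ (hSt b0) (hsw i) j))]
              exact hθ
            obtain ⟨w, h3, h4⟩ := (hε _ (hSt b) _).1 (h1 ε h2)
            refine ⟨w, h3, ?_⟩
            rwa [hθ' _ (hSt b) _ (fun j => lbl I (St b) (w j)) (fun j =>
                lbl_spec (hSt b) (hs.dom _ _ _ _ (hSt b) h3 j))] at h4
          obtain ⟨w, h3, -⟩ := hth ⊤ (by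
            show Rz _ ⊤ _
            exact fun h => h)
          refine ⟨w, h3, (hpx b i w).2 ⟨hs.dom _ _ _ _ (hSt b) h3, fun θ hθ => ?_⟩⟩
          obtain ⟨w', h5, h6⟩ := hth θ hθ
          have e : (fun j => lbl I (St b) (w j)) = fun j => lbl I (St b) (w' j) := by
            funext j
            exact (I.lab_eq (hSt b) (lbl_spec (hSt b) (hs.dom _ _ _ _ (hSt b) h3 j))
              (lbl_spec (hSt b) (hs.dom _ _ _ _ (hSt b) h5 j))).1
                (hs.fn _ _ _ _ _ (hSt b) h3 h5 j)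
          rw [e]
          exact h6
        · rintro ⟨w, h3, h4⟩ θ hθ
          obtain ⟨-, h5⟩ := (hpx b i w).1 h4
          have h6 := types_eq I hs (hSt b0) (hSt b) (sh i) (hsw i) h3 (fun φ => by
            constructor
            · exact fun h7 => h5 φ h7
            · intro h7
              by_contra h8
              exact (rz_not _ _ _).1 (h5 _ (hpn i φ h8)) h7) θ
          exact h6.1 ((hqi θ).1 hθ)
      · refine ⟨⊥, fun b v => ?_⟩
        refine iff_of_false (fun h1 => hreal ⟨b, _, h1⟩) ?_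
        exact fun h => h
    | not φ ih =>
      obtain ⟨ψ, hψ⟩ := ih
      exact ⟨ψ.not, fun b v => (not_congr (hψ b v)).trans (rz_not _ _ _).symm⟩
    | and φ1 φ2 ih1 ih2 =>
      obtain ⟨ψ1, hψ1⟩ := ih1
      obtain ⟨ψ2, hψ2⟩ := ih2
      exact ⟨ψ1 ⊓ ψ2, fun b v => (and_congr (hψ1 b v) (hψ2 b v)).trans
        (@BoundedFormula.realize_inf (Lx L' a) ℕ (X b) _ _ ψ1 ψ2 _ _).symm⟩
    | @all n φ ih =>
      obtain ⟨ψ, hψ⟩ := ih
      exact ⟨ψ.all, fun b v => forall_congr' fun x => hψ b _⟩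
  have hfin : ∀ φ : L1 T' 0, φ.Sat S Fin.elim0 ↔ φ.Sat S' Fin.elim0 := by
    intro φ
    obtain ⟨ψ, hψ⟩ := key φ
    exact (hψ true Fin.elim0).trans ((hXE ψ).trans (hψ false Fin.elim0).symm)
  have hmS : @Theory.Model L' ℕ S T' := ax_iff.2 fun φ hφ => hφ
  have hmS' : @Theory.Model L' ℕ S' T' := by
    refine ax_iff.2 fun φ hφ => ?_
    have h1 := hfin (.fo (φ : L'.BoundedFormula Empty 0))
    exact (rz_sentence S' φ _).1 (h1.1 ((rz_sentence S φ _).2 hφ))
  have hiso := hM T' hT' hfew' hW' S S' hmS hmS' hfin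
  exact hSM.symm.trans ((I.iso_down hS hiso).trans hSN)

end Pool.Agent.TH686.MC
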