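import Pool.Agent.TH686.MC.SupJ
import Pool.Agent.TH686.MC.Mart

set_option autoImplicit false

/-! Transfer of Martin's conjecture through interpretations with superfluous elements. -/

namespace Pool.Agent.TH686.MC

open FirstOrder FirstOrder.Language Filter
open Pool.Agent.W889.FO
open Pool.Agent.TH686.FO

variable {L L' : FirstOrder.Language.{0, 0}} [L.IsRelational] [L'.IsRelational]

omit [L.IsRelational] [L'.IsRelational] in
/-- few models -/
theorem few_of {T : L.Theory} {T' : L'.Theory} {J : Type} [Countable J] (hfew : FewCountableModels T)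
    (D : L'.Structure ℕ → L.Structure ℕ) (j : L'.Structure ℕ → J)
    (hm : ∀ S, @Theory.Model L' ℕ S T' → @Theory.Model L ℕ (D S) T)
    (hup : ∀ S S', @Theory.Model L' ℕ S T' → @Theory.Model L' ℕ S' T' → j S = j S' →
      SIso (D S) (D S') → SIso S S') : FewCountableModels T' := by
  classical
  rintro ⟨f, hf1, hf2⟩
  let st : Setoid (ℕ → Bool) :=
    { r := fun x y => SIso (D (f x)) (D (f y))
      iseqv := ⟨fun x => SIso.refl _, fun h => h.symm, fun h h' => h.trans h'⟩ }
  have hinj : Function.Injective (fun x : ℕ → Bool => (Quotient.mk st x, j (f x))) := by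
    intro x y hxy
    have h1 : SIso (D (f x)) (D (f y)) := Quotient.exact (congrArg Prod.fst hxy)
    exact hf2 x y (hup _ _ (hf1 x) (hf1 y) (congrArg Prod.snd hxy) h1)
  have hc : Cardinal.mk (ℕ → Bool) ≤ Cardinal.mk (Quotient st) := by
    have h1 : Cardinal.mk (ℕ → Bool) ≤ Cardinal.mk (Quotient st × J) :=
      Cardinal.mk_le_of_injective hinj
    rw [Cardinal.mk_prod, Cardinal.lift_id, Cardinal.lift_id] at h1
    have h2 : Cardinal.mk J ≤ Cardinal.aleph0 := Cardinal.mk_le_aleph0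
    have h3 : Cardinal.aleph0 < Cardinal.mk (ℕ → Bool) := by
      have : Cardinal.mk (ℕ → Bool) = Cardinal.continuum := by simp
      rw [this]
      exact Cardinal.aleph0_lt_continuum
    by_contra hlt
    rw [not_le] at hlt
    have h4 : Cardinal.mk (Quotient st) * Cardinal.mk J < Cardinal.mk (ℕ → Bool) :=
      Cardinal.mul_lt_of_lt h3.le hlt (lt_of_le_of_lt h2 h3)
    exact absurd h1 (not_le.2 h4)
  obtain ⟨g⟩ : Nonempty ((ℕ → Bool) ↪ Quotient st) := hc
  refine hfew ⟨fun x => D (f (g x).out), fun x => hm _ (hf1 _), fun x y hxy => ?_⟩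
  apply g.injective
  rw [← Quotient.out_eq (g x), ← Quotient.out_eq (g y)]
  exact Quotient.sound hxy

/-- Transfer of Martin's conjecture. -/
theorem transferJ [Countable (Σ n, L.Relations n)] [Countable (Σ n, L'.Relations n)]
    (I : Itq L L') {V : L'.Structure ℕ → Prop} {J : Type} [Countable J] {j : L'.Structure ℕ → J}
    (hs : SupJ I V j) (T : L.Theory) (hfew : FewCountableModels T)
    (hex : ∀ M : L.Structure ℕ, @Theory.Model L ℕ M T → ∃ S, I.W S ∧ V S ∧ SIso (I.D S) M)
    (hM : ∀ T' : L'.Theory, T'.IsComplete → FewCountableModels T' →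
      (∀ S : L'.Structure ℕ, @Theory.Model L' ℕ S T' → I.W S) → MartinN T') : MartinN T := by
  classical
  intro M N hMT hNT hMN
  obtain ⟨S, hS, hVS, hSM⟩ := hex M hMT
  obtain ⟨S', hS', hVS', hSN⟩ := hex N hNT
  have cb : ∀ n, Countable (L.BoundedFormula Empty n) := cbf
  have cb' : ∀ n, Countable (L'.BoundedFormula Empty n) := cbf
  -- the two structures
  let St : Bool → L'.Structure ℕ := fun b => if b then S else S'
  have hSt : ∀ b, I.W (St b) := fun b => by cases b <;> assumption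
  have hVt : ∀ b, V (St b) := fun b => by cases b <;> assumption
  have hTm : ∀ b, @Theory.Model L ℕ (I.D (St b)) T := by
    intro b
    cases b
    · exact hSN.symm.model hNT
    · exact hSM.symm.model hMT
  have hL1 : ∀ φ : L1 T 0, φ.Sat (I.D (St true)) Fin.elim0 ↔ φ.Sat (I.D (St false)) Fin.elim0 := by
    intro φ
    obtain ⟨g⟩ := hSM
    obtain ⟨g'⟩ := hSN
    have h1 := sat_iso g φ Fin.elim0
    have h2 := sat_iso g' φ Fin.elim0
    have e1 : (fun i : Fin 0 => g (Fin.elim0 i)) = Fin.elim0 := Subsingleton.elim _ _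
    have e2 : (fun i : Fin 0 => g' (Fin.elim0 i)) = Fin.elim0 := Subsingleton.elim _ _
    rw [e1] at h1
    rw [e2] at h2
    exact h1.trans ((hMN φ).trans h2.symm)
  -- the tuples, their shapes, supports and types
  let ι : Type := Bool × Σ m : ℕ, (Fin m → ℕ)
  choose sh sw hsw using fun i : ι => hs.tot (St i.1) (hSt i.1) (hVt i.1) i.2.2
  let a : ι → ℕ := fun i => hs.wd (sh i)
  let p : ∀ i : ι, Set (L.BoundedFormula Empty (a i)) := fun i =>
    {θ | Rz (I.D (St i.1)) θ (fun j => lbl I (St i.1) (sw i j))}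
  have hp : ∀ i, IsCompleteType T (p i) := fun i => ⟨I.D (St i.1), _, hTm i.1, rfl⟩
  have hpn : ∀ i θ, θ ∉ p i → θ.not ∈ p i := fun i θ h => (rz_not _ _ _).2 h
  -- the expansions
  let X : Bool → (Lx L' a).Structure ℕ := fun b => xp (St b) fun i v =>
    (∀ j, I.dom (St b) (v j)) ∧ ∀ θ ∈ p i, Rz (I.D (St b)) θ (fun j => lbl I (St b) (v j))
  have hrd : ∀ b, rd (X b) = St b := fun b => rd_xp _ _
  have hpx : ∀ b i v, px (X b) i v ↔ (∀ j, I.dom (St b) (v j)) ∧
      ∀ θ ∈ p i, Rz (I.D (St b)) θ (fun j => lbl I (St b) (v j)) := fun b i v => Iff.rfl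
  have hXW : ∀ b, (ixp I a).W (X b) := by
    intro b
    refine ⟨?_, ?_, ?_⟩
    · rw [hrd]
      exact hSt b
    · intro i u h
      rw [hrd]
      exact h.1
    · intro i u u' h h1 h2
      rw [hrd] at h1 h2
      refine ⟨h1, fun θ hθ => ?_⟩
      have e : (fun j => lbl I (St b) (u' j)) = fun j => lbl I (St b) (u j) := by
        funext j
        exact ((I.lab_eq (hSt b) (lbl_spec (hSt b) (h.1 j)) (lbl_spec (hSt b) (h1 j))).1
          (h2 j)).symm
      rw [e]
      exact h.2 θ hθ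
  have : Countable (Σ n, (Lx L a).Relations n) := countable_Lx
  have : Countable (Σ n, (Lx L' a).Relations n) := countable_Lx
  have cx : ∀ n, Countable ((Lx L a).BoundedFormula Empty n) := cbf
  have cx' : ∀ n, Countable ((Lx L' a).BoundedFormula Empty n) := cbf
  -- the interpreted expansions
  have hD1 : ∀ b (m : ℕ) (Q : L.Relations m) v,
      @Structure.RelMap (Lx L a) ℕ ((ixp I a).D (X b)) m (Rx.old Q) v ↔
        @Structure.RelMap L ℕ (I.D (St b)) m Q v := by
    intro b m Q v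
    have h1 : @Structure.RelMap (Lx L a) ℕ ((ixp I a).D (X b)) m (Rx.old Q) v ↔
      @Structure.RelMap L ℕ (I.D (rd (X b))) m Q v := Iff.rfl
    rw [hrd b] at h1
    exact h1
  have hD2 : ∀ b i (v : Fin (a i) → ℕ), px ((ixp I a).D (X b)) i v ↔
      ∀ θ ∈ p i, Rz (I.D (St b)) θ v := by
    intro b i v
    choose u hu using fun j => I.lab_surj (hSt b) (v j)
    have h1 := (ixp I a).rel_iff (hXW b) (Rx.new i : Rx L a (a i)) (u := u) (v := v) (fun j => by
      show I.lab (rd (X b)) (v j) (u j)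
      rw [hrd]
      exact hu j)
    refine Iff.trans h1 ((hpx b i u).trans ?_)
    have e : (fun j => lbl I (St b) (u j)) = v := funext fun j => lbl_eq (hSt b) (hu j)
    rw [e]
    exact ⟨fun h => h.2, fun h => ⟨fun j => (hu j).1, h⟩⟩
  have hXE : ∀ ψ : (Lx L' a).BoundedFormula Empty 0,
      Rz (X true) ψ Fin.elim0 ↔ Rz (X false) ψ Fin.elim0 := by
    refine exp_eq' I hs (hXW true) (hXW false) (by rw [hrd]; exact hVt true)
      (by rw [hrd]; exact hVt false) (fun φ => by rw [hrd, hrd]; exact hL1 (.fo φ)) fun φ => ?_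
    obtain ⟨φ', h1⟩ := to_L1 T p hp φ
    rw [← h1 _ _ (hD1 true) (hD2 true), ← h1 _ _ (hD1 false) (hD2 false)]
    exact hL1 φ'
  -- the theory
  let T' : L'.Theory := @FirstOrder.Language.completeTheory L' ℕ S
  have hT' : T'.IsComplete := @FirstOrder.Language.completeTheory.isComplete L' ℕ S _
  have hmem : ∀ σ : L'.Sentence, σ ∈ T' ↔ @Sentence.Realize L' ℕ S σ := fun σ => Iff.rfl
  have hW' : ∀ S1 : L'.Structure ℕ, @Theory.Model L' ℕ S1 T' → I.W S1 := by
    intro S1 h1
    obtain ⟨T1, hT1⟩ := I.axW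
    refine (hT1 S1).1 (ax_iff.2 fun φ hφ => ax_iff.1 h1 φ ?_)
    rw [hmem]
    exact ax_iff.1 ((hT1 S).2 hS) φ hφ
  have hm' : ∀ S1 : L'.Structure ℕ, @Theory.Model L' ℕ S1 T' →
      @Theory.Model L ℕ (I.D S1) T := by
    intro S1 h1
    obtain ⟨T1, hT1⟩ := I.ax_theory T
    refine ((hT1 S1).1 (ax_iff.2 fun φ hφ => ax_iff.1 h1 φ ?_)).2
    rw [hmem]
    exact ax_iff.1 ((hT1 S).2 ⟨hS, hSM.symm.model hMT⟩) φ hφ
  have hfew' : FewCountableModels T' := few_of hfew (fun S => I.D S) j hm'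
    fun S1 S2 h1 h2 hj hi => by
      obtain ⟨e⟩ := hi
      obtain ⟨g, -⟩ := hs.up S1 S2 (hW' _ h1) (hW' _ h2) hj e
      exact ⟨g⟩
  -- formulas of the fragment are formulas about types
  have key : ∀ {n : ℕ} (φ : L1 T' n), ∃ ψ : (Lx L' a).BoundedFormula Empty n,
      ∀ b v, φ.Sat (St b) v ↔ Rz (X b) ψ v := by
    intro n φ
    induction φ with
    | fo φ =>
      obtain ⟨ψ, hψ⟩ := rz_of_fd (fd_rd (a := a) (fd_rz (W := fun _ => True) φ id))
      refine ⟨ψ, fun b v => ?_⟩
      rw [hψ (X b) trivial v, hrd]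
      exact Iff.rfl
    | @conj n k q hq v0 =>
      by_cases hreal : ∃ (b : Bool) (u : Fin k → ℕ), ∀ θ ∈ q, Rz (St b) θ u
      · obtain ⟨b0, u, hu⟩ := hreal
        obtain ⟨S3, a3, -, hq3⟩ := hq
        have hqi : ∀ θ, θ ∈ q ↔ Rz (St b0) θ u := by
          intro θ
          refine ⟨hu θ, fun h1 => ?_⟩
          by_contra h2
          have h3 : θ.not ∈ q := by
            rw [hq3]
            rw [hq3] at h2
            exact (rz_not S3 θ a3).2 h2
          exact (rz_not _ _ _).1 (hu _ h3) h1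
        let i : ι := (b0, ⟨k, u⟩)
        have hfd : FD (fun S : (Lx L' a).Structure ℕ => I.W (rd S))
            (fun S (v : Fin n → ℕ) => ∃ w : Fin (a i) → ℕ,
              hs.χ (sh i) (rd S) (fun j => v (v0 j)) w ∧ px S i w) := by
          refine FD.ex (P := fun S (v : Fin n → ℕ) (w : Fin (a i) → ℕ) =>
            hs.χ (sh i) (rd S) (fun j => v (v0 j)) w ∧ px S i w) ?_
          refine FD.and ?_ (fd_px i fun j => Sum.inr j)
          exact (fd_rd (a := a) (hs.fd (sh i))).sub
            (Sum.elim (fun j => Sum.inl (v0 j)) (fun j => Sum.inr j))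
        obtain ⟨ψ, hψ⟩ := rz_of_fd hfd
        refine ⟨ψ, fun b v => ?_⟩
        rw [hψ (X b) (by rw [hrd]; exact hSt b) v, hrd]
        show (∀ θ ∈ q, Rz (St b) θ (fun j => v (v0 j))) ↔ _
        constructor
        · intro h1
          have hth : ∀ θ : L.BoundedFormula Empty (a i), θ ∈ p i → ∃ w : Fin (a i) → ℕ,
              hs.χ (sh i) (St b) (fun j => v (v0 j)) w ∧
                Rz (I.D (St b)) θ (fun j => lbl I (St b) (w j)) := by
            intro θ hθ
            obtain ⟨θ', hθ'⟩ := translate' I θ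
            have hfe : FD I.W (fun S (x : Fin k → ℕ) => ∃ w : Fin (a i) → ℕ,
                hs.χ (sh i) S x w ∧ Rz S θ' w) := by
              refine FD.ex (P := fun S (x : Fin k → ℕ) (w : Fin (a i) → ℕ) =>
                hs.χ (sh i) S x w ∧ Rz S θ' w) ?_
              exact (hs.fd (sh i)).and (fd_rz θ' fun j => Sum.inr j)
            obtain ⟨ε, hε⟩ := rz_of_fd hfe
            have h2 : ε ∈ q := by
              rw [hqi, hε _ (hSt b0)]
              refine ⟨sw i, hsw i, ?_⟩
              rw [hθ' _ (hSt b0) _ (fun j => lbl I (St b0) (sw i j)) (fun j =>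
                lbl_spec (hSt b0) (hs.dom _ _ _ _ (hSt b0) (hsw i) j))]
              exact hθ
            obtain ⟨w, h3, h4⟩ := (hε _ (hSt b) _).1 (h1 ε h2)
            refine ⟨w, h3, ?_⟩
            rwa [hθ' _ (hSt b) _ (fun j => lbl I (St b) (w j)) (fun j =>
                lbl_spec (hSt b) (hs.dom _ _ _ _ (hSt b) h3 j))] at h4
          obtain ⟨w, h3, -⟩ := hth ⊤ (by
            show Rz _ ⊤ _
            exact fun h => h)
          refine ⟨w, h3, (hpx b i w).2 ⟨hs.dom _ _ _ _ (hSt b) h3, fun θ hθ => ?_⟩⟩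
          obtain ⟨w', h5, h6⟩ := hth θ hθ
          have e : (fun j => lbl I (St b) (w j)) = fun j => lbl I (St b) (w' j) := by
            funext j
            exact (I.lab_eq (hSt b) (lbl_spec (hSt b) (hs.dom _ _ _ _ (hSt b) h3 j))
              (lbl_spec (hSt b) (hs.dom _ _ _ _ (hSt b) h5 j))).1
                (hs.fn _ _ _ _ _ (hSt b) h3 h5 j)
          rw [e]
          exact h6
        · rintro ⟨w, h3, h4⟩ θ hθ
          obtain ⟨-, h5⟩ := (hpx b i w).1 h4
          have h6 := types_eq' I hs (hSt b0) (hSt b) (hVt b0) (hVt b) (sh i) (hsw i) h3 (fun φ => by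
            constructor
            · exact fun h7 => h5 φ h7
            · intro h7
              by_contra h8
              exact (rz_not _ _ _).1 (h5 _ (hpn i φ h8)) h7) θ
          exact h6.1 ((hqi θ).1 hθ)
      · refine ⟨⊥, fun b v => ?_⟩
        refine iff_of_false (fun h1 => hreal ⟨b, _, h1⟩) ?_
        exact fun h => h
    | not φ ih =>
      obtain ⟨ψ, hψ⟩ := ih
      exact ⟨ψ.not, fun b v => (not_congr (hψ b v)).trans (rz_not _ _ _).symm⟩
    | and φ1 φ2 ih1 ih2 =>
      obtain ⟨ψ1, hψ1⟩ := ih1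
      obtain ⟨ψ2, hψ2⟩ := ih2
      exact ⟨ψ1 ⊓ ψ2, fun b v => (and_congr (hψ1 b v) (hψ2 b v)).trans
        (@BoundedFormula.realize_inf (Lx L' a) ℕ (X b) _ _ ψ1 ψ2 _ _).symm⟩
    | @all n φ ih =>
      obtain ⟨ψ, hψ⟩ := ih
      exact ⟨ψ.all, fun b v => forall_congr' fun x => hψ b _⟩
  have hfin : ∀ φ : L1 T' 0, φ.Sat S Fin.elim0 ↔ φ.Sat S' Fin.elim0 := by
    intro φ
    obtain ⟨ψ, hψ⟩ := key φ
    exact (hψ true Fin.elim0).trans ((hXE ψ).trans (hψ false Fin.elim0).symm)
  have hmS : @Theory.Model L' ℕ S T' := ax_iff.2 fun φ hφ => hφ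
  have hmS' : @Theory.Model L' ℕ S' T' := by
    refine ax_iff.2 fun φ hφ => ?_
    have h1 := hfin (.fo (φ : L'.BoundedFormula Empty 0))
    exact (rz_sentence S' φ _).1 (h1.1 ((rz_sentence S φ _).2 hφ))
  have hiso := hM T' hT' hfew' hW' S S' hmS hmS' hfin
  exact hSM.symm.trans ((I.iso_down hS hiso).trans hSN)

end Pool.Agent.TH686.MC
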