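import Pool.Agent.TH686.MC.GF

set_option autoImplicit false

/-! Extension of finite partial isomorphisms: coloured dense orders and grids. -/

namespace Pool.Agent.TH686.MC

open Pool.Agent.W889.VC Pool.Agent.W889.VC.Grid

/-- Finite partial isomorphisms of shuffles can be extended. -/
theorem shuffle_ext {A B Q ι : Type} [Countable A] [Countable B] [Finite ι]
    (lt : A → A → Prop) (lt' : B → B → Prop) (hA : DLO lt) (hB : DLO lt') (k : A → Q) (k' : B → Q)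
    (hk : ∀ a a1 a2, lt a1 a2 → ∃ a', lt a1 a' ∧ lt a' a2 ∧ k a' = k a)
    (hk' : ∀ b b1 b2, lt' b1 b2 → ∃ b', lt' b1 b' ∧ lt' b' b2 ∧ k' b' = k' b)
    (hr : ∀ a, ∃ b, k' b = k a) (hr' : ∀ b, ∃ a, k a = k' b) (xs : ι → A) (ys : ι → B)
    (h1 : ∀ i j, lt (xs i) (xs j) ↔ lt' (ys i) (ys j)) (h2 : ∀ i, k' (ys i) = k (xs i)) :
    ∃ e : A ≃ B, (∀ a a', lt a a' ↔ lt' (e a) (e a')) ∧ (∀ a, k' (e a) = k a) ∧
      ∀ i, e (xs i) = ys i := by
  classical
  have := Fintype.ofFinite ι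
  let G : Finset (A × B) → Prop := fun f =>
    (∀ p ∈ f, ∀ q ∈ f, (lt p.1 q.1 ↔ lt' p.2 q.2)) ∧ ∀ p ∈ f, k' p.2 = k p.1
  let f0 : Finset (A × B) := Finset.univ.image fun i => (xs i, ys i)
  have hf0 : G f0 := by
    refine ⟨fun p hp q hq => ?_, fun p hp => ?_⟩
    · obtain ⟨i, -, rfl⟩ := Finset.mem_image.1 hp
      obtain ⟨j, -, rfl⟩ := Finset.mem_image.1 hq
      exact h1 i j
    · obtain ⟨i, -, rfl⟩ := Finset.mem_image.1 hp
      exact h2 i
  have key : ∀ f, G f → ∀ a b, (∀ p ∈ f, ((lt p.1 a ↔ lt' p.2 b) ∧ (lt a p.1 ↔ lt' b p.2))) →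
      k' b = k a → G (insert (a, b) f) := by
    intro f hf a b h1 h2
    refine ⟨?_, ?_⟩
    · intro p hp q hq
      rw [Finset.mem_insert] at hp hq
      rcases hp with rfl | hp <;> rcases hq with rfl | hq
      · exact iff_of_false (hA.irrefl _) (hB.irrefl _)
      · exact (h1 q hq).2
      · exact (h1 p hp).1
      · exact hf.1 p hp q hq
    · intro p hp
      rw [Finset.mem_insert] at hp
      rcases hp with rfl | hp
      · exact h2
      · exact hf.2 p hp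
  have inj : ∀ f, G f → ∀ p ∈ f, ∀ q ∈ f, (p.1 = q.1 ↔ p.2 = q.2) := by
    intro f hf p hp q hq
    have e1 := hf.1 p hp q hq
    have e2 := hf.1 q hq p hp
    constructor
    · intro h
      by_contra hne
      rcases hB.total _ _ hne with h3 | h3
      · have := e1.2 h3
        rw [h] at this
        exact hA.irrefl _ this
      · have := e2.2 h3
        rw [h] at this
        exact hA.irrefl _ this
    · intro h
      by_contra hne
      rcases hA.total _ _ hne with h3 | h3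
      · have := e1.1 h3
        rw [h] at this
        exact hB.irrefl _ this
      · have := e2.1 h3
        rw [h] at this
        exact hB.irrefl _ this
  obtain ⟨e, he⟩ := bf (fun f => G (f ∪ f0)) (by rwa [Finset.empty_union])
    (fun f hf a => by
      obtain ⟨b, h1, h2⟩ := forth lt lt' hA hB k k' hk' hr _ hf a
      refine ⟨b, insert (a, b) f, Finset.subset_insert _ _, Finset.mem_insert_self _ _, ?_⟩
      rw [Finset.insert_union]
      exact key _ hf a b h1 h2)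
    (fun f hf b => by
      obtain ⟨a, h1, h2⟩ := forth lt' lt hB hA k' k hk hr' ((f ∪ f0).image Prod.swap)
        ⟨by
          intro p hp q hq
          rw [Finset.mem_image] at hp hq
          obtain ⟨p, hp, rfl⟩ := hp
          obtain ⟨q, hq, rfl⟩ := hq
          exact (hf.1 p hp q hq).symm, by
          intro p hp
          rw [Finset.mem_image] at hp
          obtain ⟨p, hp, rfl⟩ := hp
          exact (hf.2 p hp).symm⟩ b
      refine ⟨a, insert (a, b) f, Finset.subset_insert _ _, Finset.mem_insert_self _ _, ?_⟩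
      rw [Finset.insert_union]
      exact key _ hf a b (fun p hp => by
          have := h1 p.swap (Finset.mem_image_of_mem _ hp)
          exact ⟨this.1.symm, this.2.symm⟩) h2.symm)
    (fun f hf p hp q hq => inj _ hf p (Finset.mem_union_left _ hp) q (Finset.mem_union_left _ hq))
  refine ⟨e, fun a a' => ?_, fun a => ?_, fun i => ?_⟩
  · obtain ⟨f, hf, h1, h2⟩ := he a a'
    exact hf.1 _ (Finset.mem_union_left _ h1) _ (Finset.mem_union_left _ h2)
  · obtain ⟨f, hf, h1, -⟩ := he a a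
    exact hf.2 _ (Finset.mem_union_left _ h1)
  · obtain ⟨f, hf, h1, -⟩ := he (xs i) (xs i)
    exact (inj _ hf _ (Finset.mem_union_left _ h1) (xs i, ys i) (Finset.mem_union_right _
      (Finset.mem_image_of_mem _ (Finset.mem_univ i)))).1 rfl

/-- An isomorphism from order isomorphisms of the rows and of the columns and bijections of the
fibres (preserving a relation `tw`). -/
theorem assemble' {U V : Type} {γ : Grid U} {δ : Grid V} (hγ : Base γ) (hδ : Base δ)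
    (φ : {u // γ.R u} ≃ {u // δ.R u}) (ψ : {u // γ.C u} ≃ {u // δ.C u})
    (hφ : ∀ a a' : {u // γ.R u}, γ.lt a a' ↔ δ.lt (φ a) (φ a'))
    (hψ : ∀ a a' : {u // γ.C u}, γ.lt a a' ↔ δ.lt (ψ a) (ψ a'))
    (tw : U → U → Prop) (tw' : V → V → Prop)
    (hfib : ∀ (r : {u // γ.R u}) (c : {u // γ.C u}),
      ∃ e : {p // γ.Fib r c p} ≃ {q // δ.Fib (φ r) (ψ c) q},
        ∀ p q : {p // γ.Fib r c p}, tw p q ↔ tw' (e p) (e q)) :
    ∃ σ : U ≃ V, GIso σ γ δ ∧ (∀ r c p q, γ.R r → γ.C c → γ.Fib r c p → γ.Fib r c q →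
      (tw p q ↔ tw' (σ p) (σ q))) ∧ (∀ r : {u // γ.R u}, σ r = φ r) ∧
      ∀ c : {u // γ.C u}, σ c = ψ c := by
  classical
  -- the rows and columns of points
  choose rw hrw1 hrw2 hrw3 using hγ.rR
  choose cl hcl1 hcl2 hcl3 using hγ.rC
  choose rw' hrw1' hrw2' hrw3' using hδ.rR
  choose cl' hcl1' hcl2' hcl3' using hδ.rC
  let f : {p // γ.P p} → {u // γ.R u} × {u // γ.C u} := fun p =>
    (⟨rw p p.2, hrw1 p p.2⟩, ⟨cl p p.2, hcl1 p p.2⟩)
  let g : {p // δ.P p} → {u // δ.R u} × {u // δ.C u} := fun p =>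
    (⟨rw' p p.2, hrw1' p p.2⟩, ⟨cl' p p.2, hcl1' p p.2⟩)
  have ef : ∀ rc : {u // γ.R u} × {u // γ.C u},
      ∃ e : {p // f p = rc} ≃ {p // γ.Fib rc.1 rc.2 p}, ∀ p, (e p).1 = p.1.1 := by
    rintro ⟨⟨r, hr⟩, ⟨c, hc⟩⟩
    refine ⟨⟨fun p => ⟨p.1.1, p.1.2, ?_, ?_⟩, fun p => ⟨⟨p.1, p.2.1⟩, ?_⟩, fun p => ?_,
      fun p => ?_⟩, fun p => rfl⟩
    · have := congrArg (fun z => (z.1 : U)) p.2
      have h2 := hrw2 p.1.1 p.1.2
      simp only [f] at this
      rw [this] at h2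
      exact h2
    · have := congrArg (fun z => (z.2 : U)) p.2
      have h2 := hcl2 p.1.1 p.1.2
      simp only [f] at this
      rw [this] at h2
      exact h2
    · refine Prod.ext (Subtype.ext ?_) (Subtype.ext ?_)
      · exact (hrw3 p.1 p.2.1 r hr p.2.2.1).symm
      · exact (hcl3 p.1 p.2.1 c hc p.2.2.2).symm
    · rfl
    · rfl
  have eg : ∀ rc : {u // δ.R u} × {u // δ.C u},
      ∃ e : {p // g p = rc} ≃ {p // δ.Fib rc.1 rc.2 p}, ∀ p, (e p).1 = p.1.1 := by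
    rintro ⟨⟨r, hr⟩, ⟨c, hc⟩⟩
    refine ⟨⟨fun p => ⟨p.1.1, p.1.2, ?_, ?_⟩, fun p => ⟨⟨p.1, p.2.1⟩, ?_⟩, fun p => ?_,
      fun p => ?_⟩, fun p => rfl⟩
    · have := congrArg (fun z => (z.1 : V)) p.2
      have h2 := hrw2' p.1.1 p.1.2
      simp only [g] at this
      rw [this] at h2
      exact h2
    · have := congrArg (fun z => (z.2 : V)) p.2
      have h2 := hcl2' p.1.1 p.1.2
      simp only [g] at this
      rw [this] at h2
      exact h2
    · refine Prod.ext (Subtype.ext ?_) (Subtype.ext ?_)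
      · exact (hrw3' p.1 p.2.1 r hr p.2.2.1).symm
      · exact (hcl3' p.1 p.2.1 c hc p.2.2.2).symm
    · rfl
    · rfl
  have efg : ∀ rc : {u // γ.R u} × {u // γ.C u},
      ∃ e : {p // f p = rc} ≃ {p // g p = (φ.prodCongr ψ) rc},
        ∀ p q, tw p.1 q.1 ↔ tw' (e p).1 (e q).1 := by
    intro rc
    obtain ⟨e1, h1⟩ := ef rc
    obtain ⟨e2, h2⟩ := eg ((φ.prodCongr ψ) rc)
    obtain ⟨e5, h5⟩ := hfib rc.1 rc.2
    refine ⟨e1.trans (e5.trans e2.symm), fun p q => ?_⟩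
    have h3 : ∀ p : {p // f p = rc}, ((e1.trans (e5.trans e2.symm)) p).1.1 = (e5 (e1 p)).1 := by
      intro p
      have h6 := h2 (e2.symm (e5 (e1 p)))
      exact h6.symm.trans (congrArg Subtype.val (e2.apply_symm_apply (e5 (e1 p))))
    rw [h3, h3, ← h5, h1, h1]
  choose E hE using efg
  let θ : {p // γ.P p} ≃ {p // δ.P p} :=
    (Equiv.sigmaFiberEquiv f).symm.trans
      ((Equiv.sigmaCongr (φ.prodCongr ψ) E).trans (Equiv.sigmaFiberEquiv g))
  have hθE : ∀ p, θ p = ((E (f p)) ⟨p, rfl⟩).1 := fun p => rfl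
  have hθ : ∀ p, g (θ p) = (φ.prodCongr ψ) (f p) := by
    intro p
    rw [hθE]
    exact ((E (f p)) ⟨p, rfl⟩).2
  have hRC : ∀ u, δ.R u → ¬ δ.C u := hδ.disj
  have nC : ∀ u, γ.C u → ¬ γ.R u := fun u h1 h2 => hγ.disj u h2 h1
  have nC' : ∀ u, δ.C u → ¬ δ.R u := fun u h1 h2 => hδ.disj u h2 h1
  let F : U → V := fun u => if h : γ.R u then φ ⟨u, h⟩ else
    if h' : γ.C u then ψ ⟨u, h'⟩ else θ ⟨u, h, h'⟩
  let H : V → U := fun u => if h : δ.R u then φ.symm ⟨u, h⟩ else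
    if h' : δ.C u then ψ.symm ⟨u, h'⟩ else θ.symm ⟨u, h, h'⟩
  have FR : ∀ u (h : γ.R u), F u = φ ⟨u, h⟩ := fun u h => by simp only [F, dif_pos h]
  have FC : ∀ u (h : γ.C u), F u = ψ ⟨u, h⟩ := fun u h => by
    simp only [F, dif_neg (nC u h), dif_pos h]
  have FP : ∀ u (h : γ.P u), F u = θ ⟨u, h⟩ := fun u h => by
    simp only [F, dif_neg h.1, dif_neg h.2]
  have HR : ∀ u (h : δ.R u), H u = φ.symm ⟨u, h⟩ := fun u h => by simp only [H, dif_pos h]
  have HC : ∀ u (h : δ.C u), H u = ψ.symm ⟨u, h⟩ := fun u h => by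
    simp only [H, dif_neg (nC' u h), dif_pos h]
  have HP : ∀ u (h : δ.P u), H u = θ.symm ⟨u, h⟩ := fun u h => by
    simp only [H, dif_neg h.1, dif_neg h.2]
  let σ : U ≃ V :=
    { toFun := F
      invFun := H
      left_inv := by
        intro u
        by_cases h1 : γ.R u
        · rw [FR u h1, HR _ (φ ⟨u, h1⟩).2]
          simp
        · by_cases h2 : γ.C u
          · rw [FC u h2, HC _ (ψ ⟨u, h2⟩).2]
            simp
          · rw [FP u ⟨h1, h2⟩, HP _ (θ ⟨u, h1, h2⟩).2]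
            simp
      right_inv := by
        intro u
        by_cases h1 : δ.R u
        · rw [HR u h1, FR _ (φ.symm ⟨u, h1⟩).2]
          simp
        · by_cases h2 : δ.C u
          · rw [HC u h2, FC _ (ψ.symm ⟨u, h2⟩).2]
            simp
          · rw [HP u ⟨h1, h2⟩, FP _ (θ.symm ⟨u, h1, h2⟩).2]
            simp }
  have σR : ∀ u (h : γ.R u), σ u = φ ⟨u, h⟩ := FR
  have σC : ∀ u (h : γ.C u), σ u = ψ ⟨u, h⟩ := FC
  have σP : ∀ u (h : γ.P u), σ u = θ ⟨u, h⟩ := FP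
  have kR : ∀ u, γ.R u ↔ δ.R (σ u) := by
    intro u
    by_cases h1 : γ.R u
    · rw [σR u h1]
      exact iff_of_true h1 (φ ⟨u, h1⟩).2
    · by_cases h2 : γ.C u
      · rw [σC u h2]
        exact iff_of_false h1 (nC' _ (ψ ⟨u, h2⟩).2)
      · rw [σP u ⟨h1, h2⟩]
        exact iff_of_false h1 (θ ⟨u, h1, h2⟩).2.1
  have kC : ∀ u, γ.C u ↔ δ.C (σ u) := by
    intro u
    by_cases h2 : γ.C u
    · rw [σC u h2]
      exact iff_of_true h2 (ψ ⟨u, h2⟩).2
    · by_cases h1 : γ.R u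
      · rw [σR u h1]
        exact iff_of_false h2 (hδ.disj _ (φ ⟨u, h1⟩).2)
      · rw [σP u ⟨h1, h2⟩]
        exact iff_of_false h2 (θ ⟨u, h1, h2⟩).2.2
  refine ⟨σ, ⟨kR, kC, ?_, ?_, ?_, ?_⟩, ?_, fun r => σR r.1 r.2, fun c => σC c.1 c.2⟩
  · intro u v hu hv
    rw [σR u hu, σR v hv]
    exact hφ ⟨u, hu⟩ ⟨v, hv⟩
  · intro u v hu hv
    rw [σC u hu, σC v hv]
    exact hψ ⟨u, hu⟩ ⟨v, hv⟩
  · intro p r hp hr
    rw [σP p hp, σR r hr]
    have e1 := congrArg (fun z => (z.1 : V)) (hθ ⟨p, hp⟩)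
    simp only [f, g, Equiv.prodCongr_apply, Prod.map] at e1
    constructor
    · intro h1
      have h2 : r = rw p hp := hrw3 p hp r hr h1
      subst h2
      rw [← e1]
      exact hrw2' _ _
    · intro h1
      have h2 := hrw3' _ (θ ⟨p, hp⟩).2 _ (φ ⟨r, hr⟩).2 h1
      rw [e1] at h2
      have h3 : (⟨r, hr⟩ : {u // γ.R u}) = ⟨rw p hp, hrw1 p hp⟩ := φ.injective (Subtype.ext h2)
      have h4 : r = rw p hp := congrArg Subtype.val h3
      rw [h4]
      exact hrw2 p hp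
  · intro p r hp hr
    rw [σP p hp, σC r hr]
    have e1 := congrArg (fun z => (z.2 : V)) (hθ ⟨p, hp⟩)
    simp only [f, g, Equiv.prodCongr_apply, Prod.map] at e1
    constructor
    · intro h1
      have h2 : r = cl p hp := hcl3 p hp r hr h1
      subst h2
      rw [← e1]
      exact hcl2' _ _
    · intro h1
      have h2 := hcl3' _ (θ ⟨p, hp⟩).2 _ (ψ ⟨r, hr⟩).2 h1
      rw [e1] at h2
      have h3 : (⟨r, hr⟩ : {u // γ.C u}) = ⟨cl p hp, hcl1 p hp⟩ := ψ.injective (Subtype.ext h2)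
      have h4 : r = cl p hp := congrArg Subtype.val h3
      rw [h4]
      exact hcl2 p hp
  · intro r c p q hr hc hp hq
    rw [σP p hp.1, σP q hq.1, hθE, hθE]
    have fp : f ⟨p, hp.1⟩ = (⟨r, hr⟩, ⟨c, hc⟩) := by
      refine Prod.ext (Subtype.ext ?_) (Subtype.ext ?_)
      · exact (hrw3 p hp.1 r hr hp.2.1).symm
      · exact (hcl3 p hp.1 c hc hp.2.2).symm
    have fq : f ⟨q, hq.1⟩ = (⟨r, hr⟩, ⟨c, hc⟩) := by
      refine Prod.ext (Subtype.ext ?_) (Subtype.ext ?_)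
      · exact (hrw3 q hq.1 r hr hq.2.1).symm
      · exact (hcl3 q hq.1 c hc hq.2.2).symm
    have key : ∀ (x : {p // γ.P p}) (rc) (h : f x = rc), ((E (f x)) ⟨x, rfl⟩).1.1 =
        ((E rc) ⟨x, h⟩).1.1 := by
      intro x rc h
      subst h
      rfl
    rw [key _ _ fp, key _ _ fq]
    exact hE _ ⟨⟨p, hp.1⟩, fp⟩ ⟨⟨q, hq.1⟩, fq⟩

/-- good grids can be labelled -/
theorem lab_good {a : ℕ → ℕ} {γ : Grid ℕ} (h : GoodN a γ) :
    ∃ κ κ', Lab γ (dec a γ) κ κ' ∧ (∀ r, γ.R r → ∃ r0, γ.Rth (κ r) r0 ∧ γ.Same r0 r) ∧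
      ∀ c, γ.C c → γ.ColT c (κ' c) := by
  classical
  have hex : ∀ r, ∃ n, γ.R r → ∃ r0, γ.Rth n r0 ∧ γ.Same r0 r := by
    intro r
    by_cases hr : γ.R r
    · obtain ⟨r0, h1, h2⟩ := exists_rep γ r hr
      exact ⟨Nat.count γ.rep r0, fun _ => ⟨r0, Rth_iff.2 ⟨h1, rfl⟩, h2⟩⟩
    · exact ⟨0, fun h => absurd h hr⟩
  choose κ hκ using hex
  have hexc : ∀ c, ∃ t : Tup a, γ.C c → γ.ColT c t := by
    intro c
    by_cases hc : γ.C c
    · obtain ⟨t, ht⟩ := h.col c hc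
      exact ⟨t, fun _ => ht⟩
    · exact ⟨Sum.inl 0, fun h => absurd h hc⟩
  choose κ' hκ' using hexc
  have uC : ∀ c (t t' : Tup a), γ.ColT c t → γ.ColT c t' → t = t' := by
    intro c t t' h1 h2
    refine lam_inj t t' fun n => ?_
    obtain ⟨r, hr⟩ := Rth_exists h.inf n
    exact (h1 n r hr).uniq (h2 n r hr)
  have uR : ∀ r n, γ.R r → (∃ r0, γ.Rth n r0 ∧ γ.Same r0 r) → κ r = n := by
    rintro r n hr ⟨r0, h1, h2⟩
    obtain ⟨r1, h3, h4⟩ := hκ r hr
    have : r0 = r1 := rep_eq h1.1 h3.1 (h2.trans h4.symm)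
    subst this
    exact Rth_inj h3 h1
  refine ⟨κ, κ', ⟨?_, ?_, ?_, ?_, ?_⟩, hκ, hκ'⟩
  · intro r c hr hc
    obtain ⟨r0, h1, h2⟩ := hκ r hr
    exact (h2 c hc _).1 (hκ' c hc _ r0 h1)
  · intro n
    obtain ⟨r, hr⟩ := Rth_exists h.inf n
    exact ⟨r, hr.1.1, uR r n hr.1.1 ⟨r, hr, Same.refl γ r⟩⟩
  · intro r r1 r2 hr h1 h2 h3
    obtain ⟨r', h4, h5, h6, h7⟩ := h.denR r r1 r2 hr h1 h2 h3
    refine ⟨r', h4, h5, h6, uR r' _ h4 ?_⟩
    obtain ⟨r0, h8, h9⟩ := hκ r hr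
    exact ⟨r0, h8, h9.trans h7.symm⟩
  · rintro (n | ⟨i, v⟩)
    · refine iff_of_true ?_ trivial
      obtain ⟨c, h1, h2⟩ := h.mark n
      exact ⟨c, h1, uC c _ _ (hκ' c h1) h2⟩
    · simp only [occ, dec, decide_eq_true_eq]
      constructor
      · rintro ⟨c, h1, h2⟩
        exact ⟨c, h1, h2 ▸ hκ' c h1⟩
      · rintro ⟨c, h1, h2⟩
        exact ⟨c, h1, uC c _ _ (hκ' c h1) h2⟩
  · intro r r1 r2 hr h1 h2 h3
    obtain ⟨r', h4, h5, h6, h7⟩ := h.denC r r1 r2 hr h1 h2 h3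
    refine ⟨r', h4, h5, h6, uC r' _ _ (hκ' r' h4) fun n r0 h8 => ?_⟩
    exact (h7 r0 h8.1.1 _).2 (hκ' r hr n r0 h8)


end Pool.Agent.TH686.MC
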