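import Pool.Agent.TH686.MC.Sup
import Pool.Agent.TH686.MC.Shuf
import Pool.Agent.TH686.DO.Gen

set_option autoImplicit false

/-! Supports of tuples in blow-ups of pairs of linear orders. -/

namespace Pool.Agent.TH686.MC

open FirstOrder FirstOrder.Language
open Pool.Agent.W889.FO Pool.Agent.W889.VC
open Pool.Agent.TH686.FO Pool.Agent.TH686.DO

theorem siso_two {S S' : L2.Structure ℕ} (σ : Equiv.Perm ℕ)
    (h1 : ∀ u v, g1 S u v ↔ g1 S' (σ u) (σ v)) (h2 : ∀ u v, g2 S u v ↔ g2 S' (σ u) (σ v)) :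
    ∃ g : @FirstOrder.Language.Equiv L2 ℕ ℕ S S', ∀ a, g a = σ a := by
  have e1 : ∀ v : Fin 2 → ℕ, ![v 0, v 1] = v := fun v => by
    funext m
    fin_cases m <;> rfl
  have e2 : ∀ v : Fin 2 → ℕ, ![σ (v 0), σ (v 1)] = fun i => σ (v i) := fun v => by
    funext m
    fin_cases m <;> rfl
  refine siso_of (S := S) (S' := S') σ (fun n Q v => ?_)
  cases Q with
  | fst =>
    have h := h1 (v 0) (v 1)
    unfold g1 at h
    rw [e1, e2] at h
    exact h.symm
  | snd =>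
    have h := h2 (v 0) (v 1)
    unfold g2 at h
    rw [e1, e2] at h
    exact h.symm

theorem upB (S S' : L2.Structure ℕ) (h : BW S) (h' : BW S')
    (f : @FirstOrder.Language.Equiv L2 ℕ ℕ (I1.D S) (I1.D S')) {ι : Type} [Finite ι]
    (xs ys : ι → ℕ) (hxy : ∀ i j, g1 S (xs i) (xs j) ↔ g1 S' (ys i) (ys j))
    (hl : ∀ i n, I1.lab S n (xs i) → I1.lab S' (f n) (ys i)) :
    ∃ g : @FirstOrder.Language.Equiv L2 ℕ ℕ S S', (∀ i, g (xs i) = ys i) ∧
      ∀ n x, I1.lab S n x → I1.lab S' (f n) (g x) := by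
  let σ : Equiv.Perm ℕ := @FirstOrder.Language.Equiv.toEquiv L2 ℕ ℕ (I1.D S) (I1.D S') f
  obtain ⟨k, k1, k2, k3⟩ := lab_fun h
  obtain ⟨m, m1, m2, m3⟩ := lab_fun h'
  have hkm : ∀ i, m (ys i) = σ (k (xs i)) := fun i =>
    (I1.lab_eq (S := S') h' (m1 _) (hl i _ (k1 _))).1 (ee_refl S' _)
  have hE : ∀ n, ∃ e : {u // k u = n} ≃ {u // m u = σ n},
      (∀ a b : {u // k u = n}, g1 S a b ↔ g1 S' (e a) (e b)) ∧
      ∀ i (hi : k (xs i) = n), (e ⟨xs i, hi⟩ : ℕ) = ys i := by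
    intro n
    obtain ⟨e, he, -, he2⟩ := shuffle_ext (A := {u // k u = n}) (B := {u // m u = σ n})
      (Q := Unit) (ι := {i // k (xs i) = n}) (fun a b => g1 S a b) (fun a b => g1 S' a b)
      (dlo_class h k2 n) (dlo_class h' m2 (σ n)) (fun _ => ()) (fun _ => ())
      (fun _ a1 a2 ha => by
        obtain ⟨c, h1, h2⟩ := (dlo_class h k2 n).dense a1 a2 ha
        exact ⟨c, h1, h2, rfl⟩)
      (fun _ a1 a2 ha => by
        obtain ⟨c, h1, h2⟩ := (dlo_class h' m2 (σ n)).dense a1 a2 ha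
        exact ⟨c, h1, h2, rfl⟩)
      (fun _ => by
        obtain ⟨u, hu⟩ := m3 (σ n)
        exact ⟨⟨u, hu⟩, rfl⟩)
      (fun _ => by
        obtain ⟨u, hu⟩ := k3 n
        exact ⟨⟨u, hu⟩, rfl⟩)
      (fun i => ⟨xs i.1, i.2⟩) (fun i => ⟨ys i.1, by rw [hkm, i.2]⟩) (fun i j => hxy i.1 j.1)
      (fun _ => rfl)
    exact ⟨e, he, fun i hi => congrArg Subtype.val (he2 ⟨i, hi⟩)⟩
  choose E hE hE2 using hE
  let e : Equiv.Perm ℕ := (Equiv.sigmaFiberEquiv k).symm.trans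
    ((Equiv.sigmaCongr σ E).trans (Equiv.sigmaFiberEquiv m))
  have he : ∀ u, e u = (E (k u) ⟨u, rfl⟩ : ℕ) := fun u => rfl
  have hm : ∀ u, m (e u) = σ (k u) := fun u => by
    rw [he]
    exact (E (k u) ⟨u, rfl⟩).2
  have same : ∀ u v, k u = k v → (g1 S u v ↔ g1 S' (e u) (e v)) := by
    intro u v huv
    have h1 := hE (k v) ⟨u, huv⟩ ⟨v, rfl⟩
    rw [he, he]
    have h2 : ∀ n (hn : k u = n), (E (k u) ⟨u, rfl⟩ : ℕ) = (E n ⟨u, hn⟩ : ℕ) := by
      intro n hn
      subst hn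
      rfl
    rw [h2 _ huv]
    exact h1
  have hee : ∀ u v, ee S u v ↔ ee S' (e u) (e v) := by
    intro u v
    rw [k2, m2, hm, hm, σ.injective.eq_iff]
  have r1 : ∀ (Q : L2.Relations 2) (u v : ℕ),
      @Structure.RelMap L2 ℕ (I1.D S) 2 Q ![k u, k v] ↔ I1.rel Q S ![u, v] := by
    intro Q u v
    refine I1.rel_iff (S := S) h Q fun i => ?_
    fin_cases i
    · exact k1 u
    · exact k1 v
  have r2 : ∀ (Q : L2.Relations 2) (u v : ℕ),
      @Structure.RelMap L2 ℕ (I1.D S') 2 Q ![m u, m v] ↔ I1.rel Q S' ![u, v] := by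
    intro Q u v
    refine I1.rel_iff (S := S') h' Q fun i => ?_
    fin_cases i
    · exact m1 u
    · exact m1 v
  have diff : ∀ (Q : L2.Relations 2) (u v : ℕ), I1.rel Q S ![u, v] ↔
      I1.rel Q S' ![e u, e v] := by
    intro Q u v
    rw [← r1, ← r2, hm, hm]
    have h3 := iso_rel f Q ![k u, k v]
    have h4 : (fun i => f (![k u, k v] i)) = ![σ (k u), σ (k v)] := by
      funext i
      fin_cases i <;> rfl
    rw [h4] at h3
    exact h3.symm
  have a1 : ∀ u v, g1 S u v ↔ g1 S' (e u) (e v) := by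
    intro u v
    by_cases hk : k u = k v
    · exact same u v hk
    · have h5 : ¬ ee S u v := fun h => hk ((k2 u v).1 h)
      have h6 : ¬ ee S' (e u) (e v) := fun h => h5 ((hee u v).2 h)
      have h7 := diff R2.fst u v
      have h8 : (¬ ee S u v ∧ g1 S u v) ↔ (¬ ee S' (e u) (e v) ∧ g1 S' (e u) (e v)) := h7
      tauto
  have a2 : ∀ u v, g2 S u v ↔ g2 S' (e u) (e v) := by
    intro u v
    by_cases hk : ee S u v
    · rw [← agree h hk, ← agree h' ((hee u v).1 hk)]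
      exact a1 u v
    · have h6 : ¬ ee S' (e u) (e v) := fun h => hk ((hee u v).2 h)
      have h7 := diff R2.snd u v
      have h8 : (¬ ee S u v ∧ g2 S u v) ↔ (¬ ee S' (e u) (e v) ∧ g2 S' (e u) (e v)) := h7
      tauto
  obtain ⟨g, hg⟩ := siso_two e a1 a2
  refine ⟨g, fun i => ?_, fun n x hx => ?_⟩
  · rw [hg, he]
    exact hE2 _ i rfl
  · have h1 : k x = n := (I1.lab_eq (S := S) h (k1 x) hx).1 (ee_refl S x)
    rw [hg, ← h1]
    have h2 := m1 (e x)
    rw [hm] at h2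
    exact h2

/-- the supports -/
def supB : Sup I1 where
  Sh := fun m => (Fin m → Fin m → Bool)
  wd := fun {m} _ => m
  χ := fun {m} s S u w => (∀ i, w i = u i) ∧ ∀ i j, (g1 S (u i) (u j) ↔ s i j = true)
  fd := by
    intro m s
    have h1 : FD (fun _ => True) (fun (S : L2.Structure ℕ) (v : Fin m ⊕ Fin m → ℕ) =>
        (∀ i, v (Sum.inr i) = v (Sum.inl i)) ∧
          ∀ i j, (g1 S (v (Sum.inl i)) (v (Sum.inl j)) ↔ s i j = true)) :=
      (FD.fin fun i => FD.eq (Sum.inr i) (Sum.inl i)).and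
        (FD.fin fun i => FD.fin fun j => (fb_g1 (Sum.inl i) (Sum.inl j)).iff (FD.const _))
    exact h1.mono fun _ _ => trivial
  dom := fun _ _ _ _ _ _ _ => trivial
  fn := by
    intro m s S u w w' _ h1 h2 j
    rw [h1.1 j, h2.1 j]
    exact ee_refl S _
  tot := by
    classical
    intro S _ m u
    exact ⟨fun i j => decide (g1 S (u i) (u j)), u, fun _ => rfl, fun i j => by simp⟩
  up := by
    intro S S' h h' e
    obtain ⟨g, -, hg⟩ := upB S S' h h' e (ι := Empty) Empty.elim Empty.elim (fun i => i.elim)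
      (fun i => i.elim)
    exact ⟨g, hg⟩
  lift := by
    intro m s S S' h h' u w u' w' h1 h2 e he
    obtain ⟨g, hg, -⟩ := upB S S' h h' e u u' (fun i j => (h1.2 i j).trans (h2.2 i j).symm)
      (fun i n hn => by
        rw [← h1.1 i] at hn
        rw [← h2.1 i]
        exact he i n hn)
    exact ⟨g, hg⟩

end Pool.Agent.TH686.MC
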