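import Pool.Agent.TH686.MC.Tq
import Pool.Agent.TH686.MC.MartJ
import Pool.Agent.TH686.MC.SupB
import Pool.Agent.TH686.DO.Inv2

set_option autoImplicit false

/-! Martin's conjecture for dense linear orders with an involution. -/

namespace Pool.Agent.TH686.MC

open FirstOrder FirstOrder.Language
open Pool.Agent.W889.FO Pool.Agent.W889.VC
open Pool.Agent.W889.FO.StA (FD.all1 FD.ex1)
open Pool.Agent.TH686.FO Pool.Agent.TH686.DO

theorem upI (S S' : L2.Structure ℕ) (h : IW S) (h' : IW S')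
    (π : {u // dm S u} ≃ {u // dm S' u})
    (hπ : ∀ {n : ℕ} (R : L2.Relations n) (u : Fin n → {u // dm S u}),
      I2.rel R S (fun i => u i) ↔ I2.rel R S' (fun i => π (u i))) :
    ∃ g : @FirstOrder.Language.Equiv L2 ℕ ℕ S S', ∀ u (hu : dm S u), g u = π ⟨u, hu⟩ := by
  let R0 : ℕ → ℕ → Prop := fun u v => ∃ hu : dm S u, (π ⟨u, hu⟩ : ℕ) = v
  let R1 : ℕ → ℕ → Prop := fun u v => ∃ u1 v1, g2 S u u1 ∧ g2 S' v v1 ∧ R0 u1 v1
  have d0 : ∀ {u v}, R0 u v → dm S u ∧ dm S' v := fun ⟨h1, h2⟩ => ⟨h1, h2 ▸ (π ⟨_, h1⟩).2⟩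
  have d1 : ∀ {u v}, R1 u v → ¬ dm S u ∧ ¬ dm S' v := fun ⟨u1, v1, h1, h2, h3⟩ =>
    ⟨(h.flip (h.sy _ _ h1)).1 (d0 h3).1, (h'.flip (h'.sy _ _ h2)).1 (d0 h3).2⟩
  have t0 : ∀ u, dm S u → ∃ v, R0 u v := by
    intro u hu
    exact ⟨_, hu, rfl⟩
  have t0' : ∀ v, dm S' v → ∃ u, R0 u v := by
    intro v hv
    exact ⟨π.symm ⟨v, hv⟩, (π.symm ⟨v, hv⟩).2, by rw [Subtype.coe_eta, Equiv.apply_symm_apply]⟩
  have u0 : ∀ {u v v'}, R0 u v → R0 u v' → v = v' := by
    rintro u v v' ⟨h1, h2⟩ ⟨h3, h4⟩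
    exact h2.symm.trans h4
  have u0' : ∀ {u u' v}, R0 u v → R0 u' v → u = u' := by
    rintro u u' v ⟨h1, h2⟩ ⟨h3, h4⟩
    exact congrArg Subtype.val (π.injective (Subtype.ext (h2.trans h4.symm)))
  have u1 : ∀ {u v v'}, R1 u v → R1 u v' → v = v' := by
    rintro u v v' ⟨a, b, h1, h2, h3⟩ ⟨a', b', h4, h5, h6⟩
    have e := h.fn _ _ _ h1 h4
    subst e
    have e' := u0 h3 h6
    subst e'
    exact h'.fn _ _ _ (h'.sy _ _ h2) (h'.sy _ _ h5)
  have u1' : ∀ {u u' v}, R1 u v → R1 u' v → u = u' := by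
    rintro u u' v ⟨a, b, h1, h2, h3⟩ ⟨a', b', h4, h5, h6⟩
    have e := h'.fn _ _ _ h2 h5
    subst e
    have e' := u0' h3 h6
    subst e'
    exact h.fn _ _ _ (h.sy _ _ h1) (h.sy _ _ h4)
  obtain ⟨e, he⟩ := Pool.Agent.W889.SD.equiv_of_rel (fun u v => R0 u v ∨ R1 u v)
    (fun u => by
      by_cases hu : dm S u
      · obtain ⟨v, hv⟩ := t0 u hu
        exact ⟨v, Or.inl hv⟩
      · obtain ⟨u', h1⟩ := h.tot u
        obtain ⟨v', h2⟩ := t0 u' ((h.flip (h.sy _ _ h1)).2 hu)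
        obtain ⟨v, h3⟩ := h'.tot v'
        exact ⟨v, Or.inr ⟨u', v', h1, h'.sy _ _ h3, h2⟩⟩)
    (fun v => by
      by_cases hv : dm S' v
      · obtain ⟨u, hu⟩ := t0' v hv
        exact ⟨u, Or.inl hu⟩
      · obtain ⟨v', h1⟩ := h'.tot v
        obtain ⟨u', h2⟩ := t0' v' ((h'.flip (h'.sy _ _ h1)).2 hv)
        obtain ⟨u, h3⟩ := h.tot u'
        exact ⟨u, Or.inr ⟨u', v', h.sy _ _ h3, h1, h2⟩⟩)
    (by
      rintro u v v' (h1 | h1) (h2 | h2)
      · exact u0 h1 h2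
      · exact absurd (d0 h1).1 (d1 h2).1
      · exact absurd (d0 h2).1 (d1 h1).1
      · exact u1 h1 h2)
    (by
      rintro u u' v (h1 | h1) (h2 | h2)
      · exact u0' h1 h2
      · exact absurd (d0 h1).2 (d1 h2).2
      · exact absurd (d0 h2).2 (d1 h1).2
      · exact u1' h1 h2)
  have e0 : ∀ u, dm S u → R0 u (e u) := fun u hu => by
    rcases he u with h1 | h1
    · exact h1
    · exact absurd hu (d1 h1).1
  have e1 : ∀ u, ¬ dm S u → R1 u (e u) := fun u hu => by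
    rcases he u with h1 | h1
    · exact absurd (d0 h1).1 hu
    · exact h1
  have hd : ∀ u, dm S u ↔ dm S' (e u) := fun u => by
    by_cases hu : dm S u
    · exact iff_of_true hu (d0 (e0 u hu)).2
    · exact iff_of_false hu (d1 (e1 u hu)).2
  have hg : ∀ u v, g2 S u v → dm S u → g2 S' (e u) (e v) := by
    intro u v huv hu
    obtain ⟨a, b, h1, h2, h3⟩ := e1 v ((h.flip huv).1 hu)
    have ea : a = u := h.fn _ _ _ h1 (h.sy _ _ huv)
    subst ea
    have eb : b = e a := u0 h3 (e0 a hu)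
    rw [← eb]
    exact h'.sy _ _ h2
  have hg2 : ∀ u v, g2 S u v → g2 S' (e u) (e v) := by
    intro u v huv
    by_cases hu : dm S u
    · exact hg u v huv hu
    · exact h'.sy _ _ (hg v u (h.sy _ _ huv) ((h.flip (h.sy _ _ huv)).2 hu))
  have hg2' : ∀ u v, g2 S u v ↔ g2 S' (e u) (e v) := by
    intro u v
    refine ⟨hg2 u v, fun h1 => ?_⟩
    obtain ⟨w, hw⟩ := h.tot u
    have h2 := h'.fn _ _ _ (hg2 u w hw) h1
    rw [← e.injective h2]
    exact hw
  have rr : ∀ (Q : L2.Relations 2) (u v : ℕ), dm S u → dm S v →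
      (I2.rel Q S ![u, v] ↔ I2.rel Q S' ![e u, e v]) := by
    intro Q u v hu hv
    obtain ⟨_, h2⟩ := e0 u hu
    obtain ⟨_, h4⟩ := e0 v hv
    have h5 := hπ Q ![⟨u, hu⟩, ⟨v, hv⟩]
    have h6 : (fun i => ((![⟨u, hu⟩, ⟨v, hv⟩] : Fin 2 → {u // dm S u}) i : ℕ)) = ![u, v] := by
      funext i
      fin_cases i <;> rfl
    have h7 : (fun i => (π ((![⟨u, hu⟩, ⟨v, hv⟩] : Fin 2 → {u // dm S u}) i) : ℕ)) =
        ![e u, e v] := by
      funext i
      fin_cases i
      · exact h2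
      · exact h4
    rw [h6, h7] at h5
    exact h5
  have hlt : ∀ u v, g1 S u v ↔ g1 S' (e u) (e v) := by
    intro u v
    by_cases hu : dm S u <;> by_cases hv : dm S v
    · exact rr R2.fst u v hu hv
    · exact iff_of_true (h.lt hu hv) (h'.lt ((hd u).1 hu) (fun h1 => hv ((hd v).2 h1)))
    · have a1 := h.lt hv hu
      have a2 := h'.lt ((hd v).1 hv) (fun h1 => hu ((hd u).2 h1))
      exact iff_of_false (fun h1 => h.o.irrefl _ (h.o.trans _ _ _ h1 a1))
        (fun h1 => h'.o.irrefl _ (h'.o.trans _ _ _ h1 a2))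
    · obtain ⟨u', h1⟩ := h.tot u
      obtain ⟨v', h2⟩ := h.tot v
      have b1 := (h.flip (h.sy _ _ h1)).2 hu
      have b2 := (h.flip (h.sy _ _ h2)).2 hv
      have h3 : sd S u' v' ↔ sd S' (e u') (e v') := rr R2.snd u' v' b1 b2
      have h4 : g1 S u v ↔ sd S u' v' := by
        constructor
        · exact fun h5 => ⟨u, v, h.sy _ _ h1, h.sy _ _ h2, h5⟩
        · rintro ⟨a, b, h5, h6, h7⟩
          rw [h.fn _ _ _ (h.sy _ _ h1) h5, h.fn _ _ _ (h.sy _ _ h2) h6]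
          exact h7
      have c1 := hg2 _ _ h1
      have c2 := hg2 _ _ h2
      have h5 : g1 S' (e u) (e v) ↔ sd S' (e u') (e v') := by
        constructor
        · exact fun h5 => ⟨e u, e v, h'.sy _ _ c1, h'.sy _ _ c2, h5⟩
        · rintro ⟨a, b, h5, h6, h7⟩
          rw [h'.fn _ _ _ (h'.sy _ _ c1) h5, h'.fn _ _ _ (h'.sy _ _ c2) h6]
          exact h7
      rw [h4, h5]
      exact h3
  obtain ⟨g, hg⟩ := siso_two e hlt hg2'
  exact ⟨g, fun u hu => by
    rw [hg]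
    exact (e0 u hu).2.symm⟩

/-- the interpretation -/
def I2p : Itp L2 L2 where
  W := IW
  axW := ax_IW
  dom := dm
  rel := I2.rel
  fdom := I2.fdom
  frel := I2.frel
  inf := fun _ h => h.inf

theorem tq_I2p : tq I2p = I2 := rfl

/-- the supports of elements -/
def chI : Bool → L2.Structure ℕ → ℕ → (Fin 1 → ℕ) → Prop
  | true => fun S x w => dm S x ∧ w 0 = x
  | false => fun S x w => dm S (w 0) ∧ g2 S (w 0) x

/-- supports -/
noncomputable def gnI : Gn I2p (fun _ => True) (fun _ => ()) where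
  K := Bool
  wd := fun _ => 1
  χ := chI
  fd := fun κ => match κ with
    | true => ((fu_dm (Sum.inl ())).and (FD.eq (Sum.inr (0 : Fin 1)) (Sum.inl ()))).mono
        fun _ _ => trivial
    | false => ((fu_dm (Sum.inr (0 : Fin 1))).and (fb_g2 (Sum.inr (0 : Fin 1)) (Sum.inl ()))).mono
        fun _ _ => trivial
  dom := fun κ S x w _ hc j => by
    have e : j = 0 := Subsingleton.elim _ _
    subst e
    cases κ with
    | true =>
      have h1 : w 0 = x := hc.2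
      rw [h1]
      exact hc.1
    | false => exact hc.1
  fn := fun κ S x w w' h hc hc' => by
    funext j
    have e : j = 0 := Subsingleton.elim _ _
    subst e
    cases κ with
    | true => exact hc.2.trans hc'.2.symm
    | false => exact h.fn _ _ _ (h.sy _ _ hc.2) (h.sy _ _ hc'.2)
  fx := fun κ S x x' w h hc hc' => by
    cases κ with
    | true => exact hc.2.symm.trans hc'.2
    | false => exact h.fn _ _ _ hc.2 hc'.2
  tot := fun S h _ x => by
    by_cases hx : dm S x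
    · exact ⟨true, fun _ => x, hx, rfl⟩
    · obtain ⟨y, hy⟩ := h.tot x
      exact ⟨false, fun _ => y, (h.flip (h.sy _ _ hy)).2 hx, h.sy _ _ hy⟩
  up := fun S S' h h' _ π hπ => upI S S' h h' π hπ
  rich := fun _ _ _ _ _ _ _ => ⟨∅, ∅, Set.countable_empty, Set.countable_empty,
    fun _ _ _ _ _ _ => rfl⟩

/-- the reduction to dense linear orders with an involution -/
theorem reduceI (hV : ∀ T : L2.Theory, T.IsComplete → FewCountableModels T →
      (∀ S : L2.Structure ℕ, @Theory.Model L2 ℕ S T → IW S) → MartinN T)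
    (T : L2.Theory) (hfew : FewCountableModels T)
    (hT : ∀ S : L2.Structure ℕ, @Theory.Model L2 ℕ S T → DL1 (g1 S) ∧ DL1 (g2 S)) :
    MartinN T := by
  have := countable_L2
  refine transferJ (tq I2p) gnI.sup T hfew (fun M hM => ?_) fun T' h1 h2 h3 => hV T' h1 h2 h3
  obtain ⟨S, h1, h2⟩ := ex2 M (hT M hM).1 (hT M hM).2
  exact ⟨S, h1, trivial, h2⟩

end Pool.Agent.TH686.MC
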