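import Pool.Agent.TH686.MC.SupG2
import Pool.Agent.TH686.MC.Mart
import Pool.Agent.TH686.DO.Pairs

set_option autoImplicit false

/-! Martin's conjecture for finite relational languages and for pairs of dense linear orders. -/

namespace Pool.Agent.TH686.MC

open FirstOrder FirstOrder.Language
open Pool.Agent.W889.FO Pool.Agent.W889.VC Pool.Agent.W889.VC.Grid
open Pool.Agent.TH686.FO Pool.Agent.TH686.DO

/-- the pairs of linear orders of grids are reduced -/
theorem red_W {a : ℕ → ℕ} {N : ℕ} {S : L2.Structure ℕ} (h : WLo S) (hg : Gd a N (DLo S))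
    (u v : ℕ) (he : ee S u v) : u = v := by
  obtain ⟨h1, h2, h3, h4, h5, h6⟩ := h
  have hr0 : ∃ r, (DLo S).R r := by
    obtain ⟨X, hX, -⟩ := hg.inf 1
    exact ⟨_, hX 0⟩
  have hc0 : ∃ c, (DLo S).C c := by
    obtain ⟨r, hr⟩ := hr0
    obtain ⟨c, hc, -⟩ := hg.mark r hr
    exact ⟨c, hc⟩
  refine reduced hg.base hr0 hc0 (fun r c hr hc => ?_) h5 h6 h1 h2 h3 h4 he
  obtain ⟨j, s, hs, h⟩ := hg.fin hr hc
  have h7 : 0 < s.card := by
    rw [hs]
    exact kv_pos j
  obtain ⟨p, hp⟩ := Finset.card_pos.1 h7
  exact ⟨p, (h p).1 hp⟩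

/-- Martin's conjecture for finite relational languages follows from its restriction to pairs of
dense linear orders. -/
theorem martin_fin {L : FirstOrder.Language.{0, 0}} [L.IsRelational] (A : FinL L)
    (hV : ∀ T : L2.Theory, T.IsComplete → FewCountableModels T →
      (∀ S : L2.Structure ℕ, @Theory.Model L2 ℕ S T → DL1 (g1 S) ∧ DL1 (g2 S)) → MartinN T)
    (T : L.Theory) (hfew : FewCountableModels T) : MartinN T := by
  have hc2 := countable_L2
  have : Countable (Σ n, L.Relations n) := by
    refine Function.Injective.countable (f := A.ix) fun Q Q' h => ?_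
    rw [← A.dc_ix Q, ← A.dc_ix Q', h]
  refine transfer (itF A) (supG A) T hfew (fun M _ => exF A M) fun T' _ hfew' hT' => ?_
  refine transfer I1 supB T' hfew' (fun M hM => ?_) fun T'' hc hf hT'' =>
    hV T'' hc hf fun S hS => ⟨(hT'' S hS).dl1, (hT'' S hS).dl2⟩
  obtain ⟨h1, h2⟩ := hT' M hM
  exact ex1 M h1.2.2.2.2.1 h1.2.2.2.2.2 (red_W h1 h2)

/-! ### countable structures -/

section

variable {L : FirstOrder.Language.{0, 0}}

theorem sat_iso' {T : L.Theory} {M N : Type} {S : L.Structure M} {S' : L.Structure N}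
    (g : @FirstOrder.Language.Equiv L M N S S') {n : ℕ} (φ : L1 T n) (a : Fin n → M) :
    φ.Sat S a ↔ φ.Sat S' (fun i => g (a i)) := by
  have hsurj : ∀ v, ∃ u, g u = v := fun v =>
    @FirstOrder.Language.Equiv.surjective L M N S S' g v
  have hr : ∀ {n : ℕ} (φ : L.BoundedFormula Empty n) (a : Fin n → M),
      @BoundedFormula.Realize L M S Empty n φ Empty.elim a ↔
        @BoundedFormula.Realize L N S' Empty n φ Empty.elim (fun i => g (a i)) := by
    intro n φ a
    have h1 := @StrongHomClass.realize_boundedFormula L M N S S' Empty n _ _ _ g φ Empty.elim a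
    have e : (g ∘ (Empty.elim : Empty → M)) = (Empty.elim : Empty → N) := funext fun x => x.elim
    rw [e] at h1
    exact h1.symm
  induction φ with
  | fo φ => exact hr φ a
  | conj p hp v => exact forall_congr' fun φ => imp_congr_right fun _ => hr φ _
  | not φ ih => exact not_congr (ih a)
  | and φ ψ ih1 ih2 => exact and_congr (ih1 a) (ih2 a)
  | @all n φ ih =>
    have e : ∀ x, (fun i => g (Fin.snoc (α := fun _ => M) a x i)) =
        Fin.snoc (α := fun _ => N) (fun i => g (a i)) (g x) := by
      intro x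
      funext i
      refine Fin.lastCases ?_ (fun j => ?_) i
      · simp
      · simp
    constructor
    · intro h y
      obtain ⟨x, rfl⟩ := hsurj y
      have := (ih (Fin.snoc (α := fun _ => M) a x)).1 (h x)
      rw [e] at this
      exact this
    · intro h x
      refine (ih (Fin.snoc (α := fun _ => M) a x)).2 ?_
      rw [e]
      exact h (g x)

theorem martinN_of {T : L.Theory} (h : T1Categorical T) : MartinN T := by
  intro S S' hS _ hE
  exact h S hS ℕ inferInstance S' fun φ => (hE φ).1

theorem of_martinN {T : L.Theory} (h : MartinN T) : T1Categorical T := by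
  intro S hS M hM S' hE
  have hfo : ∀ σ : L.Sentence, @Sentence.Realize L ℕ S σ → @Sentence.Realize L M S' σ := by
    intro σ hσ
    have h1 := hE (.fo (σ : L.BoundedFormula Empty 0))
    have k1 : ∀ (X : Type) (R : L.Structure X) (v v' : Empty → X) (x x' : Fin 0 → X),
        @BoundedFormula.Realize L X R Empty 0 σ v x →
          @BoundedFormula.Realize L X R Empty 0 σ v' x' := by
      intro X R v v' x x' h
      rw [Subsingleton.elim x' x, Subsingleton.elim v' v]
      exact h
    exact k1 M S' _ _ _ _ (h1 (k1 ℕ S _ _ _ _ hσ))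
  have hinf : Infinite M := by
    rw [← @model_infiniteTheory_iff L M S', @Theory.model_iff L M S']
    intro φ hφ
    refine hfo φ ?_
    have h1 : @Theory.Model L ℕ S L.infiniteTheory :=
      (@model_infiniteTheory_iff L ℕ S).2 inferInstance
    exact (@Theory.model_iff L ℕ S _).1 h1 φ hφ
  obtain ⟨e⟩ : Nonempty (M ≃ ℕ) := nonempty_equiv_of_countable
  let S1 : L.Structure ℕ := @Equiv.inducedStructure L M ℕ S' e
  let g : @FirstOrder.Language.Equiv L M ℕ S' S1 := @Equiv.inducedStructureEquiv L M ℕ S' e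
  have hS1 : @Theory.Model L ℕ S1 T := by
    rw [@Theory.model_iff L ℕ S1]
    intro φ hφ
    have h1 := hfo φ ((@Theory.model_iff L ℕ S T).1 hS φ hφ)
    exact (@StrongHomClass.realize_sentence L M ℕ S' S1 _ _ _ g φ).1 h1
  obtain ⟨f⟩ := h S S1 hS hS1 (fun φ => by
    have h1 := sat_iso' g φ Fin.elim0
    have e1 : (fun i : Fin 0 => g (Fin.elim0 i)) = Fin.elim0 := Subsingleton.elim _ _
    rw [e1] at h1
    rw [← h1]
    refine ⟨hE φ, fun h2 => ?_⟩
    by_contra h3
    exact hE (.not φ) h3 h2)
  exact ⟨@FirstOrder.Language.Equiv.comp L ℕ ℕ S S1 M S'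
    (@FirstOrder.Language.Equiv.symm L M ℕ S' S1 g) f⟩

end

end Pool.Agent.TH686.MC
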