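import Pool.Agent.TH686.MC.ExB

set_option autoImplicit false

/-! Martin's conjecture in languages with function symbols. -/

namespace Pool.Agent.TH686.JF

open FirstOrder FirstOrder.Language
open Pool.Agent.W889.FO Pool.Agent.W889.FO.St0
open Pool.Agent.TH686.FO
open Pool.Agent.TH686.DO (DL1)
open Pool.Agent.TH686.MC (Rz MartinN FewCountableModels L1 IsCompleteType few_of rz_of_fd fd_rz
  sat_iso rz_sentence)

variable {L : FirstOrder.Language.{0, 0}}

theorem fd_fun {W : L.Structure ℕ → Prop} {α : Type} {n : ℕ} (F : L.Functions n) (t : Fin n → α)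
    (j : α) : FD W (fun M v => @Structure.funMap L ℕ M n F (fun i => v (t i)) = v j) := by
  refine ⟨(Term.func F (fun i => Term.var (t i))).equal (Term.var j), fun M _ v => ?_⟩
  exact @Formula.realize_equal L ℕ M α _ _ v

/-- formulas about the relational structure are formulas about the structure -/
theorem back {n : ℕ} (φ : (LF L).BoundedFormula Empty n) : ∃ φ' : L.BoundedFormula Empty n,
    ∀ R : (LF L).Structure ℕ, St0.W R → ∀ v, Rz (D R) φ' v ↔ Rz R φ v := by
  have hv : ∀ {n : ℕ} (t : (LF L).Term (Empty ⊕ Fin n)), ∃ i, t = Term.var (Sum.inr i) := by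
    intro n t
    cases t with
    | var i =>
      rcases i with i | i
      · exact i.elim
      · exact ⟨i, rfl⟩
    | func f _ => exact isEmptyElim f
  induction φ with
  | falsum => exact ⟨⊥, fun R _ v => Iff.rfl⟩
  | @equal n t1 t2 =>
    obtain ⟨i, rfl⟩ := hv t1
    obtain ⟨j, rfl⟩ := hv t2
    obtain ⟨χ, hχ⟩ := rz_of_fd (FD.eq (L := L) (W := fun _ => True) i j)
    exact ⟨χ, fun R _ v => hχ (D R) trivial v⟩
  | @rel n l Q ts =>
    choose g hg using fun i => hv (ts i)
    obtain rfl : ts = fun i => Term.var (Sum.inr (g i)) := funext hg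
    cases Q with
    | rel Q =>
      obtain ⟨χ, hχ⟩ := rz_of_fd (FD.rel (L := L) (W := fun _ => True) Q g)
      exact ⟨χ, fun R _ v => hχ (D R) trivial v⟩
    | @fn l F =>
      obtain ⟨χ, hχ⟩ := rz_of_fd (fd_fun (L := L) (W := fun _ => True) F
        (fun i => g i.castSucc) (g (Fin.last l)))
      refine ⟨χ, fun R hR v => (hχ (D R) trivial v).trans ?_⟩
      rw [fun_iff hR]
      have e : (Fin.snoc (α := fun _ => ℕ) (fun i => v (g i.castSucc)) (v (g (Fin.last l)))) =
          fun i => v (g i) := by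
        funext m
        refine Fin.lastCases ?_ (fun m' => ?_) m
        · simp only [Fin.snoc_last]
        · simp only [Fin.snoc_castSucc]
      unfold gr
      rw [e]
      exact Iff.rfl
  | @imp n f1 f2 h1 h2 =>
    obtain ⟨φ1, k1⟩ := h1
    obtain ⟨φ2, k2⟩ := h2
    exact ⟨φ1.imp φ2, fun R hR v => imp_congr (k1 R hR v) (k2 R hR v)⟩
  | @all n f ih =>
    obtain ⟨φ, k⟩ := ih
    exact ⟨φ.all, fun R hR v => forall_congr' fun x => k R hR _⟩

/-- formulas about the structure are formulas about the relational structure -/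
theorem forth {n : ℕ} (φ : L.BoundedFormula Empty n) : ∃ φ' : (LF L).BoundedFormula Empty n,
    ∀ R : (LF L).Structure ℕ, St0.W R → ∀ v, Rz R φ' v ↔ Rz (D R) φ v := by
  have h1 : FD (L := LF L) St0.W (fun S (w : Fin n → ℕ) => Rz (D S) φ w) := by
    refine ((trans (φ := φ)).sub (Sum.elim (fun x => x.elim) id : Empty ⊕ Fin n → Fin n)).congr
      fun S _ w => ?_
    have key : ∀ (a b : Empty → ℕ) (x : Fin n → ℕ),
        @BoundedFormula.Realize L ℕ (D S) _ _ φ a x ↔
          @BoundedFormula.Realize L ℕ (D S) _ _ φ b x := by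
      intro a b x
      rw [Subsingleton.elim a b]
    exact key _ _ _
  obtain ⟨χ, hχ⟩ := rz_of_fd h1
  exact ⟨χ, fun R hR v => hχ R hR v⟩

/-- formulas of the fragment -/
theorem key {T : L.Theory} {T' : (LF L).Theory}
    (hm : ∀ R : (LF L).Structure ℕ, @Theory.Model (LF L) ℕ R T' → St0.W R ∧
      @Theory.Model L ℕ (D R) T) {n : ℕ} (φ : L1 T' n) :
    ∃ φ' : L1 T n, ∀ R : (LF L).Structure ℕ, St0.W R → ∀ v, φ'.Sat (D R) v ↔ φ.Sat R v := by
  induction φ with
  | fo φ =>
    obtain ⟨φ', h⟩ := back φ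
    exact ⟨.fo φ', h⟩
  | @conj n k p hp v0 =>
    obtain ⟨R0, a, hR0, rfl⟩ := hp
    obtain ⟨hW0, hT0⟩ := hm R0 hR0
    refine ⟨.conj {ψ | Rz (D R0) ψ a} ⟨D R0, a, hT0, rfl⟩ v0, fun R hR v => ?_⟩
    show (∀ ψ, Rz (D R0) ψ a → Rz (D R) ψ (fun i => v (v0 i))) ↔
      ∀ φ, Rz R0 φ a → Rz R φ (fun i => v (v0 i))
    constructor
    · intro h φ hφ
      obtain ⟨φ', h1⟩ := back φ
      exact (h1 R hR _).1 (h φ' ((h1 R0 hW0 a).2 hφ))
    · intro h ψ hψ
      obtain ⟨ψ', h1⟩ := forth ψ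
      exact (h1 R hR _).1 (h ψ' ((h1 R0 hW0 a).2 hψ))
  | not φ ih =>
    obtain ⟨φ', h⟩ := ih
    exact ⟨.not φ', fun R hR v => not_congr (h R hR v)⟩
  | and φ1 φ2 ih1 ih2 =>
    obtain ⟨φ1', h1⟩ := ih1
    obtain ⟨φ2', h2⟩ := ih2
    exact ⟨.and φ1' φ2', fun R hR v => and_congr (h1 R hR v) (h2 R hR v)⟩
  | @all n φ ih =>
    obtain ⟨φ', h⟩ := ih
    exact ⟨.all φ', fun R hR v => forall_congr' fun x => h R hR _⟩

/-- the reduction to relational languages -/
theorem reduceF (T : L.Theory) (hfew : FewCountableModels T)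
    (hM : ∀ T' : (LF L).Theory, T'.IsComplete → FewCountableModels T' → MartinN T') :
    MartinN T := by
  intro M N hMT hNT hMN
  obtain ⟨S, hS, hSM⟩ := ex M
  obtain ⟨S', hS', hSN⟩ := ex N
  let T' : (LF L).Theory := @FirstOrder.Language.completeTheory (LF L) ℕ S
  have hT' : T'.IsComplete := @FirstOrder.Language.completeTheory.isComplete (LF L) ℕ S _
  have hmem : ∀ σ : (LF L).Sentence, σ ∈ T' ↔ @Sentence.Realize (LF L) ℕ S σ := fun σ => Iff.rfl
  have hm : ∀ R : (LF L).Structure ℕ, @Theory.Model (LF L) ℕ R T' → St0.W R ∧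
      @Theory.Model L ℕ (D R) T := by
    intro R hR
    obtain ⟨T1, hT1⟩ := ax_theory T
    refine (hT1 R).1 (ax_iff.2 fun φ hφ => ax_iff.1 hR φ ?_)
    rw [hmem]
    exact ax_iff.1 ((hT1 S).2 ⟨hS, hSM.symm.model hMT⟩) φ hφ
  have hfew' : FewCountableModels T' := few_of (J := Unit) hfew (fun R => D R) (fun _ => ())
    (fun R hR => (hm R hR).2) fun R R' h1 h2 _ hi => iso_up (hm R h1).1 (hm R' h2).1 hi
  have hfin : ∀ φ : L1 T' 0, φ.Sat S Fin.elim0 ↔ φ.Sat S' Fin.elim0 := by
    intro φ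
    obtain ⟨φ', h⟩ := key hm φ
    rw [← h S hS, ← h S' hS']
    obtain ⟨g⟩ := hSM
    obtain ⟨g'⟩ := hSN
    have h1 := MC.sat_iso' g φ' Fin.elim0
    have h2 := MC.sat_iso' g' φ' Fin.elim0
    have e1 : (fun i : Fin 0 => g (Fin.elim0 i)) = Fin.elim0 := Subsingleton.elim _ _
    have e2 : (fun i : Fin 0 => g' (Fin.elim0 i)) = Fin.elim0 := Subsingleton.elim _ _
    rw [e1] at h1
    rw [e2] at h2
    exact h1.trans ((hMN φ').trans h2.symm)
  have hmS : @Theory.Model (LF L) ℕ S T' := ax_iff.2 fun φ hφ => hφ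
  have hmS' : @Theory.Model (LF L) ℕ S' T' := by
    refine ax_iff.2 fun φ hφ => ?_
    have h1 := hfin (.fo (φ : (LF L).BoundedFormula Empty 0))
    exact (rz_sentence S' φ _).1 (h1.1 ((rz_sentence S φ _).2 hφ))
  have hiso := hM T' hT' hfew' S S' hmS hmS' hfin
  exact hSM.symm.trans ((iso_down hS hS' hiso).trans hSN)

/-- Martin's conjecture for countable languages follows from its restriction to pairs of dense
linear orders. -/
theorem martin_all [Countable L.Symbols]
    (hV : ∀ T : L2.Theory, T.IsComplete → FewCountableModels T →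
      (∀ S : L2.Structure ℕ, @Theory.Model L2 ℕ S T → DL1 (g1 S) ∧ DL1 (g2 S)) → MartinN T)
    (T : L.Theory) (hfew : FewCountableModels T) : MartinN T := by
  have : Countable (Σ n, (LF L).Relations n) := countable_LF
  exact reduceF T hfew fun T' _ h => JB.martin_rel hV T' h

end Pool.Agent.TH686.JF
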