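import Mathlib

set_option autoImplicit false

/-! Completeness of theories without finite models. -/

namespace Pool.Agent.TH686.JT

open FirstOrder FirstOrder.Language

/-- A satisfiable theory without finite models is complete if its models on the natural numbers
are elementarily equivalent. -/
theorem complete_of_nat {L' : FirstOrder.Language.{0, 0}} (hc : Countable L'.Symbols)
    {T : L'.Theory}
    (hinf : ∀ (X : Type) (S : L'.Structure X), Nonempty X → @Theory.Model L' X S T → Infinite X)
    (hex : ∃ S : L'.Structure ℕ, @Theory.Model L' ℕ S T)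
    (heq : ∀ S S' : L'.Structure ℕ, @Theory.Model L' ℕ S T → @Theory.Model L' ℕ S' T →
      ∀ ψ : L'.Sentence, @Sentence.Realize L' ℕ S ψ → @Sentence.Realize L' ℕ S' ψ) :
    T.IsComplete := by
  have hcard : L'.card ≤ Cardinal.aleph0 := Cardinal.mk_le_aleph0_iff.2 hc
  have key : ∀ M : Theory.ModelType.{0, 0, 0} T, ∃ S : L'.Structure ℕ,
      @Theory.Model L' ℕ S T ∧ ∀ ψ : L'.Sentence, M ⊨ ψ ↔ @Sentence.Realize L' ℕ S ψ := by
    intro M
    have : Infinite M := hinf M M.struc inferInstance M.is_model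
    obtain ⟨N, h1, h2⟩ := exists_elementarilyEquivalent_card_eq L' M Cardinal.aleph0.{0} le_rfl
      (by simpa using hcard)
    obtain ⟨e⟩ : Nonempty (N ≃ ℕ) := by
      rw [← Cardinal.eq, h2, Cardinal.mk_nat]
    let S : L'.Structure ℕ := e.inducedStructure
    let g : N ≃[L'] ℕ := e.inducedStructureEquiv
    have h3 : ∀ ψ : L'.Sentence, M ⊨ ψ ↔ @Sentence.Realize L' ℕ S ψ := fun ψ =>
      ((elementarilyEquivalent_iff.1 h1) ψ).trans (StrongHomClass.realize_sentence g ψ)
    refine ⟨S, ?_, h3⟩
    rw [Theory.model_iff]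
    intro φ hφ
    exact (h3 φ).1 (Theory.realize_sentence_of_mem T hφ)
  rw [Theory.IsComplete.isComplete_iff_models_elementarily_equivalent]
  constructor
  · obtain ⟨S, hS⟩ := hex
    exact ⟨Theory.ModelType.of T ℕ⟩
  · intro M N
    rw [elementarilyEquivalent_iff]
    intro φ
    obtain ⟨S, h1, h2⟩ := key M
    obtain ⟨S', h1', h2'⟩ := key N
    rw [h2, h2']
    exact ⟨heq S S' h1 h1' φ, heq S' S h1' h1 φ⟩

end Pool.Agent.TH686.JT
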