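import Mathlib

set_option autoImplicit false

/-! Martin's conjecture: the fragment `L₁(T)`. -/

namespace Pool.Agent.TH686.MC

open FirstOrder FirstOrder.Language

variable {L : FirstOrder.Language.{0, 0}}

/-- `p` is the complete type of an `n`-tuple in some model of `T` with universe `ℕ`. -/
def IsCompleteType (T : L.Theory) {n : ℕ} (p : Set (L.BoundedFormula Empty n)) : Prop :=
  ∃ (S : L.Structure ℕ) (a : Fin n → ℕ), @Theory.Model L ℕ S T ∧
    p = {φ | @BoundedFormula.Realize L ℕ S Empty n φ Empty.elim a}

/-- The formulas of the fragment `L₁(T)` with `n` free variables: first-order formulas, the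
conjunctions `⋀_{φ ∈ p} φ(x_{v 0}, …, x_{v (k-1)})` for complete types `p` of `T`, and everything
obtained from these by negation, conjunction and quantification. -/
inductive L1 (T : L.Theory) : ℕ → Type
  | fo {n : ℕ} (φ : L.BoundedFormula Empty n) : L1 T n
  | conj {n k : ℕ} (p : Set (L.BoundedFormula Empty k)) (hp : IsCompleteType T p)
      (v : Fin k → Fin n) : L1 T n
  | not {n : ℕ} (φ : L1 T n) : L1 T n
  | and {n : ℕ} (φ ψ : L1 T n) : L1 T n
  | all {n : ℕ} (φ : L1 T (n + 1)) : L1 T n

/-- Satisfaction of formulas of `L₁(T)`. -/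
def L1.Sat {T : L.Theory} {M : Type} (S : L.Structure M) : {n : ℕ} → L1 T n → (Fin n → M) → Prop
  | _, .fo φ, a => @BoundedFormula.Realize L M S Empty _ φ Empty.elim a
  | _, .conj p _ v, a =>
      ∀ φ ∈ p, @BoundedFormula.Realize L M S Empty _ φ Empty.elim (fun i => a (v i))
  | _, .not φ, a => ¬ φ.Sat S a
  | _, .and φ ψ, a => φ.Sat S a ∧ ψ.Sat S a
  | _, .all φ, a => ∀ x : M, φ.Sat S (Fin.snoc a x)

/-- `T` has fewer than continuum many models with universe `ℕ` up to isomorphism: there is no family
of pairwise non-isomorphic models indexed by the Cantor space. -/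
def FewCountableModels (T : L.Theory) : Prop :=
  ¬ ∃ f : (ℕ → Bool) → L.Structure ℕ, (∀ x, @Theory.Model L ℕ (f x) T) ∧
    ∀ x y, Nonempty (@FirstOrder.Language.Equiv L ℕ ℕ (f x) (f y)) → x = y

/-- Every countably infinite model of `T` is determined up to isomorphism, among the countable
structures, by the sentences of `L₁(T)` true in it. -/
def T1Categorical (T : L.Theory) : Prop :=
  ∀ S : L.Structure ℕ, @Theory.Model L ℕ S T → ∀ (M : Type), Countable M →
    ∀ S' : L.Structure M, (∀ φ : L1 T 0, φ.Sat S Fin.elim0 → φ.Sat S' Fin.elim0) →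
      Nonempty (@FirstOrder.Language.Equiv L ℕ M S S')

end Pool.Agent.TH686.MC
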