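import Pool.Agent.TH686.MC.SupA
import Pool.Agent.TH686.MC.MartJ

set_option autoImplicit false

/-! From arbitrary relational languages to languages with unary and binary relations:
existence. -/

namespace Pool.Agent.TH686.JA

open FirstOrder FirstOrder.Language Filter
open Pool.Agent.W889.FO Pool.Agent.W889.FO.StA
open Pool.Agent.TH686.FO
open Pool.Agent.TH686.MC (MartinN FewCountableModels transferJ tq D_tq)

variable {L : FirstOrder.Language.{0, 0}}

/-- existence -/
theorem exA [L.IsRelational] [Countable (Σ n, L.Relations n)] (M : L.Structure ℕ) :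
    ∃ S : (LA L).Structure ℕ, StA.W S ∧ VA S ∧ SIso ((itp L).D S) M := by
  classical
  let C : Type := ℕ ⊕ (Σ R : (Σ n, L.Relations n),
    {v : Fin R.1 → ℕ // @Structure.RelMap L ℕ M R.1 R.2 v})
  have : Infinite C := Sum.infinite_of_left
  obtain ⟨b⟩ : Nonempty (ℕ ≃ C) := nonempty_equiv_of_countable
  let S : (LA L).Structure ℕ :=
    { funMap := fun {_} f => isEmptyElim f
      RelMap := fun {n} Q => match n, Q with
        | _, RA.dm => fun v => ∃ x, b (v 0) = Sum.inl x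
        | _, @RA.ur _ n R => fun v => ∃ x, b (v 0) = Sum.inr ⟨⟨n, R⟩, x⟩
        | _, @RA.pr _ n R i => fun v => ∃ x, b (v 0) = Sum.inr ⟨⟨n, R⟩, x⟩ ∧
            b (v 1) = Sum.inl (x.1 i) }
  have hdm : ∀ u, dm S u ↔ ∃ x, b u = Sum.inl x := fun u => Iff.rfl
  have hU : ∀ R u, U S R u ↔ ∃ x, b u = Sum.inr ⟨R, x⟩ := fun R u => Iff.rfl
  have hpi : ∀ R i t a, pi S R i t a ↔ ∃ x, b t = Sum.inr ⟨R, x⟩ ∧ b a = Sum.inl (x.1 i) :=
    fun R i t a => Iff.rfl
  have hW : StA.W S := by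
    constructor
    · intro R u hd hu
      obtain ⟨x, hx⟩ := (hdm u).1 hd
      obtain ⟨y, hy⟩ := (hU R u).1 hu
      rw [hx] at hy
      exact absurd hy (by simp)
    · intro R R' u hu hu'
      obtain ⟨x, hx⟩ := (hU R u).1 hu
      obtain ⟨y, hy⟩ := (hU R' u).1 hu'
      rw [hx] at hy
      have := Sum.inr.inj hy
      exact congrArg Sigma.fst this
    · intro R i t a h
      obtain ⟨x, hx, hx'⟩ := (hpi R i t a).1 h
      exact ⟨(hU R t).2 ⟨x, hx⟩, (hdm a).2 ⟨_, hx'⟩⟩
    · intro R i t hu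
      obtain ⟨x, hx⟩ := (hU R t).1 hu
      exact ⟨b.symm (Sum.inl (x.1 i)), (hpi R i _ _).2 ⟨x, hx, by rw [Equiv.apply_symm_apply]⟩⟩
    · intro R i t a a' h h'
      obtain ⟨x, hx, hx'⟩ := (hpi R i t a).1 h
      obtain ⟨y, hy, hy'⟩ := (hpi R i t a').1 h'
      rw [hx] at hy
      have h1 := Sum.inr.inj hy
      rw [Sigma.mk.injEq] at h1
      have h2 : x = y := eq_of_heq h1.2
      apply b.injective
      rw [hx', hy', h2]
    · intro R t t' hu hu' h
      obtain ⟨x, hx⟩ := (hU R t).1 hu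
      obtain ⟨y, hy⟩ := (hU R t').1 hu'
      apply b.injective
      rw [hx, hy]
      congr 2
      apply Subtype.ext
      funext i
      obtain ⟨a, ha, ha'⟩ := h i
      obtain ⟨x1, hx1, hx1'⟩ := (hpi R i t a).1 ha
      obtain ⟨y1, hy1, hy1'⟩ := (hpi R i t' a).1 ha'
      rw [hx] at hx1
      rw [hy] at hy1
      have e1 : x = x1 := by
        have h1 := Sum.inr.inj hx1
        rw [Sigma.mk.injEq] at h1
        exact eq_of_heq h1.2
      have e2 : y = y1 := by
        have h1 := Sum.inr.inj hy1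
        rw [Sigma.mk.injEq] at h1
        exact eq_of_heq h1.2
      rw [e1, e2]
      rw [hx1'] at hy1'
      exact Sum.inl.inj hy1'
    · intro m
      refine ⟨fun i => b.symm (Sum.inl i), fun i j hij => ?_, fun i => ?_⟩
      · have := Sum.inl.inj (b.symm.injective hij)
        exact Fin.ext this
      · exact (hdm _).2 ⟨i, by rw [Equiv.apply_symm_apply]⟩
  have hVA : VA S := by
    intro u hu
    rcases hb : b u with x | ⟨R, x⟩
    · exact hu.1 ((hdm u).2 ⟨x, hb⟩)
    · exact hu.2 R ((hU R u).2 ⟨x, hb⟩)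
  refine ⟨S, hW, hVA, ?_⟩
  obtain ⟨π, hπ⟩ := Pool.Agent.W889.SD.equiv_of_rel
    (fun (x : ℕ) (u : {u // dm S u}) => b u = Sum.inl x)
    (fun x => ⟨⟨b.symm (Sum.inl x), (hdm _).2 ⟨x, by rw [Equiv.apply_symm_apply]⟩⟩, by
      simp⟩)
    (fun u => (hdm _).1 u.2)
    (fun x u u' h h' => Subtype.ext (b.injective (h.trans h'.symm)))
    (fun x x' u h h' => Sum.inl.inj (h.symm.trans h'))
  refine (itp L).D_iso hW π fun {n} R u => ?_
  constructor
  · intro hR
    refine ⟨b.symm (Sum.inr ⟨⟨n, R⟩, ⟨u, hR⟩⟩), (hU _ _).2 ⟨_, by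
      rw [Equiv.apply_symm_apply]⟩, fun i => (hpi _ _ _ _).2 ⟨_, by
        rw [Equiv.apply_symm_apply], hπ (u i)⟩⟩
  · rintro ⟨t, ht, hti⟩
    obtain ⟨x, hx⟩ := (hU _ _).1 ht
    have : u = x.1 := by
      funext i
      obtain ⟨y, hy, hy'⟩ := (hpi _ _ _ _).1 (hti i)
      rw [hx] at hy
      have h1 := Sum.inr.inj hy
      rw [Sigma.mk.injEq] at h1
      have h2 : x = y := eq_of_heq h1.2
      have h3 : b (π (u i)) = Sum.inl (y.1 i) := hy'
      rw [hπ (u i)] at h3
      rw [h2]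
      exact Sum.inl.inj h3
    rw [this]
    exact x.2

/-- the reduction -/
theorem reduceA [L.IsRelational] [Countable (Σ n, L.Relations n)] (T : L.Theory)
    (hfew : FewCountableModels T)
    (hM : ∀ T' : (LA L).Theory, T'.IsComplete → FewCountableModels T' → MartinN T') :
    MartinN T := by
  have : Countable (Σ n, (LA L).Relations n) := countable_LA
  refine transferJ (tq (itp L)) gnA.sup T hfew (fun M _ => ?_) fun T' h1 h2 _ => hM T' h1 h2
  obtain ⟨S, h1, h2, h3⟩ := exA M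
  refine ⟨S, h1, h2, ?_⟩
  rw [D_tq]
  exact h3

end Pool.Agent.TH686.JA
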