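import Pool.Agent.TH686.MC.RichB
import Pool.Agent.TH686.MC.ExA
import Pool.Agent.TH686.MC.Fin
import Pool.Agent.W889.FO.All

set_option autoImplicit false

/-! From languages with unary and binary relations to a finite language: existence. -/

namespace Pool.Agent.TH686.JB

open FirstOrder FirstOrder.Language Filter
open Pool.Agent.W889.FO Pool.Agent.W889.FO.StB
open Pool.Agent.TH686.FO
open Pool.Agent.TH686.DO (DL1)
open Pool.Agent.TH686.MC (MartinN FewCountableModels transferJ tq D_tq exists_finL martin_fin)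

variable {L : FirstOrder.Language.{0, 0}} (B : Bin L)

/-- existence -/
theorem exB [L.IsRelational] (N : L.Structure ℕ) :
    ∃ S : LB.Structure ℕ, StB.W B S ∧ VB S ∧ SIso ((itp B).D S) N := by
  classical
  have : Infinite (ℕ ⊕ (ℕ × ℕ × ℕ)) := Sum.infinite_of_left
  obtain ⟨e⟩ : Nonempty (ℕ ≃ (ℕ ⊕ (ℕ × ℕ × ℕ))) := nonempty_equiv_of_countable
  let mk : ℕ → ℕ → ℕ → Prop := fun a b n => ∃ (R : Σ n, L.Relations n) (v : Fin R.1 → ℕ),
    2 ^ B.p R = n ∧ @Structure.RelMap L ℕ N R.1 R.2 v ∧ v (fi (B.ar _ R.2)) = a ∧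
      v (la (B.ar _ R.2)) = b
  let S : LB.Structure ℕ :=
    { funMap := fun {_} f => isEmptyElim f
      RelMap := fun {n} Q => match n, Q with
        | _, RB.D => fun v => ∃ x, e (v 0) = Sum.inl x
        | _, RB.C => fun v => ∃ a b, e (v 0) = Sum.inr (a, b, 0)
        | _, RB.M => fun v => ∃ a b n, e (v 0) = Sum.inr (a, b, n) ∧ mk a b n
        | _, RB.fs => fun v => ∃ a b, e (v 0) = Sum.inr (a, b, 0) ∧ e (v 1) = Sum.inl a
        | _, RB.sn => fun v => ∃ a b, e (v 0) = Sum.inr (a, b, 0) ∧ e (v 1) = Sum.inl b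
        | _, RB.sc => fun v => ∃ a b n, e (v 0) = Sum.inr (a, b, n) ∧
            e (v 1) = Sum.inr (a, b, n + 1) }
  have hD : ∀ u, D S u ↔ ∃ x, e u = Sum.inl x := fun u => Iff.rfl
  have hC : ∀ u, C S u ↔ ∃ a b, e u = Sum.inr (a, b, 0) := fun u => Iff.rfl
  have hM : ∀ u, M S u ↔ ∃ a b n, e u = Sum.inr (a, b, n) ∧ mk a b n := fun u => Iff.rfl
  have hfs : ∀ c x, bin RB.fs S c x ↔ ∃ a b, e c = Sum.inr (a, b, 0) ∧ e x = Sum.inl a :=
    fun c x => Iff.rfl
  have hsn : ∀ c x, bin RB.sn S c x ↔ ∃ a b, e c = Sum.inr (a, b, 0) ∧ e x = Sum.inl b :=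
    fun c x => Iff.rfl
  have hsc : ∀ x y, bin RB.sc S x y ↔ ∃ a b n, e x = Sum.inr (a, b, n) ∧
    e y = Sum.inr (a, b, n + 1) := fun x y => Iff.rfl
  have hch : ∀ n x y a b m, e x = Sum.inr (a, b, m) → (ch S n x y ↔
      e y = Sum.inr (a, b, m + n)) := by
    intro n x y a b m hx
    induction n generalizing y with
    | zero =>
      show x = y ↔ _
      rw [← e.apply_eq_iff_eq, hx]
      exact eq_comm
    | succ n ih =>
      constructor
      · rintro ⟨z, h1, h2⟩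
        rw [ih] at h1
        obtain ⟨a', b', n', h3, h4⟩ := (hsc z y).1 h2
        rw [h1] at h3
        simp only [Sum.inr.injEq, Prod.mk.injEq] at h3
        obtain ⟨rfl, rfl, rfl⟩ := h3
        rw [h4, Nat.add_assoc]
      · intro h1
        refine ⟨e.symm (Sum.inr (a, b, m + n)), (ih _).2 (by rw [Equiv.apply_symm_apply]),
          (hsc _ _).2 ⟨a, b, m + n, by rw [Equiv.apply_symm_apply], ?_⟩⟩
        rw [h1, Nat.add_assoc]
  -- existence of elements
  have hin : ∀ a b n, ∃ u, e u = Sum.inr (a, b, n) := fun a b n =>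
    ⟨e.symm (Sum.inr (a, b, n)), by rw [Equiv.apply_symm_apply]⟩
  have hil : ∀ a, ∃ u, e u = Sum.inl a := fun a =>
    ⟨e.symm (Sum.inl a), by rw [Equiv.apply_symm_apply]⟩
  have hcase : ∀ u, ¬ D S u → ∃ a b n, e u = Sum.inr (a, b, n) := by
    intro u hu
    rcases hx : e u with x | ⟨a, b, n⟩
    · exact absurd ((hD u).2 ⟨x, hx⟩) hu
    · exact ⟨a, b, n, rfl⟩
  have hnD : ∀ u a b n, e u = Sum.inr (a, b, n) → ¬ D S u := by
    rintro u a b n h ⟨x, hx⟩
    have h1 : e u = Sum.inl x := hx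
    rw [h] at h1
    exact absurd h1 (by simp)
  have hW0 : W0 S := by
    constructor
    · intro u hu hd
      obtain ⟨a, b, h⟩ := (hC u).1 hu
      exact hnD _ _ _ _ h hd
    · intro c x h
      obtain ⟨a, b, h1, h2⟩ := (hfs c x).1 h
      exact ⟨(hC c).2 ⟨a, b, h1⟩, (hD x).2 ⟨a, h2⟩⟩
    · intro c h
      obtain ⟨a, b, h1⟩ := (hC c).1 h
      obtain ⟨u, hu⟩ := hil a
      exact ⟨u, (hfs _ _).2 ⟨a, b, h1, hu⟩⟩
    · intro c x x' h h'
      obtain ⟨a, b, h1, h2⟩ := (hfs c x).1 h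
      obtain ⟨a', b', h3, h4⟩ := (hfs c x').1 h'
      rw [h1] at h3
      simp only [Sum.inr.injEq, Prod.mk.injEq] at h3
      obtain ⟨rfl, rfl, -⟩ := h3
      exact e.injective (h2.trans h4.symm)
    · intro c x h
      obtain ⟨a, b, h1, h2⟩ := (hsn c x).1 h
      exact ⟨(hC c).2 ⟨a, b, h1⟩, (hD x).2 ⟨b, h2⟩⟩
    · intro c h
      obtain ⟨a, b, h1⟩ := (hC c).1 h
      obtain ⟨u, hu⟩ := hil b
      exact ⟨u, (hsn _ _).2 ⟨a, b, h1, hu⟩⟩
    · intro c x x' h h'
      obtain ⟨a, b, h1, h2⟩ := (hsn c x).1 h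
      obtain ⟨a', b', h3, h4⟩ := (hsn c x').1 h'
      rw [h1] at h3
      simp only [Sum.inr.injEq, Prod.mk.injEq] at h3
      obtain ⟨rfl, rfl, -⟩ := h3
      exact e.injective (h2.trans h4.symm)
    · intro a b ha hb
      obtain ⟨x, hx⟩ := (hD a).1 ha
      obtain ⟨y, hy⟩ := (hD b).1 hb
      obtain ⟨c, hc⟩ := hin x y 0
      exact ⟨c, (hfs _ _).2 ⟨x, y, hc, hx⟩, (hsn _ _).2 ⟨x, y, hc, hy⟩⟩
    · intro a b c c' h1 h2 h3 h4
      obtain ⟨x1, y1, k1, k2⟩ := (hfs _ _).1 h1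
      obtain ⟨x2, y2, k3, k4⟩ := (hfs _ _).1 h2
      obtain ⟨x3, y3, k5, k6⟩ := (hsn _ _).1 h3
      obtain ⟨x4, y4, k7, k8⟩ := (hsn _ _).1 h4
      rw [k1] at k5
      rw [k3] at k7
      rw [k2] at k4
      rw [k6] at k8
      simp only [Sum.inr.injEq, Prod.mk.injEq] at k5 k7
      simp only [Sum.inl.injEq] at k4 k8
      obtain ⟨rfl, rfl, -⟩ := k5
      obtain ⟨rfl, rfl, -⟩ := k7
      subst k4
      subst k8
      exact e.injective (k1.trans k3.symm)
    · intro x y h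
      obtain ⟨a, b, n, h1, h2⟩ := (hsc _ _).1 h
      exact ⟨hnD _ _ _ _ h1, hnD _ _ _ _ h2⟩
    · intro x hx
      obtain ⟨a, b, n, h1⟩ := hcase x hx
      obtain ⟨y, hy⟩ := hin a b (n + 1)
      exact ⟨y, (hsc _ _).2 ⟨a, b, n, h1, hy⟩⟩
    · intro x y y' h h'
      obtain ⟨a, b, n, h1, h2⟩ := (hsc _ _).1 h
      obtain ⟨a', b', n', h3, h4⟩ := (hsc _ _).1 h'
      rw [h1] at h3
      simp only [Sum.inr.injEq, Prod.mk.injEq] at h3
      obtain ⟨rfl, rfl, rfl⟩ := h3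
      exact e.injective (h2.trans h4.symm)
    · intro x x' y h h'
      obtain ⟨a, b, n, h1, h2⟩ := (hsc _ _).1 h
      obtain ⟨a', b', n', h3, h4⟩ := (hsc _ _).1 h'
      rw [h2] at h4
      simp only [Sum.inr.injEq, Prod.mk.injEq, Nat.add_right_cancel_iff] at h4
      obtain ⟨rfl, rfl, rfl⟩ := h4
      exact e.injective (h1.trans h3.symm)
    · intro x y hy h
      obtain ⟨a, b, h1⟩ := (hC y).1 hy
      obtain ⟨a', b', n', h3, h4⟩ := (hsc _ _).1 h
      rw [h1] at h4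
      simp at h4
    · intro y hy hc
      obtain ⟨a, b, n, h1⟩ := hcase y hy
      cases n with
      | zero => exact absurd ((hC y).2 ⟨a, b, h1⟩) hc
      | succ n =>
        obtain ⟨x, hx⟩ := hin a b n
        exact ⟨x, (hsc _ _).2 ⟨a, b, n, hx, h1⟩⟩
    · intro u hu
      obtain ⟨a, b, n, h1, -⟩ := (hM u).1 hu
      exact hnD _ _ _ _ h1
    · intro n x h
      have hx : ¬ D S x := by
        obtain ⟨z, -, h2⟩ := h
        obtain ⟨a, b, n, h3, h4⟩ := (hsc _ _).1 h2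
        exact hnD _ _ _ _ h4
      obtain ⟨a, b, m, h1⟩ := hcase x hx
      rw [hch _ _ _ _ _ _ h1, h1] at h
      simp only [Sum.inr.injEq, Prod.mk.injEq] at h
      omega
    · intro n x y h hx hy
      obtain ⟨a, b, m, h1, R, v, hR, -, -, -⟩ := (hM x).1 hx
      obtain ⟨a', b', m', h2, R', v', hR', -, -, -⟩ := (hM y).1 hy
      rw [hch _ _ _ _ _ _ h1, h2] at h
      simp only [Sum.inr.injEq, Prod.mk.injEq] at h
      obtain ⟨rfl, rfl, h3⟩ := h
      obtain ⟨c, hc⟩ := hin a' b' 0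
      have hlt : B.p R < B.p R' := by
        rw [← Nat.pow_lt_pow_iff_right (a := 2) (by norm_num)]
        omega
      have hle : 2 ^ (B.p R + 1) ≤ 2 ^ B.p R' := Nat.pow_le_pow_right (by norm_num) hlt
      have hm : m < n + 2 := by
        rw [Nat.pow_succ] at hle
        omega
      refine ⟨c, (hC c).2 ⟨_, _, hc⟩, ⟨m, hm⟩, ?_⟩
      rw [hch _ _ _ _ _ _ hc, h1, Nat.zero_add]
    · intro m
      refine ⟨fun i => e.symm (Sum.inl i), fun i j hij => ?_, fun i => ?_⟩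
      · have := Sum.inl.inj (e.symm.injective hij)
        exact Fin.ext this
      · exact (hD _).2 ⟨i, by rw [Equiv.apply_symm_apply]⟩
  have hW : StB.W B S := by
    refine ⟨hW0, ?_, ?_⟩
    · intro n hn c x hc hcx hx
      obtain ⟨a, b, h1⟩ := (hC c).1 hc
      rw [hch _ _ _ _ _ _ h1, Nat.zero_add] at hcx
      obtain ⟨a', b', m', h2, R', v', hR', -, -, -⟩ := (hM x).1 hx
      rw [hcx] at h2
      simp only [Sum.inr.injEq, Prod.mk.injEq] at h2
      obtain ⟨rfl, rfl, rfl⟩ := h2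
      exact hn R' hR'
    · intro R hR c x y z h1 h2 h3 h4
      obtain ⟨a, b, k1, k2⟩ := (hfs _ _).1 h1
      obtain ⟨a', b', k3, k4⟩ := (hsn _ _).1 h2
      rw [hch _ _ _ _ _ _ k1, Nat.zero_add] at h3
      obtain ⟨a'', b'', m', k5, R', v', hR', -, k6, k7⟩ := (hM x).1 h4
      rw [k1] at k3
      rw [h3] at k5
      simp only [Sum.inr.injEq, Prod.mk.injEq] at k3 k5
      obtain ⟨rfl, rfl, -⟩ := k3
      obtain ⟨rfl, rfl, k8⟩ := k5
      have hRR : R = R' := B.inj (Nat.pow_right_injective le_rfl (k8.trans hR'.symm))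
      subst hRR
      have e1 : fi (B.ar _ R.2) = la (B.ar _ R.2) := by
        apply Fin.ext
        show 0 = R.1 - 1
        omega
      rw [← e1, k6] at k7
      apply e.injective
      rw [k2, k4, k7]
  have hVB : VB S := by
    constructor
    · rintro u ⟨h1, h2⟩
      obtain ⟨a, b, n, h3, -⟩ := (hM u).1 h1
      obtain ⟨c, hc⟩ := hin a b 0
      refine h2 n c ((hC c).2 ⟨a, b, hc⟩) ?_
      rw [hch _ _ _ _ _ _ hc, h3, Nat.zero_add]
    · rintro u ⟨h1, h2⟩
      obtain ⟨a, b, n, h3⟩ := hcase u h1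
      obtain ⟨c, hc⟩ := hin a b 0
      refine (h2 c ⟨0, n, u, rfl, ?_⟩).2.1 ((hC c).2 ⟨a, b, hc⟩)
      rw [hch _ _ _ _ _ _ hc, h3, Nat.zero_add]
  refine ⟨S, hW, hVB, ?_⟩
  obtain ⟨π, hπ⟩ := Pool.Agent.W889.SD.equiv_of_rel
    (fun (x : ℕ) (u : {u // D S u}) => e u = Sum.inl x)
    (fun x => ⟨⟨e.symm (Sum.inl x), (hD _).2 ⟨x, by rw [Equiv.apply_symm_apply]⟩⟩, by
      simp⟩)
    (fun u => (hD _).1 u.2)
    (fun x u u' h h' => Subtype.ext (e.injective (h.trans h'.symm)))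
    (fun x x' u h h' => Sum.inl.inj (h.symm.trans h'))
  refine (itp B).D_iso hW π fun {n} R u => ?_
  constructor
  · intro hR
    obtain ⟨c, hc⟩ := hin (u (fi (B.ar n R))) (u (la (B.ar n R))) 0
    obtain ⟨x, hx⟩ := hin (u (fi (B.ar n R))) (u (la (B.ar n R))) (2 ^ B.p ⟨n, R⟩)
    refine ⟨c, x, (hfs _ _).2 ⟨_, _, hc, hπ _⟩, (hsn _ _).2 ⟨_, _, hc, hπ _⟩, ?_,
      (hM x).2 ⟨_, _, _, hx, ⟨n, R⟩, u, rfl, hR, rfl, rfl⟩⟩
    rw [hch _ _ _ _ _ _ hc, Nat.zero_add]
    exact hx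
  · rintro ⟨c, x, h1, h2, h3, h4⟩
    obtain ⟨a, b, k1, k2⟩ := (hfs _ _).1 h1
    obtain ⟨a', b', k3, k4⟩ := (hsn _ _).1 h2
    rw [hch _ _ _ _ _ _ k1, Nat.zero_add] at h3
    obtain ⟨a'', b'', m', k5, R', v', hR', kR, k6, k7⟩ := (hM x).1 h4
    rw [k1] at k3
    rw [h3] at k5
    simp only [Sum.inr.injEq, Prod.mk.injEq] at k3 k5
    obtain ⟨rfl, rfl, -⟩ := k3
    obtain ⟨rfl, rfl, k8⟩ := k5
    have hRR : (⟨n, R⟩ : Σ n, L.Relations n) = R' :=
      B.inj (Nat.pow_right_injective le_rfl (k8.trans hR'.symm))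
    subst hRR
    have hu : u = v' := by
      refine ext_v (B.ar n R) u v' ?_ ?_
      · refine Eq.trans ?_ k6.symm
        exact Sum.inl.inj ((hπ _).symm.trans k2)
      · refine Eq.trans ?_ k7.symm
        exact Sum.inl.inj ((hπ _).symm.trans k4)
    rw [hu]
    exact kR

/-- the reduction -/
theorem reduceB {L : FirstOrder.Language.{0, 0}} (B : Bin L) [L.IsRelational] (T : L.Theory) (hfew : FewCountableModels T)
    (hM : ∀ T' : LB.Theory, T'.IsComplete → FewCountableModels T' → MartinN T') :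
    MartinN T := by
  have : Countable (Σ n, L.Relations n) := B.inj.countable
  have : Countable (Σ n, LB.Relations n) := countable_LB
  refine transferJ (tq (itp B)) (gnB B).sup T hfew (fun M _ => ?_) fun T' h1 h2 _ => hM T' h1 h2
  obtain ⟨S, h1, h2, h3⟩ := exB B M
  refine ⟨S, h1, h2, ?_⟩
  rw [D_tq]
  exact h3

/-- Martin's conjecture for countable relational languages follows from its restriction to pairs of
dense linear orders. -/
theorem martin_rel [L.IsRelational] [Countable (Σ n, L.Relations n)]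
    (hV : ∀ T : L2.Theory, T.IsComplete → FewCountableModels T →
      (∀ S : L2.Structure ℕ, @Theory.Model L2 ℕ S T → DL1 (g1 S) ∧ DL1 (g2 S)) → MartinN T)
    (T : L.Theory) (hfew : FewCountableModels T) : MartinN T := by
  refine JA.reduceA T hfew fun T1 _ h1 => ?_
  have := StA.countable_LA (L := L)
  obtain ⟨p, hp⟩ := Countable.exists_injective_nat (Σ n, (StA.LA L).Relations n)
  refine reduceB (L := StA.LA L) ⟨fun n Q => ?_, p, hp⟩ T1 h1 fun T2 _ h2 => ?_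
  · cases Q with
    | dm => exact Or.inl rfl
    | ur R => exact Or.inl rfl
    | pr R i => exact Or.inr rfl
  · have := Pool.Agent.W889.FO.finite_LB
    have : Nonempty (Σ n, LB.Relations n) := ⟨⟨1, RB.D⟩⟩
    obtain ⟨A⟩ := exists_finL LB
    exact martin_fin A hV T2 h2

end Pool.Agent.TH686.JB
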