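import Pool.Agent.TH686.MC.Rob3

set_option autoImplicit false

/-! Expansions of interpreted structures. -/

namespace Pool.Agent.TH686.MC

open FirstOrder FirstOrder.Language Filter
open Pool.Agent.W889.FO
open Pool.Agent.TH686.FO

/-- the relation symbols of an expansion -/
inductive Rx (L : FirstOrder.Language.{0, 0}) {ι : Type} (a : ι → ℕ) : ℕ → Type
  | old {n : ℕ} (R : L.Relations n) : Rx L a n
  | new (i : ι) : Rx L a (a i)

/-- the language of an expansion -/
def Lx (L : FirstOrder.Language.{0, 0}) {ι : Type} (a : ι → ℕ) : FirstOrder.Language.{0, 0} :=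
  ⟨fun _ => Empty, Rx L a⟩

instance (L : FirstOrder.Language.{0, 0}) {ι : Type} (a : ι → ℕ) : (Lx L a).IsRelational :=
  fun _ => inferInstanceAs (IsEmpty Empty)

variable {L L' : FirstOrder.Language.{0, 0}} {ι : Type} {a : ι → ℕ}

theorem countable_Lx [Countable (Σ n, L.Relations n)] [Countable ι] :
    Countable (Σ n, (Lx L a).Relations n) := by
  refine Function.Surjective.countable (α := (Σ n, L.Relations n) ⊕ ι)
    (f := fun x => match x with
      | Sum.inl p => ⟨p.1, Rx.old p.2⟩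
      | Sum.inr i => ⟨a i, Rx.new i⟩) ?_
  rintro ⟨n, R⟩
  cases R with
  | old R => exact ⟨Sum.inl ⟨_, R⟩, rfl⟩
  | new i => exact ⟨Sum.inr i, rfl⟩

/-- the reduct -/
@[reducible] def rd [L.IsRelational] (S : (Lx L a).Structure ℕ) : L.Structure ℕ where
  funMap := fun {_} f => isEmptyElim f
  RelMap := fun {n} R v => @Structure.RelMap (Lx L a) ℕ S n (Rx.old R) v

/-- the new relations -/
def px (S : (Lx L a).Structure ℕ) (i : ι) (v : Fin (a i) → ℕ) : Prop :=
  @Structure.RelMap (Lx L a) ℕ S (a i) (Rx.new i) v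

/-- an expansion -/
@[reducible] def xp (S : L.Structure ℕ) (P : ∀ i, (Fin (a i) → ℕ) → Prop) :
    (Lx L a).Structure ℕ where
  funMap := fun {_} f => Empty.elim f
  RelMap := fun {n} R => match n, R with
    | _, Rx.old R => fun v => @Structure.RelMap L ℕ S _ R v
    | _, Rx.new i => P i

theorem px_xp (S : L.Structure ℕ) (P : ∀ i, (Fin (a i) → ℕ) → Prop) (i : ι)
    (v : Fin (a i) → ℕ) : px (xp S P) i v ↔ P i v := Iff.rfl

theorem rd_xp [L.IsRelational] (S : L.Structure ℕ) (P : ∀ i, (Fin (a i) → ℕ) → Prop) :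
    rd (xp S P) = S := by
  cases S with
  | mk f r =>
    have : @f = fun {_} g => isEmptyElim g := by
      funext n g
      exact isEmptyElim g
    subst this
    rfl

/-- the inclusion of languages -/
def inc (L : FirstOrder.Language.{0, 0}) [L.IsRelational] {ι : Type} (a : ι → ℕ) :
    L →ᴸ Lx L a where
  onFunction := fun {_} f => isEmptyElim f
  onRelation := fun {_} R => Rx.old R

theorem fd_rd [L.IsRelational] {W : L.Structure ℕ → Prop} {α : Type}
    {P : L.Structure ℕ → (α → ℕ) → Prop} (h : FD W P) :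
    FD (fun S : (Lx L a).Structure ℕ => W (rd S)) (fun S v => P (rd S) v) := by
  obtain ⟨ψ, hψ⟩ := h
  refine ⟨(inc L a).onFormula ψ, fun S hS v => ?_⟩
  show _ ↔ P (rd S) v
  rw [← hψ (rd S) hS v]
  let _ : L.Structure ℕ := rd S
  let _ : (Lx L a).Structure ℕ := S
  have : (inc L a).IsExpansionOn ℕ :=
    { map_onFunction := fun {_} f _ => isEmptyElim f
      map_onRelation := fun {_} R _ => rfl }
  exact LHom.realize_onFormula (M := ℕ) (inc L a) ψ

theorem ax_rd [L.IsRelational] {W : L.Structure ℕ → Prop} (h : Ax W) :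
    Ax (fun S : (Lx L a).Structure ℕ => W (rd S)) := by
  obtain ⟨T, hT⟩ := h
  have h1 : ∀ φ : T, Ax (fun S : (Lx L a).Structure ℕ => @Sentence.Realize L ℕ (rd S) φ.1) := by
    intro φ
    refine Ax.of ((fd_rd (a := a) (W := fun _ => True)
      (P := fun S (_ : Empty → ℕ) => @Sentence.Realize L ℕ S φ.1) ?_))
    refine (fd_rz (φ.1 : L.BoundedFormula Empty 0) Fin.elim0).congr fun S _ v => ?_
    rw [rz_sentence]
  refine (Ax.all h1).congr fun S => ?_
  rw [← hT]
  exact ⟨fun h => ax_iff.2 fun φ hφ => h ⟨φ, hφ⟩, fun h φ => ax_iff.1 h φ.1 φ.2⟩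

theorem fd_px {W : (Lx L a).Structure ℕ → Prop} {α : Type} (i : ι) (t : Fin (a i) → α) :
    FD W (fun S v => px S i (fun j => v (t j))) :=
  FD.rel (L := Lx L a) (Rx.new i : Rx L a (a i)) t

/-- the interpretation of expansions in expansions -/
def ixp [L.IsRelational] [L'.IsRelational] (I : Itq L L') (a : ι → ℕ) :
    Itq (Lx L a) (Lx L' a) where
  W := fun S => I.W (rd S) ∧ (∀ i (u : Fin (a i) → ℕ), px S i u → ∀ j, I.dom (rd S) (u j)) ∧
    ∀ i (u u' : Fin (a i) → ℕ), px S i u → (∀ j, I.dom (rd S) (u' j)) →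
      (∀ j, I.eqv (rd S) (u j) (u' j)) → px S i u'
  axW := by
    have h0 : Ax (fun S : (Lx L' a).Structure ℕ => I.W (rd S)) := ax_rd I.axW
    have h1 : ∀ i, Ax (fun S : (Lx L' a).Structure ℕ => I.W (rd S) ∧
        ∀ (u : Fin (a i) → ℕ), px S i u → ∀ j, I.dom (rd S) (u j)) := by
      intro i
      refine Ax.of_fd h0 ?_
      refine FD.all (P := fun S (_ : Empty → ℕ) (u : Fin (a i) → ℕ) => px S i u →
        ∀ j, I.dom (rd S) (u j)) ?_
      refine (fd_px i fun j => Sum.inr j).imp (FD.fin fun j => ?_)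
      exact (fd_rd I.fdom).sub fun _ => Sum.inr j
    have h2 : ∀ i, Ax (fun S : (Lx L' a).Structure ℕ => I.W (rd S) ∧
        ∀ (u u' : Fin (a i) → ℕ), px S i u → (∀ j, I.dom (rd S) (u' j)) →
        (∀ j, I.eqv (rd S) (u j) (u' j)) → px S i u') := by
      intro i
      refine Ax.of_fd h0 ?_
      refine FD.all (P := fun S (_ : Empty → ℕ) (u : Fin (a i) → ℕ) => ∀ u' : Fin (a i) → ℕ,
        px S i u → (∀ j, I.dom (rd S) (u' j)) → (∀ j, I.eqv (rd S) (u j) (u' j)) →
        px S i u') ?_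
      refine FD.all (P := fun S (v : Empty ⊕ Fin (a i) → ℕ) (u' : Fin (a i) → ℕ) =>
        px S i (fun j => v (Sum.inr j)) → (∀ j, I.dom (rd S) (u' j)) →
        (∀ j, I.eqv (rd S) (v (Sum.inr j)) (u' j)) → px S i u') ?_
      refine (fd_px i fun j => Sum.inl (Sum.inr j)).imp ((FD.fin fun j => ?_).imp
        ((FD.fin fun j => ?_).imp (fd_px i fun j => Sum.inr j)))
      · exact (fd_rd I.fdom).sub fun _ => Sum.inr j
      · exact (fd_rd I.feqv).sub ![Sum.inl (Sum.inr j), Sum.inr j]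
    refine (h0.and ((Ax.all h1).and (Ax.all h2))).congr fun S => ?_
    exact ⟨fun ⟨k0, k1, k2⟩ => ⟨k0, fun i => (k1 i).2, fun i => (k2 i).2⟩,
      fun ⟨k0, k1, k2⟩ => ⟨k0, fun i => ⟨k0, k1 i⟩, fun i => ⟨k0, k2 i⟩⟩⟩
  dom := fun S => I.dom (rd S)
  eqv := fun S => I.eqv (rd S)
  rel := fun {n} R => match n, R with
    | _, Rx.old R => fun S v => I.rel R (rd S) v
    | _, Rx.new i => fun S v => px S i v
  fdom := (fd_rd I.fdom).mono fun S h => h.1
  feqv := (fd_rd I.feqv).mono fun S h => h.1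
  frel := fun {n} R => match n, R with
    | _, Rx.old R => (fd_rd (I.frel R)).mono fun S h => h.1
    | _, Rx.new i => fd_px i id
  refl := fun S h => I.refl (rd S) h.1
  symm := fun S h => I.symm (rd S) h.1
  trans := fun S h => I.trans (rd S) h.1
  cong := fun S h n R => match n, R with
    | _, Rx.old R => I.cong (rd S) h.1 R
    | _, Rx.new i => fun u v _ h2 h3 h4 => h.2.2 i u v h4 h2 h3
  inf := fun S h => I.inf (rd S) h.1

end Pool.Agent.TH686.MC
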