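import Pool.Agent.TH686.MC.MdG
import Pool.Agent.TH783.MD.Brg

set_option autoImplicit false

/-! The structures which interpret graphs in star and clique crossings: all vertices are definable
over the interpreted graph, or belong to one of finitely many sets of twins. -/

namespace Pool.Agent.TH686.MC.FcG

open FirstOrder FirstOrder.Language
open Pool.Agent.W889.FO
open Pool.Agent.W889.FO.StE (LG gd)
open Pool.Agent.W889.SD (Big Pth Subd Adj')
open Pool.Agent.W889.SD (equiv_of_rel)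
open Pool.Agent.TH783.FC

section gen

variable {T : Type} {k : ℕ} {y : T → T → Prop}

/-- The isomorphisms of the graphs on the big vertices extend. -/
theorem subd_ext {S : Type} {z : S → S → Prop} (hy : Subd k y) (hz : Subd k z)
    (π : {u // Big y u} ≃ {u // Big z u})
    (hπ : ∀ u v : {u // Big y u}, Adj' k y u v ↔ Adj' k z (π u) (π v))
    (ι : {u // ∀ v, ¬ y u v} ≃ {u // ∀ v, ¬ z u v}) :
    ∃ e : T ≃ S, (∀ u v, y u v ↔ z (e u) (e v)) ∧ ∀ u (hu : Big y u), e u = π ⟨u, hu⟩ := by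
  classical
  -- the correspondence
  let R : T → S → Prop := fun u v =>
    (∃ hu : Big y u, v = π ⟨u, hu⟩) ∨ (∃ hu : ∀ v, ¬ y u v, v = ι ⟨u, hu⟩) ∨
    ∃ (w w' : {u // Big y u}) (p : Fin (k + 1) → T) (q : Fin (k + 1) → S) (i : Fin (k + 1)),
      Pth k y w p w' ∧ Pth k z (π w) q (π w') ∧ u = p i ∧ v = q i
  -- the ends of the paths
  have pos : ∀ {w p w'}, Pth k y w p w' → ∀ i, ∃ v, y (p i) v := by
    intro w p w' hp i
    by_cases hi : (i : ℕ) = k
    · exact ⟨_, hp.en i hi⟩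
    · exact ⟨_, hp.mid i ⟨i + 1, by have := i.2; omega⟩ rfl⟩
  have nIB : ∀ u, Big y u → ¬ ∀ v, ¬ y u v := fun u ⟨a, _, _, _, _, _, h, _⟩ h' => h' a h
  have h1 : ∀ s, ∃ t, R s t := by
    intro u
    by_cases hu : Big y u
    · exact ⟨_, Or.inl ⟨hu, rfl⟩⟩
    · rcases hy.cov u hu with h | ⟨w, p, w', i, h, h'⟩
      · exact ⟨_, Or.inr (Or.inl ⟨h, rfl⟩)⟩
      · obtain ⟨q, hq⟩ := (hπ ⟨w, h.bw⟩ ⟨w', h.bw'⟩).1 ⟨p, h⟩
        exact ⟨q i, Or.inr (Or.inr ⟨⟨w, h.bw⟩, ⟨w', h.bw'⟩, p, q, i, h, hq, h'.symm, rfl⟩)⟩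
  have h2 : ∀ t, ∃ s, R s t := by
    intro u
    by_cases hu : Big z u
    · refine ⟨π.symm ⟨u, hu⟩, Or.inl ⟨(π.symm ⟨u, hu⟩).2, ?_⟩⟩
      simp
    · rcases hz.cov u hu with h | ⟨w, p, w', i, h, h'⟩
      · refine ⟨ι.symm ⟨u, h⟩, Or.inr (Or.inl ⟨(ι.symm ⟨u, h⟩).2, ?_⟩)⟩
        simp
      · obtain ⟨v, hv⟩ := π.surjective ⟨w, h.bw⟩
        obtain ⟨v', hv'⟩ := π.surjective ⟨w', h.bw'⟩
        have e1 : (π v : S) = w := by rw [hv]
        have e2 : (π v' : S) = w' := by rw [hv']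
        obtain ⟨q, hq⟩ := (hπ v v').2 ⟨p, by rw [e1, e2]; exact h⟩
        exact ⟨q i, Or.inr (Or.inr ⟨v, v', q, p, i, hq, by rw [e1, e2]; exact h, rfl, h'.symm⟩)⟩
  have h3 : ∀ s t t', R s t → R s t' → t = t' := by
    rintro u v v' (⟨h, rfl⟩ | ⟨h, rfl⟩ | ⟨w, w', p, q, i, h, h', h'', rfl⟩)
      (⟨k1, rfl⟩ | ⟨k1, rfl⟩ | ⟨x, x', p', q', i', k1, k2, k3, rfl⟩)
    · rfl
    · exact absurd k1 (nIB u h)
    · exact absurd (k3 ▸ h) (k1.nb i')
    · exact absurd h (nIB u k1)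
    · rfl
    · obtain ⟨v, hv⟩ := pos k1 i'
      exact absurd (k3 ▸ hv) (h v)
    · exact absurd (h'' ▸ k1) (h.nb i)
    · obtain ⟨v, hv⟩ := pos h i
      exact absurd (h'' ▸ hv) (k1 v)
    · rcases hy.uniq w p w' x p' x' i i' h k1 (h''.symm.trans k3) with ⟨e1, e2, e3⟩ | ⟨e1, e2, e3⟩
      · have e1' := Subtype.ext e1
        have e2' := Subtype.ext e2
        subst e1' e2' e3
        rw [hz.uq _ _ _ _ h' k2]
      · have e1' := Subtype.ext e1
        have e2' := Subtype.ext e2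
        subst e1' e2'
        have := hz.uq _ _ _ _ h' (k2.rev hz.symm)
        rw [this]
        show q' i.rev = q' i'
        congr 1
        apply Fin.ext
        rw [Fin.val_rev]
        omega
  have h4 : ∀ s s' t, R s t → R s' t → s = s' := by
    have nIB' : ∀ u, Big z u → ¬ ∀ v, ¬ z u v := fun u ⟨a, _, _, _, _, _, h, _⟩ h' => h' a h
    have pos' : ∀ {w p w'}, Pth k z w p w' → ∀ i, ∃ v, z (p i) v := by
      intro w p w' hp i
      by_cases hi : (i : ℕ) = k
      · exact ⟨_, hp.en i hi⟩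
      · exact ⟨_, hp.mid i ⟨i + 1, by have := i.2; omega⟩ rfl⟩
    rintro u u' v (⟨h, h'⟩ | ⟨h, h'⟩ | ⟨w, w', p, q, i, h, h', h'', e⟩)
      (⟨k1, k2⟩ | ⟨k1, k2⟩ | ⟨x, x', p', q', i', k1, k2, k3, e'⟩)
    · have := π.injective (Subtype.ext (h'.symm.trans k2))
      exact congrArg Subtype.val this
    · have b1 : Big z v := by rw [h']; exact (π _).2
      have b2 : ∀ t, ¬ z v t := by rw [k2]; exact (ι _).2
      exact absurd b2 (nIB' v b1)
    · have b1 : Big z v := by rw [h']; exact (π _).2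
      exact absurd (e' ▸ b1) (k2.nb i')
    · have b1 : Big z v := by rw [k2]; exact (π _).2
      have b2 : ∀ t, ¬ z v t := by rw [h']; exact (ι _).2
      exact absurd b2 (nIB' v b1)
    · have := ι.injective (Subtype.ext (h'.symm.trans k2))
      exact congrArg Subtype.val this
    · have b2 : ∀ t, ¬ z v t := by rw [h']; exact (ι _).2
      obtain ⟨t, ht⟩ := pos' k2 i'
      exact absurd (e' ▸ ht) (b2 t)
    · have b1 : Big z v := by rw [k2]; exact (π _).2
      exact absurd (e ▸ b1) (h'.nb i)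
    · have b2 : ∀ t, ¬ z v t := by rw [k2]; exact (ι _).2
      obtain ⟨t, ht⟩ := pos' h' i
      exact absurd (e ▸ ht) (b2 t)
    · rcases hz.uniq _ q _ _ q' _ i i' h' k2 (e.symm.trans e') with ⟨e1, e2, e3⟩ | ⟨e1, e2, e3⟩
      · have e1' := π.injective (Subtype.ext e1)
        have e2' := π.injective (Subtype.ext e2)
        subst e1' e2' e3
        rw [h'', k3, hy.uq _ _ _ _ h k1]
      · have e1' := π.injective (Subtype.ext e1)
        have e2' := π.injective (Subtype.ext e2)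
        subst e1' e2'
        have := hy.uq _ _ _ _ h (k1.rev hy.symm)
        rw [h'', k3, this]
        show p' i.rev = p' i'
        congr 1
        apply Fin.ext
        rw [Fin.val_rev]
        omega
  obtain ⟨e, he⟩ := equiv_of_rel R h1 h2 h3 h4
  -- adjacency
  have key : ∀ u u' v v', R u v → R u' v' → y u u' → z v v' := by
    have main : ∀ u u' v v' (w w' : {u // Big y u}) (p : Fin (k + 1) → T) (q : Fin (k + 1) → S)
        (i : Fin (k + 1)), Pth k y w p w' → Pth k z (π w) q (π w') → u = p i → v = q i →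
        R u' v' → y u u' → z v v' := by
      intro u u' v v' w w' p q i h h' hu hv hr hyy
      subst hu hv
      rcases hy.cl w p w' i u' h hyy with ⟨e1, e2⟩ | ⟨e1, e2⟩ | ⟨j, e1, e2⟩
      · subst e1
        have e3 : v' = π w := h3 _ _ _ hr (Or.inl ⟨w.2, rfl⟩)
        rw [e3]
        exact hz.symm _ _ (h'.st i e2)
      · subst e1
        have e3 : v' = π w' := h3 _ _ _ hr (Or.inl ⟨w'.2, rfl⟩)
        rw [e3]
        exact h'.en i e2
      · subst e1
        have e3 : v' = q j := h3 _ _ _ hr (Or.inr (Or.inr ⟨w, w', p, q, j, h, h', rfl, rfl⟩))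
        rw [e3]
        rcases e2 with e2 | e2
        · exact h'.mid i j e2
        · exact hz.symm _ _ (h'.mid j i e2)
    intro u u' v v' hr hr' hyy
    rcases hr with ⟨h, hv⟩ | ⟨h, hv⟩ | ⟨w, w', p, q, i, h, h', hu, hv⟩
    · rcases hr' with ⟨k1, k2⟩ | ⟨k1, k2⟩ | ⟨x, x', p', q', i', k1, k2, k3, k4⟩
      · exact absurd hyy (hy.indep _ _ h k1)
      · exact absurd (hy.symm _ _ hyy) (k1 _)
      · exact hz.symm _ _ (main u' u v' v x x' p' q' i' k1 k2 k3 k4 (Or.inl ⟨h, hv⟩)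
          (hy.symm _ _ hyy))
    · exact absurd hyy (h _)
    · exact main u u' v v' w w' p q i h h' hu hv hr' hyy
  have key' : ∀ u u' v v', R u v → R u' v' → z v v' → y u u' := by
    have main : ∀ u u' v v' (w w' : {u // Big y u}) (p : Fin (k + 1) → T) (q : Fin (k + 1) → S)
        (i : Fin (k + 1)), Pth k y w p w' → Pth k z (π w) q (π w') → u = p i → v = q i →
        R u' v' → z v v' → y u u' := by
      intro u u' v v' w w' p q i h h' hu hv hr hyy
      subst hu hv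
      rcases hz.cl _ q _ i v' h' hyy with ⟨e1, e2⟩ | ⟨e1, e2⟩ | ⟨j, e1, e2⟩
      · subst e1
        have e3 : u' = w := h4 _ _ _ hr (Or.inl ⟨w.2, rfl⟩)
        rw [e3]
        exact hy.symm _ _ (h.st i e2)
      · subst e1
        have e3 : u' = w' := h4 _ _ _ hr (Or.inl ⟨w'.2, rfl⟩)
        rw [e3]
        exact h.en i e2
      · subst e1
        have e3 : u' = p j := h4 _ _ _ hr (Or.inr (Or.inr ⟨w, w', p, q, j, h, h', rfl, rfl⟩))
        rw [e3]
        rcases e2 with e2 | e2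
        · exact h.mid i j e2
        · exact hy.symm _ _ (h.mid j i e2)
    intro u u' v v' hr hr' hyy
    rcases hr with ⟨h, hv⟩ | ⟨h, hv⟩ | ⟨w, w', p, q, i, h, h', hu, hv⟩
    · rcases hr' with ⟨k1, k2⟩ | ⟨k1, k2⟩ | ⟨x, x', p', q', i', k1, k2, k3, k4⟩
      · rw [hv, k2] at hyy
        exact absurd hyy (hz.indep _ _ (π _).2 (π _).2)
      · rw [hv, k2] at hyy
        exact absurd (hz.symm _ _ hyy) ((ι _).2 _)
      · exact hy.symm _ _ (main u' u v' v x x' p' q' i' k1 k2 k3 k4 (Or.inl ⟨h, hv⟩)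
          (hz.symm _ _ hyy))
    · rw [hv] at hyy
      exact absurd hyy ((ι _).2 _)
    · exact main u u' v v' w w' p q i h h' hu hv hr' hyy
  exact ⟨e, fun u v => ⟨key _ _ _ _ (he u) (he v), key' _ _ _ _ (he u) (he v)⟩,
    fun u hu => h3 _ _ _ (he u) (Or.inl ⟨hu, rfl⟩)⟩

end gen

section ext

variable {r : ℕ} {f : ℕ → ℕ → Prop} {X fl X' fl' : ℕ → ℕ → Prop}

/-- the isomorphisms of the graphs on the roots extend -/
theorem w1_ext (h : W1 r f X fl) (h' : W1 r f X' fl') (π : {u // Big X u} ≃ {u // Big X' u})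
    (hπ : ∀ u v : {u // Big X u}, Adj' (2 * r) X u v ↔ Adj' (2 * r) X' (π u) (π v)) :
    ∃ e : ℕ ≃ ℕ, (∀ u v, X u v ↔ X' (e u) (e v)) ∧ (∀ u v, fl u v ↔ fl' (e u) (e v)) ∧
      ∀ u (hu : Big X u), e u = π ⟨u, hu⟩ := by
  classical
  obtain ⟨ι, hι⟩ := fib_equiv (fun i : {u // ∀ v, ¬ X u v} => ty r X fl i)
    (fun i : {u // ∀ v, ¬ X' u v} => ty r X' fl' i) (h.fib h')
  obtain ⟨e, he, heπ⟩ := subd_ext h.sd h'.sd π hπ ι
  let E : ℕ ≃ ℕ := (Equiv.sumCompl fun u => ∀ v, ¬ X u v).symm.trans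
    ((Equiv.sumCongr ι (e.subtypeEquiv fun u => not_congr (iso_map e he u))).trans
      (Equiv.sumCompl fun u => ∀ v, ¬ X' u v))
  have E1 : ∀ u (hu : ∀ v, ¬ X u v), E u = ι ⟨u, hu⟩ := by
    intro u hu
    show (Equiv.sumCompl _) ((Equiv.sumCongr ι _) ((Equiv.sumCompl _).symm u)) = _
    rw [Equiv.sumCompl_symm_apply_of_pos hu]
    rfl
  have E2 : ∀ u (hu : ¬ ∀ v, ¬ X u v), E u = e u := by
    intro u hu
    show (Equiv.sumCompl _) ((Equiv.sumCongr ι _) ((Equiv.sumCompl _).symm u)) = _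
    rw [Equiv.sumCompl_symm_apply_of_neg hu]
    rfl
  have hX : ∀ u v, X u v ↔ X' (E u) (E v) := by
    intro u v
    by_cases hu : ∀ v, ¬ X u v
    · have h1 := (ι ⟨u, hu⟩).2
      rw [E1 u hu]
      exact ⟨fun h2 => absurd h2 (hu v), fun h2 => absurd h2 (h1 _)⟩
    · by_cases hv : ∀ u, ¬ X v u
      · have h1 := (ι ⟨v, hv⟩).2
        rw [E1 v hv]
        exact ⟨fun h2 => absurd (h.sd.symm _ _ h2) (hv u),
          fun h2 => absurd (h'.sd.symm _ _ h2) (h1 _)⟩
      · rw [E2 u hu, E2 v hv]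
        exact he u v
  refine ⟨E, hX, ?_, fun u hu => ?_⟩
  · have hla : ∀ u (a : Fin (r + 2)), La r f X fl u a → La r f X' fl' (E u) a := by
      intro u a ha
      rcases ha with ha | ⟨hu, ha⟩
      · exact Or.inl ((ly_map E hX u a).1 ha)
      · refine Or.inr ⟨(iso_map E hX u).1 hu, ?_⟩
        rw [E1 u hu]
        refine h'.tt_of_ty (ι ⟨u, hu⟩).2 a fun b => ?_
        have h1 := hι ⟨u, hu⟩
        have h2 : ty r X' fl' (ι ⟨u, hu⟩) b ↔ ty r X fl u b := iff_of_eq (congrFun h1 b)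
        rw [h2]
        exact ((h.ty_iff a).1 ha).1 b
    intro u v
    obtain ⟨a, ha⟩ := h.cov u
    obtain ⟨b, hb⟩ := h.cov v
    rw [h.fli a b u v ha hb, h'.fli a b _ _ (hla u a ha) (hla v b hb), E.injective.ne_iff]
  · have h1 : ¬ ∀ v, ¬ X u v := fun h1 => by
      obtain ⟨a, _, _, _, _, _, h2, _⟩ := hu
      exact h1 a h2
    rw [E2 u h1, heπ u hu]

theorem fli_irr (h : W1 r f X fl) (u : ℕ) : ¬ fl u u := by
  obtain ⟨a, ha⟩ := h.cov u
  rw [h.fli a a u u ha ha]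
  exact fun h => h.1 rfl

theorem fli_sy (h : W1 r f X fl) (hf : ∀ a b, f a b → f b a) {u v : ℕ} (huv : fl u v) :
    fl v u := by
  obtain ⟨a, ha⟩ := h.cov u
  obtain ⟨b, hb⟩ := h.cov v
  rw [h.fli a b u v ha hb] at huv
  rw [h.fli b a v u hb ha]
  exact ⟨huv.1.symm, hf _ _ huv.2⟩

theorem gr_irr (h : W1 r f X fl) (s : Bool) (u : ℕ) :
    ¬ Pool.Agent.TH783.FC.flip (En s r X) fl u u := fun h1 =>
  h1 (iff_of_false (en_irr s h.sd u) (fli_irr h u))

theorem gr_sy (h : W1 r f X fl) (hf : ∀ a b, f a b → f b a) (s : Bool) {u v : ℕ}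
    (huv : Pool.Agent.TH783.FC.flip (En s r X) fl u v) :
    Pool.Agent.TH783.FC.flip (En s r X) fl v u := by
  have h1 : fl u v ↔ fl v u := ⟨fli_sy h hf, fli_sy h hf⟩
  have h2 : En s r X u v ↔ En s r X v u := ⟨en_symm s h.sd, en_symm s h.sd⟩
  revert huv
  unfold Pool.Agent.TH783.FC.flip
  rw [h1, h2]
  exact id

end ext

section itp

variable {r : ℕ} {s : Bool} {f : ℕ → ℕ → Prop}

theorem sw (hf : ∀ a b, f a b → f b a) (a : Fin (r + 2))
    (S : LG.Structure ℕ) (x y : ℕ) (h : WF r s f S)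
    (hx : (∀ v, ¬ Xd s S x v) ∧ TT r f (Xd s S) (fd S) x a)
    (hy : (∀ v, ¬ Xd s S y v) ∧ TT r f (Xd s S) (fd S) y a) :
    ∃ σ : @FirstOrder.Language.Equiv LG ℕ ℕ S S, ∀ v, σ v = Equiv.swap x y v := by
  have hgd : gd S = Pool.Agent.TH783.FC.flip (En s r (Xd s S)) (fd S) := by
    funext u v
    exact propext (h.eq u v)
  refine sw_of_tw (fun u => by rw [hgd]; exact gr_irr h.w s u)
    (fun u v huv => by rw [hgd] at huv ⊢; exact gr_sy h.w hf s huv) fun w hw hw' => ?_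
  rw [hgd]
  obtain ⟨b, hb⟩ := h.w.cov w
  have e1 := h.w.fli a b x w (Or.inr hx) hb
  have e2 := h.w.fli a b y w (Or.inr hy) hb
  have e3 := (en_iso h.w.sd s x).2 hx.1 w
  have e4 := (en_iso h.w.sd s y).2 hy.1 w
  have e5 := Ne.symm hw
  have e6 := Ne.symm hw'
  unfold Pool.Agent.TH783.FC.flip
  tauto

theorem upF (S S' : LG.Structure ℕ) (h : WF r s f S) (h' : WF r s f S')
    (π : {u // Big (Xd s S) u} ≃ {u // Big (Xd s S') u})
    (hπ : ∀ {n : ℕ} (R : LG.Relations n) (u : Fin n → {u // Big (Xd s S) u}),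
      (itp r s f).rel R S (fun i => u i) ↔ (itp r s f).rel R S' (fun i => π (u i))) :
    ∃ g : @FirstOrder.Language.Equiv LG ℕ ℕ S S', ∀ u (hu : Big (Xd s S) u),
      g u = π ⟨u, hu⟩ := by
  obtain ⟨e, h1, h2, h3⟩ := w1_ext h.w h'.w π
    (fun u v => hπ FirstOrder.Language.graphRel.adj (fun m => if m = 0 then u else v))
  obtain ⟨g, hg⟩ := siso_gr (S := S) (S' := S') e fun u v => by
    rw [h.eq, h'.eq]
    unfold Pool.Agent.TH783.FC.flip
    rw [← en_map e h1 s u v, ← h2]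
  exact ⟨g, fun u hu => (hg u).trans (h3 u hu)⟩

/-- sizes of supports -/
def wdF (r : ℕ) : Option (Fin (2 * r + 1)) → ℕ
  | none => 1
  | some _ => 2

/-- supports of elements -/
def chF (r : ℕ) (s : Bool) : ∀ κ : Option (Fin (2 * r + 1)),
    LG.Structure ℕ → ℕ → (Fin (wdF r κ) → ℕ) → Prop
  | none => fun S x w => Big (Xd s S) x ∧ w (0 : Fin 1) = x
  | some i => fun S x w => ∃ p : Fin (2 * r + 1) → ℕ,
      Pth (2 * r) (Xd s S) (w (0 : Fin 2)) p (w (1 : Fin 2)) ∧ p i = x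

theorem fd_chF (κ : Option (Fin (2 * r + 1))) : FD (WF r s f)
    (fun S (v : Unit ⊕ Fin (wdF r κ) → ℕ) =>
      chF r s κ S (v (Sum.inl ())) (fun j => v (Sum.inr j))) := by
  cases κ with
  | none => exact ((fd2_Xd s).big _ _).and (FD.eq _ _)
  | some i =>
    refine FD.ex (P := fun S v (p : Fin (2 * r + 1) → ℕ) =>
      Pth (2 * r) (Xd s S) (v (Sum.inr (0 : Fin 2))) p (v (Sum.inr (1 : Fin 2))) ∧
        p i = v (Sum.inl ())) ?_
    exact ((fd2_Xd s).pth (2 * r) (Sum.inl (Sum.inr (0 : Fin 2))) (fun m => Sum.inr m)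
      (Sum.inl (Sum.inr (1 : Fin 2)))).and (FD.eq _ _)

/-- supports -/
noncomputable def gt (r : ℕ) (s : Bool) (f : ℕ → ℕ → Prop)
    (hf : ∀ a b, f a b → f b a) : Gt (itp r s f) (fun _ => True) (fun _ => ()) where
  K := Option (Fin (2 * r + 1))
  wd := wdF r
  χ := chF r s
  fd := fun κ => fd_chF κ
  dom := fun κ S x w _ hc j => by
    cases κ with
    | none =>
      have e : j = (0 : Fin 1) := Subsingleton.elim (α := Fin 1) _ _
      subst e
      have h1 : w (0 : Fin 1) = x := hc.2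
      show Big (Xd s S) (w (0 : Fin 1))
      rw [h1]
      exact hc.1
    | some i =>
      obtain ⟨p, hp, -⟩ := hc
      have e : ∀ j : Fin 2, Big (Xd s S) (w j) := fun j => by
        fin_cases j
        · exact hp.bw
        · exact hp.bw'
      exact e j
  fn := fun κ => by
    classical
    cases κ with
    | none =>
      refine ⟨Unit, inferInstance, fun S x h => ⟨fun _ => (), fun w w' hc hc' _ => ?_⟩⟩
      funext j
      have e : j = (0 : Fin 1) := Subsingleton.elim (α := Fin 1) _ _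
      subst e
      exact hc.2.trans hc'.2.symm
    | some i =>
      refine ⟨Bool, inferInstance, fun S x h => ⟨fun w => decide (w (0 : Fin 2) < w (1 : Fin 2)),
        fun w w' hc hc' he => ?_⟩⟩
      obtain ⟨p, hp, hx⟩ := hc
      obtain ⟨p', hp', hx'⟩ := hc'
      have he' : (w (0 : Fin 2) < w (1 : Fin 2)) ↔ (w' (0 : Fin 2) < w' (1 : Fin 2)) := by
        simpa using he
      have key : w' (0 : Fin 2) = w (0 : Fin 2) ∧ w' (1 : Fin 2) = w (1 : Fin 2) := by
        rcases h.w.sd.uniq _ _ _ _ _ _ i i hp hp' (hx.trans hx'.symm) with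
          ⟨h1, h2, -⟩ | ⟨h1, h2, -⟩
        · exact ⟨h1, h2⟩
        · exfalso
          have h3 := hp.ne
          rw [h1, h2] at he'
          omega
      have e : ∀ j : Fin 2, w j = w' j := fun j => by
        fin_cases j
        · exact key.1.symm
        · exact key.2.symm
      funext j
      exact e j
  fx := fun κ S x x' w h hc hc' => by
    cases κ with
    | none => exact hc.2.symm.trans hc'.2
    | some i =>
      obtain ⟨p, hp, hx⟩ := hc
      obtain ⟨p', hp', hx'⟩ := hc'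
      rw [← hx, ← hx', h.w.sd.uq _ _ _ _ hp hp']
  C := Fin (r + 2)
  Z := fun a S x => (∀ v, ¬ Xd s S x v) ∧ TT r f (Xd s S) (fd S) x a
  fz := fun a => ((fd2_Xd s).iso _ ()).and ((fd2_Xd s).tt fd2_fd r f a _ ())
  sw := fun a S x y h hx hy => sw hf a S x y h hx hy
  tot := fun S h _ x => by
    by_cases hb : Big (Xd s S) x
    · exact Or.inl ⟨none, fun _ => x, hb, rfl⟩
    · rcases h.w.sd.cov x hb with h1 | ⟨w, p, w', i, hp, hx⟩
      · obtain ⟨a, ha | ha⟩ := h.w.cov x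
        · obtain ⟨v, hv⟩ := ly_noniso ha
          exact absurd hv (h1 v)
        · exact Or.inr ⟨a, ha⟩
      · exact Or.inl ⟨some i, ![w, w'], p, hp, hx⟩
  up := fun S S' h h' _ π hπ => upF S S' h h' π hπ
  rich := fun _ _ _ _ _ _ _ => ⟨∅, ∅, Set.countable_empty, Set.countable_empty,
    fun _ _ _ _ _ _ => rfl⟩

end itp

end Pool.Agent.TH686.MC.FcG
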