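import Pool.Agent.TH686.FO.Inst

set_option autoImplicit false

/-! Grids describing structures with finitely many relations: axioms with finitely many
multiplicities. -/

namespace Pool.Agent.TH686.MC

open FirstOrder FirstOrder.Language
open Pool.Agent.W889.FO Pool.Agent.W889.VC Pool.Agent.W889.VC.Grid
open Pool.Agent.W889.FO.StA (FD.all1 FD.ex1)
open Pool.Agent.TH686.FO (FG FB FU x0 x1 x2 x3 x4 x5)

/-- the colours of cells -/
abbrev Kx (a : ℕ → ℕ) (N : ℕ) : Type := Bool ⊕ (Σ i : Fin N, (Fin (a i) → Bool))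

/-- the multiplicities -/
def kv {a : ℕ → ℕ} {N : ℕ} : Kx a N → ℕ
  | Sum.inl false => 1
  | Sum.inl true => 2
  | Sum.inr f => 3 + Nat.pair f.1 (Encodable.encode f.2)

theorem kv_inj {a : ℕ → ℕ} {N : ℕ} : Function.Injective (kv (a := a) (N := N)) := by
  rintro (b | ⟨i, f⟩) (b' | ⟨i', g⟩) h
  · cases b <;> cases b' <;> simp [kv] at h ⊢
  · cases b
    · have : (1 : ℕ) = 3 + Nat.pair i' (Encodable.encode g) := h
      omega
    · have : (2 : ℕ) = 3 + Nat.pair i' (Encodable.encode g) := h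
      omega
  · cases b'
    · have : 3 + Nat.pair i (Encodable.encode f) = (1 : ℕ) := h
      omega
    · have : 3 + Nat.pair i (Encodable.encode f) = (2 : ℕ) := h
      omega
  · have h1 : 3 + Nat.pair i (Encodable.encode f) = 3 + Nat.pair i' (Encodable.encode g) := h
    obtain ⟨h2, h3⟩ := Nat.pair_eq_pair.1 (Nat.add_left_cancel h1)
    obtain rfl : i = i' := Fin.ext h2
    rw [Encodable.encode_injective h3]

theorem kv_pos {a : ℕ → ℕ} {N : ℕ} (j : Kx a N) : 0 < kv j := by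
  rcases j with b | f
  · cases b <;> simp [kv]
  · show 0 < 3 + Nat.pair f.1 (Encodable.encode f.2)
    omega

variable (a : ℕ → ℕ) (N : ℕ)

/-- two rows have the same multiplicities -/
def SK (γ : Grid ℕ) (r r' : ℕ) : Prop :=
  ∀ c, γ.C c → ∀ j : Kx a N, (γ.Mult r c (kv j) ↔ γ.Mult r' c (kv j))

/-- two columns have the same multiplicities -/
def SCK (γ : Grid ℕ) (c c' : ℕ) : Prop :=
  ∀ r, γ.R r → ∀ j : Kx a N, (γ.Mult r c (kv j) ↔ γ.Mult r c' (kv j))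

/-- the column marks the class of the row `r` -/
def MkC (γ : Grid ℕ) (c r : ℕ) : Prop :=
  ∀ r', γ.R r' → (SK a N γ r' r → γ.Mult r' c (kv (Sum.inl true : Kx a N))) ∧
    (¬ SK a N γ r' r → γ.Mult r' c (kv (Sum.inl false : Kx a N)))

/-- the column is the tuple of the classes of the rows `s` in the relation number `i` -/
def EdC (γ : Grid ℕ) (i : Fin N) (c : ℕ) (s : Fin (a i) → ℕ) : Prop :=
  ∀ r', γ.R r' → ∀ f : Fin (a i) → Bool, (∀ j, (SK a N γ r' (s j) ↔ f j = true)) →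
    γ.Mult r' c (kv (Sum.inr ⟨i, f⟩ : Kx a N))

/-- the axioms -/
structure Gd (γ : Grid ℕ) : Prop where
  base : Base γ
  denR : ∀ r r1 r2, γ.R r → γ.R r1 → γ.R r2 → γ.lt r1 r2 →
    ∃ r', γ.R r' ∧ γ.lt r1 r' ∧ γ.lt r' r2 ∧ SK a N γ r' r
  denC : ∀ r r1 r2, γ.C r → γ.C r1 → γ.C r2 → γ.lt r1 r2 →
    ∃ r', γ.C r' ∧ γ.lt r1 r' ∧ γ.lt r' r2 ∧ SCK a N γ r' r
  inf : ∀ n : ℕ, ∃ X : Fin n → ℕ, (∀ i, γ.R (X i)) ∧ ∀ i j, SK a N γ (X i) (X j) → i = j
  col : ∀ c, γ.C c → (∃ r, γ.R r ∧ MkC a N γ c r) ∨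
    ∃ (i : Fin N) (s : Fin (a i) → ℕ), (∀ j, γ.R (s j)) ∧ EdC a N γ i c s
  mark : ∀ r, γ.R r → ∃ c, γ.C c ∧ MkC a N γ c r

variable {a N} {γ : Grid ℕ}

theorem SK.refl (γ : Grid ℕ) (r : ℕ) : SK a N γ r r := fun _ _ _ => Iff.rfl

theorem SK.symm {r r' : ℕ} (h : SK a N γ r r') : SK a N γ r' r := fun c hc j => (h c hc j).symm

theorem SK.trans {r r' r'' : ℕ} (h : SK a N γ r r') (h' : SK a N γ r' r'') : SK a N γ r r'' :=
  fun c hc j => (h c hc j).trans (h' c hc j)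

theorem SK.cl {r r' s : ℕ} (h : SK a N γ r r') : SK a N γ s r ↔ SK a N γ s r' :=
  ⟨fun k => k.trans h, fun k => k.trans h.symm⟩

theorem EdC.cong {i : Fin N} {c : ℕ} {s s' : Fin (a i) → ℕ} (h : EdC a N γ i c s)
    (h1 : ∀ j, SK a N γ (s j) (s' j)) : EdC a N γ i c s' :=
  fun t ht f k => h t ht f fun j => (h1 j).cl.trans (k j)

/-- each cell has one of the multiplicities -/
theorem Gd.fin (h : Gd a N γ) {r c : ℕ} (hr : γ.R r) (hc : γ.C c) :
    ∃ j : Kx a N, γ.Mult r c (kv j) := by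
  classical
  rcases h.col c hc with ⟨s, -, h1⟩ | ⟨i, s, -, h1⟩
  · by_cases h2 : SK a N γ r s
    · exact ⟨_, (h1 r hr).1 h2⟩
    · exact ⟨_, (h1 r hr).2 h2⟩
  · exact ⟨_, h1 r hr (fun j => decide (SK a N γ r (s j))) (fun j => by simp)⟩

theorem Gd.same (h : Gd a N γ) {r r' : ℕ} (hr : γ.R r) (hr' : γ.R r') :
    SK a N γ r r' ↔ γ.Same r r' := by
  constructor
  · intro h1 c hc k
    obtain ⟨j, hj⟩ := h.fin hr hc
    have hj' := (h1 c hc j).1 hj
    constructor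
    · intro h2
      rw [h2.uniq hj]
      exact hj'
    · intro h2
      rw [h2.uniq hj']
      exact hj
  · intro h1 c hc j
    exact h1 c hc _

theorem Gd.sameC (h : Gd a N γ) {c c' : ℕ} (hc : γ.C c) (hc' : γ.C c') (h1 : SCK a N γ c c') :
    γ.SameC c c' := by
  intro r hr k
  obtain ⟨j, hj⟩ := h.fin hr hc
  have hj' := (h1 r hr j).1 hj
  constructor
  · intro h2
    rw [h2.uniq hj]
    exact hj'
  · intro h2
    rw [h2.uniq hj']
    exact hj

theorem Gd.infR (h : Gd a N γ) (M : ℕ) : ∃ r, M ≤ r ∧ γ.rep r := by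
  by_contra hcon
  push Not at hcon
  obtain ⟨X, h1, h2⟩ := h.inf (M + 1)
  choose g hg1 hg2 using fun i => exists_rep γ (X i) (h1 i)
  have h3 : ∀ i, g i < M := fun i => by
    by_contra h4
    exact hcon (g i) (by omega) (hg1 i)
  have h4 : Function.Injective (fun i => (⟨g i, h3 i⟩ : Fin M)) := by
    intro i j hij
    have h5 : g i = g j := congrArg Fin.val hij
    refine h2 i j ((h.same (h1 i) (h1 j)).2 ?_)
    refine (hg2 i).symm.trans ?_
    rw [h5]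
    exact hg2 j
  have := Fintype.card_le_of_injective _ h4
  simp at this

/-- the class of a row -/
theorem Gd.cls (_ : Gd a N γ) {r : ℕ} (hr : γ.R r) :
    ∃ n r0, γ.Rth n r0 ∧ γ.Same r0 r := by
  obtain ⟨r0, h1, h2⟩ := exists_rep γ r hr
  classical
  exact ⟨Nat.count γ.rep r0, r0, Rth_iff.2 ⟨h1, rfl⟩, h2⟩

theorem Gd.ind (h : Gd a N γ) {n m r r' : ℕ} (hr : γ.Rth n r) (hr' : γ.Rth m r') :
    SK a N γ r r' ↔ n = m := by
  rw [h.same hr.1.1 hr'.1.1]
  constructor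
  · intro h1
    have h2 := rep_eq hr.1 hr'.1 h1
    subst h2
    exact Rth_inj hr hr'
  · rintro rfl
    have h2 := Rth_uniq hr hr'
    subst h2
    exact Same.refl γ r

theorem Gd.colM (h : Gd a N γ) {c r n r0 : ℕ} (h1 : MkC a N γ c r)
    (h2 : γ.Rth n r0) (h3 : SK a N γ r0 r) : γ.ColT c (Sum.inl n : Tup a) := by
  intro m s hs
  by_cases hmn : m = n
  · subst hmn
    have h4 := Rth_uniq hs h2
    subst h4
    have := (h1 s hs.1.1).1 h3
    simpa [lam, kv] using this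
  · have h4 : ¬ SK a N γ s r := fun k => hmn ((h.ind hs h2).1 (k.trans h3.symm))
    have := (h1 s hs.1.1).2 h4
    simpa [lam, kv, hmn] using this

theorem Gd.colE (h : Gd a N γ) {i : Fin N} {c : ℕ} {s s0 v : Fin (a i) → ℕ}
    (h1 : EdC a N γ i c s) (h2 : ∀ j, γ.Rth (v j) (s0 j)) (h3 : ∀ j, SK a N γ (s0 j) (s j)) :
    γ.ColT c (Sum.inr ⟨i, v⟩ : Tup a) := by
  intro m t ht
  have h6 := h1 t ht.1.1 (fun j => decide (v j = m)) (fun j => by
    rw [← (h3 j).cl, h.ind ht (h2 j), decide_eq_true_eq]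
    exact eq_comm)
  exact h6

theorem Gd.goodN (h : Gd a N γ) : GoodN a γ where
  base := h.base
  denR := by
    intro r r1 r2 hr h1 h2 h3
    obtain ⟨r', h4, h5, h6, h7⟩ := h.denR r r1 r2 hr h1 h2 h3
    exact ⟨r', h4, h5, h6, (h.same h4 hr).1 h7⟩
  denC := by
    intro r r1 r2 hr h1 h2 h3
    obtain ⟨r', h4, h5, h6, h7⟩ := h.denC r r1 r2 hr h1 h2 h3
    exact ⟨r', h4, h5, h6, h.sameC h4 hr h7⟩
  inf := h.infR
  col := by
    intro c hc
    rcases h.col c hc with ⟨r, hr, h1⟩ | ⟨i, s, hs, h1⟩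
    · obtain ⟨n, r0, h2, h3⟩ := h.cls hr
      exact ⟨_, h.colM h1 h2 ((h.same h2.1.1 hr).2 h3)⟩
    · choose v s0 h2 h3 using fun j => h.cls (hs j)
      exact ⟨_, h.colE h1 h2 (fun j => (h.same (h2 j).1.1 (hs j)).2 (h3 j))⟩
  mark := by
    intro n
    obtain ⟨r, hr⟩ := Rth_exists h.infR n
    obtain ⟨c, hc, h1⟩ := h.mark r hr.1.1
    exact ⟨c, hc, h.colM h1 hr (SK.refl γ r)⟩

theorem Gd.uT (h : Gd a N γ) {c : ℕ} {t t' : Tup a} (h1 : γ.ColT c t) (h2 : γ.ColT c t') :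
    t = t' := by
  refine lam_inj t t' fun n => ?_
  obtain ⟨r, hr⟩ := Rth_exists h.infR n
  exact (h1 n r hr).uniq (h2 n r hr)

theorem Gd.dec_ne (h : Gd a N γ) {i : ℕ} (hi : N ≤ i) (v : Fin (a i) → ℕ) :
    dec a γ i v = false := by
  unfold dec
  rw [decide_eq_false_iff_not]
  rintro ⟨c, hc, h1⟩
  rcases h.col c hc with ⟨r, hr, h2⟩ | ⟨i', s, hs, h2⟩
  · obtain ⟨n, r0, h3, h4⟩ := h.cls hr
    have h5 := h.uT h1 (h.colM h2 h3 ((h.same h3.1.1 hr).2 h4))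
    exact absurd h5 (by simp)
  · choose v' s0 h3 h4 using fun j => h.cls (hs j)
    have h7 := h.uT h1 (h.colE h2 h3 (fun j => (h.same (h3 j).1.1 (hs j)).2 (h4 j)))
    rw [Sum.inr.injEq, Sigma.mk.injEq] at h7
    have := i'.2
    omega

theorem Gd.dec_iff (h : Gd a N γ) (i : Fin N) (v : Fin (a i) → ℕ) :
    dec a γ i v = true ↔ ∃ u : Fin (a i) → ℕ, (∀ j, γ.Rth (v j) (u j)) ∧
      ∃ c, γ.C c ∧ EdC a N γ i c u := by
  simp only [dec, decide_eq_true_eq]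
  constructor
  · rintro ⟨c, hc, h1⟩
    rcases h.col c hc with ⟨r, hr, h2⟩ | ⟨i', s, hs, h2⟩
    · obtain ⟨n, r0, h3, h4⟩ := h.cls hr
      have h5 := h.uT h1 (h.colM h2 h3 ((h.same h3.1.1 hr).2 h4))
      exact absurd h5 (by simp)
    · choose v' s0 h3 h4 using fun j => h.cls (hs j)
      have k3 : ∀ j, SK a N γ (s0 j) (s j) := fun j => (h.same (h3 j).1.1 (hs j)).2 (h4 j)
      have h7 := h.uT h1 (h.colE h2 h3 k3)
      rw [Sum.inr.injEq, Sigma.mk.injEq] at h7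
      obtain ⟨h8, h9⟩ := h7
      obtain rfl : i = i' := Fin.ext h8
      obtain rfl : v = v' := eq_of_heq h9
      exact ⟨s0, h3, c, hc, h2.cong fun j => (k3 j).symm⟩
  · rintro ⟨u, h1, c, hc, h2⟩
    exact ⟨c, hc, h.colE h2 h1 (fun j => SK.refl γ _)⟩

/-- grids of structures with finitely many relations satisfy the axioms -/
theorem gd_of_lab (hb : Base γ) {x : Str a} (hx : ∀ i v, N ≤ i → x i v = false)
    {κ : ℕ → ℕ} {κ' : ℕ → Tup a} (h : Lab γ x κ κ') : Gd a N γ := by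
  classical
  have hmu : ∀ r c k, γ.R r → γ.C c → (γ.Mult r c k ↔ k = lam (κ r) (κ' c)) := by
    intro r c k hr hc
    have h1 := h.mult r c hr hc
    exact ⟨fun h2 => h2.uniq h1, fun h2 => h2 ▸ h1⟩
  have hsame : ∀ r r', γ.R r → γ.R r' → (SK a N γ r r' ↔ κ r = κ r') := by
    intro r r' hr hr'
    constructor
    · intro h1
      obtain ⟨c, hc, h2⟩ := (h.sC (Sum.inl (κ r))).2 trivial
      have h3 := (h1 c hc (Sum.inl true)).1 ((hmu r c _ hr hc).2 (by rw [h2]; simp [lam, kv]))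
      rw [hmu r' c _ hr' hc, h2] at h3
      by_contra hne
      have h4 : ¬ κ r' = κ r := fun h => hne h.symm
      simp [lam, kv, h4] at h3
    · intro h1 c hc j
      rw [hmu r c _ hr hc, hmu r' c _ hr' hc, h1]
  have hmark : ∀ c n, γ.C c → κ' c = Sum.inl n → ∀ r, γ.R r → κ r = n → MkC a N γ c r := by
    intro c n hc h1 r hr h2 r' hr'
    refine ⟨fun h3 => ?_, fun h3 => ?_⟩
    · rw [hsame r' r hr' hr] at h3
      rw [hmu r' c _ hr' hc, h1]
      simp [lam, kv, h3, h2]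
    · rw [hsame r' r hr' hr, h2] at h3
      rw [hmu r' c _ hr' hc, h1]
      simp [lam, kv, h3]
  refine ⟨hb, ?_, ?_, ?_, ?_, ?_⟩
  · intro r r1 r2 hr h1 h2 h3
    obtain ⟨r', h4, h5, h6, h7⟩ := h.denR r r1 r2 hr h1 h2 h3
    exact ⟨r', h4, h5, h6, (hsame r' r h4 hr).2 h7⟩
  · intro r r1 r2 hr h1 h2 h3
    obtain ⟨r', h4, h5, h6, h7⟩ := h.denC r r1 r2 hr h1 h2 h3
    refine ⟨r', h4, h5, h6, fun s hs j => ?_⟩
    rw [hmu s r' _ hs h4, hmu s r _ hs hr, h7]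
  · intro n
    choose X h1 h2 using fun i : Fin n => h.sR (i : ℕ)
    refine ⟨X, h1, fun i j h3 => ?_⟩
    rw [hsame _ _ (h1 i) (h1 j), h2, h2] at h3
    exact Fin.ext h3
  · intro c hc
    have h1 := (h.sC (κ' c)).1 ⟨c, hc, rfl⟩
    rcases h2 : κ' c with n | ⟨i, v⟩
    · left
      obtain ⟨r, hr, h3⟩ := h.sR n
      exact ⟨r, hr, hmark c n hc h2 r hr h3⟩
    · right
      rw [h2] at h1
      have h3 : i < N := by
        by_contra h4
        have := hx i v (not_lt.1 h4)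
        have h5 : x i v = true := h1
        rw [this] at h5
        exact absurd h5 (by decide)
      choose s hs hs2 using fun j => h.sR (v j)
      refine ⟨⟨i, h3⟩, s, hs, fun t ht f k => ?_⟩
      rw [hmu t c _ ht hc, h2]
      have h6 : f = fun j => decide (v j = κ t) := by
        funext j
        have k1 := k j
        rw [hsame t (s j) ht (hs j), hs2] at k1
        rw [Bool.eq_iff_iff, decide_eq_true_eq]
        exact k1.symm.trans eq_comm
      rw [h6]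
      rfl
  · intro r hr
    obtain ⟨c, hc, h1⟩ := (h.sC (Sum.inl (κ r))).2 trivial
    exact ⟨c, hc, hmark c _ hc h1 r hr rfl⟩

/-! ### the axioms are first-order -/

section fd

variable {L' : FirstOrder.Language.{0, 0}} {D : L'.Structure ℕ → Grid ℕ} {α : Type}

theorem fdSK (h : FG D) (i j : α) :
    FD (fun _ => True) (fun S v => SK a N (D S) (v i) (v j)) := by
  have h1 : FD (fun _ => True) (fun S v => ∀ c, (D S).C c → ∀ t : Kx a N,
      ((D S).Mult (v i) c (kv t) ↔ (D S).Mult (v j) c (kv t))) :=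
    FD.all1 <| (h.C x0).imp <| FD.fin fun t =>
      (h.Mult (kv t) (Sum.inl i) x0).iff (h.Mult (kv t) (Sum.inl j) x0)
  exact h1

theorem fdSCK (h : FG D) (i j : α) :
    FD (fun _ => True) (fun S v => SCK a N (D S) (v i) (v j)) := by
  have h1 : FD (fun _ => True) (fun S v => ∀ r, (D S).R r → ∀ t : Kx a N,
      ((D S).Mult r (v i) (kv t) ↔ (D S).Mult r (v j) (kv t))) :=
    FD.all1 <| (h.R x0).imp <| FD.fin fun t =>
      (h.Mult (kv t) x0 (Sum.inl i)).iff (h.Mult (kv t) x0 (Sum.inl j))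
  exact h1

theorem fdMkC (h : FG D) (i j : α) :
    FD (fun _ => True) (fun S v => MkC a N (D S) (v i) (v j)) := by
  have h1 : FD (fun _ => True) (fun S v => ∀ r', (D S).R r' →
      (SK a N (D S) r' (v j) → (D S).Mult r' (v i) (kv (Sum.inl true : Kx a N))) ∧
      (¬ SK a N (D S) r' (v j) → (D S).Mult r' (v i) (kv (Sum.inl false : Kx a N)))) :=
    FD.all1 <| (h.R x0).imp <|
      ((fdSK h x0 (Sum.inl j)).imp (h.Mult _ x0 (Sum.inl i))).and
      ((fdSK h x0 (Sum.inl j)).not.imp (h.Mult _ x0 (Sum.inl i)))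
  exact h1

theorem fdEdC (h : FG D) (i : Fin N) (c : α) (s : Fin (a i) → α) :
    FD (fun _ => True) (fun S v => EdC a N (D S) i (v c) (fun j => v (s j))) := by
  have h1 : FD (fun _ => True) (fun S v => ∀ r', (D S).R r' → ∀ f : Fin (a i) → Bool,
      (∀ j, (SK a N (D S) r' (v (s j)) ↔ f j = true)) →
      (D S).Mult r' (v c) (kv (Sum.inr ⟨i, f⟩ : Kx a N))) :=
    FD.all1 <| (h.R x0).imp <| FD.fin fun f =>
      (FD.fin fun j => (fdSK h x0 (Sum.inl (s j))).iff (FD.const _)).imp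
        (h.Mult _ x0 (Sum.inl c))
  exact h1

/-- the axioms are first-order -/
theorem axGd (h : FG D) : Ax (fun S => Gd a N (D S)) := by
  have h1 : Ax (fun S => ∀ r r1 r2, (D S).R r → (D S).R r1 → (D S).R r2 → (D S).lt r1 r2 →
      ∃ r', (D S).R r' ∧ (D S).lt r1 r' ∧ (D S).lt r' r2 ∧ SK a N (D S) r' r) :=
    Ax.of <| FD.all1 <| FD.all1 <| FD.all1 <| (h.R x2).imp <| (h.R x1).imp <| (h.R x0).imp <|
      (h.lt x1 x0).imp <| FD.ex1 <| (h.R x0).and <| (h.lt x2 x0).and <| (h.lt x0 x1).and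
      (fdSK h x0 x3)
  have h2 : Ax (fun S => ∀ r r1 r2, (D S).C r → (D S).C r1 → (D S).C r2 → (D S).lt r1 r2 →
      ∃ r', (D S).C r' ∧ (D S).lt r1 r' ∧ (D S).lt r' r2 ∧ SCK a N (D S) r' r) :=
    Ax.of <| FD.all1 <| FD.all1 <| FD.all1 <| (h.C x2).imp <| (h.C x1).imp <| (h.C x0).imp <|
      (h.lt x1 x0).imp <| FD.ex1 <| (h.C x0).and <| (h.lt x2 x0).and <| (h.lt x0 x1).and
      (fdSCK h x0 x3)
  have h3 : Ax (fun S => ∀ n : ℕ, ∃ X : Fin n → ℕ, (∀ i, (D S).R (X i)) ∧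
      ∀ i j, SK a N (D S) (X i) (X j) → i = j) :=
    Ax.all fun n => Ax.of <| FD.ex (P := fun S _ (X : Fin n → ℕ) => (∀ i, (D S).R (X i)) ∧
      ∀ i j, SK a N (D S) (X i) (X j) → i = j) <|
      (FD.fin fun i => h.R (Sum.inr i)).and <| FD.fin fun i => FD.fin fun j =>
        (fdSK h (Sum.inr i) (Sum.inr j)).imp (FD.const (i = j))
  have hE : ∀ i : Fin N, FD (fun _ => True) (fun S (v : Empty ⊕ Unit → ℕ) =>
      ∃ s : Fin (a i) → ℕ, (∀ j, (D S).R (s j)) ∧ EdC a N (D S) i (v x0) s) := by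
    intro i
    refine FD.ex (P := fun S (v : Empty ⊕ Unit → ℕ) (s : Fin (a i) → ℕ) =>
      (∀ j, (D S).R (s j)) ∧ EdC a N (D S) i (v x0) s) ?_
    exact (FD.fin fun j => h.R (Sum.inr j)).and (fdEdC h i (Sum.inl x0) fun j => Sum.inr j)
  have h4 : Ax (fun S => ∀ c, (D S).C c → (∃ r, (D S).R r ∧ MkC a N (D S) c r) ∨
      ∃ (i : Fin N) (s : Fin (a i) → ℕ), (∀ j, (D S).R (s j)) ∧ EdC a N (D S) i c s) :=
    Ax.of <| FD.all1 <| (h.C x0).imp <|
      (FD.ex1 <| (h.R x0).and (fdMkC h x1 x0)).or (FD.fin' hE)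
  have h5 : Ax (fun S => ∀ r, (D S).R r → ∃ c, (D S).C c ∧ MkC a N (D S) c r) :=
    Ax.of <| FD.all1 <| (h.R x0).imp <| FD.ex1 <| (h.C x0).and (fdMkC h x0 x1)
  refine ((Ax.of (h.base (α := Empty))).and (h1.and (h2.and (h3.and (h4.and h5))))).congr
    fun S => ?_
  exact ⟨fun ⟨k1, k2, k3, k4, k5, k6⟩ => ⟨k1, k2, k3, k4, k5, k6⟩,
    fun ⟨k1, k2, k3, k4, k5, k6⟩ => ⟨k1, k2, k3, k4, k5, k6⟩⟩

end fd

end Pool.Agent.TH686.MC
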