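import Pool.Agent.TH686.MC.SupB

set_option autoImplicit false

/-! Structures with finitely many relations described by pairs of linear orders. -/

namespace Pool.Agent.TH686.MC

open FirstOrder FirstOrder.Language
open Pool.Agent.W889.FO Pool.Agent.W889.VC Pool.Agent.W889.VC.Grid
open Pool.Agent.W889.FO.StA (FD.all1 FD.ex1)
open Pool.Agent.W889.SD (Nth)
open Pool.Agent.TH686.FO

/-- an enumeration of the finitely many relation symbols -/
structure FinL (L : FirstOrder.Language.{0, 0}) where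
  /-- the number of symbols -/
  N : ℕ
  /-- the symbol number `i` -/
  dc : ℕ → Σ n, L.Relations n
  /-- the number of a symbol -/
  ix : (Σ n, L.Relations n) → ℕ
  lt : ∀ Q, ix Q < N
  dc_ix : ∀ Q, dc (ix Q) = Q
  ix_dc : ∀ i, i < N → ix (dc i) = i

theorem exists_finL (L : FirstOrder.Language.{0, 0}) [Finite (Σ n, L.Relations n)]
    [Nonempty (Σ n, L.Relations n)] : Nonempty (FinL L) := by
  classical
  obtain ⟨N, ⟨e⟩⟩ := Finite.exists_equiv_fin (Σ n, L.Relations n)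
  let Q0 : Σ n, L.Relations n := Classical.arbitrary _
  refine ⟨⟨N, fun i => if h : i < N then e.symm ⟨i, h⟩ else Q0, fun Q => e Q, fun Q => (e Q).2,
    fun Q => ?_, fun i hi => ?_⟩⟩
  · simp
  · simp [hi]

variable {L : FirstOrder.Language.{0, 0}} [L.IsRelational] (A : FinL L)

/-- the arities -/
abbrev FinL.ar (i : ℕ) : ℕ := (A.dc i).1

omit [L.IsRelational] in
theorem FinL.ar_ix (Q : Σ n, L.Relations n) : A.ar (A.ix Q) = Q.1 := by
  unfold FinL.ar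
  rw [A.dc_ix]

/-- the relations -/
def relQ (S : L2.Structure ℕ) (Q : Σ n, L.Relations n) (u : Fin Q.1 → ℕ) : Prop :=
  ∃ c, (DLo S).C c ∧ EdC A.ar A.N (DLo S) ⟨A.ix Q, A.lt Q⟩ c
    (fun j => u (Fin.cast (A.ar_ix Q) j))

omit [L.IsRelational] in
theorem relQ_dc (S : L2.Structure ℕ) (i : Fin A.N) (u : Fin (A.ar i) → ℕ) :
    relQ A S (A.dc i) u ↔ ∃ c, (DLo S).C c ∧ EdC A.ar A.N (DLo S) i c u := by
  have key : ∀ (k : Fin A.N) (h : A.ar k = A.ar i), k = i → ∀ c,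
      (EdC A.ar A.N (DLo S) k c (fun j => u (Fin.cast h j)) ↔
        EdC A.ar A.N (DLo S) i c u) := by
    rintro k h rfl c
    exact Iff.rfl
  unfold relQ
  exact exists_congr fun c => and_congr_right fun _ => key _ _ (Fin.ext (A.ix_dc i i.2)) c

/-- the interpretation -/
def itF : Itq L L2 where
  W := fun S => WLo S ∧ Gd A.ar A.N (DLo S)
  axW := ft_PL.ax.and (axGd fg_DLo)
  dom := fun S u => (DLo S).R u
  eqv := fun S u v => SK A.ar A.N (DLo S) u v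
  rel := fun {n} R S u => relQ A S ⟨n, R⟩ u
  fdom := (fg_DLo.R ()).mono fun _ _ => trivial
  feqv := (fdSK fg_DLo 0 1).mono fun _ _ => trivial
  frel := fun {n} R => (FD.ex1 <| (fg_DLo.C x0).and
    (fdEdC fg_DLo ⟨A.ix ⟨n, R⟩, A.lt _⟩ x0 fun j => Sum.inl (Fin.cast (A.ar_ix _) j))).mono
      fun _ _ => trivial
  refl := fun S _ u _ => SK.refl (DLo S) u
  symm := fun S _ u v _ _ h => h.symm
  trans := fun S _ u v w _ _ _ h h' => h.trans h'
  cong := fun S _ n R u v _ _ h ⟨c, hc, h1⟩ => ⟨c, hc, h1.cong fun j => h _⟩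
  inf := fun S h M => by
    obtain ⟨r, h1, h2⟩ := h.2.infR M
    refine ⟨r, h1, h2.1, fun u' h3 h4 h5 => h2.2 u' h3 h4 ((h.2.same h4 h2.1).1 h5)⟩

omit [L.IsRelational] in
theorem rpF {S : L2.Structure ℕ} (h : Gd A.ar A.N (DLo S)) :
    (itF A).rp S = (DLo S).rep := by
  funext r
  refine propext (and_congr_right fun hr => forall_congr' fun r' => forall_congr' fun h1 => ?_)
  refine forall_congr' fun h2 => not_congr (h.same h2 hr)

omit [L.IsRelational] in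
theorem nthF {S : L2.Structure ℕ} (h : Gd A.ar A.N (DLo S)) (n r : ℕ) :
    Nth ((itF A).rp S) n r ↔ (DLo S).Rth n r := by
  rw [rpF A h]
  exact Iff.rfl

omit [L.IsRelational] in
theorem labF {S : L2.Structure ℕ} (h : Gd A.ar A.N (DLo S)) (n r : ℕ) :
    (itF A).lab S n r ↔ (DLo S).R r ∧ ∃ r0, (DLo S).Rth n r0 ∧ SK A.ar A.N (DLo S) r0 r :=
  and_congr_right fun _ => exists_congr fun r0 => and_congr_left fun _ => nthF A h n r0

theorem decF {S : L2.Structure ℕ} (h : Gd A.ar A.N (DLo S)) (i : Fin A.N)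
    (v : Fin (A.ar i) → ℕ) : dec A.ar (DLo S) i v = true ↔
      @Structure.RelMap L ℕ ((itF A).D S) (A.ar i) (A.dc i).2 v := by
  rw [h.dec_iff]
  refine exists_congr fun u => and_congr (forall_congr' fun j => (nthF A h _ _).symm) ?_
  exact (relQ_dc A S i u).symm

/-- every structure is described by a pair of linear orders -/
theorem exF (M : L.Structure ℕ) : ∃ S, (itF A).W S ∧ SIso ((itF A).D S) M := by
  classical
  let x : Str A.ar := fun i v =>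
    decide (i < A.N ∧ @Structure.RelMap L ℕ M (A.ar i) (A.dc i).2 v)
  have hx : ∀ i v, A.N ≤ i → x i v = false := fun i v hi => by
    simp only [x, decide_eq_false_iff_not]
    rintro ⟨h, -⟩
    omega
  obtain ⟨γ, κ, κ', hb, hl⟩ := exists_grid x
  have hr0 : ∃ r, γ.R r := ⟨_, (hl.sR 0).choose_spec.1⟩
  have hc0 : ∃ c, γ.C c := ⟨_, ((hl.sC (Sum.inl 0)).2 trivial).choose_spec.1⟩
  obtain ⟨S, h1, h2⟩ := ft_PL.ex γ hb hr0 hc0 (by
    intro r c hr hc
    obtain ⟨s, hs, h⟩ := hl.mult r c hr hc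
    have : 0 < s.card := by rw [hs]; exact lam_pos _ _
    obtain ⟨p, hp⟩ := Finset.card_pos.1 this
    exact ⟨p, (h p).1 hp⟩) (fun r c hr hc => ⟨_, hl.mult r c hr hc⟩)
  have hb' := h2.base hb
  have hl' := h2.lab hl
  have hg : Gd A.ar A.N (DLo S) := gd_of_lab hb' hx hl'
  refine ⟨S, ⟨h1, hg⟩, ?_⟩
  obtain ⟨τ, hτ⟩ := (good_of_lab hb' hl').2
  have key : ∀ (Q : Σ n, L.Relations n) (v : Fin Q.1 → ℕ),
      @Structure.RelMap L ℕ M Q.1 Q.2 (fun i => τ (v i)) ↔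
        @Structure.RelMap L ℕ ((itF A).D S) Q.1 Q.2 v := by
    intro Q v
    obtain ⟨i, rfl⟩ : ∃ i : Fin A.N, A.dc i = Q := ⟨⟨A.ix Q, A.lt Q⟩, A.dc_ix Q⟩
    have h3 := decF A hg i v
    have h4 := hτ i v
    rw [← h4] at h3
    have h5 : x i (τ ∘ v) = true ↔ @Structure.RelMap L ℕ M (A.ar i) (A.dc i).2 (τ ∘ v) := by
      simp [x]
    exact h5.symm.trans h3
  obtain ⟨f, -⟩ := siso_of (S := (itF A).D S) (S' := M) τ (fun n Q v => key ⟨n, Q⟩ v)
  exact ⟨f⟩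

/-- isomorphisms of the described structures can be lifted, with prescribed values at finitely many
rows and columns -/
theorem upG {S S' : L2.Structure ℕ} (h : (itF A).W S) (h' : (itF A).W S')
    (e : @FirstOrder.Language.Equiv L ℕ ℕ ((itF A).D S) ((itF A).D S')) (τ : Equiv.Perm ℕ)
    (hτe : ∀ n, τ n = e n) {ιR ιC : Type} [Finite ιR] [Finite ιC] (xr yr : ιR → ℕ)
    (xc yc : ιC → ℕ) (hxr : ∀ i, (DLo S).R (xr i)) (hyr : ∀ i, (DLo S').R (yr i))
    (hxc : ∀ i, (DLo S).C (xc i)) (hyc : ∀ i, (DLo S').C (yc i))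
    (lr : ∀ i j, (DLo S).lt (xr i) (xr j) ↔ (DLo S').lt (yr i) (yr j))
    (lc : ∀ i j, (DLo S).lt (xc i) (xc j) ↔ (DLo S').lt (yc i) (yc j))
    (cr : ∀ i n, (itF A).lab S n (xr i) → (itF A).lab S' (e n) (yr i))
    (cc : ∀ i (t : Tup A.ar), (DLo S).ColT (xc i) t → (DLo S').ColT (yc i) (tmap τ t)) :
    ∃ σ : Equiv.Perm ℕ, GIso σ (DLo S) (DLo S') ∧
      (∀ u v, g1 S u v ↔ g1 S' (σ u) (σ v)) ∧ (∀ u v, g2 S u v ↔ g2 S' (σ u) (σ v)) ∧
      (∀ i, σ (xr i) = yr i) ∧ (∀ i, σ (xc i) = yc i) ∧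
      ∀ n x, (itF A).lab S n x → (itF A).lab S' (e n) (σ x) := by
  classical
  obtain ⟨⟨h1, h2, h3, h4, h6, h7⟩, hg⟩ := h
  obtain ⟨⟨k1, k2, k3, k4, k6, k7⟩, hg'⟩ := h'
  have hxy : ∀ (i : ℕ) (v : Fin (A.ar i) → ℕ), dec A.ar (DLo S') i (⇑τ ∘ v) =
      dec A.ar (DLo S) i v := by
    intro i v
    by_cases hi : i < A.N
    · rw [Bool.eq_iff_iff]
      have e1 := decF A hg ⟨i, hi⟩ v
      have e2 := decF A hg' ⟨i, hi⟩ (τ ∘ v)
      rw [show dec A.ar (DLo S) i v = true ↔ _ from e1,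
        show dec A.ar (DLo S') i (⇑τ ∘ v) = true ↔ _ from e2]
      have e3 := iso_rel e (A.dc i).2 v
      have e4 : (τ ∘ v) = fun j => e (v j) := funext fun j => hτe _
      rw [e4]
      exact e3
    · rw [hg.dec_ne (not_lt.1 hi), hg'.dec_ne (not_lt.1 hi)]
  obtain ⟨κ, κ', hl, hκ, hκ'⟩ := lab_good hg.goodN
  obtain ⟨μ, μ', hl', hμ, hμ'⟩ := lab_good hg'.goodN
  -- labels
  have lκ : ∀ r n, (itF A).lab S n r ↔ (DLo S).R r ∧ κ r = n := by
    intro r n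
    rw [labF A hg]
    refine and_congr_right fun hr => ?_
    obtain ⟨r0, j1, j2⟩ := hκ r hr
    constructor
    · rintro ⟨r1, j3, j4⟩
      exact (hg.ind j1 j3).1 (((hg.same j1.1.1 hr).2 j2).trans j4.symm)
    · rintro rfl
      exact ⟨r0, j1, (hg.same j1.1.1 hr).2 j2⟩
  have lμ : ∀ r n, (itF A).lab S' n r ↔ (DLo S').R r ∧ μ r = n := by
    intro r n
    rw [labF A hg']
    refine and_congr_right fun hr => ?_
    obtain ⟨r0, j1, j2⟩ := hμ r hr
    constructor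
    · rintro ⟨r1, j3, j4⟩
      exact (hg'.ind j1 j3).1 (((hg'.same j1.1.1 hr).2 j2).trans j4.symm)
    · rintro rfl
      exact ⟨r0, j1, (hg'.same j1.1.1 hr).2 j2⟩
  obtain ⟨φ, hφ, hφk, hφx⟩ := shuffle_ext _ _ hg.base.dR.dlo hg'.base.dR.dlo
    (fun r : {u // (DLo S).R u} => τ (κ r)) (fun r : {u // (DLo S').R u} => μ r)
    (by
      rintro r r1 r2 j1
      obtain ⟨r', j2, j3, j4, j5⟩ := hl.denR r r1 r2 r.2 r1.2 r2.2 j1
      exact ⟨⟨r', j2⟩, j3, j4, congrArg τ j5⟩)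
    (by
      rintro r r1 r2 j1
      obtain ⟨r', j2, j3, j4, j5⟩ := hl'.denR r r1 r2 r.2 r1.2 r2.2 j1
      exact ⟨⟨r', j2⟩, j3, j4, j5⟩)
    (by
      intro r
      obtain ⟨r', j1, j2⟩ := hl'.sR (τ (κ r))
      exact ⟨⟨r', j1⟩, j2⟩)
    (by
      intro r
      obtain ⟨r', j1, j2⟩ := hl.sR (τ.symm (μ r))
      exact ⟨⟨r', j1⟩, by simp [j2]⟩)
    (fun i : ιR => ⟨xr i, hxr i⟩) (fun i : ιR => ⟨yr i, hyr i⟩) lr
    (fun i => by
      have j1 := cr i (κ (xr i)) ((lκ _ _).2 ⟨hxr i, rfl⟩)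
      rw [hτe]
      exact ((lμ _ _).1 j1).2)
  obtain ⟨ψ, hψ, hψk, hψx⟩ := shuffle_ext _ _ hg.base.dC.dlo hg'.base.dC.dlo
    (fun c : {u // (DLo S).C u} => tmap τ (κ' c)) (fun c : {u // (DLo S').C u} => μ' c)
    (by
      rintro r r1 r2 j1
      obtain ⟨r', j2, j3, j4, j5⟩ := hl.denC r r1 r2 r.2 r1.2 r2.2 j1
      exact ⟨⟨r', j2⟩, j3, j4, congrArg (tmap τ) j5⟩)
    (by
      rintro r r1 r2 j1
      obtain ⟨r', j2, j3, j4, j5⟩ := hl'.denC r r1 r2 r.2 r1.2 r2.2 j1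
      exact ⟨⟨r', j2⟩, j3, j4, j5⟩)
    (by
      intro c
      obtain ⟨c', j1, j2⟩ := (hl'.sC (tmap τ (κ' c))).2
        ((occ_tmap τ hxy _).2 ((hl.sC _).1 ⟨c, c.2, rfl⟩))
      exact ⟨⟨c', j1⟩, j2⟩)
    (by
      intro c
      have j1 : occ (dec A.ar (DLo S')) (μ' c) := (hl'.sC _).1 ⟨c, c.2, rfl⟩
      rw [← tmap_symm τ (μ' c), occ_tmap τ hxy] at j1
      obtain ⟨c', j1, j2⟩ := (hl.sC _).2 j1
      exact ⟨⟨c', j1⟩, by
        show tmap τ (κ' c') = μ' c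
        rw [j2, tmap_symm]⟩)
    (fun i : ιC => ⟨xc i, hxc i⟩) (fun i : ιC => ⟨yc i, hyc i⟩) lc
    (fun i => hg'.uT (hμ' _ (hyc i)) (cc i _ (hκ' _ (hxc i))))
  obtain ⟨σ, hσ, tw, sr, sc⟩ := assemble' hg.base hg'.base φ ψ hφ hψ (g1 S) (g1 S') (by
    intro r c
    have m1 := hl.mult r c r.2 c.2
    have m2 := hl'.mult (φ r) (ψ c) (φ r).2 (ψ c).2
    have e3 : μ (φ r) = τ (κ r) := hφk r
    have e4 : μ' (ψ c) = tmap τ (κ' c) := hψk c
    rw [e3, e4, lam_tmap] at m2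
    obtain ⟨s, hs, hs'⟩ := m1
    obtain ⟨t, ht, ht'⟩ := m2
    have es : {p // (DLo S).Fib r c p} ≃ {p // p ∈ s} :=
      Equiv.subtypeEquivRight (fun p => (hs' p).symm)
    have et : {p // (DLo S').Fib (φ r) (ψ c) p} ≃ {p // p ∈ t} :=
      Equiv.subtypeEquivRight (fun p => (ht' p).symm)
    have fs : Finite {p // (DLo S).Fib r c p} := Finite.of_equiv _ es.symm
    have ft : Finite {p // (DLo S').Fib (φ r) (ψ c) p} := Finite.of_equiv _ et.symm
    refine fin_iso (S := {p // (DLo S).Fib r c p}) (T := {p // (DLo S').Fib (φ r) (ψ c) p}) ?_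
      (fun p q => g1 S p q) (fun a => h6.irrefl a.1)
      (fun a b c => h6.trans a.1 b.1 c.1) (fun a b hne => h6.total a.1 b.1
        (fun e => hne (Subtype.ext e))) (fun p q => g1 S' p q) (fun a => k6.irrefl a.1)
      (fun a b c => k6.trans a.1 b.1 c.1) (fun a b hne => k6.total a.1 b.1
        (fun e => hne (Subtype.ext e)))
    rw [Nat.card_congr es, Nat.card_congr et, Nat.card_eq_fintype_card,
      Nat.card_eq_fintype_card, Fintype.card_coe, Fintype.card_coe, hs, ht])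
  have hq : ∀ u v, gc S u v ↔ gc S' (σ u) (σ v) :=
    Rep.iso hg.base hσ h1 k1 (pp_iff hg.base hσ h2 k2 h3 k3)
  have hf : ∀ u v, g1 S u v → g1 S' (σ u) (σ v) :=
    fst_imp hg.base hσ hq h1 h2 h4 k4 h6 (fun u v h => h.1) (fun u v h => h.1) tw
  have hf' : ∀ u v, g1 S u v ↔ g1 S' (σ u) (σ v) := by
    intro u v
    refine ⟨hf u v, fun j' => ?_⟩
    have hne : u ≠ v := fun e => k6.irrefl (σ u) (by rw [← e] at j'; exact j')
    rcases h6.total u v hne with j'' | j''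
    · exact j''
    · exact absurd (k6.trans _ _ _ j' (hf v u j'')) (k6.irrefl _)
  refine ⟨σ, hσ, hf', fun m n => ?_, fun i => ?_, fun i => ?_, fun n x hx => ?_⟩
  · rw [snd_iff k6 k7, snd_iff h6 h7]
    have a1 := hq m n
    have a2 := hq n m
    have a3 := hf' n m
    unfold gc at a1 a2
    rw [← a1, ← a2, ← a3]
  · have := sr ⟨xr i, hxr i⟩
    rw [hφx i] at this
    exact this
  · have := sc ⟨xc i, hxc i⟩
    rw [hψx i] at this
    exact this
  · obtain ⟨j1, j2⟩ := (lκ _ _).1 hx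
    rw [lμ]
    have j3 := sr ⟨x, j1⟩
    have j4 : μ (φ ⟨x, j1⟩) = τ (κ x) := hφk ⟨x, j1⟩
    have j3' : σ x = φ ⟨x, j1⟩ := j3
    rw [j3']
    exact ⟨(φ ⟨x, j1⟩).2, by rw [j4, j2, hτe]⟩

end Pool.Agent.TH686.MC
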