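import Pool.Agent.TH686.MC.Sat

set_option autoImplicit false

/-! Countable elementary substructures of ultrapowers, as structures on the natural numbers. -/

namespace Pool.Agent.TH686.MC

open FirstOrder FirstOrder.Language Filter
open Pool.Agent.W889.FO

theorem closure_step {X K : Type} [Countable K] (ar : K → Type) [∀ κ, Finite (ar κ)]
    (F : ∀ κ, (ar κ → X) → X) (C : Set X) (h0 : C.Countable) :
    {y | ∃ (κ : K) (a : ar κ → X), (∀ i, a i ∈ C) ∧ y = F κ a}.Countable := by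
  have h1 : Countable ↥C := h0
  have h2 : ∀ κ : K, Countable (ar κ → ↥C) := fun κ => inferInstance
  have h3 : Countable (Σ κ : K, (ar κ → ↥C)) := inferInstance
  have h4 : {y | ∃ (κ : K) (a : ar κ → X), (∀ i, a i ∈ C) ∧ y = F κ a} ⊆
      Set.range (fun a : (Σ κ : K, (ar κ → ↥C)) => F a.1 (fun i => (a.2 i).1)) := by
    rintro y ⟨κ, a, ha, rfl⟩
    exact ⟨⟨κ, fun i => ⟨a i, ha i⟩⟩, rfl⟩
  exact Set.Countable.mono h4 (Set.countable_range _)

/-- closing a countable set under countably many finitary functions -/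
theorem closure {X K : Type} [Countable K] (ar : K → Type) [∀ κ, Finite (ar κ)]
    (F : ∀ κ, (ar κ → X) → X) (C0 : Set X) (h0 : C0.Countable) :
    ∃ C : Set X, C0 ⊆ C ∧ C.Countable ∧ ∀ κ a, (∀ i, a i ∈ C) → F κ a ∈ C := by
  let step : Set X → Set X := fun C => C ∪
    {y | ∃ (κ : K) (a : ar κ → X), (∀ i, a i ∈ C) ∧ y = F κ a}
  let Cn : ℕ → Set X := fun n => Nat.rec C0 (fun _ C => step C) n
  have hs : ∀ n, Cn (n + 1) = step (Cn n) := fun n => rfl
  have hc : ∀ n, (Cn n).Countable := by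
    intro n
    induction n with
    | zero => exact h0
    | succ n ih =>
      rw [hs]
      exact Set.Countable.union ih (closure_step ar F (Cn n) ih)
  have hm : ∀ n m, n ≤ m → Cn n ⊆ Cn m := by
    intro n m h
    induction h with
    | refl => exact subset_rfl
    | step _ ih => exact ih.trans (by rw [hs]; exact Set.subset_union_left)
  refine ⟨⋃ n, Cn n, Set.subset_iUnion Cn 0, Set.countable_iUnion hc, fun κ a ha => ?_⟩
  choose n hn using fun i => Set.mem_iUnion.1 (ha i)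
  obtain ⟨N, hN⟩ : ∃ N, ∀ i, n i ≤ N := by
    obtain ⟨N, hN⟩ := (Set.finite_range n).bddAbove
    exact ⟨N, fun i => hN ⟨i, rfl⟩⟩
  refine Set.mem_iUnion.2 ⟨N + 1, ?_⟩
  rw [hs]
  exact Or.inr ⟨κ, a, fun i => hm _ _ (hN i) (hn i), rfl⟩

variable {L : FirstOrder.Language.{0, 0}} [L.IsRelational]

/-- the substructure of the ultrapower given by a sequence of functions -/
@[reducible] def sub (S : L.Structure ℕ) (F : ℕ → ℕ → ℕ) : L.Structure ℕ where
  funMap := fun {_} f => isEmptyElim f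
  RelMap := fun {n} R v => ∀ᶠ m in (U : Filter ℕ), @Structure.RelMap L ℕ S n R (fun i => F (v i) m)

/-- closed under witnesses -/
structure Sk (S : L.Structure ℕ) (F : ℕ → ℕ → ℕ) : Prop where
  inj : ∀ i j, (∀ᶠ m in (U : Filter ℕ), F i m = F j m) → i = j
  wit : ∀ (k : ℕ) (φ : L.BoundedFormula Empty (k + 1)) (v : Fin k → ℕ),
    (∀ᶠ m in (U : Filter ℕ), ∃ a, Rz S φ (Fin.snoc (α := fun _ => ℕ) (fun i => F (v i) m) a)) →
    ∃ j, ∀ᶠ m in (U : Filter ℕ), Rz S φ (Fin.snoc (α := fun _ => ℕ) (fun i => F (v i) m) (F j m))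

theorem los {S : L.Structure ℕ} {F : ℕ → ℕ → ℕ} (h : Sk S F) {n : ℕ}
    (φ : L.BoundedFormula Empty n) (v : Fin n → ℕ) :
    Rz (sub S F) φ v ↔ ∀ᶠ m in (U : Filter ℕ), Rz S φ (fun i => F (v i) m) := by
  have hv : ∀ {n : ℕ} (t : L.Term (Empty ⊕ Fin n)), ∃ i, t = Term.var (Sum.inr i) := by
    intro n t
    cases t with
    | var i =>
      rcases i with i | i
      · exact i.elim
      · exact ⟨i, rfl⟩
    | func f _ => exact isEmptyElim f
  induction φ with
  | falsum => exact Filter.eventually_const.symm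
  | @equal n t1 t2 =>
    obtain ⟨i, rfl⟩ := hv t1
    obtain ⟨j, rfl⟩ := hv t2
    show v i = v j ↔ ∀ᶠ m in (U : Filter ℕ), F (v i) m = F (v j) m
    exact ⟨fun h => by rw [h]; exact Eventually.of_forall fun _ => rfl, h.inj _ _⟩
  | @rel n l R ts =>
    choose g hg using fun i => hv (ts i)
    obtain rfl : ts = fun i => Term.var (Sum.inr (g i)) := funext hg
    exact Iff.rfl
  | @imp n f1 f2 h1 h2 =>
    have e1 : Rz (sub S F) f1 v ↔ ∀ᶠ m in (U : Filter ℕ), Rz S f1 (fun i => F (v i) m) := h1 v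
    have e2 : Rz (sub S F) f2 v ↔ ∀ᶠ m in (U : Filter ℕ), Rz S f2 (fun i => F (v i) m) := h2 v
    show (Rz (sub S F) f1 v → Rz (sub S F) f2 v) ↔ ∀ᶠ m in (U : Filter ℕ),
      (Rz S f1 (fun i => F (v i) m) → Rz S f2 (fun i => F (v i) m))
    rw [e1, e2, Ultrafilter.eventually_imp]
  | @all n f ih =>
    show (∀ a, Rz (sub S F) f (Fin.snoc (α := fun _ => ℕ) v a)) ↔
      ∀ᶠ m in (U : Filter ℕ), ∀ a, Rz S f (Fin.snoc (α := fun _ => ℕ) (fun i => F (v i) m) a)
    have sn : ∀ (a m : ℕ), (fun i => F (Fin.snoc (α := fun _ => ℕ) v a i) m) =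
        Fin.snoc (α := fun _ => ℕ) (fun i => F (v i) m) (F a m) := by
      intro a m
      funext i
      refine Fin.lastCases ?_ (fun j => ?_) i
      · simp
      · simp
    constructor
    · intro h1
      by_contra h2
      have h3 := Ultrafilter.eventually_not.2 h2
      obtain ⟨j, hj⟩ := h.wit n f.not v (h3.mono fun m hm => by
        push Not at hm
        obtain ⟨a, ha⟩ := hm
        exact ⟨a, (@BoundedFormula.realize_not L ℕ S _ _ f _ _).2 ha⟩)
      have h4 := (ih _).1 (h1 j)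
      obtain ⟨m, h5, h6⟩ := (hj.and h4).exists
      rw [sn] at h6
      exact (@BoundedFormula.realize_not L ℕ S _ _ f _ _).1 h5 h6
    · intro h1 a
      refine (ih _).2 (h1.mono fun m hm => ?_)
      rw [sn]
      exact hm _

omit [L.IsRelational] in
/-- sequences from countable sets of functions -/
theorem seq_of {S : L.Structure ℕ} (A : Set (ℕ → ℕ)) (hA : A.Countable)
    (hc : ∀ c, (fun _ => c) ∈ A)
    (hw : ∀ (k : ℕ) (φ : L.BoundedFormula Empty (k + 1)) (v : Fin k → ℕ → ℕ), (∀ i, v i ∈ A) →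
      (∀ᶠ m in (U : Filter ℕ), ∃ a, Rz S φ (Fin.snoc (α := fun _ => ℕ) (fun i => v i m) a)) →
      ∃ f ∈ A, ∀ᶠ m in (U : Filter ℕ),
        Rz S φ (Fin.snoc (α := fun _ => ℕ) (fun i => v i m) (f m))) :
    ∃ F : ℕ → ℕ → ℕ, Sk S F ∧ (∀ j, F j ∈ A) ∧
      ∀ f ∈ A, ∃ j, ∀ᶠ m in (U : Filter ℕ), F j m = f m := by
  classical
  let st : Setoid A :=
    { r := fun f g => ∀ᶠ m in (U : Filter ℕ), f.1 m = g.1 m
      iseqv := ⟨fun f => Eventually.of_forall fun _ => rfl, fun h => h.mono fun m hm => hm.symm,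
        fun h h' => (h.and h').mono fun m hm => hm.1.trans hm.2⟩ }
  have : Countable A := hA
  have hinf : Infinite (Quotient st) := by
    refine Infinite.of_injective (fun c : ℕ => Quotient.mk st ⟨fun _ => c, hc c⟩) ?_
    intro c d hcd
    have h1 : ∀ᶠ m in (U : Filter ℕ), c = d := Quotient.exact hcd
    exact h1.exists.choose_spec
  obtain ⟨e⟩ : Nonempty (ℕ ≃ Quotient st) := nonempty_equiv_of_countable
  let F : ℕ → ℕ → ℕ := fun j => ((e j).out : A).1
  have hF : ∀ j, F j ∈ A := fun j => ((e j).out : A).2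
  have hex : ∀ f ∈ A, ∃ j, ∀ᶠ m in (U : Filter ℕ), F j m = f m := by
    intro f hf
    refine ⟨e.symm (Quotient.mk st ⟨f, hf⟩), ?_⟩
    have h1 : (Quotient.mk st ((e (e.symm (Quotient.mk st ⟨f, hf⟩))).out)) =
        Quotient.mk st ⟨f, hf⟩ := by
      rw [Quotient.out_eq, Equiv.apply_symm_apply]
    exact Quotient.exact h1
  refine ⟨F, ⟨fun i j h => ?_, fun k φ v h => ?_⟩, hF, hex⟩
  · apply e.injective
    have h1 : Quotient.mk st ((e i).out) = Quotient.mk st ((e j).out) := Quotient.sound h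
    rwa [Quotient.out_eq, Quotient.out_eq] at h1
  · obtain ⟨f, hf, h1⟩ := hw k φ (fun i => F (v i)) (fun i => hF _) h
    obtain ⟨j, hj⟩ := hex f hf
    refine ⟨j, (h1.and hj).mono fun m hm => ?_⟩
    rw [hm.2]
    exact hm.1

end Pool.Agent.TH686.MC
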