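import Pool.Agent.TH686.MC.FcG
import Pool.Agent.TH686.MC.Fun

set_option autoImplicit false

/-! Martin's conjecture reduces to theories of graphs in the patterns of monadic independence. -/

namespace Pool.Agent.TH686.MC

open FirstOrder FirstOrder.Language
open Pool.Agent.W889.FO
open Pool.Agent.W889.FO.StE (LG gd)
open Pool.Agent.W889.SD (Big)
open Pool.Agent.TH686.FO (L2 R2 g1 g2)
open Pool.Agent.TH686.DO (DL1)
open Pool.Agent.TH783.MD (nf nf_symm brg1 brg2 brg3)
open Pool.Agent.TH783.MD.Pat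

/-- the complements of the half graph crossings with a large independent set -/
theorem ws_big {S : LG.Structure ℕ} (h : Pool.Agent.TH783.MD.WS 1 false (fun _ _ => True) S) :
    (∀ u v, gd S u v → gd S v u) ∧ (∀ u, ¬ gd S u u) ∧ ∀ u, Big (gd S) u := by
  have hgd : gd S = Pool.Agent.TH783.FC.flip
      (Pool.Agent.TH783.MD.En false 1 (Pool.Agent.TH783.MD.Xd false S))
      (Pool.Agent.TH783.MD.fd S) := by
    funext u v
    exact propext (h.eq u v)
  refine ⟨fun u v huv => ?_, fun u => ?_, fun u => ?_⟩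
  · rw [hgd] at huv ⊢
    exact MdG.gr_sy h.w (fun _ _ h => h) false huv
  · rw [hgd]
    exact MdG.gr_irr h.w false u
  · have key : ∀ s : Finset ℕ, u ∈ s → ∃ z, z ∉ s ∧ gd S u z := by
      intro s hs
      obtain ⟨z, h1, h2, h3⟩ := Pool.Agent.TH783.FC.out
        (P := fun z => ¬ Pool.Agent.TH783.MD.Nz (Pool.Agent.TH783.MD.Xd false S) z ∧
          Pool.Agent.TH783.MD.TT 1 (fun _ _ => True) (Pool.Agent.TH783.MD.Xd false S)
            (Pool.Agent.TH783.MD.fd S) z (0 : Fin (1 + 2))) (h.w.mi 0) s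
      refine ⟨z, h1, ?_⟩
      obtain ⟨a, ha⟩ := h.w.cv u
      have e1 := h.w.fli a (0 : Fin (1 + 2)) u z ha (Or.inr ⟨h2, h3⟩)
      have e2 : u ≠ z := fun e => h1 (e ▸ hs)
      have e3 : ¬ Pool.Agent.TH783.MD.Xd false S u z := fun e => h2 ⟨u, h.w.sy _ _ e⟩
      rw [hgd]
      intro e4
      have e5 := e4.2 (e1.2 ⟨e2, trivial⟩)
      rcases e5 with e5 | ⟨e5, -⟩
      · exact e3 e5
      · exact absurd e5 (by simp)
    obtain ⟨a, a1, a2⟩ := key {u} (by simp)
    obtain ⟨b, b1, b2⟩ := key {u, a} (by simp)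
    obtain ⟨c, c1, c2⟩ := key {u, a, b} (by simp)
    simp only [Finset.mem_insert, Finset.mem_singleton, not_or] at a1 b1 c1
    exact ⟨a, b, c, Ne.symm b1.2, Ne.symm c1.2.1, Ne.symm c1.2.2, a2, b2, c2⟩

/-- the reduction to star and clique crossings -/
theorem reduceFC {r : ℕ} {s : Bool} {f : ℕ → ℕ → Prop} (hr : 1 ≤ r) (hf : ∀ a b, f a b → f b a)
    (hV : ∀ T : LG.Theory, T.IsComplete → FewCountableModels T →
      (∀ S : LG.Structure ℕ, @Theory.Model LG ℕ S T → Pool.Agent.TH783.FC.WF r s f S) →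
      MartinN T)
    (T : L2.Theory) (hfew : FewCountableModels T)
    (hT : ∀ S : L2.Structure ℕ, @Theory.Model L2 ℕ S T → DL1 (g1 S) ∧ DL1 (g2 S)) :
    MartinN T := by
  have := StD.countable_LG
  refine MdG.reduce (r := 1) (s := false) (f := fun _ _ => True) le_rfl (fun _ _ h => h)
    (by simp) (fun T' _ h2 h3 => ?_) T hfew hT
  refine transferN (tq (Pool.Agent.TH783.FC.itp r s f)) (FcG.gt r s f hf).sup T' h2
    (fun M hM => ?_) fun T'' k1 k2 k3 => hV T'' k1 k2 k3
  obtain ⟨m1, m2, m3⟩ := ws_big (h3 M hM)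
  obtain ⟨S, m4, m5⟩ := Pool.Agent.TH783.FC.ex (s := s) hr hf M m1 m2 m3
  refine ⟨S, m4, trivial, ?_⟩
  rw [D_tq]
  exact m5

variable {r : ℕ}

/-- crossings -/
theorem martin_crossing (hr : 1 ≤ r) (K : Kind) {F : Fin (r + 2) → Fin (r + 2) → Prop}
    (hF : ∀ a b, F a b → F b a)
    (hV : ∀ T : LG.Theory, T.IsComplete → FewCountableModels T → (∀ S : LG.Structure ℕ,
      @Theory.Model LG ℕ S T → InducedIn (crossing ℚ r K F hF) (gd S)) → MartinN T)
    {L : FirstOrder.Language.{0, 0}} [Countable L.Symbols] (T : L.Theory)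
    (hfew : FewCountableModels T) : MartinN T := by
  refine JF.martin_all (fun T' _ h2 h3 => ?_) T hfew
  cases K with
  | star =>
    exact reduceFC (s := false) hr (nf_symm hF) (fun T'' k1 k2 k3 => hV T'' k1 k2 fun S hS =>
      brg1 hF hr (k3 S hS)) T' h2 h3
  | clique =>
    exact reduceFC (s := true) hr (nf_symm hF) (fun T'' k1 k2 k3 => hV T'' k1 k2 fun S hS =>
      brg1 hF hr (k3 S hS)) T' h2 h3
  | half =>
    exact MdG.reduce (s := false) hr (nf_symm hF) (by simp) (fun T'' k1 k2 k3 =>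
      hV T'' k1 k2 fun S hS => brg2 hF hr (k3 S hS)) T' h2 h3

/-- comparability grids -/
theorem martin_grid
    (hV : ∀ T : LG.Theory, T.IsComplete → FewCountableModels T → (∀ S : LG.Structure ℕ,
      @Theory.Model LG ℕ S T → InducedIn (comparabilityGrid ℚ) (gd S)) → MartinN T)
    {L : FirstOrder.Language.{0, 0}} [Countable L.Symbols] (T : L.Theory)
    (hfew : FewCountableModels T) : MartinN T :=
  JF.martin_all (fun T' _ h2 h3 => MdG.reduce (r := 1) (s := true) (f := fun _ _ => False) le_rfl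
    (fun _ _ h => h) (fun _ => rfl) (fun T'' k1 k2 k3 => hV T'' k1 k2 fun S hS =>
      brg3 (k3 S hS)) T' h2 h3) T hfew

end Pool.Agent.TH686.MC
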