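import Pool.Agent.TH686.MC.Tw
import Pool.Agent.TH686.MC.Inv
import Pool.Agent.TH783.MD.Itp

set_option autoImplicit false

/-! The structures which interpret pairs of dense orders in half graph crossings and comparability
grids: all vertices are definable over the interpreted pair, or belong to one of finitely many sets
of twins. -/

namespace Pool.Agent.TH686.MC

open FirstOrder FirstOrder.Language
open Pool.Agent.W889.FO
open Pool.Agent.W889.FO.StE (LG gd)
open Pool.Agent.TH783.FC (FD1 FD2)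

/-- isomorphisms of graphs -/
theorem siso_gr {S S' : LG.Structure ℕ} (σ : Equiv.Perm ℕ)
    (h : ∀ u v, gd S' (σ u) (σ v) ↔ gd S u v) :
    ∃ g : @FirstOrder.Language.Equiv LG ℕ ℕ S S', ∀ a, g a = σ a := by
  refine siso_of (S := S) (S' := S') σ (fun n Q v => ?_)
  cases Q with
  | adj =>
    have := h (v 0) (v 1)
    unfold gd at this
    have e1 : ![v 0, v 1] = v := by
      funext m
      fin_cases m <;> rfl
    have e2 : ![σ (v 0), σ (v 1)] = fun i => σ (v i) := by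
      funext m
      fin_cases m <;> rfl
    rw [e1, e2] at this
    exact this

/-- exchanging twins -/
theorem swap_iff {R : ℕ → ℕ → Prop} (hi : ∀ u, ¬ R u u) (hs : ∀ u v, R u v → R v u) {x y : ℕ}
    (h : ∀ w, w ≠ x → w ≠ y → (R x w ↔ R y w)) (u v : ℕ) :
    R (Equiv.swap x y u) (Equiv.swap x y v) ↔ R u v := by
  have hs' : ∀ u v, R u v ↔ R v u := fun u v => ⟨hs u v, hs v u⟩
  by_cases u1 : u = x
  · subst u1
    rw [Equiv.swap_apply_left]
    by_cases v1 : v = u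
    · subst v1
      rw [Equiv.swap_apply_left]
      exact iff_of_false (hi _) (hi _)
    · by_cases v2 : v = y
      · subst v2
        rw [Equiv.swap_apply_right]
        exact hs' _ _
      · rw [Equiv.swap_apply_of_ne_of_ne v1 v2]
        exact (h v v1 v2).symm
  · by_cases u2 : u = y
    · subst u2
      rw [Equiv.swap_apply_right]
      by_cases v1 : v = x
      · subst v1
        rw [Equiv.swap_apply_left]
        exact hs' _ _
      · by_cases v2 : v = u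
        · subst v2
          rw [Equiv.swap_apply_right]
          exact iff_of_false (hi _) (hi _)
        · rw [Equiv.swap_apply_of_ne_of_ne v1 v2]
          exact h v v1 v2
    · rw [Equiv.swap_apply_of_ne_of_ne u1 u2]
      by_cases v1 : v = x
      · subst v1
        rw [Equiv.swap_apply_left, hs' u y, hs' u v]
        exact (h u u1 u2).symm
      · by_cases v2 : v = y
        · subst v2
          rw [Equiv.swap_apply_right, hs' u x, hs' u v]
          exact h u u1 u2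
        · rw [Equiv.swap_apply_of_ne_of_ne v1 v2]

theorem sw_of_tw {S : LG.Structure ℕ} (hi : ∀ u, ¬ gd S u u) (hs : ∀ u v, gd S u v → gd S v u)
    {x y : ℕ} (h : ∀ w, w ≠ x → w ≠ y → (gd S x w ↔ gd S y w)) :
    ∃ σ : @FirstOrder.Language.Equiv LG ℕ ℕ S S, ∀ v, σ v = Equiv.swap x y v :=
  siso_gr (Equiv.swap x y) (swap_iff hi hs h)

namespace MdG

open Pool.Agent.TH783.MD
open Pool.Agent.W889.VC (DLO)
open Pool.Agent.TH783.FC (flip)
open Pool.Agent.TH686.FO (L2 R2 g1 g2)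

variable {r : ℕ} {f : ℕ → ℕ → Prop} {X fl : ℕ → ℕ → Prop}

theorem dm_at (hr : 1 ≤ r) {x : ℕ} (h : Dm X x) : At X (Kd.c ⟨0, hr⟩ : Kd r) x x := ⟨h, rfl⟩

/-- the representation over the identity -/
theorem rep' (h : W2 r f X fl) (hr : 1 ≤ r) : ∃ e : Tk {x // Dm X x} r ≃ ℕ,
    (∀ u v, SY false (fun x y : {x // Dm X x} => O1 X x y)
      (fun x y : {x // Dm X x} => O2 r X x y) u v ↔ X (e u) (e v)) ∧
    (∀ u v, flT f u v ↔ fl (e u) (e v)) ∧ ∀ q, e (pt0 hr q) = q := by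
  obtain ⟨x, hx⟩ := h.pt
  have : Nonempty {x // Dm X x} := ⟨⟨x, hx⟩⟩
  obtain ⟨e, h3, h4⟩ := h.rep
  have hB : ∀ q : {x // Dm X x}, Dm X (e (pt0 hr q)) := fun q =>
    (dm_map e h3 _).1 ((dm_iff hr h.d1 h.d2).2 ⟨q, rfl⟩)
  have hbij : Function.Bijective (fun q : {x // Dm X x} => (⟨e (pt0 hr q), hB q⟩ :
      {x // Dm X x})) := by
    constructor
    · intro u v huv
      exact pt0_inj hr (e.injective (congrArg Subtype.val huv))
    · rintro ⟨u, hu⟩
      obtain ⟨t, rfl⟩ := e.surjective u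
      obtain ⟨q, rfl⟩ := (dm_iff hr h.d1 h.d2).1 ((dm_map e h3 _).2 hu)
      exact ⟨q, rfl⟩
  let α : {x // Dm X x} ≃ {x // Dm X x} := Equiv.ofBijective _ hbij
  have hα : ∀ q, ((α q : {x // Dm X x}) : ℕ) = e (pt0 hr q) := fun q => rfl
  have a1 : ∀ x y : {x // Dm X x}, O1 X x y ↔ O1 X (α x) (α y) := fun x y => by
    rw [hα, hα, ← o1_map e h3, o1_iff hr h.d1 h.d2]
  have a2 : ∀ x y : {x // Dm X x}, O2 r X x y ↔ O2 r X (α x) (α y) := fun x y => by
    rw [hα, hα, ← o2_map e h3, o2_iff hr h.d1 h.d2]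
  refine ⟨(Tk.map α).symm.trans e, fun u v => ?_, fun u v => ?_, fun q => ?_⟩
  · obtain ⟨u, rfl⟩ := (Tk.map (r := r) α).surjective u
    obtain ⟨v, rfl⟩ := (Tk.map (r := r) α).surjective v
    rw [← sy_tkmap α a1 a2]
    show _ ↔ X (e ((Tk.map α).symm (Tk.map α u))) (e ((Tk.map α).symm (Tk.map α v)))
    rw [Equiv.symm_apply_apply, Equiv.symm_apply_apply]
    exact h3 u v
  · obtain ⟨u, rfl⟩ := (Tk.map (r := r) α).surjective u
    obtain ⟨v, rfl⟩ := (Tk.map (r := r) α).surjective v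
    show _ ↔ fl (e ((Tk.map α).symm (Tk.map α u))) (e ((Tk.map α).symm (Tk.map α v)))
    rw [Equiv.symm_apply_apply, Equiv.symm_apply_apply, ← h4]
    unfold flT
    rw [(Tk.map α).injective.ne_iff, lay_tkmap, lay_tkmap]
  · show e (pt0 hr (α.symm q)) = q
    rw [← hα, Equiv.apply_symm_apply]

/-- the isomorphisms of the pairs of orders extend -/
theorem ext' {X' fl' : ℕ → ℕ → Prop} (h : W2 r f X fl) (h' : W2 r f X' fl') (hr : 1 ≤ r)
    (π : {x // Dm X x} ≃ {x // Dm X' x})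
    (h1 : ∀ x y : {x // Dm X x}, O1 X x y ↔ O1 X' (π x) (π y))
    (h2 : ∀ x y : {x // Dm X x}, O2 r X x y ↔ O2 r X' (π x) (π y)) :
    ∃ e : ℕ ≃ ℕ, (∀ u v, X u v ↔ X' (e u) (e v)) ∧ (∀ u v, fl u v ↔ fl' (e u) (e v)) ∧
      ∀ u (hu : Dm X u), e u = π ⟨u, hu⟩ := by
  obtain ⟨e, h3, h4, h5⟩ := rep' h hr
  obtain ⟨e', h3', h4', h5'⟩ := rep' h' hr
  refine ⟨(e.symm.trans (Tk.map π)).trans e', fun u v => ?_, fun u v => ?_, fun u hu => ?_⟩
  · obtain ⟨u, rfl⟩ := e.surjective u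
    obtain ⟨v, rfl⟩ := e.surjective v
    rw [← h3]
    show _ ↔ X' (e' (Tk.map π (e.symm (e u)))) (e' (Tk.map π (e.symm (e v))))
    rw [← h3', e.symm_apply_apply, e.symm_apply_apply]
    exact sy_tkmap π h1 h2 u v
  · obtain ⟨u, rfl⟩ := e.surjective u
    obtain ⟨v, rfl⟩ := e.surjective v
    rw [← h4]
    show _ ↔ fl' (e' (Tk.map π (e.symm (e u)))) (e' (Tk.map π (e.symm (e v))))
    rw [← h4', e.symm_apply_apply, e.symm_apply_apply]
    unfold flT
    rw [(Tk.map π).injective.ne_iff, lay_tkmap, lay_tkmap]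
  · show e' (Tk.map π (e.symm u)) = π ⟨u, hu⟩
    have h6 : e.symm u = pt0 hr ⟨u, hu⟩ := by
      rw [Equiv.symm_apply_eq, h5]
    rw [h6, ← h5' (π ⟨u, hu⟩)]
    rfl

/-- twins -/
theorem twin (h : W2 r f X fl) {x y : ℕ} (hX : ∀ w, X x w ↔ X y w) (hx : ¬ Dm X x)
    (hy : ¬ Dm X y) (a : Fin (r + 2)) (h1 : La r f X fl x a) (h2 : La r f X fl y a) (s : Bool)
    (w : ℕ) (hw : w ≠ x) (hw' : w ≠ y) :
    flip (En s r X) fl x w ↔ flip (En s r X) fl y w := by
  obtain ⟨b, hb⟩ := h.cv w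
  have e1 := h.fli a b x w h1 hb
  have e2 := h.fli a b y w h2 hb
  have e3 := hX w
  have e4 := Ne.symm hw
  have e5 := Ne.symm hw'
  unfold Pool.Agent.TH783.FC.flip En
  tauto

theorem fli_irr (h : W2 r f X fl) (u : ℕ) : ¬ fl u u := by
  obtain ⟨a, ha⟩ := h.cv u
  rw [h.fli a a u u ha ha]
  exact fun h => h.1 rfl

theorem fli_sy (h : W2 r f X fl) (hf : ∀ a b, f a b → f b a) {u v : ℕ} (huv : fl u v) :
    fl v u := by
  obtain ⟨a, ha⟩ := h.cv u
  obtain ⟨b, hb⟩ := h.cv v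
  rw [h.fli a b u v ha hb] at huv
  rw [h.fli b a v u hb ha]
  exact ⟨huv.1.symm, hf _ _ huv.2⟩

theorem gr_irr (h : W2 r f X fl) (s : Bool) (u : ℕ) : ¬ flip (En s r X) fl u u := by
  have h1 := fli_irr h u
  have h2 := h.irr u
  have h3 : Dm X u → ¬ O1 X u u := fun hu => h.d1.irrefl ⟨u, hu⟩
  unfold Pool.Agent.TH783.FC.flip En
  tauto

theorem gr_sy (h : W2 r f X fl) (hf : ∀ a b, f a b → f b a) (s : Bool) {u v : ℕ}
    (huv : flip (En s r X) fl u v) : flip (En s r X) fl v u := by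
  have h1 : fl u v ↔ fl v u := ⟨fli_sy h hf, fli_sy h hf⟩
  have h2 : X u v ↔ X v u := ⟨h.sy _ _, h.sy _ _⟩
  revert huv
  unfold Pool.Agent.TH783.FC.flip En
  rw [h1, h2]
  tauto

variable {s : Bool}

/-- the definable sets of twins -/
def Zc (r : ℕ) (s : Bool) (f : ℕ → ℕ → Prop) : Bool ⊕ Fin (r + 2) → LG.Structure ℕ → ℕ → Prop
  | Sum.inl true => fun S x => Es (Xd s S) x
  | Sum.inl false => fun S x => Fs (Xd s S) x
  | Sum.inr a => fun S x => ¬ Nz (Xd s S) x ∧ TT r f (Xd s S) (fd S) x a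

theorem sw (hr : 1 ≤ r) (hf : ∀ a b, f a b → f b a) (c : Bool ⊕ Fin (r + 2))
    (S : LG.Structure ℕ) (x y : ℕ) (h : WS r s f S) (hx : Zc r s f c S x) (hy : Zc r s f c S y) :
    ∃ σ : @FirstOrder.Language.Equiv LG ℕ ℕ S S, ∀ v, σ v = Equiv.swap x y v := by
  have hgd : gd S = flip (En s r (Xd s S)) (fd S) := by
    funext u v
    exact propext (h.eq u v)
  refine sw_of_tw (fun u => by rw [hgd]; exact gr_irr h.w s u)
    (fun u v huv => by rw [hgd] at huv ⊢; exact gr_sy h.w hf s huv) ?_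
  rw [hgd]
  have hdm : ∀ x, Dm (Xd s S) x → Nz (Xd s S) x ∧ ¬ Es (Xd s S) x ∧ ¬ Fs (Xd s S) x :=
    fun x hx => ⟨h.w.nz _ _ _ (dm_at hr hx), h.w.dj _ _ _ (dm_at hr hx)⟩
  have hsy : ∀ u v, Xd s S u v ↔ Xd s S v u := fun u v => ⟨h.w.sy _ _, h.w.sy _ _⟩
  have l1 : 1 < r + 2 := by omega
  have l2 : r < r + 2 := by omega
  rcases c with (_ | _) | a
  · -- three twins
    have hx' : Fs (Xd s S) x := hx
    have hy' : Fs (Xd s S) y := hy
    refine twin h.w (fun w => ?_) (fun hd => (hdm x hd).2.2 hx') (fun hd => (hdm y hd).2.2 hy')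
      ⟨r, l2⟩ (Or.inl (Or.inr (Or.inr ⟨hx', rfl⟩))) (Or.inl (Or.inr (Or.inr ⟨hy', rfl⟩))) s
    by_cases hw : Nz (Xd s S) w
    · rcases h.w.cov w hw with h1 | h1 | ⟨k, z, h1⟩
      · exact iff_of_false (h.w.ef _ _ (Or.inr hx') (Or.inl h1))
          (h.w.ef _ _ (Or.inr hy') (Or.inl h1))
      · exact iff_of_false (h.w.ef _ _ (Or.inr hx') (Or.inr h1))
          (h.w.ef _ _ (Or.inr hy') (Or.inr h1))
      · rw [h.w.fB k x w z hx' h1, h.w.fB k y w z hy' h1]
    · exact iff_of_false (fun h1 => hw ⟨x, h.w.sy _ _ h1⟩) (fun h1 => hw ⟨y, h.w.sy _ _ h1⟩)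
  · -- two twins
    have hx' : Es (Xd s S) x := hx
    have hy' : Es (Xd s S) y := hy
    refine twin h.w (fun w => ?_) (fun hd => (hdm x hd).2.1 hx') (fun hd => (hdm y hd).2.1 hy')
      ⟨1, l1⟩ (Or.inl (Or.inr (Or.inl ⟨hx', rfl⟩))) (Or.inl (Or.inr (Or.inl ⟨hy', rfl⟩))) s
    by_cases hw : Nz (Xd s S) w
    · rcases h.w.cov w hw with h1 | h1 | ⟨k, z, h1⟩
      · exact iff_of_false (h.w.ef _ _ (Or.inl hx') (Or.inl h1))
          (h.w.ef _ _ (Or.inl hy') (Or.inl h1))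
      · exact iff_of_false (h.w.ef _ _ (Or.inl hx') (Or.inr h1))
          (h.w.ef _ _ (Or.inl hy') (Or.inr h1))
      · rw [h.w.eA k x w z hx' h1, h.w.eA k y w z hy' h1]
    · exact iff_of_false (fun h1 => hw ⟨x, h.w.sy _ _ h1⟩) (fun h1 => hw ⟨y, h.w.sy _ _ h1⟩)
  · -- isolated vertices
    refine twin h.w (fun w => iff_of_false (fun h1 => hx.1 ⟨w, h1⟩) (fun h1 => hy.1 ⟨w, h1⟩))
      (fun hd => hx.1 (hdm x hd).1) (fun hd => hy.1 (hdm y hd).1) a (Or.inr hx) (Or.inr hy) s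

theorem upS (hr : 1 ≤ r) (S S' : LG.Structure ℕ) (h : WS r s f S) (h' : WS r s f S')
    (π : {u // Dm (Xd s S) u} ≃ {u // Dm (Xd s S') u})
    (hπ : ∀ {n : ℕ} (R : L2.Relations n) (u : Fin n → {u // Dm (Xd s S) u}),
      (itp r s f).rel R S (fun i => u i) ↔ (itp r s f).rel R S' (fun i => π (u i))) :
    ∃ g : @FirstOrder.Language.Equiv LG ℕ ℕ S S', ∀ u (hu : Dm (Xd s S) u),
      g u = π ⟨u, hu⟩ := by
  obtain ⟨e, h1, h2, h3⟩ := ext' h.w h'.w hr π
    (fun u v => hπ R2.fst (fun m => if m = 0 then u else v))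
    (fun u v => hπ R2.snd (fun m => if m = 0 then u else v))
  obtain ⟨g, hg⟩ := siso_gr (S := S) (S' := S') e fun u v => by
    rw [h.eq, h'.eq]
    unfold Pool.Agent.TH783.FC.flip
    rw [← en_map e h1 s u v, ← h2]
  exact ⟨g, fun u hu => (hg u).trans (h3 u hu)⟩

/-- supports -/
noncomputable def gt (r : ℕ) (s : Bool) (f : ℕ → ℕ → Prop) (hr : 1 ≤ r)
    (hf : ∀ a b, f a b → f b a) : Gt (itp r s f) (fun _ => True) (fun _ => ()) where
  K := Kd r
  wd := fun _ => 1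
  χ := fun k S x w => At (Xd s S) k x (w 0)
  fd := fun k => fd_at (fd2_Xd s) k _ (Sum.inl ()) (Sum.inr (0 : Fin 1))
  dom := fun k S x w _ hc j => by
    have e : j = 0 := Subsingleton.elim _ _
    subst e
    rcases k with _ | _ | t
    · exact hc.1
    · exact hc.1
    · exact hc.1
  fn := fun k => ⟨Unit, inferInstance, fun S x h => ⟨fun _ => (), fun w w' hc hc' _ => by
    funext j
    have e : j = 0 := Subsingleton.elim _ _
    subst e
    exact (h.w.ij k k x _ _ hc hc').2⟩⟩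
  fx := fun k S x x' w h hc hc' => h.w.uq k _ _ _ hc hc'
  C := Bool ⊕ Fin (r + 2)
  Z := Zc r s f
  fz := fun c => match c with
    | Sum.inl true => fd_es (fd2_Xd s) _ ()
    | Sum.inl false => fd_fs (fd2_Xd s) _ ()
    | Sum.inr a => (fd_nz (fd2_Xd s) _ ()).not.and (fd_tt (fd2_Xd s) fd2_fd r f a _ ())
  sw := fun c S x y h hx hy => sw hr hf c S x y h hx hy
  tot := fun S h _ x => by
    by_cases hx : Nz (Xd s S) x
    · rcases h.w.cov x hx with h1 | h1 | ⟨k, z, h1⟩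
      · exact Or.inr ⟨Sum.inl true, h1⟩
      · exact Or.inr ⟨Sum.inl false, h1⟩
      · exact Or.inl ⟨k, fun _ => z, h1⟩
    · obtain ⟨a, h1⟩ := h.w.tt hx
      exact Or.inr ⟨Sum.inr a, hx, h1⟩
  up := fun S S' h h' _ π hπ => upS hr S S' h h' π hπ
  rich := fun _ _ _ _ _ _ _ => ⟨∅, ∅, Set.countable_empty, Set.countable_empty,
    fun _ _ _ _ _ _ => rfl⟩

/-- the reduction to half graph crossings and comparability grids -/
theorem reduce (hr : 1 ≤ r) (hf : ∀ a b, f a b → f b a) (hs : s = true → r = 1)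
    (hV : ∀ T : LG.Theory, T.IsComplete → FewCountableModels T →
      (∀ S : LG.Structure ℕ, @Theory.Model LG ℕ S T → WS r s f S) → MartinN T)
    (T : L2.Theory) (hfew : FewCountableModels T)
    (hT : ∀ S : L2.Structure ℕ, @Theory.Model L2 ℕ S T →
      Pool.Agent.TH686.DO.DL1 (g1 S) ∧ Pool.Agent.TH686.DO.DL1 (g2 S)) :
    MartinN T := by
  have := Pool.Agent.TH686.FO.countable_L2
  have := StD.countable_LG
  refine transferN (tq (itp r s f)) (gt r s f hr hf).sup T hfew (fun M hM => ?_)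
    fun T' h1 h2 h3 => hV T' h1 h2 h3
  obtain ⟨h1, h2⟩ := hT M hM
  obtain ⟨S, h3, h4⟩ := Pool.Agent.TH783.MD.ex hr hf hs M h1 h2
  refine ⟨S, h3, trivial, ?_⟩
  rw [D_tq]
  exact h4

end MdG

end Pool.Agent.TH686.MC
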