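import Pool.Agent.W970.VPISO

set_option autoImplicit false

/-! Axioms with given blocks of quantifiers which make the structures of tuples infinite. -/

namespace Pool.Agent.TH686.JT

open FirstOrder FirstOrder.Language
open Pool.Agent.W921.VP (Pre Len TRel)

section pad

variable {L' : FirstOrder.Language.{0, 0}}

/-- a block of existential quantifiers -/
def exN {n : ℕ} : (b : ℕ) → L'.BoundedFormula Empty (n + b) → L'.BoundedFormula Empty n
  | 0, φ => φ
  | b + 1, φ => exN b (BoundedFormula.ex (n := n + b) φ)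

theorem realize_exN {n : ℕ} (b : ℕ) {M : Type} (S : L'.Structure M) :
    ∀ (φ : L'.BoundedFormula Empty (n + b)) (v : Empty → M) (xs : Fin n → M),
      @BoundedFormula.Realize L' M S Empty n (exN b φ) v xs ↔
        ∃ zs : Fin (n + b) → M, (∀ i : Fin n, zs (Fin.castAdd b i) = xs i) ∧
          @BoundedFormula.Realize L' M S Empty (n + b) φ v zs := by
  induction b with
  | zero =>
    intro φ v xs
    constructor
    · intro h
      exact ⟨xs, fun i => rfl, h⟩
    · rintro ⟨zs, h1, h2⟩
      have : zs = xs := funext h1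
      rw [← this]
      exact h2
  | succ b ih =>
    intro φ v xs
    have h0 : @BoundedFormula.Realize L' M S Empty n (exN (b + 1) φ) v xs ↔
      @BoundedFormula.Realize L' M S Empty n (exN b (BoundedFormula.ex (n := n + b) φ)) v xs :=
      Iff.rfl
    rw [h0, ih]
    constructor
    · rintro ⟨zs, h1, h2⟩
      rw [BoundedFormula.realize_ex] at h2
      obtain ⟨a, ha⟩ := h2
      refine ⟨Fin.snoc (α := fun _ => M) zs a, fun i => ?_, ha⟩
      rw [← h1 i]
      have : (Fin.castAdd (b + 1) i : Fin (n + b + 1)) = (Fin.castAdd b i).castSucc := rfl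
      exact (congrArg (Fin.snoc (α := fun _ => M) zs a) this).trans (Fin.snoc_castSucc _ _ _)
    · rintro ⟨zs, h1, h2⟩
      refine ⟨fun i => zs i.castSucc, fun i => h1 i, ?_⟩
      rw [BoundedFormula.realize_ex]
      refine ⟨zs (Fin.last (n + b)), ?_⟩
      have : (Fin.snoc (α := fun _ => M) (fun i => zs i.castSucc) (zs (Fin.last (n + b)))) = zs :=
        Fin.snoc_init_self zs
      exact (congrArg (@BoundedFormula.Realize L' M S Empty (n + b + 1) φ v) this).mpr h2

theorem pre_exN {n : ℕ} (b : ℕ) : ∀ (c : ℕ) (φ : L'.BoundedFormula Empty (n + b)),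
    Pre 0 0 c φ → Pre 0 0 (c + b) (exN b φ) := by
  induction b with
  | zero => exact fun c φ h => h
  | succ b ih =>
    intro c φ h
    have h1 := ih (c + 1) (BoundedFormula.ex (n := n + b) φ) (Pre.ex h)
    have h2 : c + 1 + b = c + (b + 1) := by omega
    rw [h2] at h1
    exact h1

theorem pre_alls {n : ℕ} : ∀ (a b : ℕ) (φ : L'.BoundedFormula Empty n),
    Pre 0 a b φ → Pre 0 (a + n) b (φ.alls : L'.BoundedFormula Empty 0) := by
  induction n with
  | zero => exact fun a b φ h => h
  | succ n ih =>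
    intro a b φ h
    have h1 := ih (a + 1) b φ.all (Pre.all h)
    have h2 : a + 1 + n = a + (n + 1) := by omega
    rw [h2] at h1
    exact h1

/-- `∀^a ∃^b ψ` -/
def AE (a b : ℕ) (ψ : L'.BoundedFormula Empty (a + b)) : L'.Sentence := (exN b ψ).alls

theorem pre_AE {a b : ℕ} {ψ : L'.BoundedFormula Empty (a + b)} (h : ψ.IsQF) :
    Pre 0 a b (AE a b ψ : L'.BoundedFormula Empty 0) := by
  have h1 := pre_alls 0 (0 + b) (exN b ψ) (pre_exN b 0 ψ (Pre.qf h))
  rw [Nat.zero_add, Nat.zero_add] at h1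
  exact h1

theorem realize_AE {a b : ℕ} (ψ : L'.BoundedFormula Empty (a + b)) {M : Type}
    (S : L'.Structure M) : @Sentence.Realize L' M S (AE a b ψ) ↔
      ∀ xs : Fin a → M, ∃ zs : Fin (a + b) → M, (∀ i : Fin a, zs (Fin.castAdd b i) = xs i) ∧
        @BoundedFormula.Realize L' M S Empty (a + b) ψ Empty.elim zs := by
  unfold Sentence.Realize AE
  rw [BoundedFormula.realize_alls]
  refine forall_congr' fun xs => ?_
  rw [Subsingleton.elim (default : Empty → M) Empty.elim]
  exact realize_exN b S ψ _ xs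

end pad

variable {L : FirstOrder.Language.{0, 0}}

/-- `x_i` has length `n` -/
def lenF {k : ℕ} (n : ℕ) (i : Fin k) : (Pool.Agent.W921.VP.TL L).BoundedFormula Empty k :=
  BoundedFormula.rel (TRel.len n : (Pool.Agent.W921.VP.TL L).Relations 1)
    fun _ => Term.var (Sum.inr i)

theorem qf_lenF {k : ℕ} (n : ℕ) (i : Fin k) : (lenF (L := L) n i).IsQF :=
  (BoundedFormula.IsAtomic.rel _ _).isQF

theorem realize_lenF {k : ℕ} (n : ℕ) (i : Fin k) {M : Type}
    (S : (Pool.Agent.W921.VP.TL L).Structure M) (v : Empty → M) (zs : Fin k → M) :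
    @BoundedFormula.Realize _ M S Empty k (lenF n i) v zs ↔ Len S n (zs i) := by
  unfold lenF Len
  have e : (fun _ : Fin 1 => zs i) = ![zs i] := Pool.Agent.W970.VPISO.one_eq _
  rw [← e]
  exact Iff.rfl

/-- no element has two lengths -/
def axD (a b m n : ℕ) (h : 0 < a) : (Pool.Agent.W921.VP.TL L).Sentence :=
  AE a b ((lenF m ⟨0, by omega⟩).imp (lenF n ⟨0, by omega⟩).not)

/-- there is an element of a given length -/
def axE (a b n : ℕ) (h : 0 < b) : (Pool.Agent.W921.VP.TL L).Sentence :=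
  AE a b (lenF n ⟨a, by omega⟩)

theorem pre_axD (a b m n : ℕ) (h : 0 < a) :
    Pre 0 a b (axD (L := L) a b m n h : (Pool.Agent.W921.VP.TL L).BoundedFormula Empty 0) :=
  pre_AE ((qf_lenF _ _).imp ((qf_lenF _ _).not))

theorem pre_axE (a b n : ℕ) (h : 0 < b) :
    Pre 0 a b (axE (L := L) a b n h : (Pool.Agent.W921.VP.TL L).BoundedFormula Empty 0) :=
  pre_AE (qf_lenF _ _)

theorem realize_axD (a b m n : ℕ) (h : 0 < a) {M : Type}
    (S : (Pool.Agent.W921.VP.TL L).Structure M) :
    @Sentence.Realize _ M S (axD (L := L) a b m n h) ↔ ∀ x, Len S m x → ¬ Len S n x := by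
  unfold axD
  rw [realize_AE]
  have key : ∀ zs : Fin (a + b) → M, @BoundedFormula.Realize _ M S Empty (a + b)
      ((lenF m ⟨0, by omega⟩).imp (lenF n ⟨0, by omega⟩).not) Empty.elim zs ↔
      (Len S m (zs ⟨0, by omega⟩) → ¬ Len S n (zs ⟨0, by omega⟩)) := by
    intro zs
    rw [BoundedFormula.realize_imp, BoundedFormula.realize_not, realize_lenF, realize_lenF]
  constructor
  · intro h1 x
    obtain ⟨zs, h2, h3⟩ := h1 fun _ => x
    rw [key] at h3
    have h4 : zs ⟨0, by omega⟩ = x := h2 ⟨0, h⟩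
    rw [h4] at h3
    exact h3
  · intro h1 xs
    refine ⟨Fin.addCases (motive := fun _ => M) xs (fun _ => xs ⟨0, h⟩), fun i => by simp, ?_⟩
    rw [key]
    exact h1 _

theorem realize_axE (a b n : ℕ) (h : 0 < b) {M : Type} [Nonempty M]
    (S : (Pool.Agent.W921.VP.TL L).Structure M) :
    @Sentence.Realize _ M S (axE (L := L) a b n h) ↔ ∃ x, Len S n x := by
  unfold axE
  rw [realize_AE]
  constructor
  · intro h1
    obtain ⟨zs, h2, h3⟩ := h1 fun _ => Classical.arbitrary M
    rw [realize_lenF] at h3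
    exact ⟨_, h3⟩
  · rintro ⟨x, hx⟩ xs
    refine ⟨Fin.addCases (motive := fun _ => M) xs (fun _ => x), fun i => by simp, ?_⟩
    rw [realize_lenF]
    have h4 : (⟨a, by omega⟩ : Fin (a + b)) = Fin.natAdd a ⟨0, h⟩ := rfl
    rw [h4, Fin.addCases_right]
    exact hx

theorem infinite_of {M : Type} (S : (Pool.Agent.W921.VP.TL L).Structure M)
    (h1 : ∀ m n, m ≠ n → ∀ x, Len S m x → ¬ Len S n x) (h2 : ∀ n, ∃ x, Len S n x) :
    Infinite M := by
  choose f hf using h2
  refine Infinite.of_injective f fun m n hmn => ?_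
  by_contra hne
  exact h1 m n hne (f m) (hf m) (hmn ▸ hf n)

end Pool.Agent.TH686.JT
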