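import Pool.Agent.TH686.MC.Tq
import Pool.Agent.W889.FO.Cnt

set_option autoImplicit false

/-! Rich elementary extensions. -/

namespace Pool.Agent.TH686.MC

open FirstOrder FirstOrder.Language Filter
open Pool.Agent.W889.FO
open Pool.Agent.W889.SD (Nth nth_equiv)
open Pool.Agent.TH686.FO

variable {L L' : FirstOrder.Language.{0, 0}} [L.IsRelational] [L'.IsRelational]

omit [L.IsRelational] in
/-- a dichotomy -/
theorem rich_of {J : Type} {j : L'.Structure ℕ → J} {S S' : L'.Structure ℕ}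
    (E : L'.Structure ℕ → Prop) (c1 c2 : J) (hE : E S ↔ E S')
    (h1 : ∀ T, T = S ∨ T = S' → E T → ∃ B : Set (ℕ → ℕ), B.Countable ∧ ∀ F, Sk T F → Cov F B →
      j (sub T F) = c1)
    (h2 : ∀ T, T = S ∨ T = S' → ¬ E T → ∃ B : Set (ℕ → ℕ), B.Countable ∧ ∀ F, Sk T F → Cov F B →
      j (sub T F) = c2) :
    ∃ B B' : Set (ℕ → ℕ), B.Countable ∧ B'.Countable ∧ ∀ F F', Sk S F → Sk S' F' → Cov F B →
      Cov F' B' → j (sub S F) = j (sub S' F') := by
  by_cases h : E S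
  · obtain ⟨B, hB, k1⟩ := h1 S (Or.inl rfl) h
    obtain ⟨B', hB', k2⟩ := h1 S' (Or.inr rfl) (hE.1 h)
    exact ⟨B, B', hB, hB', fun F F' hF hF' hc hc' => (k1 F hF hc).trans (k2 F' hF' hc').symm⟩
  · obtain ⟨B, hB, k1⟩ := h2 S (Or.inl rfl) h
    obtain ⟨B', hB', k2⟩ := h2 S' (Or.inr rfl) (fun h3 => h (hE.2 h3))
    exact ⟨B, B', hB, hB', fun F F' hF hF' hc hc' => (k1 F hF hc).trans (k2 F' hF' hc').symm⟩

theorem cnt_none_of {P : ℕ → Prop} (g : ℕ → ℕ) (hg : Function.Injective g) (h : ∀ k, P (g k)) :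
    cnt P = none := by
  rw [cnt_none]
  intro s hs
  have h1 : Set.range g ⊆ (s : Set ℕ) := by
    rintro _ ⟨k, rfl⟩
    exact (hs _).2 (h k)
  exact (Set.infinite_range_of_injective hg) (s.finite_toSet.subset h1)

theorem cnt_zero_of {P : ℕ → Prop} (h : ∀ k, ¬ P k) : cnt P = some 0 := by
  rw [cnt_some]
  exact ⟨∅, rfl, fun u => ⟨fun h1 => absurd h1 (Finset.notMem_empty u), fun h1 => absurd h1 (h u)⟩⟩

/-- infinitely many elements -/
theorem cov_inf {F : ℕ → ℕ → ℕ} {P : ℕ → Prop} (f : ℕ → ℕ → ℕ) (hc : Cov F (Set.range f))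
    (hP : ∀ k i, (∀ᶠ m in (U : Filter ℕ), F i m = f k m) → P i)
    (hne : ∀ k l, k ≠ l → ∀ᶠ m in (U : Filter ℕ), f k m ≠ f l m) : cnt P = none := by
  choose g hg using fun k => hc (f k) ⟨k, rfl⟩
  refine cnt_none_of g (fun k l hkl => ?_) fun k => hP k (g k) (hg k)
  by_contra hne'
  obtain ⟨m, ⟨h1, h2⟩, h3⟩ := (((hg k).and (hg l)).and (hne k l hne')).exists
  rw [← h1, ← h2, hkl] at h3
  exact h3 rfl

omit [L'.IsRelational] in
/-- nonempty relations of the interpreted structure -/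
theorem ne_iff {I : Itp L L'} {S : L'.Structure ℕ} (h : I.W S) (R : Σ n, L.Relations n) :
    (∃ v, @Structure.RelMap L ℕ (I.D S) R.1 R.2 v) ↔
      ∃ u : Fin R.1 → ℕ, (∀ i, I.dom S (u i)) ∧ I.rel R.2 S u := by
  obtain ⟨e, he⟩ := I.nth h
  constructor
  · rintro ⟨v, hv⟩
    refine ⟨fun i => e (v i), fun i => (e (v i)).2, ?_⟩
    rw [I.rel_iff h R.2 (u := fun i => (e (v i) : ℕ)) (v := v) (fun i => by rw [he])] at hv
    exact hv
  · rintro ⟨u, hu, hr⟩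
    refine ⟨fun i => e.symm ⟨u i, hu i⟩, ?_⟩
    rw [I.rel_iff h R.2 (u := u) (fun i => by rw [he, Equiv.apply_symm_apply])]
    exact hr

omit [L.IsRelational] in
/-- the sentence which expresses that a relation is not empty -/
theorem ne_sent (R : Σ n, L.Relations n) : ∃ φ : L.BoundedFormula Empty 0, ∀ M : L.Structure ℕ,
    Rz M φ Fin.elim0 ↔ ∃ v, @Structure.RelMap L ℕ M R.1 R.2 v := by
  have h1 : FD (fun _ => True) (fun (M : L.Structure ℕ) (_ : Fin 0 → ℕ) =>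
      ∃ v : Fin R.1 → ℕ, @Structure.RelMap L ℕ M R.1 R.2 v) :=
    FD.ex (P := fun M _ v => @Structure.RelMap L ℕ M R.1 R.2 v)
      (FD.rel (L := L) R.2 (fun j => Sum.inr j))
  obtain ⟨φ, hφ⟩ := rz_of_fd h1
  exact ⟨φ, fun M => hφ M trivial _⟩

omit [L'.IsRelational] in
theorem ne_eq {I : Itp L L'} {S S' : L'.Structure ℕ} (h : I.W S) (h' : I.W S')
    (hE : ∀ φ : L.BoundedFormula Empty 0, Rz (I.D S) φ Fin.elim0 ↔ Rz (I.D S') φ Fin.elim0)
    (R : Σ n, L.Relations n) :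
    (∃ u : Fin R.1 → ℕ, (∀ i, I.dom S (u i)) ∧ I.rel R.2 S u) ↔
      ∃ u : Fin R.1 → ℕ, (∀ i, I.dom S' (u i)) ∧ I.rel R.2 S' u := by
  obtain ⟨φ, hφ⟩ := ne_sent R
  rw [← ne_iff h, ← ne_iff h', ← hφ, ← hφ]
  exact hE φ

end Pool.Agent.TH686.MC
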