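import Pool.Agent.TH686.MC.SupBin

set_option autoImplicit false

/-! From languages with unary and binary relations to a finite language: rich extensions. -/

namespace Pool.Agent.TH686.JB

open FirstOrder FirstOrder.Language Filter
open Pool.Agent.W889.FO Pool.Agent.W889.FO.StB
open StA (FD.all1 FD.ex1)
open Pool.Agent.TH686.FO
open Pool.Agent.TH686.MC (Sk Cov sub Gn cnt_none_of cnt_zero_of cov_inf Rz ev_ge rich_of ne_eq
  los_fd sub_ax)

variable {L : FirstOrder.Language.{0, 0}} {B : Bin L} {S S' : LB.Structure ℕ}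

theorem jm_inf (h : StB.W B S) (hE : (En B S).Infinite) :
    ∃ B0 : Set (ℕ → ℕ), B0.Countable ∧ ∀ F, Sk S F → Cov F B0 →
      cnt (JM (sub S F)) = none := by
  let r : ℕ ↪ (Σ n, L.Relations n) := ⟨fun n => (hE.natEmbedding _ n : En B S).1, fun m n hmn =>
    (hE.natEmbedding _).injective (Subtype.ext hmn)⟩
  have hr : ∀ n, ∃ c x, C S c ∧ ch S (2 ^ B.p (r n)) c x ∧ M S x := by
    intro n
    obtain ⟨v, -, c, x, h1, -, h3, h4⟩ := (hE.natEmbedding _ n : En B S).2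
    exact ⟨c, x, (h.w0.f1 _ _ h1).1, h3, h4⟩
  choose c t hc ht hM using hr
  have hpos : ∀ n a c', C S c' → ch S a c' (t n) → a = 2 ^ B.p (r n) := fun n a c' h1 h2 =>
    (pos_uniq h.w0 h1 (hc n) h2 (ht n)).1
  have hdist : ∀ a b, t a = t b → a = b := fun a b hab => by
    have h1 := hpos b _ _ (hc a) (by rw [← hab]; exact ht a)
    exact r.injective (B.inj (Nat.pow_right_injective le_rfl h1))
  refine ⟨Set.range fun k m => t (m + k), Set.countable_range _, fun F hF hcov => ?_⟩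
  refine cov_inf (fun k m => t (m + k)) hcov (fun k i hi => ?_) fun k l hkl => ?_
  · constructor
    · have : ∀ᶠ m in (TH686.MC.U : Filter ℕ), M S (F i m) := hi.mono fun m hm => by
        rw [hm]
        exact hM _
      exact this
    · intro n c' hc' hch
      have hc2 : ∀ᶠ m in (TH686.MC.U : Filter ℕ), C S (F c' m) := hc'
      rw [ch_sub hF] at hch
      have h3 : ∀ᶠ m in (TH686.MC.U : Filter ℕ), n = 2 ^ B.p (r (m + k)) := by
        filter_upwards [hi, hc2, hch] with m h4 h5 h6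
        rw [h4] at h6
        exact hpos _ _ _ h5 h6
      obtain ⟨m0, hm0⟩ := h3.exists
      obtain ⟨m, h4, h5⟩ := (h3.and (ev_ge (m0 + 1))).exists
      have h6 := r.injective (B.inj (Nat.pow_right_injective le_rfl (hm0.symm.trans h4)))
      omega
  · refine Eventually.of_forall fun m hm => hkl ?_
    have := hdist _ _ hm
    omega

theorem jm_fin (h : StB.W B S) (hV : VB S) (hE : (En B S).Finite) (F : ℕ → ℕ → ℕ)
    (hF : Sk S F) : cnt (JM (sub S F)) = some 0 := by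
  refine cnt_zero_of fun i hi => ?_
  have hM : ∀ᶠ m in (TH686.MC.U : Filter ℕ), M S (F i m) := hi.1
  have h2 : ∀ᶠ m in (TH686.MC.U : Filter ℕ), ∀ R ∈ En B S,
      ¬ ∃ c, C S c ∧ ch S (2 ^ B.p R) c (F i m) := by
    rw [Filter.eventually_all_finite hE]
    intro R _
    refine Ultrafilter.eventually_not.2 fun h3 => ?_
    have h4 := los_fd (W := fun _ => True) hF trivial trivial
      (P := fun S (v : Unit → ℕ) => ∃ c, C S c ∧ ch S (2 ^ B.p R) c (v ()))
      (FD.ex1 (P := fun S v c => C S c ∧ ch S (2 ^ B.p R) c (v ()))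
        ((fd_C _).and (fd_ch _ _ _))) (fun _ => i)
    obtain ⟨c, h5, h6⟩ := h4.2 h3
    exact hi.2 _ c h5 h6
  obtain ⟨m, h3, h4⟩ := (hM.and h2).exists
  obtain ⟨n, c, hc, h5⟩ := has_pos h.w0 hV (h.w0.m0 _ h3)
  obtain ⟨R, hR, rfl⟩ := mark_pos h hc h5 h3
  exact h4 R hR ⟨c, hc, h5⟩

/-- positions in a spine -/
theorem pos_sub (h : W0 S) {N a b c x v z : ℕ} (hc : C S c) (h1 : ch S N c x) (h2 : ch S a x z)
    (h3 : ch S b v z) (hb : b ≤ N + a) : ch S (N + a - b) c v := by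
  have hx : ¬ D S x := by
    rw [ch_iff h N ⟨c, h.c1 c hc⟩] at h1
    rw [← h1]
    exact ((nx h)^[N] _).2
  rw [ch_iff h N ⟨c, h.c1 c hc⟩] at h1
  rw [ch_iff h a ⟨x, hx⟩] at h2
  have hz : ¬ D S z := by
    rw [← h2]
    exact ((nx h)^[a] _).2
  have hv := ch_nD h h3 hz
  rw [ch_iff h b ⟨v, hv⟩] at h3
  rw [ch_iff h _ ⟨c, h.c1 c hc⟩]
  have e1 : (⟨x, hx⟩ : X S) = (nx h)^[N] ⟨c, h.c1 c hc⟩ := Subtype.ext h1.symm
  have e2 : (nx h)^[b] ((nx h)^[N + a - b] ⟨c, h.c1 c hc⟩) = (nx h)^[b] ⟨v, hv⟩ := by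
    have e3 : b + (N + a - b) = a + N := by omega
    rw [← Function.iterate_add_apply, e3, Function.iterate_add_apply, ← e1]
    exact Subtype.ext (h2.trans h3.symm)
  exact congrArg Subtype.val ((injMap h).inj.iterate b e2)

theorem r0_inf (h : StB.W B S) :
    ∃ B0 : Set (ℕ → ℕ), B0.Countable ∧ ∀ F, Sk S F → Cov F B0 →
      cnt (R0 (sub S F)) = none := by
  classical
  obtain ⟨c0, hc0⟩ : ∃ c0, C S c0 := by
    obtain ⟨X, -, hX⟩ := h.w0.inf 1
    obtain ⟨c, hc, -⟩ := h.w0.e1 _ _ (hX 0) (hX 0)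
    exact ⟨c, (h.w0.f1 _ _ hc).1⟩
  let y : ℕ → ℕ := fun n => ((nx h.w0)^[3 * 2 ^ n] ⟨c0, h.w0.c1 c0 hc0⟩ : X S)
  have hy : ∀ n, ch S (3 * 2 ^ n) c0 (y n) := fun n =>
    (ch_iff h.w0 _ ⟨c0, h.w0.c1 c0 hc0⟩ _).2 rfl
  have hyD : ∀ n, ¬ D S (y n) := fun n => ((nx h.w0)^[3 * 2 ^ n] ⟨c0, h.w0.c1 c0 hc0⟩ : X S).2
  refine ⟨Set.range fun k m => y (m + k), Set.countable_range _, fun F hF hcov => ?_⟩
  choose i hi using fun k : ℕ => hcov (fun m => y (m + k)) ⟨k, rfl⟩
  have h1 : StB.W B (sub S F) := sub_ax (ax_W B) hF h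
  have hD : ∀ k, ¬ D (sub S F) (i k) := by
    intro k hk
    have hk' : ∀ᶠ m in (TH686.MC.U : Filter ℕ), D S (F (i k) m) := hk
    obtain ⟨m, h2, h3⟩ := ((hi k).and hk').exists
    rw [h2] at h3
    exact hyD _ h3
  have hlt : ∀ n : ℕ, n < 2 ^ n := fun n => Nat.lt_two_pow_self
  -- the component
  have hA : ∀ k v, sm (sub S F) (i k) v → ¬ M (sub S F) v ∧ ¬ C (sub S F) v := by
    rintro k v ⟨a, b, z, h2, h3⟩
    rw [ch_sub hF] at h2 h3
    have h4 : ∀ᶠ m in (TH686.MC.U : Filter ℕ), ∃ q, 2 ^ (m + k + 1) < q ∧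
        q < 2 ^ (m + k + 2) ∧ ch S q c0 (F v m) := by
      filter_upwards [hi k, h2, h3, ev_ge (a + b + 1)] with m k1 k2 k3 k4
      rw [k1] at k2
      have k5 : a + b + 1 < 2 ^ (m + k) := lt_of_le_of_lt (by omega) (hlt (m + k))
      have e1 : 2 ^ (m + k + 1) = 2 * 2 ^ (m + k) := by ring
      have e2 : 2 ^ (m + k + 2) = 4 * 2 ^ (m + k) := by ring
      have k6 := hy (m + k)
      rw [e1, e2]
      generalize 2 ^ (m + k) = P at k5 k6 ⊢
      exact ⟨3 * P + a - b, by omega, by omega, pos_sub h.w0 hc0 k6 k2 k3 (by omega)⟩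
    constructor
    · intro hM
      have hM' : ∀ᶠ m in (TH686.MC.U : Filter ℕ), M S (F v m) := hM
      obtain ⟨m, ⟨q, k1, k2, k3⟩, k4⟩ := (h4.and hM').exists
      obtain ⟨R, -, rfl⟩ := mark_pos h hc0 k3 k4
      rw [Nat.pow_lt_pow_iff_right (by norm_num)] at k1 k2
      omega
    · intro hC
      have hC' : ∀ᶠ m in (TH686.MC.U : Filter ℕ), C S (F v m) := hC
      obtain ⟨m, ⟨q, k1, k2, k3⟩, k4⟩ := (h4.and hC').exists
      have k5 : ch S 0 (F v m) (F v m) := rfl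
      have k6 := (pos_uniq h.w0 hc0 k4 k3 k5).1
      rw [k6] at k1
      exact absurd k1 (Nat.not_lt_zero _)
  have hB : ∀ k l, sm (sub S F) (i k) (i l) → k = l := by
    rintro k l ⟨a, b, z, h2, h3⟩
    rw [ch_sub hF] at h2 h3
    obtain ⟨m, k1, k1', k2, k3, k4⟩ := ((hi k).and ((hi l).and (h2.and (h3.and
      (ev_ge (a + b + 1)))))).exists
    rw [k1] at k2
    rw [k1'] at k3
    have k5 : ch S (3 * 2 ^ (m + k) + a) c0 (F z m) := by
      have := pos_sub (b := 0) h.w0 hc0 (hy _) k2 rfl (Nat.zero_le _)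
      simpa using this
    have k6 : ch S (3 * 2 ^ (m + l) + b) c0 (F z m) := by
      have := pos_sub (b := 0) h.w0 hc0 (hy _) k3 rfl (Nat.zero_le _)
      simpa using this
    have k7 := (pos_uniq h.w0 hc0 hc0 k5 k6).1
    have k8 : a + b + 1 < 2 ^ (m + k) := lt_of_le_of_lt (by omega) (hlt (m + k))
    have k9 : a + b + 1 < 2 ^ (m + l) := lt_of_le_of_lt (by omega) (hlt (m + l))
    rcases lt_trichotomy k l with h5 | h5 | h5
    · have h6 : 2 ^ (m + k + 1) ≤ 2 ^ (m + l) := Nat.pow_le_pow_right (by norm_num) (by omega)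
      rw [Nat.pow_succ] at h6
      omega
    · exact h5
    · have h6 : 2 ^ (m + l + 1) ≤ 2 ^ (m + k) := Nat.pow_le_pow_right (by norm_num) (by omega)
      rw [Nat.pow_succ] at h6
      omega
  -- least elements
  have hex : ∀ k, ∃ v, sm (sub S F) (i k) v := fun k => ⟨i k, sm_self _⟩
  have htr : ∀ k x v, sm (sub S F) (i k) x → sm (sub S F) x v → sm (sub S F) (i k) v := by
    intro k x v h2 h3
    obtain ⟨hx, z1, o1⟩ := off_of_sm h1.w0 (x := ⟨i k, hD k⟩) h2
    obtain ⟨hv, z2, o2⟩ := off_of_sm h1.w0 (x := ⟨x, hx⟩) h3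
    exact sm_of_off h1.w0 (o1.trans o2)
  refine cnt_none_of (fun k => Nat.find (hex k)) (fun k l hkl => ?_) fun k => ?_
  · have h2 := Nat.find_spec (hex k)
    have h3 := Nat.find_spec (hex l)
    have h4 : Nat.find (hex k) = Nat.find (hex l) := hkl
    rw [← h4] at h3
    refine hB k l ?_
    obtain ⟨hx, z1, o1⟩ := off_of_sm h1.w0 (x := ⟨i k, hD k⟩) h2
    obtain ⟨hx', z2, o2⟩ := off_of_sm h1.w0 (x := ⟨i l, hD l⟩) h3
    exact sm_of_off h1.w0 (o1.trans o2.symm)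
  · have h2 := Nat.find_spec (hex k)
    obtain ⟨hx, z1, o1⟩ := off_of_sm h1.w0 (x := ⟨i k, hD k⟩) h2
    refine ⟨hx, fun v hv => ?_⟩
    have h3 := htr k _ v h2 hv
    exact ⟨(hA k v h3).1, (hA k v h3).2, Nat.find_min' (hex k) h3⟩

/-- supports -/
noncomputable def gnB [L.IsRelational] (B : Bin L) :
    Gn (itp B) VB (fun S => (cnt (JM S), cnt (R0 S))) where
  K := Option ℕ
  wd := wdB
  χ := chB
  fd := fd_chB B
  dom := dom_chB
  fn := fn_chB
  fx := fx_chB
  tot := tot_chB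
  up := fun S S' h h' hj π hπ => upB h h' π hπ (congrArg Prod.fst hj) (congrArg Prod.snd hj)
  rich := fun S S' h h' hV hV' hE => by
    have hEE : En B S = En B S' := by
      ext R
      exact ne_eq (I := itp B) h h' hE R
    refine rich_of (j := fun S => (cnt (JM S), cnt (R0 S))) (fun S => (En B S).Infinite)
      (none, none) (some 0, none) (by rw [hEE]) ?_ ?_
    · intro T hT hTE
      have hT' : StB.W B T := by rcases hT with rfl | rfl <;> assumption
      obtain ⟨B1, k1, k2⟩ := jm_inf hT' hTE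
      obtain ⟨B2, k3, k4⟩ := r0_inf hT'
      exact ⟨B1 ∪ B2, k1.union k3, fun F hF hc => Prod.ext
        (k2 F hF fun f hf => hc f (Or.inl hf)) (k4 F hF fun f hf => hc f (Or.inr hf))⟩
    · intro T hT hTE
      have hT' : StB.W B T := by rcases hT with rfl | rfl <;> assumption
      have hVT : VB T := by rcases hT with rfl | rfl <;> assumption
      obtain ⟨B2, k3, k4⟩ := r0_inf hT'
      exact ⟨B2, k3, fun F hF hc => Prod.ext
        (jm_fin hT' hVT (Set.not_infinite.1 hTE) F hF) (k4 F hF hc)⟩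

end Pool.Agent.TH686.JB
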