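import Pool.Agent.TH686.MC.Los

set_option autoImplicit false

/-! Structures with elementarily equivalent interpreted structures are elementarily equivalent to
countable structures with isomorphic interpreted structures. -/

namespace Pool.Agent.TH686.MC

open FirstOrder FirstOrder.Language Filter
open Pool.Agent.W889.FO
open Pool.Agent.TH686.FO

/-- back and forth -/
theorem bfN {A B : Type} [Countable A] [Countable B] (G : Finset (A × B) → Prop) (h0 : G ∅)
    (hf : ∀ f, G f → ∀ a, ∃ b, ∃ g, f ⊆ g ∧ (a, b) ∈ g ∧ G g)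
    (hb : ∀ f, G f → ∀ b, ∃ a, ∃ g, f ⊆ g ∧ (a, b) ∈ g ∧ G g)
    (inj : ∀ f, G f → ∀ p ∈ f, ∀ q ∈ f, (p.1 = q.1 ↔ p.2 = q.2)) :
    ∃ e : A ≃ B, ∀ s : Finset A, ∃ f, G f ∧ ∀ a ∈ s, (a, e a) ∈ f := by
  classical
  let P := {f : Finset (A × B) // G f}
  let _ : Preorder P := inferInstanceAs (Preorder {f : Finset (A × B) // G f})
  have : Inhabited P := ⟨⟨∅, h0⟩⟩
  let L : A → Order.Cofinal P := fun a =>
    { carrier := {f | ∃ b, (a, b) ∈ f.1}
      isCofinal := by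
        intro f
        obtain ⟨b, g, h1, h2, h3⟩ := hf f.1 f.2 a
        exact ⟨⟨g, h3⟩, ⟨b, h2⟩, h1⟩ }
  let R : B → Order.Cofinal P := fun b =>
    { carrier := {f | ∃ a, (a, b) ∈ f.1}
      isCofinal := by
        intro f
        obtain ⟨a, g, h1, h2, h3⟩ := hb f.1 f.2 b
        exact ⟨⟨g, h3⟩, ⟨a, h2⟩, h1⟩ }
  let _ := Encodable.ofCountable A
  let _ := Encodable.ofCountable B
  let D : A ⊕ B → Order.Cofinal P := Sum.elim L R
  let I : Order.Ideal P := Order.idealOfCofinals (default : P) D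
  have hL : ∀ a, ∃ b, ∃ f ∈ I, (a, b) ∈ f.1 := by
    intro a
    obtain ⟨f, ⟨b, hb⟩, hf⟩ := Order.cofinal_meets_idealOfCofinals (default : P) D (Sum.inl a)
    exact ⟨b, f, hf, hb⟩
  have hR : ∀ b, ∃ a, ∃ f ∈ I, (a, b) ∈ f.1 := by
    intro b
    obtain ⟨f, ⟨a, ha⟩, hf⟩ := Order.cofinal_meets_idealOfCofinals (default : P) D (Sum.inr b)
    exact ⟨a, f, hf, ha⟩
  choose F fF hF1 hF2 using hL
  choose H fH hH1 hH2 using hR
  have hdir : ∀ f ∈ I, ∀ g ∈ I, ∃ h ∈ I, f.1 ⊆ h.1 ∧ g.1 ⊆ h.1 := by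
    intro f hf g hg
    obtain ⟨h, hh, h1, h2⟩ := I.directed f hf g hg
    exact ⟨h, hh, h1, h2⟩
  refine ⟨⟨F, H, ?_, ?_⟩, ?_⟩
  · intro a
    obtain ⟨h, hh, h1, h2⟩ := hdir _ (hF1 a) _ (hH1 (F a))
    exact ((inj h.1 h.2 _ (h1 (hF2 a)) _ (h2 (hH2 (F a)))).2 rfl).symm
  · intro b
    obtain ⟨h, hh, h1, h2⟩ := hdir _ (hF1 (H b)) _ (hH1 b)
    exact (inj h.1 h.2 _ (h1 (hF2 (H b))) _ (h2 (hH2 b))).1 rfl
  · intro s
    have h5 : ∃ f ∈ I, ∀ a ∈ s, (a, F a) ∈ f.1 := by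
      induction s using Finset.induction_on with
      | empty =>
        obtain ⟨f, hf⟩ := I.nonempty
        exact ⟨f, hf, fun a ha => absurd ha (Finset.notMem_empty a)⟩
      | insert a s _ ih =>
        obtain ⟨f, hf, h1⟩ := ih
        obtain ⟨h, hh, h2, h3⟩ := hdir _ hf _ (hF1 a)
        refine ⟨h, hh, fun x hx => ?_⟩
        rcases Finset.mem_insert.1 hx with rfl | hx
        · exact h3 (hF2 _)
        · exact h2 (h1 x hx)
    obtain ⟨f, -, h6⟩ := h5
    exact ⟨f.1, f.2, h6⟩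

variable {L L' : FirstOrder.Language.{0, 0}}

theorem rz_sentence (S : L.Structure ℕ) (σ : L.Sentence) (a : Fin 0 → ℕ) :
    Rz S (σ : L.BoundedFormula Empty 0) a ↔ @Sentence.Realize L ℕ S σ := by
  have key : ∀ (v v' : Empty → ℕ) (x x' : Fin 0 → ℕ),
      (@BoundedFormula.Realize L ℕ S Empty 0 σ v x ↔
        @BoundedFormula.Realize L ℕ S Empty 0 σ v' x') := by
    intro v v' x x'
    rw [Subsingleton.elim x x', Subsingleton.elim v v']
  exact key _ _ _ _

theorem rz_subst {k n : ℕ} (φ : L.BoundedFormula Empty k) (g : Fin k → Fin n) :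
    ∃ φ' : L.BoundedFormula Empty n, ∀ (S : L.Structure ℕ) a, Rz S φ' a ↔
      Rz S φ (fun i => a (g i)) := by
  obtain ⟨φ', h⟩ := rz_of_fd (fd_rz (W := fun _ => True) φ g)
  exact ⟨φ', fun S a => h S trivial a⟩

theorem rz_not {n : ℕ} (S : L.Structure ℕ) (φ : L.BoundedFormula Empty n) (a : Fin n → ℕ) :
    Rz S φ.not a ↔ ¬ Rz S φ a := @BoundedFormula.realize_not L ℕ S _ _ φ _ _

theorem translate' (I : Itq L L') [L.IsRelational] {n : ℕ} (φ : L.BoundedFormula Empty n) :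
    ∃ ψ : L'.BoundedFormula Empty n, ∀ S : L'.Structure ℕ, I.W S →
      ∀ u c, (∀ i, I.lab S (c i) (u i)) → (Rz S ψ u ↔ Rz (I.D S) φ c) := by
  obtain ⟨ψ, hψ⟩ := I.translate φ
  have h1 : FD (fun _ => True) (fun (S : L'.Structure ℕ) (v : Fin n → ℕ) =>
      @Formula.Realize L' ℕ S _ ψ (Sum.elim (fun x : Empty => x.elim) v)) := by
    refine ⟨ψ.relabel (Sum.elim (fun x : Empty => x.elim) id), fun S _ v => ?_⟩
    rw [@Formula.realize_relabel L' ℕ S _ _ ψ _ v]
    have e : (v ∘ Sum.elim (fun x : Empty => x.elim) id) =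
        Sum.elim (fun x : Empty => x.elim) v := by
      funext i
      rcases i with i | i
      · exact i.elim
      · rfl
    rw [e]
  obtain ⟨χ, hχ⟩ := rz_of_fd h1
  refine ⟨χ, fun S hS u c hc => ?_⟩
  rw [hχ S trivial u]
  exact hψ S hS _ Empty.elim c (fun i => i.elim) hc

/-- elementary finite relations -/
def El (M N : L.Structure ℕ) (f : Finset (ℕ × ℕ)) : Prop :=
  ∀ (k : ℕ) (s : Fin k → ℕ × ℕ) (φ : L.BoundedFormula Empty k), (∀ i, s i ∈ f) →
    (Rz M φ (fun i => (s i).1) ↔ Rz N φ (fun i => (s i).2))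

theorem El.inj {M N : L.Structure ℕ} {f : Finset (ℕ × ℕ)} (h : El M N f) :
    ∀ p ∈ f, ∀ q ∈ f, (p.1 = q.1 ↔ p.2 = q.2) := by
  intro p hp q hq
  obtain ⟨φ, hφ⟩ := rz_of_fd (FD.eq (L := L) (W := fun _ => True) (0 : Fin 2) 1)
  have h1 := h 2 ![p, q] φ (fun i => by fin_cases i <;> assumption)
  rw [hφ _ trivial, hφ _ trivial] at h1
  exact h1

theorem El.rel {M N : L.Structure ℕ} {f : Finset (ℕ × ℕ)} (h : El M N f) {n : ℕ}
    (R : L.Relations n) (s : Fin n → ℕ × ℕ) (hs : ∀ i, s i ∈ f) :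
    @Structure.RelMap L ℕ M n R (fun i => (s i).1) ↔
      @Structure.RelMap L ℕ N n R (fun i => (s i).2) := by
  obtain ⟨φ, hφ⟩ := rz_of_fd (FD.rel (L := L) (W := fun _ => True) R id)
  have h1 := h n s φ hs
  rw [hφ _ trivial, hφ _ trivial] at h1
  exact h1

theorem El.swap {M N : L.Structure ℕ} {f : Finset (ℕ × ℕ)} (h : El M N f) :
    El N M (f.image Prod.swap) := by
  intro k s φ hs
  have h1 : ∀ i, (s i).swap ∈ f := by
    intro i
    obtain ⟨p, hp, h2⟩ := Finset.mem_image.1 (hs i)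
    rw [← h2, Prod.swap_swap]
    exact hp
  exact (h k (fun i => (s i).swap) φ h1).symm

/-- isomorphisms from extension properties -/
theorem iso_of_El [L.IsRelational] (M N : L.Structure ℕ)
    (hf : ∀ f, El M N f → ∀ a, ∃ b, El M N (insert (a, b) f))
    (hb : ∀ f, El N M f → ∀ a, ∃ b, El N M (insert (a, b) f))
    (f0 : Finset (ℕ × ℕ)) (h0 : El M N f0) :
    ∃ e : @FirstOrder.Language.Equiv L ℕ ℕ M N, ∀ p ∈ f0, e p.1 = p.2 := by
  classical
  obtain ⟨e, he⟩ := bfN (fun f => El M N (f ∪ f0)) (by rwa [Finset.empty_union])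
    (fun f hG a => by
      obtain ⟨b, h1⟩ := hf _ hG a
      refine ⟨b, insert (a, b) f, Finset.subset_insert _ _, Finset.mem_insert_self _ _, ?_⟩
      rwa [Finset.insert_union])
    (fun f hG b => by
      obtain ⟨a, h1⟩ := hb _ hG.swap b
      refine ⟨a, insert (a, b) f, Finset.subset_insert _ _, Finset.mem_insert_self _ _, ?_⟩
      have h2 := h1.swap
      rw [Finset.image_insert, Finset.image_image] at h2
      simp only [Prod.swap_swap_eq, Finset.image_id, Prod.swap_prod_mk] at h2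
      rwa [Finset.insert_union])
    (fun f hG p hp q hq => hG.inj p (Finset.mem_union_left _ hp) q (Finset.mem_union_left _ hq))
  obtain ⟨g, hg⟩ := siso_of (S := M) (S' := N) e (fun n R v => by
    obtain ⟨f, h1, h2⟩ := he (Finset.univ.image v)
    have h3 := h1.rel R (fun i => (v i, e (v i))) (fun i => Finset.mem_union_left _
      (h2 _ (Finset.mem_image_of_mem _ (Finset.mem_univ i))))
    exact h3.symm)
  refine ⟨g, fun p hp => ?_⟩
  obtain ⟨f, h1, h2⟩ := he {p.1}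
  rw [hg]
  exact (h1.inj _ (Finset.mem_union_left _ (h2 _ (Finset.mem_singleton_self _))) p
    (Finset.mem_union_right _ hp)).1 rfl

end Pool.Agent.TH686.MC
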