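import Pool.Agent.TH686.MC.Rob

set_option autoImplicit false

/-! Structures with elementarily equivalent interpreted structures are elementarily equivalent to
countable structures with isomorphic interpreted structures. -/

namespace Pool.Agent.TH686.MC

open FirstOrder FirstOrder.Language Filter
open Pool.Agent.W889.FO
open Pool.Agent.TH686.FO

variable {L L' : FirstOrder.Language.{0, 0}} [L.IsRelational] [L'.IsRelational]

omit [L.IsRelational] in
/-- models of theories are closed under elementary equivalence -/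
theorem ax_eq {W : L.Structure ℕ → Prop} (h : Ax W) {S S' : L.Structure ℕ}
    (he : ∀ σ : L.BoundedFormula Empty 0, Rz S σ Fin.elim0 ↔ Rz S' σ Fin.elim0) (hS : W S) :
    W S' := by
  obtain ⟨T, hT⟩ := h
  refine (hT S').1 (ax_iff.2 fun φ hφ => ?_)
  rw [← rz_sentence S' φ Fin.elim0, ← he, rz_sentence]
  exact ax_iff.1 ((hT S).2 hS) φ hφ

theorem sub_ax {W : L.Structure ℕ → Prop} (h : Ax W) {S : L.Structure ℕ} {F : ℕ → ℕ → ℕ}
    (hk : Sk S F) (hS : W S) : W (sub S F) := by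
  refine ax_eq h (fun σ => ?_) hS
  rw [los hk]
  have e : ∀ m, (fun i : Fin 0 => F (Fin.elim0 (α := ℕ) i) m) = Fin.elim0 := fun m =>
    Subsingleton.elim _ _
  simp only [e]
  exact Filter.eventually_const.symm

theorem los_fd {W : L.Structure ℕ → Prop} {S : L.Structure ℕ} {F : ℕ → ℕ → ℕ}
    (hk : Sk S F) (hS : W S) (hS' : W (sub S F)) {α : Type} [Finite α]
    {P : L.Structure ℕ → (α → ℕ) → Prop} (hP : FD W P) (u : α → ℕ) :
    P (sub S F) u ↔ ∀ᶠ m in (U : Filter ℕ), P S (fun i => F (u i) m) := by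
  obtain ⟨n, ⟨e⟩⟩ := Finite.exists_equiv_fin α
  obtain ⟨φ, hφ⟩ := rz_of_fd (hP.sub e)
  have h1 := los hk φ (fun i => u (e.symm i))
  rw [hφ _ hS'] at h1
  simp only [hφ _ hS, Equiv.symm_apply_apply] at h1
  exact h1

open Classical in
/-- the label -/
noncomputable def lbl (I : Itq L L') (S : L'.Structure ℕ) (u : ℕ) : ℕ :=
  if h : ∃ n, I.lab S n u then h.choose else 0

omit [L.IsRelational] [L'.IsRelational] in
theorem lbl_spec {I : Itq L L'} {S : L'.Structure ℕ} (h : I.W S) {u : ℕ} (hu : I.dom S u) :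
    I.lab S (lbl I S u) u := by
  have hex := I.ex_lab h hu
  unfold lbl
  rw [dif_pos hex]
  exact hex.choose_spec

omit [L.IsRelational] [L'.IsRelational] in
theorem lab_dom {I : Itq L L'} {S : L'.Structure ℕ} {n u : ℕ} (h : I.lab S n u) : I.dom S u := h.1

omit [L.IsRelational] [L'.IsRelational] in
/-- labels of a label -/
theorem lbl_eq {I : Itq L L'} {S : L'.Structure ℕ} (h : I.W S) {n u : ℕ} (hu : I.lab S n u) :
    lbl I S u = n :=
  (I.lab_eq h (lbl_spec h hu.1) hu).1 (I.refl S h u hu.1)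

theorem link (I : Itq L L') {S : L'.Structure ℕ} (h : I.W S) {F : ℕ → ℕ → ℕ} (hk : Sk S F)
    {k : ℕ} (φ : L.BoundedFormula Empty k) (u c : Fin k → ℕ)
    (hc : ∀ i, I.lab (sub S F) (c i) (u i)) :
    Rz (I.D (sub S F)) φ c ↔ Tr (I.D S) φ (fun i m => lbl I S (F (u i) m)) := by
  have h' := sub_ax I.axW hk h
  obtain ⟨ψ, hψ⟩ := translate' I φ
  rw [← hψ _ h' u c hc, los hk]
  have h1 : ∀ᶠ m in (U : Filter ℕ), ∀ i, I.dom S (F (u i) m) := by
    refine eventually_all.2 fun i => ?_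
    have h2 := los_fd hk h h' I.fdom (fun _ => u i)
    exact h2.1 (hc i).1
  have key : ∀ᶠ m in (U : Filter ℕ), (Rz S ψ (fun i => F (u i) m) ↔
      Rz (I.D S) φ (fun i => lbl I S (F (u i) m))) :=
    h1.mono fun m hm => hψ S h _ _ fun i => lbl_spec h (hm i)
  exact ⟨fun h2 => (h2.and key).mono fun m hm => hm.2.1 hm.1,
    fun h2 => (h2.and key).mono fun m hm => hm.2.2 hm.1⟩

/-- extension property -/
def ExtP (I : Itq L L') (S S' : L'.Structure ℕ) (F F' : ℕ → ℕ → ℕ) : Prop :=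
  ∀ (k : ℕ) (x y : Fin k → ℕ), (∀ φ : L.BoundedFormula Empty k,
      Tr (I.D S) φ (fun i m => lbl I S (F (x i) m)) ↔
        Tr (I.D S') φ (fun i m => lbl I S' (F' (y i) m))) →
    ∀ a : ℕ, ∃ b : ℕ, I.dom (sub S' F') b ∧ ∀ φ : L.BoundedFormula Empty (k + 1),
      Tr (I.D S) φ (fun i m => lbl I S (F (Fin.snoc (α := fun _ => ℕ) x a i) m)) ↔
        Tr (I.D S') φ (fun i m => lbl I S' (F' (Fin.snoc (α := fun _ => ℕ) y b i) m))

theorem forth_of {I : Itq L L'} {S S' : L'.Structure ℕ} (h : I.W S) (h' : I.W S')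
    {F F' : ℕ → ℕ → ℕ} (hk : Sk S F) (hk' : Sk S' F') (hx : ExtP I S S' F F')
    (f : Finset (ℕ × ℕ)) (hE : El (I.D (sub S F)) (I.D (sub S' F')) f) (a : ℕ) :
    ∃ b, El (I.D (sub S F)) (I.D (sub S' F')) (insert (a, b) f) := by
  classical
  have w := sub_ax I.axW hk h
  have w' := sub_ax I.axW hk' h'
  let s0 : Fin f.card → ℕ × ℕ := fun i => (f.equivFin.symm i).1
  have hs0 : ∀ i, s0 i ∈ f := fun i => (f.equivFin.symm i).2
  have hs1 : ∀ p ∈ f, ∃ i, s0 i = p := fun p hp => ⟨f.equivFin ⟨p, hp⟩, by simp [s0]⟩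
  choose x hx1 using fun i => I.lab_surj w (s0 i).1
  choose y hy1 using fun i => I.lab_surj w' (s0 i).2
  obtain ⟨xa, hxa⟩ := I.lab_surj w a
  obtain ⟨yb, hyb, h1⟩ := hx f.card x y (fun φ => by
    rw [← link I h hk φ x _ hx1, ← link I h' hk' φ y _ hy1]
    exact hE _ s0 φ hs0) xa
  obtain ⟨b, hb⟩ := I.ex_lab w' hyb
  refine ⟨b, fun k s φ hs => ?_⟩
  -- the index map
  have hg : ∀ i, ∃ j : Fin (f.card + 1), s i = Fin.snoc (α := fun _ => ℕ × ℕ) s0 (a, b) j := by
    intro i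
    rcases Finset.mem_insert.1 (hs i) with h2 | h2
    · exact ⟨Fin.last _, by rw [h2, Fin.snoc_last]⟩
    · obtain ⟨j, hj⟩ := hs1 _ h2
      exact ⟨j.castSucc, by rw [Fin.snoc_castSucc, hj]⟩
  choose g hg using hg
  obtain ⟨φ', hφ'⟩ := rz_subst φ g
  have e1 : (fun i => (s i).1) = fun i => (Fin.snoc (α := fun _ => ℕ) (fun i => (s0 i).1) a (g i)) := by
    funext i
    rw [hg]
    refine Fin.lastCases ?_ (fun j => ?_) (g i)
    · simp
    · simp
  have e2 : (fun i => (s i).2) = fun i => (Fin.snoc (α := fun _ => ℕ) (fun i => (s0 i).2) b (g i)) := by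
    funext i
    rw [hg]
    refine Fin.lastCases ?_ (fun j => ?_) (g i)
    · simp
    · simp
  rw [e1, e2, ← hφ', ← hφ']
  rw [link I h hk φ' (Fin.snoc (α := fun _ => ℕ) x xa) _ (fun i => by
      refine Fin.lastCases ?_ (fun j => ?_) i
      · simpa using hxa
      · simpa using hx1 j),
    link I h' hk' φ' (Fin.snoc (α := fun _ => ℕ) y yb) _ (fun i => by
      refine Fin.lastCases ?_ (fun j => ?_) i
      · simpa using hb
      · simpa using hy1 j)]
  exact h1 φ'

end Pool.Agent.TH686.MC
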