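import Pool.Agent.TH686.MC.Rob2

set_option autoImplicit false

/-! Structures with elementarily equivalent interpreted structures are elementarily equivalent to
countable structures with isomorphic interpreted structures. -/

namespace Pool.Agent.TH686.MC

open FirstOrder FirstOrder.Language Filter
open Pool.Agent.W889.FO
open Pool.Agent.TH686.FO

variable {L L' : FirstOrder.Language.{0, 0}} [L.IsRelational] [L'.IsRelational]

omit [L.IsRelational] in
theorem tr_congr (M : L.Structure ℕ) {k : ℕ} (φ : L.BoundedFormula Empty k)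
    {x y : Fin k → ℕ → ℕ} (h : ∀ i, ∀ᶠ m in (U : Filter ℕ), x i m = y i m) :
    Tr M φ x ↔ Tr M φ y := by
  have h1 : ∀ᶠ m in (U : Filter ℕ), (fun i => x i m) = fun i => y i m :=
    (eventually_all.2 h).mono fun m hm => funext hm
  constructor
  · exact fun h2 => (h2.and h1).mono fun m hm => by rw [← hm.2]; exact hm.1
  · exact fun h2 => (h2.and h1).mono fun m hm => by rw [hm.2]; exact hm.1

open Classical in
/-- witnesses -/
noncomputable def wit (S : L'.Structure ℕ) {k : ℕ} (φ : L'.BoundedFormula Empty (k + 1))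
    (v : Fin k → ℕ) : ℕ :=
  if h : ∃ x, Rz S φ (Fin.snoc (α := fun _ => ℕ) v x) then h.choose else 0

omit [L'.IsRelational] in
theorem wit_spec (S : L'.Structure ℕ) {k : ℕ} (φ : L'.BoundedFormula Empty (k + 1))
    (v : Fin k → ℕ) (h : ∃ x, Rz S φ (Fin.snoc (α := fun _ => ℕ) v x)) :
    Rz S φ (Fin.snoc (α := fun _ => ℕ) v (wit S φ v)) := by
  unfold wit
  rw [dif_pos h]
  exact h.choose_spec

/-- extension of elementary maps by one element -/
def ExC (I : Itq L L') (S S' : L'.Structure ℕ) {k : ℕ} (x y : Fin k → ℕ → ℕ)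
    (z b : ℕ → ℕ) : Prop :=
  (∀ m, I.dom S' (b m)) ∧ ∀ φ : L.BoundedFormula Empty (k + 1),
    Tr (I.D S) φ (Fin.snoc (α := fun _ => ℕ → ℕ) (fun i m => lbl I S (x i m))
      (fun m => lbl I S (z m))) ↔
    Tr (I.D S') φ (Fin.snoc (α := fun _ => ℕ → ℕ) (fun i m => lbl I S' (y i m))
      (fun m => lbl I S' (b m)))

open Classical in
/-- extensions -/
noncomputable def ex (I : Itq L L') (S S' : L'.Structure ℕ) {k : ℕ} (x y : Fin k → ℕ → ℕ)
    (z : ℕ → ℕ) : ℕ → ℕ :=
  if h : ∃ b, ExC I S S' x y z b then h.choose else fun _ => 0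

omit [L'.IsRelational] in
theorem ex_spec [hc : ∀ n, Countable (L.BoundedFormula Empty n)] (I : Itq L L')
    {S S' : L'.Structure ℕ} (h' : I.W S') {k : ℕ} {x y : Fin k → ℕ → ℕ}
    (hE : ∀ φ : L.BoundedFormula Empty k, Tr (I.D S) φ (fun i m => lbl I S (x i m)) ↔
      Tr (I.D S') φ (fun i m => lbl I S' (y i m))) (z : ℕ → ℕ) :
    ExC I S S' x y z (ex I S S' x y z) := by
  have hex : ∃ b, ExC I S S' x y z b := by
    obtain ⟨c, hc⟩ := saturated (I.D S) (I.D S') _ _ hE (fun m => lbl I S (z m))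
    choose b hb using fun m => I.lab_surj h' (c m)
    refine ⟨b, fun m => (hb m).1, fun φ => ?_⟩
    rw [hc φ]
    have e : (fun m => lbl I S' (b m)) = c := funext fun m => lbl_eq h' (hb m)
    rw [e]
  unfold ex
  rw [dif_pos hex]
  exact hex.choose_spec

/-- the functions -/
def Ky (L' : FirstOrder.Language.{0, 0}) : Type :=
  ((Σ k, L'.BoundedFormula Empty (k + 1)) × Bool) ⊕ (ℕ × Bool)

/-- the number of arguments -/
def arK : Ky L' → Type
  | Sum.inl p => Fin p.1.1
  | Sum.inr p => (Fin p.1 ⊕ Fin p.1) ⊕ Unit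

instance (κ : Ky L') : Finite (arK κ) := by
  rcases κ with p | p
  · exact inferInstanceAs (Finite (Fin _))
  · exact inferInstanceAs (Finite ((Fin _ ⊕ Fin _) ⊕ Unit))

/-- the closure functions -/
noncomputable def FK (I : Itq L L') (St : Bool → L'.Structure ℕ) :
    ∀ κ : Ky L', (arK κ → Bool × (ℕ → ℕ)) → Bool × (ℕ → ℕ)
  | Sum.inl p => fun a => (p.2, fun m => wit (St p.2) p.1.2 (fun i => (a i).2 m))
  | Sum.inr p => fun a => (!p.2, ex I (St p.2) (St (!p.2)) (fun i => (a (Sum.inl (Sum.inl i))).2)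
      (fun i => (a (Sum.inl (Sum.inr i))).2) (a (Sum.inr ())).2)

theorem rob [hc : ∀ n, Countable (L.BoundedFormula Empty n)]
    [hc' : ∀ n, Countable (L'.BoundedFormula Empty n)] (I : Itq L L') {S S' : L'.Structure ℕ}
    (h : I.W S) (h' : I.W S') {N k : ℕ} (t t' : Fin N → ℕ) (g : Fin k → Fin N)
    (hd : ∀ i, I.dom S (t (g i))) (hd' : ∀ i, I.dom S' (t' (g i)))
    (hE : ∀ φ : L.BoundedFormula Empty k, Rz (I.D S) φ (fun i => lbl I S (t (g i))) ↔
      Rz (I.D S') φ (fun i => lbl I S' (t' (g i)))) :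
    ∃ (S0 S0' : L'.Structure ℕ) (t0 t0' : Fin N → ℕ),
      (∀ (n : ℕ) (ψ : L'.BoundedFormula Empty n) (r : Fin n → Fin N),
        Rz S0 ψ (fun i => t0 (r i)) ↔ Rz S ψ (fun i => t (r i))) ∧
      (∀ (n : ℕ) (ψ : L'.BoundedFormula Empty n) (r : Fin n → Fin N),
        Rz S0' ψ (fun i => t0' (r i)) ↔ Rz S' ψ (fun i => t' (r i))) ∧
      ∃ e : @FirstOrder.Language.Equiv L ℕ ℕ (I.D S0) (I.D S0'),
        ∀ i, e (lbl I S0 (t0 (g i))) = lbl I S0' (t0' (g i)) := by
  classical
  let St : Bool → L'.Structure ℕ := fun b => if b then S else S'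
  have hSt : ∀ b, I.W (St b) := fun b => by cases b <;> assumption
  have : Countable (Ky L') := by
    have h1 : Countable (Σ k, L'.BoundedFormula Empty (k + 1)) := inferInstance
    exact inferInstanceAs (Countable (((Σ k, L'.BoundedFormula Empty (k + 1)) × Bool) ⊕
      (ℕ × Bool)))
  obtain ⟨C, hC0, hC1, hC2⟩ := closure (arK (L' := L')) (FK I St)
    (Set.range fun p : Bool × ℕ => (p.1, fun _ : ℕ => p.2)) (Set.countable_range _)
  let A : Bool → Set (ℕ → ℕ) := fun b => {f | (b, f) ∈ C}
  have hA : ∀ b, (A b).Countable := by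
    intro b
    exact Set.Countable.preimage_of_injOn hC1 (f := fun f => (b, f))
      (fun f _ f' _ hff => (Prod.mk.inj hff).2)
  have hAc : ∀ b c, (fun _ => c) ∈ A b := fun b c => hC0 ⟨(b, c), rfl⟩
  have hseq : ∀ b, ∃ F : ℕ → ℕ → ℕ, Sk (St b) F ∧ (∀ j, F j ∈ A b) ∧
      ∀ f ∈ A b, ∃ j, ∀ᶠ m in (U : Filter ℕ), F j m = f m := by
    intro b
    refine seq_of (A b) (hA b) (hAc b) fun k φ v hv hex => ?_
    have h1 := hC2 (Sum.inl (⟨k, φ⟩, b)) (fun i => (b, v i)) hv
    exact ⟨fun m => wit (St b) φ (fun i => v i m), h1, hex.mono fun m hm =>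
      wit_spec (St b) φ (fun i => v i m) hm⟩
  choose F hF1 hF2 hF3 using hseq
  have hW : ∀ b, I.W (sub (St b) (F b)) := fun b => sub_ax I.axW (hF1 b) (hSt b)
  have hx : ∀ b, ExtP I (St b) (St (!b)) (F b) (F (!b)) := by
    intro b k x y hxy a
    have h1 := hC2 (Sum.inr (k, b)) (Sum.elim (Sum.elim (fun i => (b, F b (x i)))
      (fun i => (!b, F (!b) (y i)))) (fun _ => (b, F b a))) (by
        rintro ((i | i) | i)
        · exact hF2 b _
        · exact hF2 (!b) _
        · exact hF2 b _)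
    have h2 : ex I (St b) (St (!b)) (fun i => F b (x i)) (fun i => F (!b) (y i)) (F b a) ∈
      A (!b) := h1
    obtain ⟨h3, h4⟩ := ex_spec I (hSt (!b)) hxy (F b a)
    obtain ⟨j, hj⟩ := hF3 (!b) _ h2
    refine ⟨j, ?_, fun φ => ?_⟩
    · rw [show I.dom (sub (St (!b)) (F (!b))) j ↔ _ from
        los_fd (hF1 (!b)) (hSt (!b)) (hW (!b)) I.fdom (fun _ => j)]
      refine hj.mono fun m hm => ?_
      rw [hm]
      exact h3 m
    · have h5 := h4 φ
      rw [tr_congr (I.D (St b)) φ (x := fun i m => lbl I (St b)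
        (F b (Fin.snoc (α := fun _ => ℕ) x a i) m)) (y := Fin.snoc (α := fun _ => ℕ → ℕ)
        (fun i m => lbl I (St b) (F b (x i) m)) (fun m => lbl I (St b) (F b a m))) (by
          intro i
          refine Fin.lastCases ?_ (fun i' => ?_) i
          · simp
          · simp), h5]
      refine tr_congr _ φ fun i => ?_
      refine Fin.lastCases ?_ (fun i' => ?_) i
      · simp only [Fin.snoc_last]
        exact hj.mono fun m hm => by rw [hm]
      · simp
  have hx1 := hx true
  have hx2 := hx false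
  -- the constants
  have hk : ∀ b (c : ℕ), ∃ j, ∀ᶠ m in (U : Filter ℕ), F b j m = c := fun b c =>
    hF3 b _ (hAc b c)
  choose q hq using hk
  have hrz : ∀ b (n : ℕ) (ψ : L'.BoundedFormula Empty n) (r : Fin n → ℕ),
      Rz (sub (St b) (F b)) ψ (fun i => q b (r i)) ↔ Rz (St b) ψ r := by
    intro b n ψ r
    rw [los (hF1 b)]
    have h1 : ∀ᶠ m in (U : Filter ℕ), (fun i => F b (q b (r i)) m) = r :=
      (eventually_all.2 fun i => hq b (r i)).mono fun m hm => funext hm
    constructor
    · intro h2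
      obtain ⟨m, h3, h4⟩ := (h2.and h1).exists
      rw [h4] at h3
      exact h3
    · intro h2
      refine h1.mono fun m hm => ?_
      rw [hm]
      exact h2
  have hqd : ∀ b c, I.dom (St b) c → I.dom (sub (St b) (F b)) (q b c) := by
    intro b c hc
    rw [show I.dom (sub (St b) (F b)) (q b c) ↔ _ from
        los_fd (hF1 b) (hSt b) (hW b) I.fdom (fun _ => q b c)]
    refine (hq b c).mono fun m hm => ?_
    rw [hm]
    exact hc
  -- the base map
  have hlk : ∀ b (φ : L.BoundedFormula Empty k) (c : Fin k → ℕ), (∀ i, I.dom (St b) (c i)) →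
      (Rz (I.D (sub (St b) (F b))) φ (fun i => lbl I (sub (St b) (F b)) (q b (c i))) ↔
        Rz (I.D (St b)) φ (fun i => lbl I (St b) (c i))) := by
    intro b φ c hc
    rw [link I (hSt b) (hF1 b) φ (fun i => q b (c i)) _ (fun i =>
      lbl_spec (hW b) (hqd b _ (hc i)))]
    rw [tr_congr _ φ (y := fun i _ => lbl I (St b) (c i)) (fun i =>
      (hq b (c i)).mono fun m hm => by rw [hm])]
    exact Filter.eventually_const
  let f0 : Finset (ℕ × ℕ) := Finset.univ.image fun i : Fin k =>
    (lbl I (sub (St true) (F true)) (q true (t (g i))),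
      lbl I (sub (St false) (F false)) (q false (t' (g i))))
  have hf0 : El (I.D (sub (St true) (F true))) (I.D (sub (St false) (F false))) f0 := by
    intro n s φ hs
    have h1 : ∀ i, ∃ j : Fin k, (lbl I (sub (St true) (F true)) (q true (t (g j))),
      lbl I (sub (St false) (F false)) (q false (t' (g j)))) = s i := by
      intro i
      obtain ⟨j, -, hj⟩ := Finset.mem_image.1 (hs i)
      exact ⟨j, hj⟩
    choose j hj using h1
    obtain ⟨φ', hφ'⟩ := rz_subst φ j
    have e1 : (fun i => (s i).1) = fun i => lbl I (sub (St true) (F true)) (q true (t (g (j i)))) :=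
      funext fun i => by rw [← hj i]
    have e2 : (fun i => (s i).2) =
        fun i => lbl I (sub (St false) (F false)) (q false (t' (g (j i)))) :=
      funext fun i => by rw [← hj i]
    rw [e1, e2]
    rw [← hφ' _ (fun i => lbl I (sub (St true) (F true)) (q true (t (g i)))),
      ← hφ' _ (fun i => lbl I (sub (St false) (F false)) (q false (t' (g i)))),
      hlk true φ' (fun i => t (g i)) hd, hlk false φ' (fun i => t' (g i)) hd']
    exact hE φ'
  obtain ⟨e, he⟩ := iso_of_El (I.D (sub (St true) (F true))) (I.D (sub (St false) (F false)))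
    (fun f hf a => forth_of (hSt true) (hSt false) (hF1 true) (hF1 false) hx1 f hf a)
    (fun f hf a => forth_of (hSt false) (hSt true) (hF1 false) (hF1 true) hx2 f hf a) f0 hf0
  refine ⟨sub (St true) (F true), sub (St false) (F false), fun i => q true (t i),
    fun i => q false (t' i), fun n ψ r => hrz true n ψ _, fun n ψ r => hrz false n ψ _, e,
    fun i => he _ (Finset.mem_image_of_mem _ (Finset.mem_univ i))⟩

end Pool.Agent.TH686.MC
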