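import Pool.Agent.TH686.MC.Rob3

set_option autoImplicit false

/-! Structures with elementarily equivalent interpreted structures are elementarily equivalent to
countable structures with isomorphic interpreted structures, which contain given elements. -/

namespace Pool.Agent.TH686.MC

open FirstOrder FirstOrder.Language Filter
open Pool.Agent.W889.FO
open Pool.Agent.TH686.FO

variable {L L' : FirstOrder.Language.{0, 0}} [L.IsRelational] [L'.IsRelational]

/-- the elements of `B` are among those given by `F` -/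
def Cov (F : ℕ → ℕ → ℕ) (B : Set (ℕ → ℕ)) : Prop :=
  ∀ f ∈ B, ∃ j, ∀ᶠ m in (U : Filter ℕ), F j m = f m

theorem rob' [hc : ∀ n, Countable (L.BoundedFormula Empty n)]
    [hc' : ∀ n, Countable (L'.BoundedFormula Empty n)] (I : Itq L L') {S S' : L'.Structure ℕ}
    (h : I.W S) (h' : I.W S') {N k : ℕ} (t t' : Fin N → ℕ) (g : Fin k → Fin N)
    (hd : ∀ i, I.dom S (t (g i))) (hd' : ∀ i, I.dom S' (t' (g i)))
    (hE : ∀ φ : L.BoundedFormula Empty k, Rz (I.D S) φ (fun i => lbl I S (t (g i))) ↔
      Rz (I.D S') φ (fun i => lbl I S' (t' (g i))))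
    (B B' : Set (ℕ → ℕ)) (hB : B.Countable) (hB' : B'.Countable) :
    ∃ (F F' : ℕ → ℕ → ℕ) (t0 t0' : Fin N → ℕ), Sk S F ∧ Sk S' F' ∧ Cov F B ∧ Cov F' B' ∧
      (∀ (n : ℕ) (ψ : L'.BoundedFormula Empty n) (r : Fin n → Fin N),
        Rz (sub S F) ψ (fun i => t0 (r i)) ↔ Rz S ψ (fun i => t (r i))) ∧
      (∀ (n : ℕ) (ψ : L'.BoundedFormula Empty n) (r : Fin n → Fin N),
        Rz (sub S' F') ψ (fun i => t0' (r i)) ↔ Rz S' ψ (fun i => t' (r i))) ∧
      ∃ e : @FirstOrder.Language.Equiv L ℕ ℕ (I.D (sub S F)) (I.D (sub S' F')),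
        ∀ i, e (lbl I (sub S F) (t0 (g i))) = lbl I (sub S' F') (t0' (g i)) := by
  classical
  let St : Bool → L'.Structure ℕ := fun b => if b then S else S'
  have hSt : ∀ b, I.W (St b) := fun b => by cases b <;> assumption
  have : Countable (Ky L') := by
    have h1 : Countable (Σ k, L'.BoundedFormula Empty (k + 1)) := inferInstance
    exact inferInstanceAs (Countable (((Σ k, L'.BoundedFormula Empty (k + 1)) × Bool) ⊕
      (ℕ × Bool)))
  obtain ⟨C, hC0, hC1, hC2⟩ := closure (arK (L' := L')) (FK I St)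
    ((Set.range fun p : Bool × ℕ => (p.1, fun _ : ℕ => p.2)) ∪
      (((fun f => (true, f)) '' B) ∪ ((fun f => (false, f)) '' B')))
    ((Set.countable_range _).union ((hB.image _).union (hB'.image _)))
  let A : Bool → Set (ℕ → ℕ) := fun b => {f | (b, f) ∈ C}
  have hA : ∀ b, (A b).Countable := by
    intro b
    exact Set.Countable.preimage_of_injOn hC1 (f := fun f => (b, f))
      (fun f _ f' _ hff => (Prod.mk.inj hff).2)
  have hAc : ∀ b c, (fun _ => c) ∈ A b := fun b c => hC0 (Or.inl ⟨(b, c), rfl⟩)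
  have hAB : ∀ f ∈ B, f ∈ A true := fun f hf => hC0 (Or.inr (Or.inl ⟨f, hf, rfl⟩))
  have hAB' : ∀ f ∈ B', f ∈ A false := fun f hf => hC0 (Or.inr (Or.inr ⟨f, hf, rfl⟩))
  have hseq : ∀ b, ∃ F : ℕ → ℕ → ℕ, Sk (St b) F ∧ (∀ j, F j ∈ A b) ∧
      ∀ f ∈ A b, ∃ j, ∀ᶠ m in (U : Filter ℕ), F j m = f m := by
    intro b
    refine seq_of (A b) (hA b) (hAc b) fun k φ v hv hex => ?_
    have h1 := hC2 (Sum.inl (⟨k, φ⟩, b)) (fun i => (b, v i)) hv
    exact ⟨fun m => wit (St b) φ (fun i => v i m), h1, hex.mono fun m hm =>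
      wit_spec (St b) φ (fun i => v i m) hm⟩
  choose F hF1 hF2 hF3 using hseq
  have hW : ∀ b, I.W (sub (St b) (F b)) := fun b => sub_ax I.axW (hF1 b) (hSt b)
  have hx : ∀ b, ExtP I (St b) (St (!b)) (F b) (F (!b)) := by
    intro b k x y hxy a
    have h1 := hC2 (Sum.inr (k, b)) (Sum.elim (Sum.elim (fun i => (b, F b (x i)))
      (fun i => (!b, F (!b) (y i)))) (fun _ => (b, F b a))) (by
        rintro ((i | i) | i)
        · exact hF2 b _
        · exact hF2 (!b) _
        · exact hF2 b _)
    have h2 : ex I (St b) (St (!b)) (fun i => F b (x i)) (fun i => F (!b) (y i)) (F b a) ∈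
      A (!b) := h1
    obtain ⟨h3, h4⟩ := ex_spec I (hSt (!b)) hxy (F b a)
    obtain ⟨j, hj⟩ := hF3 (!b) _ h2
    refine ⟨j, ?_, fun φ => ?_⟩
    · rw [show I.dom (sub (St (!b)) (F (!b))) j ↔ _ from
        los_fd (hF1 (!b)) (hSt (!b)) (hW (!b)) I.fdom (fun _ => j)]
      refine hj.mono fun m hm => ?_
      rw [hm]
      exact h3 m
    · have h5 := h4 φ
      rw [tr_congr (I.D (St b)) φ (x := fun i m => lbl I (St b)
        (F b (Fin.snoc (α := fun _ => ℕ) x a i) m)) (y := Fin.snoc (α := fun _ => ℕ → ℕ)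
        (fun i m => lbl I (St b) (F b (x i) m)) (fun m => lbl I (St b) (F b a m))) (by
          intro i
          refine Fin.lastCases ?_ (fun i' => ?_) i
          · simp
          · simp), h5]
      refine tr_congr _ φ fun i => ?_
      refine Fin.lastCases ?_ (fun i' => ?_) i
      · simp only [Fin.snoc_last]
        exact hj.mono fun m hm => by rw [hm]
      · simp
  have hx1 := hx true
  have hx2 := hx false
  -- the constants
  have hk : ∀ b (c : ℕ), ∃ j, ∀ᶠ m in (U : Filter ℕ), F b j m = c := fun b c =>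
    hF3 b _ (hAc b c)
  choose q hq using hk
  have hrz : ∀ b (n : ℕ) (ψ : L'.BoundedFormula Empty n) (r : Fin n → ℕ),
      Rz (sub (St b) (F b)) ψ (fun i => q b (r i)) ↔ Rz (St b) ψ r := by
    intro b n ψ r
    rw [los (hF1 b)]
    have h1 : ∀ᶠ m in (U : Filter ℕ), (fun i => F b (q b (r i)) m) = r :=
      (eventually_all.2 fun i => hq b (r i)).mono fun m hm => funext hm
    constructor
    · intro h2
      obtain ⟨m, h3, h4⟩ := (h2.and h1).exists
      rw [h4] at h3
      exact h3
    · intro h2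
      refine h1.mono fun m hm => ?_
      rw [hm]
      exact h2
  have hqd : ∀ b c, I.dom (St b) c → I.dom (sub (St b) (F b)) (q b c) := by
    intro b c hc
    rw [show I.dom (sub (St b) (F b)) (q b c) ↔ _ from
        los_fd (hF1 b) (hSt b) (hW b) I.fdom (fun _ => q b c)]
    refine (hq b c).mono fun m hm => ?_
    rw [hm]
    exact hc
  -- the base map
  have hlk : ∀ b (φ : L.BoundedFormula Empty k) (c : Fin k → ℕ), (∀ i, I.dom (St b) (c i)) →
      (Rz (I.D (sub (St b) (F b))) φ (fun i => lbl I (sub (St b) (F b)) (q b (c i))) ↔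
        Rz (I.D (St b)) φ (fun i => lbl I (St b) (c i))) := by
    intro b φ c hc
    rw [link I (hSt b) (hF1 b) φ (fun i => q b (c i)) _ (fun i =>
      lbl_spec (hW b) (hqd b _ (hc i)))]
    rw [tr_congr _ φ (y := fun i _ => lbl I (St b) (c i)) (fun i =>
      (hq b (c i)).mono fun m hm => by rw [hm])]
    exact Filter.eventually_const
  let f0 : Finset (ℕ × ℕ) := Finset.univ.image fun i : Fin k =>
    (lbl I (sub (St true) (F true)) (q true (t (g i))),
      lbl I (sub (St false) (F false)) (q false (t' (g i))))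
  have hf0 : El (I.D (sub (St true) (F true))) (I.D (sub (St false) (F false))) f0 := by
    intro n s φ hs
    have h1 : ∀ i, ∃ j : Fin k, (lbl I (sub (St true) (F true)) (q true (t (g j))),
      lbl I (sub (St false) (F false)) (q false (t' (g j)))) = s i := by
      intro i
      obtain ⟨j, -, hj⟩ := Finset.mem_image.1 (hs i)
      exact ⟨j, hj⟩
    choose j hj using h1
    obtain ⟨φ', hφ'⟩ := rz_subst φ j
    have e1 : (fun i => (s i).1) = fun i => lbl I (sub (St true) (F true)) (q true (t (g (j i)))) :=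
      funext fun i => by rw [← hj i]
    have e2 : (fun i => (s i).2) =
        fun i => lbl I (sub (St false) (F false)) (q false (t' (g (j i)))) :=
      funext fun i => by rw [← hj i]
    rw [e1, e2]
    rw [← hφ' _ (fun i => lbl I (sub (St true) (F true)) (q true (t (g i)))),
      ← hφ' _ (fun i => lbl I (sub (St false) (F false)) (q false (t' (g i)))),
      hlk true φ' (fun i => t (g i)) hd, hlk false φ' (fun i => t' (g i)) hd']
    exact hE φ'
  obtain ⟨e, he⟩ := iso_of_El (I.D (sub (St true) (F true))) (I.D (sub (St false) (F false)))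
    (fun f hf a => forth_of (hSt true) (hSt false) (hF1 true) (hF1 false) hx1 f hf a)
    (fun f hf a => forth_of (hSt false) (hSt true) (hF1 false) (hF1 true) hx2 f hf a) f0 hf0
  exact ⟨F true, F false, fun i => q true (t i), fun i => q false (t' i), hF1 true, hF1 false,
    fun f hf => hF3 true f (hAB f hf), fun f hf => hF3 false f (hAB' f hf),
    fun n ψ r => hrz true n ψ _, fun n ψ r => hrz false n ψ _, e,
    fun i => he _ (Finset.mem_image_of_mem _ (Finset.mem_univ i))⟩

end Pool.Agent.TH686.MC
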