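import Pool.Agent.TH686.FO.Quo

set_option autoImplicit false

/-! Countable saturation of ultrapowers, in terms of functions. -/

namespace Pool.Agent.TH686.MC

open FirstOrder FirstOrder.Language Filter
open Pool.Agent.W889.FO

/-- satisfaction in a structure on the natural numbers -/
def Rz {L : FirstOrder.Language.{0, 0}} (S : L.Structure ℕ) {n : ℕ}
    (φ : L.BoundedFormula Empty n) (a : Fin n → ℕ) : Prop :=
  @BoundedFormula.Realize L ℕ S Empty n φ Empty.elim a

/-- a nonprincipal ultrafilter -/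
noncomputable def U : Ultrafilter ℕ := hyperfilter ℕ

variable {L : FirstOrder.Language.{0, 0}}

/-- definable predicates from formulas -/
theorem fd_rz {W : L.Structure ℕ → Prop} {n : ℕ} (φ : L.BoundedFormula Empty n) {α : Type}
    (t : Fin n → α) : FD W (fun S v => Rz S φ (fun i => v (t i))) := by
  refine ⟨φ.toFormula.relabel (Sum.elim (fun x => x.elim) t), fun S _ v => ?_⟩
  rw [@Formula.realize_relabel L ℕ S _ _ φ.toFormula _ v,
    @BoundedFormula.realize_toFormula L ℕ S _ _ φ]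
  unfold Rz
  have e1 : (v ∘ (Sum.elim (fun x : Empty => x.elim) t)) ∘ Sum.inl = (Empty.elim : Empty → ℕ) :=
    funext fun x => x.elim
  have e2 : (v ∘ (Sum.elim (fun x : Empty => x.elim) t)) ∘ Sum.inr = fun i => v (t i) := rfl
  rw [e1, e2]

/-- formulas from definable predicates -/
theorem rz_of_fd {W : L.Structure ℕ → Prop} {n : ℕ} {P : L.Structure ℕ → (Fin n → ℕ) → Prop}
    (h : FD W P) : ∃ φ : L.BoundedFormula Empty n, ∀ S, W S → ∀ a, Rz S φ a ↔ P S a := by
  obtain ⟨ψ, hψ⟩ := h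
  refine ⟨BoundedFormula.relabel (fun i => (Sum.inr i : Empty ⊕ Fin n)) ψ, fun S hS a => ?_⟩
  rw [← hψ S hS a]
  unfold Rz
  rw [@BoundedFormula.realize_relabel L ℕ S]
  have key : ∀ (v v' : Fin n → ℕ) (x x' : Fin 0 → ℕ), v = v' →
      (@BoundedFormula.Realize L ℕ S (Fin n) 0 ψ v x ↔
        @BoundedFormula.Realize L ℕ S (Fin n) 0 ψ v' x') := by
    rintro v v' x x' rfl
    rw [Subsingleton.elim x x']
  exact key _ _ _ _ rfl

theorem cbf [Countable (Σ n, L.Relations n)] [L.IsRelational] (n : ℕ) :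
    Countable (L.BoundedFormula Empty n) := by
  have h1 : IsEmpty (Σ n, L.Functions n) := ⟨fun p => isEmptyElim p.2⟩
  have h2 : Countable L.Symbols := inferInstanceAs (Countable (_ ⊕ _))
  have : Countable (Σ n, L.BoundedFormula Empty n) := by
    rw [← Cardinal.mk_le_aleph0_iff]
    refine le_trans BoundedFormula.card_le ?_
    simp only [Cardinal.mk_eq_zero, Cardinal.lift_zero, zero_add, max_le_iff, le_refl, true_and]
    exact Cardinal.lift_le_aleph0.2 (Cardinal.mk_le_aleph0_iff.2 h2)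
  exact (sigma_mk_injective (β := fun n => L.BoundedFormula Empty n) (i := n)).countable

/-- satisfaction in the ultrapower -/
def Tr (S : L.Structure ℕ) {n : ℕ} (φ : L.BoundedFormula Empty n) (h : Fin n → ℕ → ℕ) : Prop :=
  ∀ᶠ m in (U : Filter ℕ), Rz S φ (fun i => h i m)

theorem ev_ge (N : ℕ) : ∀ᶠ m in (U : Filter ℕ), N ≤ m := by
  have h1 : ∀ᶠ m in cofinite, N ≤ (m : ℕ) := by
    rw [Nat.cofinite_eq_atTop]
    exact eventually_ge_atTop N
  exact h1.filter_mono hyperfilter_le_cofinite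

theorem saturated [hc : ∀ n, Countable (L.BoundedFormula Empty n)] (M N : L.Structure ℕ) {k : ℕ}
    (h h' : Fin k → ℕ → ℕ) (hE : ∀ φ : L.BoundedFormula Empty k, Tr M φ h ↔ Tr N φ h')
    (b : ℕ → ℕ) : ∃ b' : ℕ → ℕ, ∀ φ : L.BoundedFormula Empty (k + 1),
      Tr M φ (Fin.snoc (α := fun _ => ℕ → ℕ) h b) ↔
        Tr N φ (Fin.snoc (α := fun _ => ℕ → ℕ) h' b') := by
  classical
  have sn : ∀ (g : Fin k → ℕ → ℕ) (c : ℕ → ℕ) (m : ℕ),
      (fun i => Fin.snoc (α := fun _ => ℕ → ℕ) g c i m) =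
        Fin.snoc (α := fun _ => ℕ) (fun i => g i m) (c m) := by
    intro g c m
    funext i
    refine Fin.lastCases ?_ (fun j => ?_) i
    · simp
    · simp
  obtain ⟨e, he⟩ := exists_surjective_nat (L.BoundedFormula Empty (k + 1))
  -- the literals
  let θ : ℕ → L.BoundedFormula Empty (k + 1) := fun j =>
    if Tr M (e j) (Fin.snoc (α := fun _ => ℕ → ℕ) h b) then e j else (e j).not
  have hnot : ∀ (S : L.Structure ℕ) {n : ℕ} (φ : L.BoundedFormula Empty n) (a : Fin n → ℕ),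
      Rz S φ.not a ↔ ¬ Rz S φ a := fun S n φ a => @BoundedFormula.realize_not L ℕ S _ _ φ _ _
  have hθ : ∀ j, Tr M (θ j) (Fin.snoc (α := fun _ => ℕ → ℕ) h b) := by
    intro j
    by_cases h1 : Tr M (e j) (Fin.snoc (α := fun _ => ℕ → ℕ) h b)
    · simp only [θ, if_pos h1]
      exact h1
    · simp only [θ, if_neg h1]
      have h2 := Ultrafilter.eventually_not.2 h1
      exact h2.mono fun m hm => (hnot _ _ _).2 hm
  -- finite parts
  have hfin : ∀ r : ℕ, ∀ᶠ m in (U : Filter ℕ), ∃ x : ℕ, ∀ j < r,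
      Rz N (θ j) (Fin.snoc (α := fun _ => ℕ) (fun i => h' i m) x) := by
    intro r
    have hfd : FD (fun _ => True) (fun (S : L.Structure ℕ) (a : Fin k → ℕ) => ∃ x : Unit → ℕ,
        ∀ j : Fin r, Rz S (θ j) (Fin.snoc (α := fun _ => ℕ) a (x ()))) := by
      refine FD.ex (P := fun S a x => ∀ j : Fin r, Rz S (θ j)
        (Fin.snoc (α := fun _ => ℕ) a (x ()))) ?_
      refine FD.fin fun j => ?_
      refine (fd_rz (θ j) (Fin.snoc (α := fun _ => Fin k ⊕ Unit) Sum.inl (Sum.inr ()))).congr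
        fun S _ v => ?_
      have e1 : (fun i => v (Fin.snoc (α := fun _ => Fin k ⊕ Unit) Sum.inl (Sum.inr ()) i)) =
          Fin.snoc (α := fun _ => ℕ) (fun i => v (Sum.inl i)) (v (Sum.inr ())) := by
        funext i
        refine Fin.lastCases ?_ (fun j => ?_) i
        · simp
        · simp
      rw [e1]
    obtain ⟨χ, hχ⟩ := rz_of_fd hfd
    have h1 : Tr M χ h := by
      have h2 : ∀ᶠ m in (U : Filter ℕ), ∀ j : Fin r, Rz M (θ j)
          (fun i => Fin.snoc (α := fun _ => ℕ → ℕ) h b i m) :=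
        eventually_all.2 fun j => hθ j
      refine h2.mono fun m hm => (hχ M trivial _).2 ⟨fun _ => b m, fun j => ?_⟩
      rw [← sn]
      exact hm j
    refine ((hE χ).1 h1).mono fun m hm => ?_
    obtain ⟨x, hx⟩ := (hχ N trivial _).1 hm
    exact ⟨x (), fun j hj => hx ⟨j, hj⟩⟩
  -- the witness
  let Q : ℕ → ℕ → Prop := fun m r => r ≤ m ∧ ∃ x : ℕ, ∀ j < r,
    Rz N (θ j) (Fin.snoc (α := fun _ => ℕ) (fun i => h' i m) x)
  let ρ : ℕ → ℕ := fun m => Nat.findGreatest (Q m) m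
  have hQ : ∀ m, Q m (ρ m) := by
    intro m
    exact Nat.findGreatest_spec (P := Q m) (Nat.zero_le m)
      ⟨Nat.zero_le m, 0, fun j hj => absurd hj (Nat.not_lt_zero j)⟩
  choose hQ1 x hx using hQ
  refine ⟨x, fun φ => ?_⟩
  obtain ⟨j, rfl⟩ := he φ
  have h1 : Tr N (θ j) (Fin.snoc (α := fun _ => ℕ → ℕ) h' x) := by
    filter_upwards [hfin (j + 1), ev_ge (j + 1)] with m hm1 hm2
    have h2 : j + 1 ≤ ρ m := Nat.le_findGreatest hm2 ⟨hm2, hm1⟩
    rw [sn]
    exact hx m j h2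
  by_cases h2 : Tr M (e j) (Fin.snoc (α := fun _ => ℕ → ℕ) h b)
  · simp only [θ, if_pos h2] at h1
    exact iff_of_true h2 h1
  · simp only [θ, if_neg h2] at h1
    refine iff_of_false h2 fun h3 => ?_
    obtain ⟨m, h4, h5⟩ := (h1.and h3).exists
    exact (hnot _ _ _).1 h4 h5

end Pool.Agent.TH686.MC
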