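import Pool.Agent.TH686.MC.Tq
import Pool.Agent.W889.FO.StA

set_option autoImplicit false

/-! From arbitrary relational languages to languages with unary and binary relations:
isomorphisms. -/

namespace Pool.Agent.TH686.JA

open FirstOrder FirstOrder.Language
open Pool.Agent.W889.FO Pool.Agent.W889.FO.StA

variable {L : FirstOrder.Language.{0, 0}}

theorem upA {S S' : (LA L).Structure ℕ} (h : W S) (h' : W S')
    (π : {u // dm S u} ≃ {u // dm S' u})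
    (hπ : ∀ {n : ℕ} (R : L.Relations n) (u : Fin n → {u // dm S u}),
      (itp L).rel R S (fun i => u i) ↔ (itp L).rel R S' (fun i => π (u i)))
    (hc : cnt (junk S) = cnt (junk S')) :
    ∃ g : @FirstOrder.Language.Equiv (LA L) ℕ ℕ S S', ∀ u (hu : dm S u), g u = π ⟨u, hu⟩ := by
  classical
  obtain ⟨ρ⟩ := cnt_equiv hc
  -- the matching of the elements
  let M : (Σ n, L.Relations n) → ℕ → ℕ → Prop := fun R u u' => U S R u ∧ U S' R u' ∧
    ∀ i a, pi S R i u a → ∃ ha : dm S a, pi S' R i u' (π ⟨a, ha⟩)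
  have hM1 : ∀ R u, U S R u → ∃ u', M R u u' := by
    intro R u hu
    choose a ha using fun i => h.p2 R i u hu
    have hd : ∀ i, dm S (a i) := fun i => (h.p1 R i u _ (ha i)).2
    obtain ⟨u', h1, h2⟩ := (hπ R.2 (fun i => ⟨a i, hd i⟩)).1 ⟨u, hu, ha⟩
    refine ⟨u', hu, h1, fun i b hb => ?_⟩
    have : b = a i := h.p3 R i u _ _ hb (ha i)
    subst this
    exact ⟨hd i, h2 i⟩
  have hM2 : ∀ R u', U S' R u' → ∃ u, M R u u' := by
    intro R u' hu'
    choose a' ha' using fun i => h'.p2 R i u' hu'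
    have hd' : ∀ i, dm S' (a' i) := fun i => (h'.p1 R i u' _ (ha' i)).2
    have h3 : ∃ t, U S' R t ∧ ∀ i, pi S' R i t (π (π.symm ⟨a' i, hd' i⟩)) := by
      refine ⟨u', hu', fun i => ?_⟩
      rw [Equiv.apply_symm_apply]
      exact ha' i
    obtain ⟨u, h1, h2⟩ := (hπ R.2 (fun i => π.symm ⟨a' i, hd' i⟩)).2 h3
    refine ⟨u, h1, hu', fun i b hb => ?_⟩
    have : b = (π.symm ⟨a' i, hd' i⟩ : ℕ) := h.p3 R i u _ _ hb (h2 i)
    subst this
    refine ⟨(π.symm ⟨a' i, hd' i⟩).2, ?_⟩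
    rw [Subtype.coe_eta, Equiv.apply_symm_apply]
    exact ha' i
  have hM3 : ∀ R u u1 u2, M R u u1 → M R u u2 → u1 = u2 := by
    rintro R u u1 u2 ⟨h1, h2, h3⟩ ⟨_, h4, h5⟩
    refine h'.p4 R _ _ h2 h4 fun i => ?_
    obtain ⟨a, ha⟩ := h.p2 R i u h1
    obtain ⟨hd, h6⟩ := h3 i a ha
    obtain ⟨_, h7⟩ := h5 i a ha
    exact ⟨_, h6, h7⟩
  have hM4 : ∀ R u1 u2 u, M R u1 u → M R u2 u → u1 = u2 := by
    rintro R u1 u2 u ⟨h1, h2, h3⟩ ⟨h4, _, h5⟩
    refine h.p4 R _ _ h1 h4 fun i => ?_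
    obtain ⟨a, ha⟩ := h.p2 R i u1 h1
    obtain ⟨b, hb⟩ := h.p2 R i u2 h4
    obtain ⟨hd, h6⟩ := h3 i a ha
    obtain ⟨hd', h7⟩ := h5 i b hb
    have h8 := h'.p3 R i u _ _ h6 h7
    have h9 : a = b := congrArg Subtype.val (π.injective (Subtype.ext h8))
    exact ⟨a, ha, h9 ▸ hb⟩
  obtain ⟨σ, hσ⟩ := Pool.Agent.W889.SD.equiv_of_rel
    (fun u u' : ℕ => (∃ hu : dm S u, (π ⟨u, hu⟩ : ℕ) = u') ∨ (∃ R, M R u u') ∨
      (∃ hu : junk S u, (ρ ⟨u, hu⟩ : ℕ) = u'))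
    (fun u => by
      by_cases hd : dm S u
      · exact ⟨_, Or.inl ⟨hd, rfl⟩⟩
      · by_cases hU : ∃ R, U S R u
        · obtain ⟨R, hR⟩ := hU
          obtain ⟨u', hu'⟩ := hM1 R u hR
          exact ⟨u', Or.inr (Or.inl ⟨R, hu'⟩)⟩
        · push Not at hU
          exact ⟨_, Or.inr (Or.inr ⟨⟨hd, hU⟩, rfl⟩)⟩)
    (fun u' => by
      by_cases hd : dm S' u'
      · refine ⟨π.symm ⟨u', hd⟩, Or.inl ⟨(π.symm ⟨u', hd⟩).2, ?_⟩⟩
        rw [Subtype.coe_eta, Equiv.apply_symm_apply]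
      · by_cases hU : ∃ R, U S' R u'
        · obtain ⟨R, hR⟩ := hU
          obtain ⟨u, hu⟩ := hM2 R u' hR
          exact ⟨u, Or.inr (Or.inl ⟨R, hu⟩)⟩
        · push Not at hU
          refine ⟨ρ.symm ⟨u', hd, hU⟩, Or.inr (Or.inr ⟨(ρ.symm ⟨u', hd, hU⟩).2, ?_⟩)⟩
          rw [Subtype.coe_eta, Equiv.apply_symm_apply])
    (by
      rintro u u1 u2 (⟨k1, rfl⟩ | ⟨R, k1⟩ | ⟨k1, rfl⟩) (⟨k2, rfl⟩ | ⟨R', k2⟩ | ⟨k2, rfl⟩)
      · rfl
      · exact absurd k2.1 (h.d1 R' u k1)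
      · exact absurd k1 k2.1
      · exact absurd k1.1 (h.d1 R u k2)
      · have : R = R' := h.d2 R R' u k1.1 k2.1
        subst this
        exact hM3 R u _ _ k1 k2
      · exact absurd k1.1 (k2.2 R)
      · exact absurd k2 k1.1
      · exact absurd k2.1 (k1.2 R')
      · rfl)
    (by
      have hd1 : ∀ u1 (k : dm S u1), dm S' (π ⟨u1, k⟩ : ℕ) := fun u1 k => (π ⟨u1, k⟩).2
      have hj1 : ∀ u1 (k : junk S u1), junk S' (ρ ⟨u1, k⟩ : ℕ) := fun u1 k => (ρ ⟨u1, k⟩).2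
      rintro u1 u2 u (⟨k1, e1⟩ | ⟨R, k1⟩ | ⟨k1, e1⟩) (⟨k2, e2⟩ | ⟨R', k2⟩ | ⟨k2, e2⟩)
      · exact congrArg Subtype.val (π.injective (Subtype.ext (e1.trans e2.symm)))
      · exact absurd k2.2.1 (h'.d1 R' u (e1 ▸ hd1 u1 k1))
      · exact absurd (e1 ▸ hd1 u1 k1) (e2 ▸ hj1 u2 k2).1
      · exact absurd k1.2.1 (h'.d1 R u (e2 ▸ hd1 u2 k2))
      · have : R = R' := h'.d2 R R' u k1.2.1 k2.2.1
        subst this
        exact hM4 R _ _ u k1 k2
      · exact absurd k1.2.1 ((e2 ▸ hj1 u2 k2).2 R)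
      · exact absurd (e2 ▸ hd1 u2 k2) (e1 ▸ hj1 u1 k1).1
      · exact absurd k2.2.1 ((e1 ▸ hj1 u1 k1).2 R')
      · exact congrArg Subtype.val (ρ.injective (Subtype.ext (e1.trans e2.symm))))
  have hdσ : ∀ u, dm S' (σ u) ↔ dm S u := by
    intro u
    rcases hσ u with ⟨k1, e1⟩ | ⟨R, k1⟩ | ⟨k1, e1⟩
    · exact ⟨fun _ => k1, fun _ => e1 ▸ (π ⟨u, k1⟩).2⟩
    · exact ⟨fun k => absurd k1.2.1 (h'.d1 R _ k), fun k => absurd k1.1 (h.d1 R _ k)⟩
    · exact ⟨fun k => absurd k (e1 ▸ (ρ ⟨u, k1⟩).2).1, fun k => absurd k k1.1⟩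
  have hdπ : ∀ u (hu : dm S u), (π ⟨u, hu⟩ : ℕ) = σ u := by
    intro u hu
    rcases hσ u with ⟨k1, e1⟩ | ⟨R, k1⟩ | ⟨k1, e1⟩
    · exact e1
    · exact absurd k1.1 (h.d1 R _ hu)
    · exact absurd hu k1.1
  have hUσ : ∀ R u, U S' R (σ u) ↔ U S R u := by
    intro R u
    rcases hσ u with ⟨k1, e1⟩ | ⟨R', k1⟩ | ⟨k1, e1⟩
    · exact ⟨fun k => absurd k (h'.d1 R _ ((hdσ u).2 k1)), fun k => absurd k (h.d1 R _ k1)⟩
    · constructor
      · intro k
        rw [h'.d2 R R' _ k k1.2.1]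
        exact k1.1
      · intro k
        rw [h.d2 R R' _ k k1.1]
        exact k1.2.1
    · exact ⟨fun k => absurd k ((e1 ▸ (ρ ⟨u, k1⟩).2).2 R), fun k => absurd k (k1.2 R)⟩
  have hMσ : ∀ R u, U S R u → M R u (σ u) := by
    intro R u hu
    rcases hσ u with ⟨k1, e1⟩ | ⟨R', k1⟩ | ⟨k1, e1⟩
    · exact absurd hu (h.d1 R _ k1)
    · rw [h.d2 R R' _ hu k1.1]
      exact k1
    · exact absurd hu (k1.2 R)
  have hpσ : ∀ R i t a, pi S' R i (σ t) (σ a) ↔ pi S R i t a := by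
    intro R i t a
    constructor
    · intro k
      obtain ⟨k1, k2⟩ := h'.p1 R i _ _ k
      rw [hUσ] at k1
      rw [hdσ] at k2
      obtain ⟨b, hb⟩ := h.p2 R i t k1
      obtain ⟨hd, h6⟩ := (hMσ R t k1).2.2 i b hb
      rw [hdπ] at h6
      have := σ.injective (h'.p3 R i _ _ _ k h6)
      rw [this]
      exact hb
    · intro k
      have k1 := (h.p1 R i _ _ k).1
      obtain ⟨hd, h6⟩ := (hMσ R t k1).2.2 i a k
      rw [hdπ] at h6
      exact h6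
  obtain ⟨f, hf⟩ := siso_of (S := S) (S' := S') σ (fun n Q v => by
    cases Q with
    | dm =>
      have := hdσ (v 0)
      unfold dm at this
      have e1 : (fun _ : Fin 1 => v 0) = v := funext fun i => by rw [Subsingleton.elim i 0]
      have e2 : (fun _ : Fin 1 => σ (v 0)) = fun i => σ (v i) :=
        funext fun i => by rw [Subsingleton.elim i 0]
      rw [e1, e2] at this
      exact this
    | @ur n R =>
      have := hUσ ⟨n, R⟩ (v 0)
      unfold U at this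
      have e1 : (fun _ : Fin 1 => v 0) = v := funext fun i => by rw [Subsingleton.elim i 0]
      have e2 : (fun _ : Fin 1 => σ (v 0)) = fun i => σ (v i) :=
        funext fun i => by rw [Subsingleton.elim i 0]
      rw [e1, e2] at this
      exact this
    | @pr n R i =>
      have := hpσ ⟨n, R⟩ i (v 0) (v 1)
      unfold pi at this
      have e1 : (fun m : Fin 2 => if m = 0 then v 0 else v 1) = v := by
        funext m
        fin_cases m <;> rfl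
      have e2 : (fun m : Fin 2 => if m = 0 then σ (v 0) else σ (v 1)) = fun i => σ (v i) := by
        funext m
        fin_cases m <;> rfl
      rw [e1, e2] at this
      exact this)
  exact ⟨f, fun u hu => by rw [hf, ← hdπ u hu]⟩

end Pool.Agent.TH686.JA
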