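import Pool.Agent.TH686.MC.Rich
import Pool.Agent.TH686.MC.UpA

set_option autoImplicit false

/-! From arbitrary relational languages to languages with unary and binary relations:
supports. -/

namespace Pool.Agent.TH686.JA

open FirstOrder FirstOrder.Language Filter
open Pool.Agent.W889.FO Pool.Agent.W889.FO.StA
open Pool.Agent.TH686.FO
open Pool.Agent.TH686.MC (Sk Cov sub Gn cnt_none_of cnt_zero_of cov_inf Rz ev_ge rich_of ne_eq)

variable {L : FirstOrder.Language.{0, 0}}

/-- no superfluous elements -/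
def VA (S : (LA L).Structure ℕ) : Prop := ∀ u, ¬ junk S u

/-- sizes of the supports -/
def wdA : Option (Σ n, L.Relations n) → ℕ
  | none => 1
  | some R => R.1

/-- the supports of elements -/
def chA : ∀ κ : Option (Σ n, L.Relations n), (LA L).Structure ℕ → ℕ → (Fin (wdA κ) → ℕ) → Prop
  | none => fun S x w => dm S x ∧ w (0 : Fin 1) = x
  | some R => fun S x w => U S R x ∧ ∀ i : Fin R.1, pi S R i x (w i)

theorem fd_chA (κ : Option (Σ n, L.Relations n)) :
    FD (StA.W (L := L)) (fun S (v : Unit ⊕ Fin (wdA κ) → ℕ) =>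
      chA κ S (v (Sum.inl ())) (fun j => v (Sum.inr j))) := by
  cases κ with
  | none => exact (fd_dm _).and (FD.eq (Sum.inr (0 : Fin 1)) (Sum.inl ()))
  | some R => exact (fd_U _ _).and (FD.fin fun i : Fin R.1 => fd_pi R i _ _)

theorem dom_chA (κ : Option (Σ n, L.Relations n)) (S : (LA L).Structure ℕ) (x : ℕ)
    (w : Fin (wdA κ) → ℕ) (h : W S) (hc : chA κ S x w) : ∀ j, dm S (w j) := by
  cases κ with
  | none =>
    intro j
    have : j = (0 : Fin 1) := Subsingleton.elim (α := Fin 1) _ _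
    rw [this, hc.2]
    exact hc.1
  | some R => exact fun j => (h.p1 R j x _ (hc.2 j)).2

theorem fn_chA (κ : Option (Σ n, L.Relations n)) (S : (LA L).Structure ℕ) (x : ℕ)
    (w w' : Fin (wdA κ) → ℕ) (h : W S) (hc : chA κ S x w) (hc' : chA κ S x w') : w = w' := by
  funext j
  cases κ with
  | none =>
    have : j = (0 : Fin 1) := Subsingleton.elim (α := Fin 1) _ _
    rw [this, hc.2, hc'.2]
  | some R => exact h.p3 R j x _ _ (hc.2 j) (hc'.2 j)

theorem fx_chA (κ : Option (Σ n, L.Relations n)) (S : (LA L).Structure ℕ) (x x' : ℕ)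
    (w : Fin (wdA κ) → ℕ) (h : W S) (hc : chA κ S x w) (hc' : chA κ S x' w) : x = x' := by
  cases κ with
  | none => exact hc.2.symm.trans hc'.2
  | some R => exact h.p4 R x x' hc.1 hc'.1 fun i => ⟨w i, hc.2 i, hc'.2 i⟩

theorem tot_chA (S : (LA L).Structure ℕ) (h : W S) (hV : VA S) (x : ℕ) :
    ∃ κ w, chA κ S x w := by
  by_cases hd : dm S x
  · exact ⟨none, fun _ => x, hd, rfl⟩
  · have h1 : ∃ R, U S R x := by
      by_contra hne
      push Not at hne
      exact hV x ⟨hd, hne⟩
    obtain ⟨R, hR⟩ := h1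
    choose a ha using fun i => h.p2 R i x hR
    exact ⟨some R, a, hR, ha⟩

/-- the nonempty sorts -/
def En (S : (LA L).Structure ℕ) : Set (Σ n, L.Relations n) := {R | ∃ t, U S R t}

theorem En_iff {S : (LA L).Structure ℕ} (h : W S) (R : Σ n, L.Relations n) :
    R ∈ En S ↔ ∃ u : Fin R.1 → ℕ, (∀ i, (itp L).dom S (u i)) ∧ (itp L).rel R.2 S u := by
  constructor
  · rintro ⟨t, ht⟩
    choose a ha using fun i => h.p2 R i t ht
    exact ⟨a, fun i => (h.p1 R i t _ (ha i)).2, t, ht, ha⟩
  · rintro ⟨u, -, t, ht, -⟩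
    exact ⟨t, ht⟩

theorem rich_inf {S : (LA L).Structure ℕ} (h : W S) (hE : (En S).Infinite) :
    ∃ B : Set (ℕ → ℕ), B.Countable ∧ ∀ F, Sk S F → Cov F B →
      cnt (junk (sub S F)) = none := by
  let r : ℕ ↪ (Σ n, L.Relations n) := ⟨fun n => (hE.natEmbedding _ n : En S).1, fun m n hmn =>
    (hE.natEmbedding _).injective (Subtype.ext hmn)⟩
  have hr : ∀ n, ∃ t, U S (r n) t := fun n => (hE.natEmbedding _ n : En S).2
  choose t ht using hr
  have hdist : ∀ a b, t a = t b → a = b := fun a b hab =>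
    r.injective (h.d2 _ _ _ (ht a) (by rw [hab]; exact ht b))
  refine ⟨Set.range fun k m => t (m + k), Set.countable_range _, fun F hF hc => ?_⟩
  refine cov_inf (fun k m => t (m + k)) hc (fun k i hi => ?_) fun k l hkl => ?_
  · constructor
    · intro hd
      have hd' : ∀ᶠ m in (TH686.MC.U : Filter ℕ), dm S (F i m) := hd
      obtain ⟨m, h1, h2⟩ := (hi.and hd').exists
      rw [h1] at h2
      exact h.d1 _ _ h2 (ht _)
    · intro R hR
      have hR' : ∀ᶠ m in (TH686.MC.U : Filter ℕ), U S R (F i m) := hR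
      by_cases hex : ∃ n0, r n0 = R
      · obtain ⟨n0, rfl⟩ := hex
        obtain ⟨m, ⟨h1, h2⟩, h3⟩ := ((hi.and hR').and (ev_ge (n0 + 1))).exists
        rw [h1] at h2
        have h4 := r.injective (h.d2 _ _ _ h2 (ht _))
        omega
      · obtain ⟨m, h1, h2⟩ := (hi.and hR').exists
        rw [h1] at h2
        exact hex ⟨_, (h.d2 _ _ _ (ht _) h2)⟩
  · refine Eventually.of_forall fun m hm => hkl ?_
    have := hdist _ _ hm
    omega

theorem rich_fin {S : (LA L).Structure ℕ} (hV : VA S) (hE : (En S).Finite) :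
    ∃ B : Set (ℕ → ℕ), B.Countable ∧ ∀ F, Sk S F → Cov F B →
      cnt (junk (sub S F)) = some 0 := by
  refine ⟨∅, Set.countable_empty, fun F hF _ => cnt_zero_of fun i hi => ?_⟩
  have h1 : ∀ᶠ m in (TH686.MC.U : Filter ℕ), ¬ dm S (F i m) := Ultrafilter.eventually_not.2 hi.1
  have h2 : ∀ᶠ m in (TH686.MC.U : Filter ℕ), ∀ R ∈ En S, ¬ U S R (F i m) := by
    rw [Filter.eventually_all_finite hE]
    exact fun R _ => Ultrafilter.eventually_not.2 (hi.2 R)
  obtain ⟨m, h3, h4⟩ := (h1.and h2).exists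
  exact hV (F i m) ⟨h3, fun R hR => h4 R ⟨_, hR⟩ hR⟩

/-- supports -/
noncomputable def gnA [L.IsRelational] : Gn (itp L) (VA (L := L)) (fun S => cnt (junk S)) where
  K := Option (Σ n, L.Relations n)
  wd := wdA
  χ := chA
  fd := fd_chA
  dom := dom_chA
  fn := fn_chA
  fx := fx_chA
  tot := tot_chA
  up := fun S S' h h' hj π hπ => upA h h' π hπ hj
  rich := fun S S' h h' hV hV' hE => by
    have hEE : En S = En S' := by
      ext R
      rw [En_iff h, En_iff h']
      exact ne_eq h h' hE R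
    refine rich_of (j := fun S => cnt (junk S)) (fun S => (En S).Infinite) none (some 0) (by rw [hEE]) ?_ ?_
    · rintro T (rfl | rfl) hT
      · exact rich_inf h hT
      · exact rich_inf h' hT
    · rintro T (rfl | rfl) hT
      · exact rich_fin hV (Set.not_infinite.1 hT)
      · exact rich_fin hV' (Set.not_infinite.1 hT)

end Pool.Agent.TH686.JA
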