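import Pool.Agent.TH686.MC.UpBin

set_option autoImplicit false

/-! From languages with unary and binary relations to a finite language: supports. -/

namespace Pool.Agent.TH686.JB

open FirstOrder FirstOrder.Language Filter
open Pool.Agent.W889.FO Pool.Agent.W889.FO.StB
open StA (FD.all1 FD.ex1)
open Pool.Agent.TH686.FO
open Pool.Agent.TH686.MC (Sk Cov sub Gn cnt_none_of cnt_zero_of cov_inf Rz ev_ge rich_of ne_eq
  los_fd sub_ax)

variable {L : FirstOrder.Language.{0, 0}} {B : Bin L} {S S' : LB.Structure ℕ}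

/-- no superfluous elements -/
def VB (S : LB.Structure ℕ) : Prop := (∀ u, ¬ JM S u) ∧ ∀ u, ¬ R0 S u

/-- sizes of the supports -/
def wdB : Option ℕ → ℕ
  | none => 1
  | some _ => 2

/-- the supports of elements -/
def chB : ∀ κ : Option ℕ, LB.Structure ℕ → ℕ → (Fin (wdB κ) → ℕ) → Prop
  | none => fun S x w => D S x ∧ w (0 : Fin 1) = x
  | some n => fun S x w => ∃ c, bin RB.fs S c (w (0 : Fin 2)) ∧ bin RB.sn S c (w (1 : Fin 2)) ∧
      ch S n c x

/-- positions are unique -/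
theorem pos_uniq (h : W0 S) {a b c c' x : ℕ} (hc : C S c) (hc' : C S c') (h1 : ch S a c x)
    (h2 : ch S b c' x) : a = b ∧ c = c' := by
  have k1 := (ch_iff h a ⟨c, h.c1 c hc⟩ x).1 h1
  have k2 := (ch_iff h b ⟨c', h.c1 c' hc'⟩ x).1 h2
  have o1 := off_iter (nx h) a ⟨c, h.c1 c hc⟩
  have o2 := off_iter (nx h) b ⟨c', h.c1 c' hc'⟩
  have e : (nx h)^[a] ⟨c, h.c1 c hc⟩ = (nx h)^[b] ⟨c', h.c1 c' hc'⟩ :=
    Subtype.ext (k1.trans k2.symm)
  rw [← e] at o2
  have o3 := o1.trans o2.symm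
  have e2 := bs_uniq h (Or.inl hc) (Or.inl hc') o3
  have e3 : c = c' := congrArg Subtype.val e2
  subst e3
  refine ⟨?_, rfl⟩
  have := (injMap h).uniq_z o1 o2
  exact_mod_cast this

theorem ch_fun (h : W0 S) {n c x x' : ℕ} (hc : C S c) (h1 : ch S n c x) (h2 : ch S n c x') :
    x = x' := by
  rw [ch_iff h n ⟨c, h.c1 c hc⟩] at h1 h2
  exact h1.symm.trans h2

theorem fd_chB (B : Bin L) (κ : Option ℕ) :
    FD (StB.W B) (fun S (v : Unit ⊕ Fin (wdB κ) → ℕ) =>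
      chB κ S (v (Sum.inl ())) (fun j => v (Sum.inr j))) := by
  cases κ with
  | none => exact (fd_D _).and (FD.eq (Sum.inr (0 : Fin 1)) (Sum.inl ()))
  | some n =>
    exact FD.ex1 (P := fun S (v : Unit ⊕ Fin 2 → ℕ) c => bin RB.fs S c (v (Sum.inr 0)) ∧
      bin RB.sn S c (v (Sum.inr 1)) ∧ ch S n c (v (Sum.inl ())))
      ((fd_bin _ _ _).and ((fd_bin _ _ _).and (fd_ch _ _ _)))

theorem dom_chB (κ : Option ℕ) (S : LB.Structure ℕ) (x : ℕ)
    (w : Fin (wdB κ) → ℕ) (h : StB.W B S) (hc : chB κ S x w) : ∀ j, D S (w j) := by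
  cases κ with
  | none =>
    intro j
    have : j = (0 : Fin 1) := Subsingleton.elim (α := Fin 1) _ _
    rw [this, hc.2]
    exact hc.1
  | some n =>
    obtain ⟨c, h1, h2, -⟩ := hc
    intro j
    have : j = (0 : Fin 2) ∨ j = (1 : Fin 2) := by
      revert j
      show ∀ j : Fin 2, j = 0 ∨ j = 1
      decide
    rcases this with rfl | rfl
    · exact (h.w0.f1 _ _ h1).2
    · exact (h.w0.s1 _ _ h2).2

theorem fn_chB (κ : Option ℕ) (S : LB.Structure ℕ) (x : ℕ)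
    (w w' : Fin (wdB κ) → ℕ) (h : StB.W B S) (hc : chB κ S x w) (hc' : chB κ S x w') :
    w = w' := by
  funext j
  cases κ with
  | none =>
    have : j = (0 : Fin 1) := Subsingleton.elim (α := Fin 1) _ _
    rw [this, hc.2, hc'.2]
  | some n =>
    obtain ⟨c, h1, h2, h3⟩ := hc
    obtain ⟨c', h1', h2', h3'⟩ := hc'
    obtain ⟨-, rfl⟩ := pos_uniq h.w0 (h.w0.f1 _ _ h1).1 (h.w0.f1 _ _ h1').1 h3 h3'
    have : j = (0 : Fin 2) ∨ j = (1 : Fin 2) := by
      revert j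
      show ∀ j : Fin 2, j = 0 ∨ j = 1
      decide
    rcases this with rfl | rfl
    · exact h.w0.f3 _ _ _ h1 h1'
    · exact h.w0.s3 _ _ _ h2 h2'

theorem fx_chB (κ : Option ℕ) (S : LB.Structure ℕ) (x x' : ℕ)
    (w : Fin (wdB κ) → ℕ) (h : StB.W B S) (hc : chB κ S x w) (hc' : chB κ S x' w) : x = x' := by
  cases κ with
  | none => exact hc.2.symm.trans hc'.2
  | some n =>
    obtain ⟨c, h1, h2, h3⟩ := hc
    obtain ⟨c', h1', h2', h3'⟩ := hc'
    have e := h.w0.e2 _ _ _ _ h1 h1' h2 h2'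
    subst e
    exact ch_fun h.w0 (h.w0.f1 _ _ h1).1 h3 h3'

/-- elements without superfluous components -/
theorem has_pos (h : W0 S) (hV : VB S) {x : ℕ} (hx : ¬ D S x) : ∃ n c, C S c ∧ ch S n c x := by
  obtain ⟨b, z, hb, ho⟩ := cover h ⟨x, hx⟩
  rcases hb with hb | hb | hb
  · obtain ⟨n, -, hn⟩ := start h hb ho
    exact ⟨n, b, hb, (ch_iff h n b x).2 (congrArg Subtype.val hn)⟩
  · exact absurd hb (hV.1 _)
  · exact absurd hb (hV.2 _)

theorem tot_chB (S : LB.Structure ℕ) (h : StB.W B S) (hV : VB S) (x : ℕ) :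
    ∃ κ w, chB κ S x w := by
  by_cases hd : D S x
  · exact ⟨none, fun _ => x, hd, rfl⟩
  · obtain ⟨n, c, hc, h1⟩ := has_pos h.w0 hV hd
    obtain ⟨a, ha⟩ := h.w0.f2 c hc
    obtain ⟨b, hb⟩ := h.w0.s2 c hc
    exact ⟨some n, (![a, b] : Fin 2 → ℕ), c, ha, hb, h1⟩

/-- the nonempty relations -/
def En (B : Bin L) (S : LB.Structure ℕ) : Set (Σ n, L.Relations n) :=
  {R | ∃ u : Fin R.1 → ℕ, (∀ i, D S (u i)) ∧ rl B R.2 S u}

/-- marks are given by nonempty relations -/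
theorem mark_pos (h : StB.W B S) {n c x : ℕ} (hc : C S c) (h1 : ch S n c x) (hM : M S x) :
    ∃ R ∈ En B S, 2 ^ B.p R = n := by
  by_cases hn : ∀ R, 2 ^ B.p R ≠ n
  · exact absurd hM (h.m1 n hn c x hc h1)
  · push Not at hn
    obtain ⟨R, rfl⟩ := hn
    obtain ⟨a, ha⟩ := h.w0.f2 c hc
    obtain ⟨b, hb⟩ := h.w0.s2 c hc
    obtain ⟨v, h2, h3⟩ := exists_v (B.ar R.1 R.2) a b (fun hm => h.m2 R hm c x a b ha hb h1 hM)
    refine ⟨R, ⟨v, fun i => ?_, ⟨c, x, ?_, ?_, h1, hM⟩⟩, rfl⟩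
    · have key : ∀ {n : ℕ} (hn : n = 1 ∨ n = 2) (i : Fin n), i = fi hn ∨ i = la hn := by
        intro n hn i
        rcases hn with rfl | rfl
        · exact Or.inl (Subsingleton.elim _ _)
        · revert i
          decide
      rcases key (B.ar R.1 R.2) i with e | e
      · rw [e, h2]
        exact (h.w0.f1 _ _ ha).2
      · rw [e, h3]
        exact (h.w0.s1 _ _ hb).2
    · rw [h2]
      exact ha
    · rw [h3]
      exact hb

theorem ch_sub {F : ℕ → ℕ → ℕ} (hF : Sk S F) (n i j : ℕ) :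
    ch (sub S F) n i j ↔ ∀ᶠ m in (TH686.MC.U : Filter ℕ), ch S n (F i m) (F j m) := by
  have h1 := los_fd (W := fun _ => True) hF trivial trivial
    (fd_ch (V := fun _ => True) n (0 : Fin 2) 1) ![i, j]
  exact h1

end Pool.Agent.TH686.JB
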