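import Pool.Agent.TH686.MC.ItF

set_option autoImplicit false

/-! Supports of tuples in pairs of linear orders describing structures. -/

namespace Pool.Agent.TH686.MC

open FirstOrder FirstOrder.Language
open Pool.Agent.W889.FO Pool.Agent.W889.VC Pool.Agent.W889.VC.Grid
open Pool.Agent.W889.FO.StA (FD.all1 FD.ex1)
open Pool.Agent.TH686.FO

/-- supports indexed by finite types -/
noncomputable def Sup.ofFin {L L' : FirstOrder.Language.{0, 0}} [L.IsRelational] [L'.IsRelational]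
    (I : Itq L L') (Sh : ℕ → Type) (Wd : ∀ {m : ℕ}, Sh m → Type)
    (hfin : ∀ {m : ℕ} (s : Sh m), Finite (Wd s))
    (χ : ∀ {m : ℕ} (s : Sh m), L'.Structure ℕ → (Fin m → ℕ) → (Wd s → ℕ) → Prop)
    (fd : ∀ {m : ℕ} (s : Sh m), FD I.W (fun S (v : Fin m ⊕ Wd s → ℕ) =>
      χ s S (fun i => v (Sum.inl i)) (fun j => v (Sum.inr j))))
    (dom : ∀ {m : ℕ} (s : Sh m) S u w, I.W S → χ s S u w → ∀ j, I.dom S (w j))
    (fn : ∀ {m : ℕ} (s : Sh m) S u w w', I.W S → χ s S u w → χ s S u w' →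
      ∀ j, I.eqv S (w j) (w' j))
    (tot : ∀ S, I.W S → ∀ {m : ℕ} (u : Fin m → ℕ), ∃ (s : Sh m) (w : Wd s → ℕ), χ s S u w)
    (up : ∀ S S', I.W S → I.W S' → ∀ e : @FirstOrder.Language.Equiv L ℕ ℕ (I.D S) (I.D S'),
      ∃ g : @FirstOrder.Language.Equiv L' ℕ ℕ S S', ∀ n x, I.lab S n x → I.lab S' (e n) (g x))
    (lift : ∀ {m : ℕ} (s : Sh m) S S', I.W S → I.W S' → ∀ u w u' w', χ s S u w → χ s S' u' w' →
      ∀ e : @FirstOrder.Language.Equiv L ℕ ℕ (I.D S) (I.D S'),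
        (∀ j n, I.lab S n (w j) → I.lab S' (e n) (w' j)) →
        ∃ g : @FirstOrder.Language.Equiv L' ℕ ℕ S S', ∀ i, g (u i) = u' i) : Sup I where
  Sh := Sh
  wd := fun {_} s => Nat.card (Wd s)
  χ := fun {_} s S u w => χ s S u (fun x => w (@Finite.equivFin _ (hfin s) x))
  fd := fun {_} s => (fd s).sub (Sum.elim (fun i => Sum.inl i)
    (fun x => Sum.inr (@Finite.equivFin _ (hfin s) x)))
  dom := fun {_} s S u w h hχ j => by
    have := dom s S u _ h hχ ((@Finite.equivFin _ (hfin s)).symm j)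
    rwa [Equiv.apply_symm_apply] at this
  fn := fun {_} s S u w w' h h1 h2 j => by
    have := fn s S u _ _ h h1 h2 ((@Finite.equivFin _ (hfin s)).symm j)
    rwa [Equiv.apply_symm_apply] at this
  tot := fun S h {_} u => by
    obtain ⟨s, w, hw⟩ := tot S h u
    refine ⟨s, fun j => w ((@Finite.equivFin _ (hfin s)).symm j), ?_⟩
    simp only [Equiv.symm_apply_apply]
    exact hw
  up := up
  lift := fun {_} s S S' h h' u w u' w' h1 h2 e he =>
    lift s S S' h h' u _ u' _ h1 h2 e fun j n hn => he _ n hn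

/-- counting -/
def Cq (Q : ℕ → Prop) (q : ℕ) : Prop := ∃ s : Finset ℕ, s.card = q ∧ ∀ p, p ∈ s ↔ Q p

theorem fd_cq {L' : FirstOrder.Language.{0, 0}} {W : L'.Structure ℕ → Prop} {α : Type} (q : ℕ)
    {Q : L'.Structure ℕ → (α → ℕ) → ℕ → Prop}
    (h : ∀ {β : Type} (f : α → β) (b : β), FD W (fun S (v : β → ℕ) =>
      Q S (fun i => v (f i)) (v b))) : FD W (fun S v => Cq (Q S v) q) := by
  have h1 : FD W (fun S v => ∃ X : Fin q → ℕ, Function.Injective X ∧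
      (∀ m, Q S v (X m)) ∧ ∀ p, Q S v p → ∃ m, p = X m) :=
    FD.ex (P := fun S v (X : Fin q → ℕ) => Function.Injective X ∧
      (∀ m, Q S v (X m)) ∧ ∀ p, Q S v p → ∃ m, p = X m) <|
    (FD.inj fun m => Sum.inr m).and <|
    (FD.fin fun m => h Sum.inl (Sum.inr m)).and <|
    FD.all1 <| (h (fun i => Sum.inl (Sum.inl i)) (Sum.inr ())).imp <|
      FD.fin' fun m => FD.eq (Sum.inr ()) (Sum.inl (Sum.inr m))
  refine h1.congr fun S _ v => ?_
  classical
  constructor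
  · rintro ⟨X, h2, h3, h4⟩
    refine ⟨Finset.univ.image X, ?_, fun p => ?_⟩
    · rw [Finset.card_image_of_injective _ h2, Finset.card_univ, Fintype.card_fin]
    · rw [Finset.mem_image]
      constructor
      · rintro ⟨m, -, rfl⟩
        exact h3 m
      · intro hp
        obtain ⟨m, hm⟩ := h4 p hp
        exact ⟨m, Finset.mem_univ _, hm.symm⟩
  · rintro ⟨s, h2, h3⟩
    let e := (Finset.equivFinOfCardEq h2).symm
    refine ⟨fun m => (e m : ℕ), fun m n hmn => e.injective (Subtype.ext hmn), fun m => ?_,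
      fun p hp => ?_⟩
    · exact (h3 _).1 (e m).2
    · refine ⟨e.symm ⟨p, (h3 p).2 hp⟩, ?_⟩
      show p = ((e (e.symm ⟨p, (h3 p).2 hp⟩)) : ℕ)
      rw [Equiv.apply_symm_apply]

/-- kinds of columns -/
inductive Kd (N : ℕ) : Type
  | mk : Kd N
  | ed (i : Fin N) : Kd N

/-- kinds of elements -/
inductive Tg (N : ℕ) : Type
  | row : Tg N
  | col (k : Kd N) : Tg N
  | pt (k : Kd N) (q : ℕ) : Tg N

variable (a : ℕ → ℕ) (N : ℕ)

/-- the rows of a column -/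
def KSl : Kd N → Type
  | .mk => Unit
  | .ed i => Fin (a i)

/-- the rows of an element -/
def TSl : Tg N → Type
  | .row => Unit
  | .col k => KSl a N k
  | .pt k _ => Unit ⊕ KSl a N k

instance (k : Kd N) : Finite (KSl a N k) := by
  cases k
  · exact inferInstanceAs (Finite Unit)
  · exact inferInstanceAs (Finite (Fin _))

instance (t : Tg N) : Finite (TSl a N t) := by
  cases t with
  | row => exact inferInstanceAs (Finite Unit)
  | col k => exact inferInstanceAs (Finite (KSl a N k))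
  | pt k q => exact inferInstanceAs (Finite (Unit ⊕ KSl a N k))

/-- the column has this kind and these rows -/
def KC (γ : Grid ℕ) : ∀ (k : Kd N) (_ : ℕ) (_ : KSl a N k → ℕ), Prop
  | .mk, c, w => γ.R (w ()) ∧ MkC a N γ c (w ())
  | .ed i, c, w => (∀ j, γ.R (w j)) ∧ EdC a N γ i c w

/-- the element has this kind and these rows -/
def TC (S : L2.Structure ℕ) : ∀ (t : Tg N) (_ : ℕ) (_ : TSl a N t → ℕ), Prop
  | .row, x, w => (DLo S).R x ∧ w () = x
  | .col k, x, w => (DLo S).C x ∧ KC a N (DLo S) k x w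
  | .pt k q, x, w => (DLo S).R (w (Sum.inl ())) ∧ ∃ c, (DLo S).C c ∧
      (DLo S).Fib (w (Sum.inl ())) c x ∧ KC a N (DLo S) k c (fun y => w (Sum.inr y)) ∧
      Cq (fun y => (DLo S).Fib (w (Sum.inl ())) c y ∧ g1 S y x) q

/-- the row of an element -/
def RW (γ : Grid ℕ) (x r : ℕ) : Prop := (γ.R x ∧ r = x) ∨ (γ.P x ∧ γ.R r ∧ γ.iR x r)

/-- the column of an element -/
def CL (γ : Grid ℕ) (x c : ℕ) : Prop := (γ.C x ∧ c = x) ∨ (γ.P x ∧ γ.C c ∧ γ.iC x c)

variable {a N}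

theorem RW.R {γ : Grid ℕ} {x r : ℕ} (h : RW γ x r) : γ.R r := by
  rcases h with ⟨h, rfl⟩ | ⟨-, h, -⟩
  · exact h
  · exact h

theorem CL.C {γ : Grid ℕ} {x r : ℕ} (h : CL γ x r) : γ.C r := by
  rcases h with ⟨h, rfl⟩ | ⟨-, h, -⟩
  · exact h
  · exact h

theorem RW.uniq {γ : Grid ℕ} (hb : Base γ) {x r r' : ℕ} (h : RW γ x r) (h' : RW γ x r') :
    r = r' := by
  rcases h with ⟨h1, rfl⟩ | ⟨h1, h2, h3⟩ <;> rcases h' with ⟨k1, rfl⟩ | ⟨k1, k2, k3⟩
  · rfl
  · exact absurd h1 k1.1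
  · exact absurd k1 h1.1
  · obtain ⟨s, -, -, hs⟩ := hb.rR x h1
    rw [hs r h2 h3, hs r' k2 k3]

theorem CL.uniq {γ : Grid ℕ} (hb : Base γ) {x r r' : ℕ} (h : CL γ x r) (h' : CL γ x r') :
    r = r' := by
  rcases h with ⟨h1, rfl⟩ | ⟨h1, h2, h3⟩ <;> rcases h' with ⟨k1, rfl⟩ | ⟨k1, k2, k3⟩
  · rfl
  · exact absurd h1 k1.2
  · exact absurd k1 h1.2
  · obtain ⟨s, -, -, hs⟩ := hb.rC x h1
    rw [hs r h2 h3, hs r' k2 k3]

theorem kc_fn {γ : Grid ℕ} {k : Kd N} {c : ℕ} {w w' : KSl a N k → ℕ}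
    (h : KC a N γ k c w) (h' : KC a N γ k c w') (j : KSl a N k) :
    SK a N γ (w j) (w' j) := by
  classical
  cases k with
  | mk =>
    by_contra hne
    have h1 := (h.2 (w ()) h.1).1 (SK.refl γ _)
    have h2 := (h'.2 (w ()) h.1).2 hne
    have := kv_inj (h1.uniq h2)
    simp at this
  | ed i =>
    have h1 := h.2 (w j) (h.1 j) (fun x => decide (SK a N γ (w j) (w x))) (fun x => by simp)
    have h2 := h'.2 (w j) (h.1 j) (fun x => decide (SK a N γ (w j) (w' x))) (fun x => by simp)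
    have h3 := kv_inj (h1.uniq h2)
    rw [Sum.inr.injEq, Sigma.mk.injEq] at h3
    have h4 := congrFun (eq_of_heq h3.2) j
    have h5 : SK a N γ (w j) (w j) := SK.refl γ _
    simp only [h5, decide_true] at h4
    exact of_decide_eq_true h4.symm

theorem kc_ex {γ : Grid ℕ} (h : Gd a N γ) {c : ℕ} (hc : γ.C c) :
    ∃ (k : Kd N) (w : KSl a N k → ℕ), KC a N γ k c w := by
  rcases h.col c hc with ⟨r, hr, h1⟩ | ⟨i, s, hs, h1⟩
  · exact ⟨.mk, fun _ => r, hr, h1⟩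
  · exact ⟨.ed i, s, hs, h1⟩

/-- the colour of a column -/
theorem kc_col {L : FirstOrder.Language.{0, 0}} [L.IsRelational] (A : FinL L)
    {S S' : L2.Structure ℕ} (h : Gd A.ar A.N (DLo S)) (h' : Gd A.ar A.N (DLo S'))
    (τ : Equiv.Perm ℕ) {k : Kd A.N} {c c' : ℕ} {w w' : KSl A.ar A.N k → ℕ}
    (h1 : KC A.ar A.N (DLo S) k c w) (h2 : KC A.ar A.N (DLo S') k c' w')
    (hl : ∀ j n, (itF A).lab S n (w j) → (itF A).lab S' (τ n) (w' j)) (t : Tup A.ar)
    (ht : (DLo S).ColT c t) : (DLo S').ColT c' (tmap τ t) := by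
  have hlab : ∀ {x : ℕ}, (DLo S).R x → ∃ n r0, (DLo S).Rth n r0 ∧
      SK A.ar A.N (DLo S) r0 x := by
    intro x hx
    obtain ⟨n, r0, k1, k2⟩ := h.cls hx
    exact ⟨n, r0, k1, (h.same k1.1.1 hx).2 k2⟩
  cases k with
  | mk =>
    obtain ⟨n, r0, k1, k2⟩ := hlab h1.1
    have k3 := h.uT ht (h.colM h1.2 k1 k2)
    subst k3
    have k4 := hl () n ((labF A h _ _).2 ⟨h1.1, r0, k1, k2⟩)
    obtain ⟨k5, r0', k6, k7⟩ := (labF A h' _ _).1 k4
    exact h'.colM h2.2 k6 k7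
  | ed i =>
    choose n r0 k1 k2 using fun j => hlab (h1.1 j)
    have k3 := h.uT ht (h.colE h1.2 k1 k2)
    subst k3
    have k4 : ∀ j, (itF A).lab S' (τ (n j)) (w' j) := fun j =>
      hl j (n j) ((labF A h _ _).2 ⟨h1.1 j, r0 j, k1 j, k2 j⟩)
    choose r0' k6 k7 using fun j => ((labF A h' _ _).1 (k4 j)).2
    exact h'.colE h2.2 k6 k7

/-! ### definability -/

theorem fd_kc {α : Type} (k : Kd N) (c : α) (w : KSl a N k → α) :
    FD (fun _ => True) (fun (S : L2.Structure ℕ) v =>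
      KC a N (DLo S) k (v c) (fun y => v (w y))) := by
  cases k with
  | mk => exact (fg_DLo.R (w ())).and (fdMkC fg_DLo c (w ()))
  | ed i => exact (FD.fin fun j => fg_DLo.R (w j)).and (fdEdC fg_DLo i c w)

theorem fd_tc {α : Type} (t : Tg N) (x : α) (w : TSl a N t → α) :
    FD (fun _ => True) (fun (S : L2.Structure ℕ) v =>
      TC a N S t (v x) (fun y => v (w y))) := by
  cases t with
  | row => exact (fg_DLo.R x).and (FD.eq (w ()) x)
  | col k => exact (fg_DLo.C x).and (fd_kc k x w)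
  | pt k q =>
    refine (fg_DLo.R (w (Sum.inl ()))).and <| FD.ex1 <| (fg_DLo.C x0).and <|
      (fg_DLo.Fib (Sum.inl (w (Sum.inl ()))) x0 (Sum.inl x)).and <|
      (fd_kc k x0 fun y => Sum.inl (w (Sum.inr y))).and ?_
    refine fd_cq q (Q := fun S (v : α ⊕ Unit → ℕ) y =>
      (DLo S).Fib (v (Sum.inl (w (Sum.inl ())))) (v x0) y ∧ g1 S y (v (Sum.inl x))) ?_
    intro β f b
    exact (fg_DLo.Fib (f (Sum.inl (w (Sum.inl ())))) (f x0) b).and (fb_g1 b (f (Sum.inl x)))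

theorem fd_RW {α : Type} (x r : α) :
    FD (fun _ => True) (fun (S : L2.Structure ℕ) v => RW (DLo S) (v x) (v r)) :=
  ((fg_DLo.R x).and (FD.eq r x)).or ((fg_DLo.P x).and ((fg_DLo.R r).and (fg_DLo.iR x r)))

theorem fd_CL {α : Type} (x r : α) :
    FD (fun _ => True) (fun (S : L2.Structure ℕ) v => CL (DLo S) (v x) (v r)) :=
  ((fg_DLo.C x).and (FD.eq r x)).or ((fg_DLo.P x).and ((fg_DLo.C r).and (fg_DLo.iC x r)))

/-! ### supports of elements -/

theorem tc_dom {S : L2.Structure ℕ} {t : Tg N} {x : ℕ} {w : TSl a N t → ℕ}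
    (h : TC a N S t x w) (j : TSl a N t) : (DLo S).R (w j) := by
  have hk : ∀ {k : Kd N} {c : ℕ} {w : KSl a N k → ℕ}, KC a N (DLo S) k c w →
      ∀ j, (DLo S).R (w j) := by
    intro k c w h j
    cases k with
    | mk => exact h.1
    | ed i => exact h.1 j
  cases t with
  | row =>
    have h1 : w j = x := h.2
    rw [h1]
    exact h.1
  | col k => exact hk h.2 j
  | pt k q =>
    obtain ⟨h1, c, -, -, h4, -⟩ := h
    rcases j with j | j
    · exact h1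
    · exact hk h4 j

theorem tc_fn {S : L2.Structure ℕ} (hb : Base (DLo S)) {t : Tg N} {x : ℕ}
    {w w' : TSl a N t → ℕ} (h : TC a N S t x w) (h' : TC a N S t x w') (j : TSl a N t) :
    SK a N (DLo S) (w j) (w' j) := by
  cases t with
  | row =>
    have h1 : w j = x := h.2
    have h2 : w' j = x := h'.2
    rw [h1, h2]
    exact SK.refl _ _
  | col k => exact kc_fn h.2 h'.2 j
  | pt k q =>
    obtain ⟨h1, c, h2, h3, h4, -⟩ := h
    obtain ⟨h1', c', h2', h3', h4', -⟩ := h'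
    rcases j with j | j
    · have h5 : w (Sum.inl ()) = w' (Sum.inl ()) := by
        obtain ⟨s, -, -, hs⟩ := hb.rR x h3.1
        rw [hs _ h1 h3.2.1, hs _ h1' h3'.2.1]
      have h6 : w (Sum.inl j) = w' (Sum.inl j) := h5
      rw [h6]
      exact SK.refl _ _
    · have h5 : c = c' := by
        obtain ⟨s, -, -, hs⟩ := hb.rC x h3.1
        rw [hs _ h2 h3.2.2, hs _ h2' h3'.2.2]
      subst h5
      exact kc_fn h4 h4' j

theorem tc_ex {S : L2.Structure ℕ} (h : Gd a N (DLo S)) (x : ℕ) :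
    ∃ (t : Tg N) (w : TSl a N t → ℕ), TC a N S t x w := by
  classical
  rcases cases3 (DLo S) x with hx | hx | hx
  · exact ⟨.row, fun _ => x, hx, rfl⟩
  · obtain ⟨k, w, hw⟩ := kc_ex h hx
    exact ⟨.col k, w, hx, hw⟩
  · obtain ⟨r, h1, h2, -⟩ := h.base.rR x hx
    obtain ⟨c, h3, h4, -⟩ := h.base.rC x hx
    obtain ⟨k, w, hw⟩ := kc_ex h h3
    obtain ⟨j, s, -, hs⟩ := h.fin h1 h3
    refine ⟨.pt k (s.filter fun y => g1 S y x).card, Sum.elim (fun _ => r) w, h1, c, h3,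
      ⟨hx, h2, h4⟩, hw, s.filter fun y => g1 S y x, rfl, fun p => ?_⟩
    rw [Finset.mem_filter, hs]
    exact Iff.rfl

/-- not a column -/
def Tg.hasR {N : ℕ} : Tg N → Prop
  | .col _ => False
  | _ => True

/-- not a row -/
def Tg.hasC {N : ℕ} : Tg N → Prop
  | .row => False
  | _ => True

/-- corresponding rows -/
theorem tc_row {L : FirstOrder.Language.{0, 0}} [L.IsRelational] (A : FinL L)
    {S S' : L2.Structure ℕ} (τ : ℕ → ℕ) {t : Tg A.N} (ht : t.hasR) {x x' : ℕ}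
    {w w' : TSl A.ar A.N t → ℕ} (h1 : TC A.ar A.N S t x w) (h2 : TC A.ar A.N S' t x' w')
    (hl : ∀ j n, (itF A).lab S n (w j) → (itF A).lab S' (τ n) (w' j)) :
    ∃ r r', RW (DLo S) x r ∧ RW (DLo S') x' r' ∧
      ∀ n, (itF A).lab S n r → (itF A).lab S' (τ n) r' := by
  cases t with
  | row =>
    refine ⟨x, x', Or.inl ⟨h1.1, rfl⟩, Or.inl ⟨h2.1, rfl⟩, fun n hn => ?_⟩
    have e1 : w () = x := h1.2
    have e2 : w' () = x' := h2.2
    rw [← e1] at hn
    rw [← e2]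
    exact hl () n hn
  | col k => exact ht.elim
  | pt k q =>
    obtain ⟨k1, c, k2, k3, -⟩ := h1
    obtain ⟨k1', c', k2', k3', -⟩ := h2
    exact ⟨_, _, Or.inr ⟨k3.1, k1, k3.2.1⟩, Or.inr ⟨k3'.1, k1', k3'.2.1⟩, hl _⟩

/-- corresponding columns -/
theorem tc_col {L : FirstOrder.Language.{0, 0}} [L.IsRelational] (A : FinL L)
    {S S' : L2.Structure ℕ} (h : Gd A.ar A.N (DLo S)) (h' : Gd A.ar A.N (DLo S'))
    (τ : Equiv.Perm ℕ) {t : Tg A.N} (ht : t.hasC) {x x' : ℕ}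
    {w w' : TSl A.ar A.N t → ℕ} (h1 : TC A.ar A.N S t x w) (h2 : TC A.ar A.N S' t x' w')
    (hl : ∀ j n, (itF A).lab S n (w j) → (itF A).lab S' (τ n) (w' j)) :
    ∃ c c', CL (DLo S) x c ∧ CL (DLo S') x' c' ∧
      ∀ t : Tup A.ar, (DLo S).ColT c t → (DLo S').ColT c' (tmap τ t) := by
  cases t with
  | row => exact ht.elim
  | col k =>
    exact ⟨x, x', Or.inl ⟨h1.1, rfl⟩, Or.inl ⟨h2.1, rfl⟩, kc_col A h h' τ h1.2 h2.2 hl⟩
  | pt k q =>
    obtain ⟨k1, c, k2, k3, k4, -⟩ := h1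
    obtain ⟨k1', c', k2', k3', k4', -⟩ := h2
    exact ⟨c, c', Or.inr ⟨k3.1, k2, k3.2.2⟩, Or.inr ⟨k3'.1, k2', k3'.2.2⟩,
      kc_col A h h' τ k4 k4' fun j => hl (Sum.inr j)⟩

end Pool.Agent.TH686.MC
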