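import Pool.Agent.TH686.MC.SupG

set_option autoImplicit false

/-! Supports of tuples in pairs of linear orders describing structures. -/

namespace Pool.Agent.TH686.MC

open FirstOrder FirstOrder.Language
open Pool.Agent.W889.FO Pool.Agent.W889.VC Pool.Agent.W889.VC.Grid
open Pool.Agent.W889.FO.StA (FD.all1 FD.ex1)
open Pool.Agent.TH686.FO

theorem cq_lt {l : ℕ → ℕ → Prop} (hl : SLO l) {F : ℕ → Prop} {p p' q : ℕ} (hp : F p)
    (h : Cq (fun y => F y ∧ l y p) q) (h' : Cq (fun y => F y ∧ l y p') q) : ¬ l p p' := by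
  intro hlt
  obtain ⟨s, hs, h1⟩ := h
  obtain ⟨s', hs', h2⟩ := h'
  have h3 : s ⊂ s' := by
    rw [Finset.ssubset_iff_of_subset (fun y hy => by
      have := (h1 y).1 hy
      exact (h2 y).2 ⟨this.1, hl.trans _ _ _ this.2 hlt⟩)]
    exact ⟨p, (h2 p).2 ⟨hp, hlt⟩, fun h4 => hl.irrefl _ ((h1 p).1 h4).2⟩
  have := Finset.card_lt_card h3
  omega

theorem cq_inj {l : ℕ → ℕ → Prop} (hl : SLO l) {F : ℕ → Prop} {p p' q : ℕ} (hp : F p)
    (hp' : F p') (h : Cq (fun y => F y ∧ l y p) q) (h' : Cq (fun y => F y ∧ l y p') q) :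
    p = p' := by
  by_contra hne
  rcases hl.total p p' hne with h1 | h1
  · exact cq_lt hl hp h h' h1
  · exact cq_lt hl hp' h' h h1

theorem cq_map {Q Q' : ℕ → Prop} (σ : Equiv.Perm ℕ) (h : ∀ y, Q y ↔ Q' (σ y)) {q : ℕ}
    (hq : Cq Q q) : Cq Q' q := by
  classical
  obtain ⟨s, hs, h1⟩ := hq
  refine ⟨s.map σ.toEmbedding, by rw [Finset.card_map, hs], fun p => ?_⟩
  rw [Finset.mem_map]
  constructor
  · rintro ⟨y, hy, rfl⟩
    exact (h y).1 ((h1 y).1 hy)
  · intro hp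
    refine ⟨σ.symm p, (h1 _).2 ((h _).2 ?_), σ.apply_symm_apply p⟩
    rwa [σ.apply_symm_apply]

variable {L : FirstOrder.Language.{0, 0}} [L.IsRelational] (A : FinL L)

/-- the shapes of tuples -/
abbrev ShG (N m : ℕ) : Type :=
  (Fin m → Tg N) × (Fin m → Fin m → Bool) × (Fin m → Fin m → Bool)

/-- the shape and the support -/
def χG {m : ℕ} (s : ShG A.N m) (S : L2.Structure ℕ) (u : Fin m → ℕ)
    (w : (Σ j : Fin m, TSl A.ar A.N (s.1 j)) → ℕ) : Prop :=
  (∀ j, TC A.ar A.N S (s.1 j) (u j) (fun x => w ⟨j, x⟩)) ∧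
  (∀ i j, ((∃ r r', RW (DLo S) (u i) r ∧ RW (DLo S) (u j) r' ∧ (DLo S).lt r r') ↔
    s.2.1 i j = true)) ∧
  (∀ i j, ((∃ r r', CL (DLo S) (u i) r ∧ CL (DLo S) (u j) r' ∧ (DLo S).lt r r') ↔
    s.2.2 i j = true))

omit [L.IsRelational] in
theorem fd_χG {m : ℕ} (s : ShG A.N m) : FD (fun _ => True) (fun (S : L2.Structure ℕ)
    (v : Fin m ⊕ (Σ j : Fin m, TSl A.ar A.N (s.1 j)) → ℕ) =>
      χG A s S (fun i => v (Sum.inl i)) (fun j => v (Sum.inr j))) := by
  have h1 : ∀ j : Fin m, FD (fun _ => True) (fun (S : L2.Structure ℕ)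
      (v : Fin m ⊕ (Σ j : Fin m, TSl A.ar A.N (s.1 j)) → ℕ) =>
      TC A.ar A.N S (s.1 j) (v (Sum.inl j)) (fun x => v (Sum.inr ⟨j, x⟩))) := fun j =>
    fd_tc (a := A.ar) (α := Fin m ⊕ (Σ j : Fin m, TSl A.ar A.N (s.1 j))) (s.1 j) (Sum.inl j)
      (fun y => Sum.inr ⟨j, y⟩)
  have h2 : ∀ i j : Fin m, FD (fun _ => True) (fun (S : L2.Structure ℕ)
      (v : Fin m ⊕ (Σ j : Fin m, TSl A.ar A.N (s.1 j)) → ℕ) => ∃ r, ∃ r',
      RW (DLo S) (v (Sum.inl i)) r ∧ RW (DLo S) (v (Sum.inl j)) r' ∧ (DLo S).lt r r') :=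
    fun i j => FD.ex1 <| FD.ex1 <| (fd_RW (Sum.inl (Sum.inl (Sum.inl i))) x1).and <|
      (fd_RW (Sum.inl (Sum.inl (Sum.inl j))) x0).and (fg_DLo.lt x1 x0)
  have h3 : ∀ i j : Fin m, FD (fun _ => True) (fun (S : L2.Structure ℕ)
      (v : Fin m ⊕ (Σ j : Fin m, TSl A.ar A.N (s.1 j)) → ℕ) => ∃ r, ∃ r',
      CL (DLo S) (v (Sum.inl i)) r ∧ CL (DLo S) (v (Sum.inl j)) r' ∧ (DLo S).lt r r') :=
    fun i j => FD.ex1 <| FD.ex1 <| (fd_CL (Sum.inl (Sum.inl (Sum.inl i))) x1).and <|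
      (fd_CL (Sum.inl (Sum.inl (Sum.inl j))) x0).and (fg_DLo.lt x1 x0)
  exact (FD.fin h1).and ((FD.fin fun i => FD.fin fun j => (h2 i j).iff (FD.const _)).and
    (FD.fin fun i => FD.fin fun j => (h3 i j).iff (FD.const _)))

/-- lifting isomorphisms -/
theorem liftG {m : ℕ} (s : ShG A.N m) (S S' : L2.Structure ℕ) (h : (itF A).W S)
    (h' : (itF A).W S') (u : Fin m → ℕ) (w : (Σ j : Fin m, TSl A.ar A.N (s.1 j)) → ℕ)
    (u' : Fin m → ℕ) (w' : (Σ j : Fin m, TSl A.ar A.N (s.1 j)) → ℕ)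
    (h1 : χG A s S u w) (h2 : χG A s S' u' w')
    (e : @FirstOrder.Language.Equiv L ℕ ℕ ((itF A).D S) ((itF A).D S'))
    (he : ∀ j n, (itF A).lab S n (w j) → (itF A).lab S' (e n) (w' j)) :
    ∃ g : @FirstOrder.Language.Equiv L2 ℕ ℕ S S', ∀ i, g (u i) = u' i := by
  classical
  let τ : Equiv.Perm ℕ := @FirstOrder.Language.Equiv.toEquiv L ℕ ℕ ((itF A).D S) ((itF A).D S') e
  have hb := h.2.base
  have hb' := h'.2.base
  have hR := fun (j : {j : Fin m // (s.1 j).hasR}) => tc_row A τ j.2 (h1.1 j.1) (h2.1 j.1)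
    (fun x n hn => he ⟨j.1, x⟩ n hn)
  have hC := fun (j : {j : Fin m // (s.1 j).hasC}) => tc_col A h.2 h'.2 τ j.2 (h1.1 j.1)
    (h2.1 j.1) (fun x n hn => he ⟨j.1, x⟩ n hn)
  choose xr yr hR1 hR2 hR3 using hR
  choose xc yc hC1 hC2 hC3 using hC
  obtain ⟨σ, k1, k2, k3, k4, k5, -⟩ := upG A h h' e τ (fun _ => rfl) xr yr xc yc
    (fun i => (hR1 i).R) (fun i => (hR2 i).R) (fun i => (hC1 i).C) (fun i => (hC2 i).C)
    (fun i j => by
      have a1 := h1.2.1 i.1 j.1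
      have a2 := h2.2.1 i.1 j.1
      have b1 : (DLo S).lt (xr i) (xr j) ↔ ∃ r r', RW (DLo S) (u i.1) r ∧
          RW (DLo S) (u j.1) r' ∧ (DLo S).lt r r' := by
        constructor
        · exact fun hlt => ⟨_, _, hR1 i, hR1 j, hlt⟩
        · rintro ⟨r, r', c1, c2, hlt⟩
          rw [(hR1 i).uniq hb c1, (hR1 j).uniq hb c2]
          exact hlt
      have b2 : (DLo S').lt (yr i) (yr j) ↔ ∃ r r', RW (DLo S') (u' i.1) r ∧
          RW (DLo S') (u' j.1) r' ∧ (DLo S').lt r r' := by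
        constructor
        · exact fun hlt => ⟨_, _, hR2 i, hR2 j, hlt⟩
        · rintro ⟨r, r', c1, c2, hlt⟩
          rw [(hR2 i).uniq hb' c1, (hR2 j).uniq hb' c2]
          exact hlt
      exact b1.trans (a1.trans (a2.symm.trans b2.symm)))
    (fun i j => by
      have a1 := h1.2.2 i.1 j.1
      have a2 := h2.2.2 i.1 j.1
      have b1 : (DLo S).lt (xc i) (xc j) ↔ ∃ r r', CL (DLo S) (u i.1) r ∧
          CL (DLo S) (u j.1) r' ∧ (DLo S).lt r r' := by
        constructor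
        · exact fun hlt => ⟨_, _, hC1 i, hC1 j, hlt⟩
        · rintro ⟨r, r', c1, c2, hlt⟩
          rw [(hC1 i).uniq hb c1, (hC1 j).uniq hb c2]
          exact hlt
      have b2 : (DLo S').lt (yc i) (yc j) ↔ ∃ r r', CL (DLo S') (u' i.1) r ∧
          CL (DLo S') (u' j.1) r' ∧ (DLo S').lt r r' := by
        constructor
        · exact fun hlt => ⟨_, _, hC2 i, hC2 j, hlt⟩
        · rintro ⟨r, r', c1, c2, hlt⟩
          rw [(hC2 i).uniq hb' c1, (hC2 j).uniq hb' c2]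
          exact hlt
      exact b1.trans (a1.trans (a2.symm.trans b2.symm)))
    (fun i n hn => hR3 i n hn) (fun i t ht => hC3 i t ht)
  obtain ⟨g, hg⟩ := siso_two σ k2 k3
  refine ⟨g, fun j => ?_⟩
  rw [hg]
  have t1 := h1.1 j
  have t2 := h2.1 j
  have key : ∀ t : Tg A.N, s.1 j = t → σ (u j) = u' j := by
    intro t ht
    cases t with
    | row =>
      have hr : (s.1 j).hasR := by rw [ht]; trivial
      have d1 : (DLo S).R (u j) := by
        have : ∀ t (_ : t = Tg.row) (w : TSl A.ar A.N t → ℕ), TC A.ar A.N S t (u j) w →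
            (DLo S).R (u j) := by
          rintro t rfl w hw
          exact hw.1
        exact this _ ht _ t1
      have d2 : (DLo S').R (u' j) := by
        have : ∀ t (_ : t = Tg.row) (w : TSl A.ar A.N t → ℕ), TC A.ar A.N S' t (u' j) w →
            (DLo S').R (u' j) := by
          rintro t rfl w hw
          exact hw.1
        exact this _ ht _ t2
      have d3 := (hR1 ⟨j, hr⟩).uniq hb (Or.inl ⟨d1, rfl⟩)
      have d4 := (hR2 ⟨j, hr⟩).uniq hb' (Or.inl ⟨d2, rfl⟩)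
      rw [← d3, ← d4]
      exact k4 ⟨j, hr⟩
    | col k =>
      have hr : (s.1 j).hasC := by rw [ht]; trivial
      have d1 : (DLo S).C (u j) := by
        have : ∀ t (_ : t = Tg.col k) (w : TSl A.ar A.N t → ℕ), TC A.ar A.N S t (u j) w →
            (DLo S).C (u j) := by
          rintro t rfl w hw
          exact hw.1
        exact this _ ht _ t1
      have d2 : (DLo S').C (u' j) := by
        have : ∀ t (_ : t = Tg.col k) (w : TSl A.ar A.N t → ℕ), TC A.ar A.N S' t (u' j) w →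
            (DLo S').C (u' j) := by
          rintro t rfl w hw
          exact hw.1
        exact this _ ht _ t2
      have d3 := (hC1 ⟨j, hr⟩).uniq hb (Or.inl ⟨d1, rfl⟩)
      have d4 := (hC2 ⟨j, hr⟩).uniq hb' (Or.inl ⟨d2, rfl⟩)
      rw [← d3, ← d4]
      exact k5 ⟨j, hr⟩
    | pt k q =>
      have hr : (s.1 j).hasR := by rw [ht]; trivial
      have hc : (s.1 j).hasC := by rw [ht]; trivial
      have gen : ∀ (S : L2.Structure ℕ) (hb : Base (DLo S)) (x r c : ℕ), RW (DLo S) x r →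
          CL (DLo S) x c → ∀ t (_ : t = Tg.pt k q) (w : TSl A.ar A.N t → ℕ),
          TC A.ar A.N S t x w → (DLo S).Fib r c x ∧
            Cq (fun y => (DLo S).Fib r c y ∧ g1 S y x) q := by
        rintro S hb x r c k1 k2 t rfl w ⟨c1, c, c2, c3, -, c5⟩
        have e1 := k1.uniq hb (Or.inr ⟨c3.1, c1, c3.2.1⟩)
        have e2 := k2.uniq hb (Or.inr ⟨c3.1, c2, c3.2.2⟩)
        rw [e1, e2]
        exact ⟨c3, c5⟩
      obtain ⟨d1, d2⟩ := gen S hb _ _ _ (hR1 ⟨j, hr⟩) (hC1 ⟨j, hc⟩) _ ht _ t1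
      obtain ⟨d3, d4⟩ := gen S' hb' _ _ _ (hR2 ⟨j, hr⟩) (hC2 ⟨j, hc⟩) _ ht _ t2
      have r1 := (hR1 ⟨j, hr⟩).R
      have r2 := (hC1 ⟨j, hc⟩).C
      have d5 := (fib_map k1 r1 r2).1 d1
      rw [k4, k5] at d5
      refine cq_inj h'.1.2.2.2.2.1 (F := fun y => (DLo S').Fib (yr ⟨j, hr⟩) (yc ⟨j, hc⟩) y)
        d5 d3 (cq_map σ (fun y => ?_) d2) d4
      have d6 := fib_map k1 r1 r2 (p := y)
      rw [k4, k5] at d6
      exact and_congr d6 (k2 _ _)
  exact key _ rfl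

/-- the supports -/
noncomputable def supG : Sup (itF A) := by
  classical
  exact Sup.ofFin (itF A) (fun m => ShG A.N m)
    (fun {m} s => Σ j : Fin m, TSl A.ar A.N (s.1 j))
    (fun {m} s => inferInstance)
    (fun {m} s => χG A s)
    (fun {m} s => (fd_χG A s).mono fun _ _ => trivial)
    (fun {m} s S u w _ h1 j => tc_dom (h1.1 j.1) j.2)
    (fun {m} s S u w w' h h1 h2 j => tc_fn h.2.base (h1.1 j.1) (h2.1 j.1) j.2)
    (fun S h {m} u => by
      choose t w hw using fun j => tc_ex h.2 (u j)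
      refine ⟨⟨t, fun i j => decide (∃ r r', RW (DLo S) (u i) r ∧ RW (DLo S) (u j) r' ∧
          (DLo S).lt r r'), fun i j => decide (∃ r r', CL (DLo S) (u i) r ∧
          CL (DLo S) (u j) r' ∧ (DLo S).lt r r')⟩, fun p => w p.1 p.2, hw, fun i j => ?_,
          fun i j => ?_⟩
      · simp
      · simp)
    (fun S S' h h' e => by
      obtain ⟨σ, -, k2, k3, -, -, k6⟩ := upG A h h' e
        (@FirstOrder.Language.Equiv.toEquiv L ℕ ℕ ((itF A).D S) ((itF A).D S') e)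
        (fun _ => rfl) (ιR := Empty) (ιC := Empty) Empty.elim Empty.elim Empty.elim Empty.elim
        (fun i => i.elim) (fun i => i.elim) (fun i => i.elim) (fun i => i.elim)
        (fun i => i.elim) (fun i => i.elim) (fun i => i.elim) (fun i => i.elim)
      obtain ⟨g, hg⟩ := siso_two σ k2 k3
      exact ⟨g, fun n x hx => by rw [hg]; exact k6 n x hx⟩)
    (fun {m} s S S' h h' u w u' w' h1 h2 e he => liftG A s S S' h h' u w u' w' h1 h2 e he)

end Pool.Agent.TH686.MC
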