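import Pool.Agent.TH686.MC.Rob4
import Pool.Agent.TH686.MC.Sup

set_option autoImplicit false

/-! Supports of tuples in the structures without superfluous elements. -/

namespace Pool.Agent.TH686.MC

open FirstOrder FirstOrder.Language Filter
open Pool.Agent.W889.FO
open Pool.Agent.TH686.FO

variable {L L' : FirstOrder.Language.{0, 0}} [L.IsRelational] [L'.IsRelational]

/-- In the structures of the class `V`, every tuple has a definable support in the interpreted
structure, which together with its shape and the invariant `j` determines the tuple up to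
isomorphism. The invariant is controlled in rich elementary extensions. -/
structure SupJ (I : Itq L L') (V : L'.Structure ℕ → Prop) {J : Type}
    (j : L'.Structure ℕ → J) where
  /-- shapes -/
  Sh : ℕ → Type
  /-- size of the support -/
  wd : ∀ {m : ℕ}, Sh m → ℕ
  /-- the tuple has this shape and this support -/
  χ : ∀ {m : ℕ} (s : Sh m), L'.Structure ℕ → (Fin m → ℕ) → (Fin (wd s) → ℕ) → Prop
  fd : ∀ {m : ℕ} (s : Sh m), FD I.W (fun S (v : Fin m ⊕ Fin (wd s) → ℕ) =>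
    χ s S (fun i => v (Sum.inl i)) (fun j => v (Sum.inr j)))
  dom : ∀ {m : ℕ} (s : Sh m) S u w, I.W S → χ s S u w → ∀ j, I.dom S (w j)
  fn : ∀ {m : ℕ} (s : Sh m) S u w w', I.W S → χ s S u w → χ s S u w' → ∀ j, I.eqv S (w j) (w' j)
  tot : ∀ S, I.W S → V S → ∀ {m : ℕ} (u : Fin m → ℕ), ∃ (s : Sh m) (w : Fin (wd s) → ℕ), χ s S u w
  up : ∀ S S', I.W S → I.W S' → j S = j S' →
    ∀ e : @FirstOrder.Language.Equiv L ℕ ℕ (I.D S) (I.D S'),
    ∃ g : @FirstOrder.Language.Equiv L' ℕ ℕ S S', ∀ n x, I.lab S n x → I.lab S' (e n) (g x)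
  lift : ∀ {m : ℕ} (s : Sh m) S S', I.W S → I.W S' → j S = j S' →
    ∀ u w u' w', χ s S u w → χ s S' u' w' →
    ∀ e : @FirstOrder.Language.Equiv L ℕ ℕ (I.D S) (I.D S'),
      (∀ j n, I.lab S n (w j) → I.lab S' (e n) (w' j)) →
      ∃ g : @FirstOrder.Language.Equiv L' ℕ ℕ S S', ∀ i, g (u i) = u' i
  rich : ∀ S S', I.W S → I.W S' → V S → V S' →
    (∀ φ : L.BoundedFormula Empty 0, Rz (I.D S) φ Fin.elim0 ↔ Rz (I.D S') φ Fin.elim0) →
    ∃ B B' : Set (ℕ → ℕ), B.Countable ∧ B'.Countable ∧ ∀ F F', Sk S F → Sk S' F' → Cov F B →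
      Cov F' B' → j (sub S F) = j (sub S' F')

theorem sk_rd {L' : FirstOrder.Language.{0, 0}} [L'.IsRelational] {ι : Type} {a : ι → ℕ}
    {S : (Lx L' a).Structure ℕ} {F : ℕ → ℕ → ℕ} (h : Sk S F) : Sk (rd S) F := by
  refine ⟨h.inj, fun k φ v hv => ?_⟩
  obtain ⟨φ', hφ'⟩ := rz_of_fd (fd_rd (a := a) (fd_rz (L := L') (W := fun _ => True) φ id))
  have h1 : ∀ x, Rz S φ' x ↔ Rz (rd S) φ x := fun x => hφ' S trivial x
  obtain ⟨j, hj⟩ := h.wit k φ' v (hv.mono fun m hm => by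
    obtain ⟨a, ha⟩ := hm
    exact ⟨a, (h1 _).2 ha⟩)
  exact ⟨j, hj.mono fun m hm => (h1 _).1 hm⟩

variable (I : Itq L L') {V : L'.Structure ℕ → Prop} {J : Type} {j : L'.Structure ℕ → J}
  (hs : SupJ I V j)

include hs

/-- the type of a tuple is determined by the type of its support -/
theorem types_eq' [hc : ∀ n, Countable (L.BoundedFormula Empty n)]
    [hc' : ∀ n, Countable (L'.BoundedFormula Empty n)] {S S' : L'.Structure ℕ} (h : I.W S)
    (h' : I.W S') (hV : V S) (hV' : V S') {m : ℕ} (s : hs.Sh m) {u u' : Fin m → ℕ} {w w' : Fin (hs.wd s) → ℕ}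
    (hχ : hs.χ s S u w) (hχ' : hs.χ s S' u' w')
    (hE : ∀ φ : L.BoundedFormula Empty (hs.wd s), Rz (I.D S) φ (fun j => lbl I S (w j)) ↔
      Rz (I.D S') φ (fun j => lbl I S' (w' j))) (ψ : L'.BoundedFormula Empty m) :
    Rz S ψ u ↔ Rz S' ψ u' := by
  let N := m + hs.wd s
  let q : Fin N ≃ Fin m ⊕ Fin (hs.wd s) := finSumFinEquiv.symm
  have el : ∀ (S : L.Structure ℕ) (φ : L.BoundedFormula Empty 0)
      (x y : Fin 0 → ℕ), Rz S φ x ↔ Rz S φ y := fun S φ x y => by rw [Subsingleton.elim x y]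
  obtain ⟨B, B', hB, hB', hr⟩ := hs.rich S S' h h' hV hV' (fun φ => by
    obtain ⟨φ', hφ'⟩ := rz_subst φ (Fin.elim0 : Fin 0 → Fin (hs.wd s))
    have h1 := hE φ'
    rw [hφ', hφ'] at h1
    exact ((el _ φ _ _).trans h1).trans (el _ φ _ _))
  obtain ⟨F, F', t0, t0', hF, hF', hc1, hc2, h1, h2, e, he⟩ := rob' I h h' (N := N)
    (fun x => Sum.elim u w (q x))
    (fun x => Sum.elim u' w' (q x)) (fun j => q.symm (Sum.inr j))
    (fun j => by
      show I.dom S (Sum.elim u w (q (q.symm (Sum.inr j))))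
      rw [Equiv.apply_symm_apply]
      exact hs.dom s S u w h hχ j)
    (fun j => by
      show I.dom S' (Sum.elim u' w' (q (q.symm (Sum.inr j))))
      rw [Equiv.apply_symm_apply]
      exact hs.dom s S' u' w' h' hχ' j)
    (fun φ => by
      simp only [Equiv.apply_symm_apply, Sum.elim_inr]
      exact hE φ) B B' hB hB'
  have hjj := hr F F' hF hF' hc1 hc2
  generalize sub S F = S0 at *
  generalize sub S' F' = S0' at *
  have w0 : I.W S0 := ax_eq I.axW (fun σ => by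
    have := h1 0 σ Fin.elim0
    have e1 : (fun i : Fin 0 => t0 (Fin.elim0 i)) = Fin.elim0 := Subsingleton.elim _ _
    have e2 : (fun i : Fin 0 => Sum.elim u w (q (Fin.elim0 i))) = Fin.elim0 :=
      Subsingleton.elim _ _
    rw [e1, e2] at this
    exact this.symm) h
  have w0' : I.W S0' := ax_eq I.axW (fun σ => by
    have := h2 0 σ Fin.elim0
    have e1 : (fun i : Fin 0 => t0' (Fin.elim0 i)) = Fin.elim0 := Subsingleton.elim _ _
    have e2 : (fun i : Fin 0 => Sum.elim u' w' (q (Fin.elim0 i))) = Fin.elim0 :=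
      Subsingleton.elim _ _
    rw [e1, e2] at this
    exact this.symm) h'
  obtain ⟨χ0, hχ0⟩ := rz_of_fd ((hs.fd s).sub (fun x => q.symm x))
  have k1 : hs.χ s S0 (fun i => t0 (q.symm (Sum.inl i))) (fun j => t0 (q.symm (Sum.inr j))) := by
    rw [← hχ0 S0 w0 t0]
    have h3 := h1 N χ0 id
    refine h3.2 ((hχ0 S h _).2 ?_)
    simp only [id, Equiv.apply_symm_apply, Sum.elim_inr, Sum.elim_inl]
    exact hχ
  have k2 : hs.χ s S0' (fun i => t0' (q.symm (Sum.inl i)))
      (fun j => t0' (q.symm (Sum.inr j))) := by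
    rw [← hχ0 S0' w0' t0']
    have h3 := h2 N χ0 id
    refine h3.2 ((hχ0 S' h' _).2 ?_)
    simp only [id, Equiv.apply_symm_apply, Sum.elim_inr, Sum.elim_inl]
    exact hχ'
  obtain ⟨g, hg⟩ := hs.lift s S0 S0' w0 w0' hjj _ _ _ _ k1 k2 e (fun j n hn => by
    have h4 := he j
    rw [← lbl_eq w0 hn, h4]
    exact lbl_spec w0' (hs.dom s S0' _ _ w0' k2 j))
  have h5 := h1 m ψ (fun i => q.symm (Sum.inl i))
  have h6 := h2 m ψ (fun i => q.symm (Sum.inl i))
  simp only [Equiv.apply_symm_apply, Sum.elim_inl] at h5 h6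
  rw [← h5, ← h6, rz_iso g]
  simp only [hg]

/-- elementary equivalence of expansions by invariant relations -/
theorem exp_eq' {ι : Type} {a : ι → ℕ} [hc : ∀ n, Countable ((Lx L a).BoundedFormula Empty n)]
    [hc' : ∀ n, Countable ((Lx L' a).BoundedFormula Empty n)] {S S' : (Lx L' a).Structure ℕ}
    (h : (ixp I a).W S) (h' : (ixp I a).W S') (hV : V (rd S)) (hV' : V (rd S'))
    (hE0 : ∀ φ : L.BoundedFormula Empty 0, Rz (I.D (rd S)) φ Fin.elim0 ↔
      Rz (I.D (rd S')) φ Fin.elim0)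
    (hE : ∀ φ : (Lx L a).BoundedFormula Empty 0, Rz ((ixp I a).D S) φ Fin.elim0 ↔
      Rz ((ixp I a).D S') φ Fin.elim0) (ψ : (Lx L' a).BoundedFormula Empty 0) :
    Rz S ψ Fin.elim0 ↔ Rz S' ψ Fin.elim0 := by
  have el : ∀ (S : (Lx L a).Structure ℕ) (φ : (Lx L a).BoundedFormula Empty 0)
      (x y : Fin 0 → ℕ), Rz S φ x ↔ Rz S φ y := fun S φ x y => by rw [Subsingleton.elim x y]
  have el' : ∀ (S : (Lx L' a).Structure ℕ) (φ : (Lx L' a).BoundedFormula Empty 0)
      (x y : Fin 0 → ℕ), Rz S φ x ↔ Rz S φ y := fun S φ x y => by rw [Subsingleton.elim x y]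
  obtain ⟨B, B', hB, hB', hr⟩ := hs.rich (rd S) (rd S') h.1 h'.1 hV hV' hE0
  obtain ⟨F, F', t0, t0', hF, hF', hc1, hc2, h1, h2, e, -⟩ := rob' (ixp I a) h h' (N := 0)
    (k := 0) Fin.elim0 Fin.elim0 Fin.elim0 (fun j => j.elim0) (fun j => j.elim0)
    (fun φ => ((el _ φ _ _).trans (hE φ)).trans (el _ φ _ _)) B B' hB hB'
  have hjj : j (rd (sub S F)) = j (rd (sub S' F')) := hr F F' (sk_rd hF) (sk_rd hF') hc1 hc2
  generalize sub S F = S0 at *
  generalize sub S' F' = S0' at *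
  have w0 : (ixp I a).W S0 := ax_eq (ixp I a).axW
    (fun σ => ((el' _ σ _ _).trans ((h1 0 σ Fin.elim0).symm)).trans (el' _ σ _ _)) h
  have w0' : (ixp I a).W S0' := ax_eq (ixp I a).axW
    (fun σ => ((el' _ σ _ _).trans ((h2 0 σ Fin.elim0).symm)).trans (el' _ σ _ _)) h'
  let τ : Equiv.Perm ℕ := @FirstOrder.Language.Equiv.toEquiv (Lx L a) ℕ ℕ
    ((ixp I a).D S0) ((ixp I a).D S0') e
  obtain ⟨e', he'⟩ := siso_of (S := I.D (rd S0)) (S' := I.D (rd S0')) τ (fun n R v =>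
    iso_rel e (Rx.old R : Rx L a n) v)
  obtain ⟨g, hg⟩ := hs.up (rd S0) (rd S0') w0.1 w0'.1 hjj e'
  let σ : Equiv.Perm ℕ := @FirstOrder.Language.Equiv.toEquiv L' ℕ ℕ (rd S0) (rd S0') g
  have key : ∀ (i : ι) (v : Fin (a i) → ℕ), px S0' i (fun j => σ (v j)) ↔ px S0 i v := by
    intro i v
    have hdm : ∀ x, I.dom (rd S0) x ↔ I.dom (rd S0') (σ x) := fun x =>
      I.fdom.iso w0.1 w0'.1 g (fun _ => x)
    by_cases hv : ∀ j, I.dom (rd S0) (v j)
    · choose c hc using fun j => I.ex_lab w0.1 (hv j)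
      have h3 := (ixp I a).rel_iff w0 (Rx.new i : Rx L a (a i)) (u := v) (v := c) hc
      have h4 := (ixp I a).rel_iff w0' (Rx.new i : Rx L a (a i)) (u := fun j => σ (v j))
        (v := fun j => τ (c j)) (fun j => by
          have := hg _ _ (hc j)
          rw [he'] at this
          exact this)
      have h5 := iso_rel e (Rx.new i : Rx L a (a i)) c
      exact (h4.symm.trans h5).trans h3
    · refine iff_of_false (fun h3 => hv fun j => ?_) (fun h3 => hv fun j => ?_)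
      · exact (hdm _).2 (w0'.2.1 i _ h3 j)
      · exact w0.2.1 i _ h3 j
  obtain ⟨g', -⟩ := siso_of (S := S0) (S' := S0') σ (fun n R v => by
    cases R with
    | old R => exact iso_rel g R v
    | new i => exact key i v)
  have h5 := h1 0 ψ Fin.elim0
  have h6 := h2 0 ψ Fin.elim0
  refine ((el' _ ψ _ _).trans h5.symm).trans (Iff.trans ?_ (h6.trans (el' _ ψ _ _)))
  exact (rz_iso g' ψ _).trans (el' _ ψ _ _)

end Pool.Agent.TH686.MC
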