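import Pool.Agent.TH686.MC.SupJ

set_option autoImplicit false

/-! Interpretations in which all elements are definable over the interpreted structure. -/

namespace Pool.Agent.TH686.MC

open FirstOrder FirstOrder.Language Filter
open Pool.Agent.W889.FO
open Pool.Agent.W889.SD (Nth nth_equiv)
open Pool.Agent.TH686.FO

variable {L L' : FirstOrder.Language.{0, 0}}

/-- interpretations on definable sets as interpretations on quotients -/
def tq (I : Itp L L') : Itq L L' where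
  W := I.W
  axW := I.axW
  dom := I.dom
  eqv := fun _ u v => u = v
  rel := I.rel
  fdom := I.fdom
  feqv := FD.eq 0 1
  frel := I.frel
  refl := fun _ _ _ _ => rfl
  symm := fun _ _ _ _ _ _ h => h.symm
  trans := fun _ _ _ _ _ _ _ _ h h' => h.trans h'
  cong := fun S h n R u v _ _ huv hr => by
    have : u = v := funext huv
    rwa [← this]
  inf := fun S h N => by
    obtain ⟨u, h1, h2⟩ := I.inf S h N
    exact ⟨u, h1, h2, fun u' h3 _ h4 => by omega⟩

theorem rp_tq (I : Itp L L') (S : L'.Structure ℕ) : (tq I).rp S = I.dom S := by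
  funext u
  refine propext ⟨fun h => h.1, fun h => ⟨h, fun u' h1 _ h2 => ?_⟩⟩
  have h3 : u' = u := h2
  omega

theorem D_tq [L.IsRelational] (I : Itp L L') (S : L'.Structure ℕ) : (tq I).D S = I.D S := by
  unfold Itq.D Itp.D
  rw [rp_tq]
  rfl

theorem lab_tq {I : Itp L L'} {S : L'.Structure ℕ} {n u : ℕ} (h : (tq I).lab S n u) :
    Nth (I.dom S) n u := by
  obtain ⟨h1, r, h2, h3⟩ := h
  have h4 : r = u := h3
  subst h4
  rwa [rp_tq] at h2

theorem tq_lab {I : Itp L L'} {S : L'.Structure ℕ} {n u : ℕ} (hu : I.dom S u)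
    (h : Nth (I.dom S) n u) : (tq I).lab S n u := by
  refine ⟨hu, u, ?_, rfl⟩
  rwa [rp_tq]

/-- bijections of the domains from isomorphisms -/
theorem pi_of [L.IsRelational] {I : Itp L L'} {S S' : L'.Structure ℕ} (h : I.W S) (h' : I.W S')
    (e : @FirstOrder.Language.Equiv L ℕ ℕ ((tq I).D S) ((tq I).D S')) :
    ∃ π : {u // I.dom S u} ≃ {u // I.dom S' u},
      (∀ {n : ℕ} (R : L.Relations n) (u : Fin n → {u // I.dom S u}),
        I.rel R S (fun i => u i) ↔ I.rel R S' (fun i => π (u i))) ∧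
      ∀ n u (hu : I.dom S u), (tq I).lab S n u → (tq I).lab S' (e n) (π ⟨u, hu⟩) := by
  obtain ⟨e0, he⟩ := I.nth h
  obtain ⟨e0', he'⟩ := I.nth h'
  let t : Equiv.Perm ℕ := @FirstOrder.Language.Equiv.toEquiv L ℕ ℕ ((tq I).D S) ((tq I).D S') e
  refine ⟨(e0.symm.trans t).trans e0', fun {n} R u => ?_, fun n u hu hl => ?_⟩
  · have h1 : ∀ i, (tq I).lab S (e0.symm (u i)) (u i : ℕ) := fun i =>
      tq_lab (u i).2 (by rw [he, Equiv.apply_symm_apply])
    have h2 : ∀ i, (tq I).lab S' (t (e0.symm (u i))) (e0' (t (e0.symm (u i))) : ℕ) := fun i =>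
      tq_lab (e0' (t (e0.symm (u i)))).2 (by rw [he'])
    have k1 := (tq I).rel_iff h R h1
    have k2 := (tq I).rel_iff h' R h2
    exact k1.symm.trans ((iso_rel e R (fun i => e0.symm (u i))).symm.trans k2)
  · have h1 := (he _ _).1 (lab_tq hl)
    have h2 : e0.symm ⟨u, hu⟩ = n := by
      rw [Equiv.symm_apply_eq]
      exact Subtype.ext h1.symm
    show (tq I).lab S' (e n) (e0' (t (e0.symm ⟨u, hu⟩)))
    rw [h2]
    exact tq_lab (e0' (t n)).2 (by rw [he']; rfl)

/-- All elements of the structures in `V` are definable over the interpreted structure. -/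
structure Gn [L.IsRelational] [L'.IsRelational] (I : Itp L L') (V : L'.Structure ℕ → Prop)
    {J : Type} (j : L'.Structure ℕ → J) where
  K : Type
  wd : K → ℕ
  χ : ∀ κ : K, L'.Structure ℕ → ℕ → (Fin (wd κ) → ℕ) → Prop
  fd : ∀ κ, FD I.W (fun S (v : Unit ⊕ Fin (wd κ) → ℕ) =>
    χ κ S (v (Sum.inl ())) (fun j => v (Sum.inr j)))
  dom : ∀ κ S x w, I.W S → χ κ S x w → ∀ j, I.dom S (w j)
  fn : ∀ κ S x w w', I.W S → χ κ S x w → χ κ S x w' → w = w'
  fx : ∀ κ S x x' w, I.W S → χ κ S x w → χ κ S x' w → x = x'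
  tot : ∀ S, I.W S → V S → ∀ x, ∃ κ w, χ κ S x w
  up : ∀ S S', I.W S → I.W S' → j S = j S' → ∀ π : {u // I.dom S u} ≃ {u // I.dom S' u},
    (∀ {n : ℕ} (R : L.Relations n) (u : Fin n → {u // I.dom S u}),
      I.rel R S (fun i => u i) ↔ I.rel R S' (fun i => π (u i))) →
    ∃ g : @FirstOrder.Language.Equiv L' ℕ ℕ S S', ∀ u (hu : I.dom S u), g u = π ⟨u, hu⟩
  rich : ∀ S S', I.W S → I.W S' → V S → V S' →
    (∀ φ : L.BoundedFormula Empty 0, Rz (I.D S) φ Fin.elim0 ↔ Rz (I.D S') φ Fin.elim0) →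
    ∃ B B' : Set (ℕ → ℕ), B.Countable ∧ B'.Countable ∧ ∀ F F', Sk S F → Sk S' F' → Cov F B →
      Cov F' B' → j (sub S F) = j (sub S' F')

/-- supports -/
noncomputable def Gn.sup [L.IsRelational] [L'.IsRelational] {I : Itp L L'}
    {V : L'.Structure ℕ → Prop} {J : Type} {j : L'.Structure ℕ → J} (G : Gn I V j) :
    SupJ (tq I) V j where
  Sh := fun m => Fin m → G.K
  wd := fun {m} s => Nat.card (Σ i : Fin m, Fin (G.wd (s i)))
  χ := fun {m} s S u w => ∀ i, G.χ (s i) S (u i)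
    (fun j => w (Finite.equivFin (Σ i : Fin m, Fin (G.wd (s i))) ⟨i, j⟩))
  fd := fun {m} s => FD.fin fun i => (G.fd (s i)).sub
    (Sum.elim (fun _ => Sum.inl i)
      (fun j => Sum.inr (Finite.equivFin (Σ i : Fin m, Fin (G.wd (s i))) ⟨i, j⟩)))
  dom := fun {m} s S u w h hχ j => by
    obtain ⟨⟨i, l⟩, rfl⟩ := (Finite.equivFin (Σ i : Fin m, Fin (G.wd (s i)))).surjective j
    exact G.dom _ S _ _ h (hχ i) l
  fn := fun {m} s S u w w' h h1 h2 j => by
    obtain ⟨⟨i, l⟩, rfl⟩ := (Finite.equivFin (Σ i : Fin m, Fin (G.wd (s i)))).surjective j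
    exact congrFun (G.fn _ S _ _ _ h (h1 i) (h2 i)) l
  tot := fun S h hV {m} u => by
    choose κ w hw using fun i => G.tot S h hV (u i)
    let w0 : (Σ i : Fin m, Fin (G.wd (κ i))) → ℕ := fun x => w x.1 x.2
    have hw0 : ∀ i, G.χ (κ i) S (u i) (fun j => w0 ⟨i, j⟩) := hw
    refine ⟨κ, fun j => w0 ((Finite.equivFin (Σ i : Fin m, Fin (G.wd (κ i)))).symm j), fun i => ?_⟩
    simp only [Equiv.symm_apply_apply]
    exact hw0 i
  up := fun S S' h h' hj e => by
    obtain ⟨π, h1, h2⟩ := pi_of h h' e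
    obtain ⟨g, hg⟩ := G.up S S' h h' hj π h1
    exact ⟨g, fun n x hx => by
      rw [hg x hx.1]
      exact h2 n x hx.1 hx⟩
  lift := fun {m} s S S' h h' hj u w u' w' hχ hχ' e he => by
    obtain ⟨π, h1, h2⟩ := pi_of h h' e
    obtain ⟨g, hg⟩ := G.up S S' h h' hj π h1
    have key : ∀ x : Σ i : Fin m, Fin (G.wd (s i)),
        g (w (Finite.equivFin _ x)) = w' (Finite.equivFin _ x) := by
      rintro ⟨i, l⟩
      have hd : I.dom S (w (Finite.equivFin _ ⟨i, l⟩)) := G.dom _ S _ _ h (hχ i) l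
      obtain ⟨n, hn⟩ := (tq I).ex_lab h hd
      have h3 := h2 n _ hd hn
      rw [← hg _ hd] at h3
      have h4 := he _ n hn
      exact ((tq I).lab_eq h' h3 h4).2 rfl
    refine ⟨g, fun i => ?_⟩
    have h5 := (G.fd (s i)).iso h h' g (Sum.elim (fun _ => u i)
      (fun j => w (Finite.equivFin (Σ i : Fin m, Fin (G.wd (s i))) ⟨i, j⟩)))
    have h6 : G.χ (s i) S' (g (u i))
        (fun j => g (w (Finite.equivFin (Σ i : Fin m, Fin (G.wd (s i))) ⟨i, j⟩))) :=
      h5.1 (hχ i)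
    simp only [key] at h6
    exact G.fx _ S' _ _ _ h' h6 (hχ' i)
  rich := fun S S' h h' hV hV' hE => G.rich S S' h h' hV hV' fun φ => by
    rw [← D_tq, ← D_tq]
    exact hE φ

end Pool.Agent.TH686.MC
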