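import Pool.Agent.TH686.MC.Rich
import Pool.Agent.TH686.MC.MartJ
import Pool.Agent.W240.VPSYN2
import Pool.Agent.W583.VPDec
import Pool.Agent.W970.VPISO
import Pool.Agent.W921.VP.Com
import Pool.Agent.W889.FO.StA

set_option autoImplicit false

/-! The structures of tuples: interpretation, isomorphisms, supports. -/

namespace Pool.Agent.TH686.JT

open FirstOrder FirstOrder.Language Filter
open Pool.Agent.W889.FO (FD Itp SIso cnt cnt_equiv siso_of)
open Pool.Agent.W889.SD (Nth)
open Pool.Agent.TH686.MC (Sk Cov sub Gn cnt_none_of cov_inf Rz rich_of ne_eq tq ev_ge)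
open Pool.Agent.W921.VP (Len Sat Sub relF eqF Ent Pt dec)
open Pool.Agent.W970.VPISO (map_one map_two one_eq two_eq sub_iff ent_unique_a real_iso sub_ent
  param iso_iff)

variable {L : FirstOrder.Language.{0, 0}}

/-- the language of tuples -/
abbrev LT (L : FirstOrder.Language.{0, 0}) : FirstOrder.Language.{0, 0} := Pool.Agent.W921.VP.TL L

instance : (LT L).IsRelational := fun _ => inferInstanceAs (IsEmpty Empty)

theorem countable_LT [L.IsRelational] [Countable (Σ n, L.Relations n)] :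
    Countable (Σ n, (LT L).Relations n) := by
  have h1 : Countable L.Symbols :=
    inferInstanceAs (Countable ((Σ n, L.Functions n) ⊕ Σ n, L.Relations n))
  have h2 : Countable (LT L).Symbols := (Pool.Agent.W921.VP.tl_facts L h1).1
  have h3 : Countable ((Σ n, (LT L).Functions n) ⊕ Σ n, (LT L).Relations n) := h2
  exact (Sum.inr_injective (α := Σ n, (LT L).Functions n)
    (β := Σ n, (LT L).Relations n)).countable

theorem fd_Len {W : (LT L).Structure ℕ → Prop} {α : Type} (n : ℕ) (i : α) :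
    FD W (fun N v => Len N n (v i)) :=
  (FD.rel (Pool.Agent.W921.VP.TRel.len n : (LT L).Relations 1) (fun _ => i)).congr
    fun N _ v => by
      unfold Len
      rw [one_eq (fun _ : Fin 1 => v i)]

theorem fd_Sat {W : (LT L).Structure ℕ → Prop} {α : Type} (n : ℕ) (φ : L.BoundedFormula Empty n)
    (i : α) : FD W (fun N v => Sat N n φ (v i)) :=
  (FD.rel (Pool.Agent.W921.VP.TRel.sat n φ : (LT L).Relations 1) (fun _ => i)).congr
    fun N _ v => by
      unfold Sat
      rw [one_eq (fun _ : Fin 1 => v i)]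

theorem fd_Sub {W : (LT L).Structure ℕ → Prop} {α : Type} (n k : ℕ) (w : Fin k → Fin n)
    (i j : α) : FD W (fun N v => Sub N n k w (v i) (v j)) :=
  (FD.rel (Pool.Agent.W921.VP.TRel.sub n k w : (LT L).Relations 2)
    (fun m : Fin 2 => if m = 0 then i else j)).congr fun N _ v => by
      unfold Pool.Agent.W921.VP.Sub
      rw [two_eq (fun m : Fin 2 => v (if m = 0 then i else j))]
      simp

theorem inf_Len [L.IsRelational] {T : L.Theory} {N : (LT L).Structure ℕ}
    (h : Pool.Agent.W921.VP.Ax T N) (m : ℕ) : ∃ u, m ≤ u ∧ Len N 1 u := by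
  obtain ⟨-, -, -, -, hinf⟩ := Pool.Agent.W583.VPDec.task L T ℕ N h
  by_contra hne
  push Not at hne
  have h1 : {u | Len N 1 u} ⊆ Set.Iio m := fun u hu => by
    by_contra h2
    exact hne u (not_lt.1 h2) hu
  have h2 : {u | Len N 1 u}.Finite := (Set.finite_Iio m).subset h1
  exact (Set.infinite_coe_iff.1 hinf) h2

/-- the interpretation -/
def itp [L.IsRelational] (T : L.Theory) : Itp L (LT L) where
  W := fun N => Pool.Agent.W921.VP.Ax T N
  axW := by
    obtain ⟨T', -, h⟩ := Pool.Agent.W240.VPSYN2.task L inferInstance T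
    exact ⟨T', h⟩
  dom := fun N x => Len N 1 x
  rel := fun {n} R N a => ∃ x, (Len N n x ∧ ∀ i, Sub N n 1 (fun _ => i) x (a i)) ∧
    Sat N n (relF n R id) x
  fdom := fd_Len 1 ()
  frel := fun {n} R => Pool.Agent.W889.FO.StA.FD.ex1 (P := fun N v x => (Len N n x ∧
    ∀ i, Sub N n 1 (fun _ => i) x (v i)) ∧ Sat N n (relF n R id) x) <|
    ((fd_Len _ _).and (FD.fin fun i => fd_Sub _ _ _ _ _)).and (fd_Sat _ _ _)
  inf := fun _ h m => inf_Len h m

/-- the elements which are not tuples -/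
def jk (N : (LT L).Structure ℕ) (x : ℕ) : Prop := ∀ n, ¬ Len N n x

theorem self_ent {T : L.Theory} {N : (LT L).Structure ℕ} (h : Pool.Agent.W921.VP.Ax T N)
    (hu : ∀ (n : ℕ) (a : Fin n → Pt N), ∃! x, Ent N x a)
    (ht : ∀ (n : ℕ) (x : ℕ), Len N n x → ∃ a : Fin n → Pt N, Ent N x a) {u : ℕ}
    (h1 : Len N 1 u) : Ent N u (fun _ : Fin 1 => (⟨u, h1⟩ : Pt N)) := by
  obtain ⟨a, ha⟩ := ht 1 u h1
  have h2 := sub_ent h ha (ha.2 0)
  have h3 : a ∘ (fun _ : Fin 1 => (0 : Fin 1)) = a := by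
    funext i
    rw [Subsingleton.elim i 0]
    rfl
  rw [h3] at h2
  have h4 : u = (a 0 : ℕ) := (hu 1 a).unique ha h2
  have h5 : a = fun _ => (⟨u, h1⟩ : Pt N) := by
    funext i
    rw [Subsingleton.elim i 0]
    exact Subtype.ext h4.symm
  rw [h5] at ha
  exact ha

theorem upT [L.IsRelational] {T : L.Theory} {N N' : (LT L).Structure ℕ}
    (hN : Pool.Agent.W921.VP.Ax T N) (hN' : Pool.Agent.W921.VP.Ax T N')
    (π : {u // Len N 1 u} ≃ {u // Len N' 1 u})
    (hπ : ∀ {n : ℕ} (R : L.Relations n) (u : Fin n → {u // Len N 1 u}),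
      (itp T).rel R N (fun i => u i) ↔ (itp T).rel R N' (fun i => π (u i)))
    (hc : cnt (jk N) = cnt (jk N')) :
    ∃ g : @FirstOrder.Language.Equiv (LT L) ℕ ℕ N N', ∀ u (hu : Len N 1 u), g u = π ⟨u, hu⟩ := by
  classical
  obtain ⟨ρ⟩ := cnt_equiv hc
  obtain ⟨u1, t1, r1, _, _⟩ := Pool.Agent.W583.VPDec.task L T ℕ N hN
  obtain ⟨u2, t2, r2, _, _⟩ := Pool.Agent.W583.VPDec.task L T ℕ N' hN'
  obtain ⟨P, hP1, hP2⟩ := param hN u1 t1
  obtain ⟨P', hP1', hP2'⟩ := param hN' u2 t2
  have hf : ∀ (n : ℕ) (R : L.Relations n) (s : Fin n → Pt N),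
      (dec N).RelMap R s ↔ (dec N').RelMap R (fun i => π (s i)) := fun n R s => hπ R s
  let j : Pool.Agent.W921.VP.junk N ≃ Pool.Agent.W921.VP.junk N' := ρ
  let F : (Σ n, Fin n → Pt N) ≃ (Σ n, Fin n → Pt N') :=
    Equiv.sigmaCongrRight fun n => Equiv.arrowCongr (Equiv.refl (Fin n)) π
  let g : ℕ ≃ ℕ := P.symm.trans ((F.sumCongr j).trans P')
  have hg1 : ∀ n (a : Fin n → Pt N) x, Ent N x a → Ent N' (g x) (fun i => π (a i)) := by
    intro n a x hx
    have hx' : x = P (Sum.inl ⟨n, a⟩) := (u1 n a).unique hx (hP1 n a)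
    have : g x = P' (Sum.inl ⟨n, fun i => π (a i)⟩) := by
      show P' ((F.sumCongr j) (P.symm x)) = _
      rw [hx', P.symm_apply_apply]
      rfl
    rw [this]
    exact hP1' n _
  have hg2 : ∀ x, (∀ n, ¬ Len N n x) → ∀ n, ¬ Len N' n (g x) := by
    intro x hx
    have hx' : x = P (Sum.inr ⟨x, hx⟩) := (hP2 ⟨x, hx⟩).symm
    have : g x = (j ⟨x, hx⟩ : ℕ) := by
      show P' ((F.sumCongr j) (P.symm x)) = _
      conv_lhs => rw [hx', P.symm_apply_apply]
      exact hP2' _
    rw [this]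
    exact (j ⟨x, hx⟩).2
  have hlen : ∀ n x, Len N n x ↔ Len N' n (g x) := by
    intro n x
    constructor
    · intro hx
      obtain ⟨a, ha⟩ := t1 n x hx
      exact (hg1 n a x ha).1
    · intro hx
      by_cases hjx : ∃ m, Len N m x
      · obtain ⟨m, hm⟩ := hjx
        obtain ⟨a, ha⟩ := t1 m x hm
        have h1 := (hg1 m a x ha).1
        have : m = n := by
          by_contra hne
          exact hN'.len_disj m n _ hne h1 hx
        rwa [this] at hm
      · push Not at hjx
        exact absurd hx (hg2 x hjx n)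
  have hsat : ∀ n φ x, Sat N n φ x ↔ Sat N' n φ (g x) := by
    intro n φ x
    by_cases hx : Len N n x
    · obtain ⟨a, ha⟩ := t1 n x hx
      rw [r1 n x a φ ha, r2 n (g x) _ φ (hg1 n a x ha)]
      exact real_iso (dec N) (dec N') π hf φ a
    · constructor
      · intro h; exact absurd (hN.sat_len _ _ _ h) hx
      · intro h; exact absurd ((hlen n x).2 (hN'.sat_len _ _ _ h)) hx
  have hsub : ∀ n k v x y, Sub N n k v x y ↔ Sub N' n k v (g x) (g y) := by
    intro n k v x y
    by_cases hx : Len N n x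
    · obtain ⟨a, ha⟩ := t1 n x hx
      rw [sub_iff hN u1 ha, sub_iff hN' u2 (hg1 n a x ha)]
      constructor
      · intro hy
        exact hg1 k _ y hy
      · intro hy
        obtain ⟨y', hy', _⟩ := u1 k (a ∘ v)
        have h1 := hg1 k _ y' hy'
        have h2 : g y = g y' := (u2 k _).unique hy h1
        rw [g.injective h2]
        exact hy'
    · constructor
      · intro h; exact absurd (hN.sub_len _ _ _ _ _ h).1 hx
      · intro h; exact absurd ((hlen n x).2 (hN'.sub_len _ _ _ _ _ h).1) hx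
  have hall := (iso_iff N N' g).2 ⟨hlen, hsat, hsub⟩
  obtain ⟨f, hf'⟩ := siso_of (S := N) (S' := N') g (fun n R v => (hall n R v).symm)
  refine ⟨f, fun u hu => ?_⟩
  rw [hf']
  have h1 := hg1 1 _ u (self_ent hN u1 t1 hu)
  have h2 := self_ent hN' u2 t2 (π ⟨u, hu⟩).2
  exact (u2 1 (fun _ => π ⟨u, hu⟩)).unique h1 h2

theorem rich_jk {T : L.Theory} {S : (LT L).Structure ℕ} (h : Pool.Agent.W921.VP.Ax T S) :
    ∃ B : Set (ℕ → ℕ), B.Countable ∧ ∀ F, Sk S F → Cov F B → cnt (jk (sub S F)) = none := by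
  choose t ht using fun n => (h.inf n)
  have hlt : ∀ n, Len S n (t n) := fun n => (ht n).1
  refine ⟨Set.range fun k m => t (m + k), Set.countable_range _, fun F hF hc => ?_⟩
  refine cov_inf (fun k m => t (m + k)) hc (fun k i hi => ?_) fun k l hkl => ?_
  · intro n hn
    have hn' : ∀ᶠ m in (TH686.MC.U : Filter ℕ), Len S n (F i m) := by
      refine Eventually.mono (show ∀ᶠ m in (TH686.MC.U : Filter ℕ), _ from hn) fun m hm => ?_
      have e := map_one (fun x => F x m) i
      unfold Len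
      rw [← e]
      exact hm
    obtain ⟨m, ⟨h1, h2⟩, h3⟩ := ((hi.and hn').and (ev_ge (n + 1))).exists
    rw [h1] at h2
    exact h.len_disj (m + k) n _ (by omega) (hlt _) h2
  · refine Eventually.of_forall fun m hm => ?_
    have hm' : t (m + k) = t (m + l) := hm
    have h1 := hlt (m + k)
    rw [hm'] at h1
    exact h.len_disj (m + k) (m + l) _ (by omega) h1 (hlt _)

/-- supports -/
noncomputable def gnT [L.IsRelational] (T : L.Theory) :
    Gn (itp T) (fun S => ∀ x, ¬ jk S x) (fun S => cnt (jk S)) where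
  K := ℕ
  wd := fun n => n
  χ := fun n N x w => Len N n x ∧ ∀ i, Sub N n 1 (fun _ => i) x (w i)
  fd := fun n => (fd_Len _ _).and (FD.fin fun i => fd_Sub _ _ _ _ _)
  dom := fun n N x w h hχ j => (h.sub_len _ _ _ _ _ (hχ.2 j)).2
  fn := fun n N x w w' h h1 h2 => funext fun j => h.sub_fun _ _ _ _ _ _ (h1.2 j) (h2.2 j)
  fx := fun n N x x' w h h1 h2 => by
    by_contra hne
    obtain ⟨z, i, h3, h4⟩ := h.ext n x x' h1.1 h2.1 hne
    have h5 : z = w i := h.sub_fun _ _ _ _ _ _ h3 (h1.2 i)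
    rw [h5] at h4
    exact h4 (h2.2 i)
  tot := fun S h hV x => by
    have h1 : ∃ n, Len S n x := by
      by_contra hne
      push Not at hne
      exact hV x hne
    obtain ⟨n, hn⟩ := h1
    choose w hw using fun i : Fin n => h.sub_tot n 1 (fun _ => i) x hn
    exact ⟨n, w, hn, hw⟩
  up := fun S S' h h' hj π hπ => upT h h' π hπ hj
  rich := fun S S' h h' _ _ _ => by
    obtain ⟨B, hB, k1⟩ := rich_jk h
    obtain ⟨B', hB', k2⟩ := rich_jk h'
    exact ⟨B, B', hB, hB', fun F F' hF hF' hc hc' =>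
      (k1 F hF hc).trans (k2 F' hF' hc').symm⟩

end Pool.Agent.TH686.JT
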