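import Pool.Agent.TH686.MC.TupA
import Pool.Agent.W240.VPTUP

set_option autoImplicit false

/-! The structures of tuples: existence, elementary equivalence. -/

namespace Pool.Agent.TH686.JT

open FirstOrder FirstOrder.Language Filter
open Pool.Agent.W889.FO (FD Itp SIso cnt cnt_equiv siso_of)
open Pool.Agent.W889.SD (Nth)
open Pool.Agent.TH686.MC (Sk Cov sub Gn cnt_none_of cov_inf Rz rich_of ne_eq tq ev_ge ax_eq rob'
  pi_of D_tq rz_iso rz_sentence cbf)
open Pool.Agent.W921.VP (Len Sat Sub relF eqF Ent Pt dec tup)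

variable {L : FirstOrder.Language.{0, 0}}

/-- existence -/
theorem exT [L.IsRelational] (T : L.Theory) (M : L.Structure ℕ) (hM : @Theory.Model L ℕ M T) :
    ∃ S : (LT L).Structure ℕ, (itp T).W S ∧ (∀ x, ¬ jk S x) ∧ SIso ((itp T).D S) M := by
  classical
  obtain ⟨hA, hI⟩ := Pool.Agent.W240.VPTUP.task L T M hM
  have : Infinite (Σ n, Fin n → ℕ) :=
    Infinite.of_injective (fun k : ℕ => (⟨k, fun _ => 0⟩ : Σ n, Fin n → ℕ))
      (fun k l hkl => congrArg Sigma.fst hkl)
  obtain ⟨e⟩ : Nonempty ((Σ n, Fin n → ℕ) ≃ ℕ) := nonempty_equiv_of_countable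
  have hS : Pool.Agent.W921.VP.Ax T (Pool.Agent.W921.VP.move (tup M) e) :=
    Pool.Agent.W921.VP.Ax.move e
      (fun n R s => Pool.Agent.W921.VP.move_rel (tup M) e n R s) hA
  refine ⟨Pool.Agent.W921.VP.move (tup M) e, hS, fun x hx => ?_, ?_⟩
  · exact hx (e.symm x).1 rfl
  · have h1 := (Pool.Agent.W970.VPISO.task Pool.Agent.W583.VPDec.task L T _ _ (tup M)
      (Pool.Agent.W921.VP.move (tup M) e) inferInstance inferInstance hA hS).1
      (Pool.Agent.W921.VP.isom_move (tup M) e)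
    obtain ⟨π, hπ⟩ := hI.trans h1
    exact (itp T).D_iso hS π fun {n} R u => hπ n R u

/-- the interpreted structure is a model -/
theorem model_D [L.IsRelational] {T : L.Theory} {S : (LT L).Structure ℕ} (h : (itp T).W S) :
    @Theory.Model L ℕ ((itp T).D S) T := by
  obtain ⟨-, -, -, hm, -⟩ := Pool.Agent.W583.VPDec.task L T ℕ S h
  obtain ⟨e, he⟩ := (itp T).nth h
  let i1 : L.Structure ℕ := (itp T).D S
  let i2 : L.Structure (Pt S) := dec S
  have hm' : @Theory.Model L (Pt S) i2 T := hm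
  let g : L.Equiv ℕ (Pt S) :=
    { toEquiv := e
      map_fun' := fun f => isEmptyElim f
      map_rel' := fun {n} R v => by
        have h1 := (itp T).rel_iff h R (u := fun i => (e (v i) : ℕ)) (v := v)
          (fun i => by rw [he])
        exact h1.symm }
  exact StrongHomClass.theory_model g.symm

theorem elem_eq [L.IsRelational] [Countable (Σ n, L.Relations n)] {T : L.Theory}
    (hT : T.IsComplete) {S S' : (LT L).Structure ℕ} (h : (itp T).W S) (h' : (itp T).W S')
    (ψ : (LT L).BoundedFormula Empty 0) : Rz S ψ Fin.elim0 ↔ Rz S' ψ Fin.elim0 := by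
  have : Countable (Σ n, (LT L).Relations n) := countable_LT
  have cb : ∀ n, Countable (L.BoundedFormula Empty n) := cbf
  have cb' : ∀ n, Countable ((LT L).BoundedFormula Empty n) := cbf
  have el : ∀ (S : L.Structure ℕ) (φ : L.BoundedFormula Empty 0)
      (x y : Fin 0 → ℕ), Rz S φ x ↔ Rz S φ y := fun S φ x y => by rw [Subsingleton.elim x y]
  have el' : ∀ (S : (LT L).Structure ℕ) (φ : (LT L).BoundedFormula Empty 0)
      (x y : Fin 0 → ℕ), Rz S φ x ↔ Rz S φ y := fun S φ x y => by rw [Subsingleton.elim x y]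
  have hD : ∀ φ : L.BoundedFormula Empty 0, Rz ((itp T).D S) φ Fin.elim0 ↔
      Rz ((itp T).D S') φ Fin.elim0 := by
    intro φ
    rw [rz_sentence, rz_sentence]
    have m1 := model_D h
    have m2 := model_D h'
    have k1 := @Theory.IsComplete.realize_sentence_iff L T hT φ ℕ ((itp T).D S) m1 _
    have k2 := @Theory.IsComplete.realize_sentence_iff L T hT φ ℕ ((itp T).D S') m2 _
    exact k1.trans k2.symm
  obtain ⟨B, hB, k1⟩ := rich_jk h
  obtain ⟨B', hB', k2⟩ := rich_jk h'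
  obtain ⟨F, F', t0, t0', hF, hF', hc1, hc2, h1, h2, e, -⟩ := rob' (tq (itp T)) h h' (N := 0)
    (k := 0) Fin.elim0 Fin.elim0 Fin.elim0 (fun j => j.elim0) (fun j => j.elim0)
    (fun φ => by
      rw [D_tq, D_tq]
      exact ((el _ φ _ _).trans (hD φ)).trans (el _ φ _ _)) B B' hB hB'
  have hjj : cnt (jk (sub S F)) = cnt (jk (sub S' F')) := (k1 F hF hc1).trans (k2 F' hF' hc2).symm
  generalize sub S F = S0 at *
  generalize sub S' F' = S0' at *
  have w0 : (itp T).W S0 := ax_eq (itp T).axW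
    (fun σ => ((el' _ σ _ _).trans ((h1 0 σ Fin.elim0).symm)).trans (el' _ σ _ _)) h
  have w0' : (itp T).W S0' := ax_eq (itp T).axW
    (fun σ => ((el' _ σ _ _).trans ((h2 0 σ Fin.elim0).symm)).trans (el' _ σ _ _)) h'
  obtain ⟨π, hπ, -⟩ := pi_of w0 w0' e
  obtain ⟨g, -⟩ := upT w0 w0' π hπ hjj
  have h5 := h1 0 ψ Fin.elim0
  have h6 := h2 0 ψ Fin.elim0
  refine ((el' _ ψ _ _).trans h5.symm).trans (Iff.trans ?_ (h6.trans (el' _ ψ _ _)))
  exact (rz_iso g ψ _).trans (el' _ ψ _ _)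

end Pool.Agent.TH686.JT
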