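import Pool.Agent.TH686.MC.TupB
import Pool.Agent.TH686.MC.CplN
import Pool.Agent.TH686.MC.Pad
import Pool.Agent.W240.VPSYN

set_option autoImplicit false

/-! Martin's conjecture and the form of the axioms. -/

namespace Pool.Agent.TH686.JT

open FirstOrder FirstOrder.Language
open Pool.Agent.W889.FO (ax_iff)
open Pool.Agent.TH686.MC (Rz MartinN FewCountableModels L1 transferJ tq D_tq rz_sentence)
open Pool.Agent.W921.VP (Len Pre Mods)

variable {L : FirstOrder.Language.{0, 0}}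

/-- the sentences of the forms in `Q` which hold in the structures of tuples -/
def TT (Q : ℕ → ℕ → Prop) (T : L.Theory) : (LT L).Theory :=
  {σ | (∃ a b, Q a b ∧ Pre 0 a b (σ : (LT L).BoundedFormula Empty 0)) ∧
    ∀ N : (LT L).Structure ℕ, Pool.Agent.W921.VP.Ax T N → @Sentence.Realize (LT L) ℕ N σ}

/-- the forms in `Q` suffice for the axioms -/
def Syn (Q : ℕ → ℕ → Prop) (T : L.Theory) : Prop :=
  ∃ T' : (LT L).Theory, (∀ σ ∈ T', ∃ a b, Q a b ∧ Pre 0 a b (σ : (LT L).BoundedFormula Empty 0)) ∧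
    ∀ N : (LT L).Structure ℕ, Mods N T' ↔ Pool.Agent.W921.VP.Ax T N

theorem mod_TT {Q : ℕ → ℕ → Prop} {T : L.Theory} (hsyn : Syn Q T) (N : (LT L).Structure ℕ) :
    @Theory.Model (LT L) ℕ N (TT Q T) ↔ Pool.Agent.W921.VP.Ax T N := by
  obtain ⟨T', h1, h2⟩ := hsyn
  constructor
  · intro h
    exact (h2 N).1 (ax_iff.2 fun σ hσ => ax_iff.1 h σ
      ⟨h1 σ hσ, fun N' hN' => ax_iff.1 ((h2 N').2 hN') σ hσ⟩)
  · intro h
    exact ax_iff.2 fun σ hσ => hσ.2 N h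

theorem complete_TT [L.IsRelational] [Countable (Σ n, L.Relations n)] {Q : ℕ → ℕ → Prop}
    {T : L.Theory} (hT : T.IsComplete) (hsyn : Syn Q T) (hD : ∃ a b, Q a b ∧ 0 < a)
    (hE : ∃ a b, Q a b ∧ 0 < b) (hne : ∃ N : (LT L).Structure ℕ, Pool.Agent.W921.VP.Ax T N) :
    (TT Q T).IsComplete := by
  have hc : Countable (LT L).Symbols := by
    have : Countable (Σ n, (LT L).Relations n) := countable_LT
    exact inferInstanceAs (Countable ((Σ n, (LT L).Functions n) ⊕ Σ n, (LT L).Relations n))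
  refine complete_of_nat hc (fun X S hX hS => ?_) ?_ fun S S' hS hS' ψ => ?_
  · obtain ⟨a, b, hQ, ha⟩ := hD
    obtain ⟨a', b', hQ', hb⟩ := hE
    refine infinite_of S (fun m n hmn => ?_) fun n => ?_
    · have h1 : axD a b m n ha ∈ TT Q T := ⟨⟨a, b, hQ, pre_axD a b m n ha⟩, fun N hN =>
        (realize_axD a b m n ha N).2 fun x => hN.len_disj m n x hmn⟩
      exact (realize_axD a b m n ha S).1 (@Theory.realize_sentence_of_mem (LT L) X S _ hS _ h1)
    · have h1 : axE a' b' n hb ∈ TT Q T := ⟨⟨a', b', hQ', pre_axE a' b' n hb⟩, fun N hN => by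
        rw [realize_axE]
        obtain ⟨x, hx, -⟩ := hN.inf n
        exact ⟨x, hx⟩⟩
      exact (realize_axE a' b' n hb S).1 (@Theory.realize_sentence_of_mem (LT L) X S _ hS _ h1)
  · obtain ⟨N, hN⟩ := hne
    exact ⟨N, (mod_TT hsyn N).2 hN⟩
  · have h1 := elem_eq hT ((mod_TT hsyn S).1 hS) ((mod_TT hsyn S').1 hS') ψ
    rw [rz_sentence, rz_sentence] at h1
    exact h1.1

theorem tr_L1 {T T' : L.Theory}
    (h : ∀ S : L.Structure ℕ, @Theory.Model L ℕ S T ↔ @Theory.Model L ℕ S T') {n : ℕ}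
    (φ : L1 T' n) : ∃ φ' : L1 T n, ∀ (S : L.Structure ℕ) v, φ'.Sat S v ↔ φ.Sat S v := by
  induction φ with
  | fo φ => exact ⟨.fo φ, fun S v => Iff.rfl⟩
  | @conj n k p hp v0 =>
    obtain ⟨R, a, hR, hp'⟩ := hp
    exact ⟨.conj p ⟨R, a, (h R).2 hR, hp'⟩ v0, fun S v => Iff.rfl⟩
  | not φ ih =>
    obtain ⟨φ', h⟩ := ih
    exact ⟨.not φ', fun S v => not_congr (h S v)⟩
  | and φ1 φ2 ih1 ih2 =>
    obtain ⟨φ1', h1⟩ := ih1
    obtain ⟨φ2', h2⟩ := ih2
    exact ⟨.and φ1' φ2', fun S v => and_congr (h1 S v) (h2 S v)⟩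
  | @all n φ ih =>
    obtain ⟨φ', h⟩ := ih
    exact ⟨.all φ', fun S v => forall_congr' fun x => h S _⟩

theorem martinN_congr {T T' : L.Theory}
    (h : ∀ S : L.Structure ℕ, @Theory.Model L ℕ S T ↔ @Theory.Model L ℕ S T')
    (hM : MartinN T') : MartinN T := by
  intro S S' hS hS' hE
  refine hM S S' ((h S).1 hS) ((h S').1 hS') fun φ => ?_
  obtain ⟨φ', hφ'⟩ := tr_L1 h φ
  exact (hφ' S _).symm.trans ((hE φ').trans (hφ' S' _))

theorem few_congr {T T' : L.Theory}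
    (h : ∀ S : L.Structure ℕ, @Theory.Model L ℕ S T ↔ @Theory.Model L ℕ S T')
    (hT : FewCountableModels T) : FewCountableModels T' := by
  rintro ⟨f, h1, h2⟩
  exact hT ⟨f, fun x => (h _).2 (h1 x), h2⟩

/-- the reduction -/
theorem reduceT [L.IsRelational] [Countable (Σ n, L.Relations n)] {Q : ℕ → ℕ → Prop}
    {T : L.Theory} (hT : T.IsComplete) (hsyn : Syn Q T) (hD : ∃ a b, Q a b ∧ 0 < a)
    (hE : ∃ a b, Q a b ∧ 0 < b) (hfew : FewCountableModels T)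
    (hM : ∀ T3 : (LT L).Theory, T3.IsComplete →
      (∀ σ ∈ T3, ∃ a b, Q a b ∧ Pre 0 a b (σ : (LT L).BoundedFormula Empty 0)) →
      FewCountableModels T3 → MartinN T3) : MartinN T := by
  have : Countable (Σ n, (LT L).Relations n) := countable_LT
  refine transferJ (tq (itp T)) (gnT T).sup T hfew (fun M hMT => ?_) fun T' h1 h2 h3 => ?_
  · obtain ⟨S, h1, h2, h3⟩ := exT T M hMT
    exact ⟨S, h1, h2, by rw [D_tq]; exact h3⟩
  · intro S S' hS hS' hE'
    have hc := complete_TT hT hsyn hD hE ⟨S, h3 S hS⟩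
    have hmod : ∀ R : (LT L).Structure ℕ,
        @Theory.Model (LT L) ℕ R T' ↔ @Theory.Model (LT L) ℕ R (TT Q T) := by
      intro R
      constructor
      · exact fun h => (mod_TT hsyn R).2 (h3 R h)
      · intro h
        refine ax_iff.2 fun φ hφ => ?_
        have k1 := elem_eq hT (h3 S hS) ((mod_TT hsyn R).1 h) φ
        rw [rz_sentence, rz_sentence] at k1
        exact k1.1 (ax_iff.1 hS φ hφ)
    exact martinN_congr hmod (hM (TT Q T) hc (fun σ hσ => hσ.1) (few_congr hmod h2))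
      S S' hS hS' hE'

theorem syn3 [L.IsRelational] (T : L.Theory) :
    Syn (fun a b => (a = 3 ∧ b = 0) ∨ (a = 2 ∧ b = 1)) T := by
  obtain ⟨T', h1, h2⟩ := Pool.Agent.W240.VPSYN2.task L inferInstance T
  refine ⟨T', fun σ hσ => ?_, h2⟩
  rcases h1 σ hσ with h | h
  · exact ⟨3, 0, Or.inl ⟨rfl, rfl⟩, h⟩
  · exact ⟨2, 1, Or.inr ⟨rfl, rfl⟩, h⟩

theorem synAB [L.IsRelational] (T : L.Theory) {a₀ b₀ : ℕ} (ha : 3 ≤ a₀) (hb : 1 ≤ b₀) :
    Syn (fun a b => a = a₀ ∧ b = b₀) T := by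
  obtain ⟨T', h1, h2⟩ := Pool.Agent.W240.VPSYN.task L inferInstance T a₀ b₀ ha hb
  exact ⟨T', fun σ hσ => ⟨a₀, b₀, ⟨rfl, rfl⟩, h1 σ hσ⟩, h2⟩

end Pool.Agent.TH686.JT
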