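import Pool.Agent.TH686.MC.Tq
import Pool.Agent.TH686.MC.MartN

set_option autoImplicit false

/-! Interpretations in which all elements are definable over the interpreted structure or belong to
one of some definable sets of indiscernible elements. -/

namespace Pool.Agent.TH686.MC

open FirstOrder FirstOrder.Language Filter
open Pool.Agent.W889.FO
open Pool.Agent.TH686.FO

variable {L L' : FirstOrder.Language.{0, 0}}

/-- All elements of the structures in `V` are definable over the interpreted structure, up to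
finitely many possibilities, or belong to one of the definable sets `Z c` all of whose permutations
extend to automorphisms. -/
structure Gt [L.IsRelational] [L'.IsRelational] (I : Itp L L') (V : L'.Structure ℕ → Prop)
    {J : Type} (j : L'.Structure ℕ → J) where
  K : Type
  wd : K → ℕ
  χ : ∀ κ : K, L'.Structure ℕ → ℕ → (Fin (wd κ) → ℕ) → Prop
  fd : ∀ κ, FD I.W (fun S (v : Unit ⊕ Fin (wd κ) → ℕ) =>
    χ κ S (v (Sum.inl ())) (fun j => v (Sum.inr j)))
  dom : ∀ κ S x w, I.W S → χ κ S x w → ∀ j, I.dom S (w j)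
  fn : ∀ κ, ∃ (A : Type) (_ : Finite A), ∀ S x, I.W S → ∃ idx : (Fin (wd κ) → ℕ) → A,
    ∀ w w', χ κ S x w → χ κ S x w' → idx w = idx w' → w = w'
  fx : ∀ κ S x x' w, I.W S → χ κ S x w → χ κ S x' w → x = x'
  C : Type
  Z : C → L'.Structure ℕ → ℕ → Prop
  fz : ∀ c, FD I.W (fun S (v : Unit → ℕ) => Z c S (v ()))
  sw : ∀ c S x y, I.W S → Z c S x → Z c S y →
    ∃ σ : @FirstOrder.Language.Equiv L' ℕ ℕ S S, ∀ v, σ v = Equiv.swap x y v
  tot : ∀ S, I.W S → V S → ∀ x, (∃ κ w, χ κ S x w) ∨ ∃ c, Z c S x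
  up : ∀ S S', I.W S → I.W S' → j S = j S' → ∀ π : {u // I.dom S u} ≃ {u // I.dom S' u},
    (∀ {n : ℕ} (R : L.Relations n) (u : Fin n → {u // I.dom S u}),
      I.rel R S (fun i => u i) ↔ I.rel R S' (fun i => π (u i))) →
    ∃ g : @FirstOrder.Language.Equiv L' ℕ ℕ S S', ∀ u (hu : I.dom S u), g u = π ⟨u, hu⟩
  rich : ∀ S S', I.W S → I.W S' → V S → V S' →
    (∀ φ : L.BoundedFormula Empty 0, Rz (I.D S) φ Fin.elim0 ↔ Rz (I.D S') φ Fin.elim0) →
    ∃ B B' : Set (ℕ → ℕ), B.Countable ∧ B'.Countable ∧ ∀ F F', Sk S F → Sk S' F' → Cov F B →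
      Cov F' B' → j (sub S F) = j (sub S' F')

namespace Gt

variable [L.IsRelational] [L'.IsRelational] {I : Itp L L'} {V : L'.Structure ℕ → Prop} {J : Type}
  {j : L'.Structure ℕ → J} (G : Gt I V j)

/-- sizes of the supports of elements -/
def wk : G.K ⊕ G.C → ℕ
  | Sum.inl κ => G.wd κ
  | Sum.inr _ => 0

/-- the supports of elements -/
def ck : ∀ κ : G.K ⊕ G.C, L'.Structure ℕ → ℕ → (Fin (G.wk κ) → ℕ) → Prop
  | Sum.inl κ => fun S x w => G.χ κ S x w
  | Sum.inr c => fun S x _ => G.Z c S x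

theorem fd_ck (κ : G.K ⊕ G.C) : FD I.W (fun S (v : Unit ⊕ Fin (G.wk κ) → ℕ) =>
    G.ck κ S (v (Sum.inl ())) (fun j => v (Sum.inr j))) := by
  cases κ with
  | inl κ => exact G.fd κ
  | inr c => exact (G.fz c).sub fun _ => Sum.inl ()

theorem dom_ck (κ : G.K ⊕ G.C) (S : L'.Structure ℕ) (x : ℕ) (w : Fin (G.wk κ) → ℕ) (h : I.W S)
    (hc : G.ck κ S x w) : ∀ j, I.dom S (w j) := by
  cases κ with
  | inl κ => exact G.dom κ S x w h hc
  | inr c => exact fun j => (show Fin 0 from j).elim0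

theorem fn_ck (κ : G.K ⊕ G.C) : ∃ (A : Type) (_ : Finite A), ∀ S x, I.W S →
    ∃ idx : (Fin (G.wk κ) → ℕ) → A, ∀ w w', G.ck κ S x w → G.ck κ S x w' → idx w = idx w' →
      w = w' := by
  cases κ with
  | inl κ => exact G.fn κ
  | inr c =>
    exact ⟨Unit, inferInstance, fun S x _ => ⟨fun _ => (), fun w w' _ _ _ =>
      funext fun j => (show Fin 0 from j).elim0⟩⟩

/-- moving the elements of the sets of indiscernible elements -/
theorem move {m : ℕ} (κ : Fin m → G.K ⊕ G.C) {S S' : L'.Structure ℕ} (h : I.W S) (h' : I.W S')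
    (u u' : Fin m → ℕ) (hE : ∀ i j, u i = u j ↔ u' i = u' j)
    (hz : ∀ i c, κ i = Sum.inr c → G.Z c S (u i) ∧ G.Z c S' (u' i))
    (g : @FirstOrder.Language.Equiv L' ℕ ℕ S S')
    (hk : ∀ i k, κ i = Sum.inl k → g (u i) = u' i) :
    ∃ g' : @FirstOrder.Language.Equiv L' ℕ ℕ S S', ∀ i, g' (u i) = u' i := by
  classical
  have key : ∀ n : ℕ, ∃ g' : @FirstOrder.Language.Equiv L' ℕ ℕ S S',
      (∀ i k, κ i = Sum.inl k → g' (u i) = u' i) ∧ ∀ i : Fin m, (i : ℕ) < n → g' (u i) = u' i := by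
    intro n
    induction n with
    | zero => exact ⟨g, hk, fun i hi => absurd hi (Nat.not_lt_zero _)⟩
    | succ n ih =>
      obtain ⟨g1, h1, h2⟩ := ih
      by_cases hn : n < m
      · cases hc : κ ⟨n, hn⟩ with
        | inl k =>
          refine ⟨g1, h1, fun i hi => ?_⟩
          rcases Nat.lt_succ_iff_lt_or_eq.1 hi with h3 | h3
          · exact h2 i h3
          · have e : i = ⟨n, hn⟩ := Fin.ext h3
            rw [e]
            exact h1 _ k hc
        | inr c =>
          obtain ⟨z1, z2⟩ := hz _ c hc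
          have z3 : G.Z c S' (g1 (u ⟨n, hn⟩)) :=
            ((G.fz c).iso h h' g1 (fun _ => u ⟨n, hn⟩)).1 z1
          obtain ⟨σ, hσ⟩ := G.sw c S' _ _ h' z3 z2
          have hinj : ∀ a b, g1 a = g1 b → a = b := fun a b hab =>
            @FirstOrder.Language.Equiv.injective L' ℕ ℕ S S' g1 a b hab
          have keep : ∀ i, g1 (u i) = u' i → Equiv.swap (g1 (u ⟨n, hn⟩)) (u' ⟨n, hn⟩) (u' i) =
              u' i := by
            intro i hi
            by_cases e1 : u i = u ⟨n, hn⟩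
            · have e2 := (hE _ _).1 e1
              rw [← e1, hi, e2, Equiv.swap_self]
              rfl
            · have e2 : u' i ≠ u' ⟨n, hn⟩ := fun e => e1 ((hE _ _).2 e)
              have e3 : u' i ≠ g1 (u ⟨n, hn⟩) := by
                rw [← hi]
                exact fun e => e1 (hinj _ _ e)
              exact Equiv.swap_apply_of_ne_of_ne e3 e2
          refine ⟨@FirstOrder.Language.Equiv.comp L' ℕ ℕ S S' ℕ S' σ g1, fun i k hik => ?_,
            fun i hi => ?_⟩
          · show σ (g1 (u i)) = u' i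
            rw [hσ, h1 i k hik]
            exact keep i (h1 i k hik)
          · show σ (g1 (u i)) = u' i
            rcases Nat.lt_succ_iff_lt_or_eq.1 hi with h3 | h3
            · rw [hσ, h2 i h3]
              exact keep i (h2 i h3)
            · have e : i = ⟨n, hn⟩ := Fin.ext h3
              rw [hσ, e, Equiv.swap_apply_left]
      · refine ⟨g1, h1, fun i hi => h2 i ?_⟩
        have := i.2
        omega
  obtain ⟨g', -, h2⟩ := key m
  exact ⟨g', fun i => h2 i i.2⟩

/-- supports -/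
noncomputable def sup : SupN (tq I) V j where
  Sh := fun m => (Fin m → G.K ⊕ G.C) × (Fin m → Fin m → Prop)
  wd := fun {m} s => Nat.card (Σ i : Fin m, Fin (G.wk (s.1 i)))
  χ := fun {m} s S u w => (∀ i, G.ck (s.1 i) S (u i)
    (fun j => w (Finite.equivFin (Σ i : Fin m, Fin (G.wk (s.1 i))) ⟨i, j⟩))) ∧
      ∀ i i', u i = u i' ↔ s.2 i i'
  fd := fun {m} s => (FD.fin fun i => (G.fd_ck (s.1 i)).sub
    (Sum.elim (fun _ => Sum.inl i)
      (fun j => Sum.inr (Finite.equivFin (Σ i : Fin m, Fin (G.wk (s.1 i))) ⟨i, j⟩)))).and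
    (FD.fin fun i => FD.fin fun i' => (FD.eq _ _).iff (FD.const _))
  dom := fun {m} s S u w h hχ j => by
    obtain ⟨⟨i, l⟩, rfl⟩ := (Finite.equivFin (Σ i : Fin m, Fin (G.wk (s.1 i)))).surjective j
    exact G.dom_ck _ S _ _ h (hχ.1 i) l
  fn := fun {m} s => by
    choose A hA hfn using fun i => G.fn_ck (s.1 i)
    have hfin : ∀ i, Finite (A i) := hA
    refine ⟨∀ i, A i, inferInstance, fun S u h => ?_⟩
    choose idx hidx using fun i => hfn i S (u i) h
    refine ⟨fun w i => idx i (fun j =>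
      w (Finite.equivFin (Σ i : Fin m, Fin (G.wk (s.1 i))) ⟨i, j⟩)), fun w w' h1 h2 h3 j => ?_⟩
    obtain ⟨⟨i, l⟩, rfl⟩ := (Finite.equivFin (Σ i : Fin m, Fin (G.wk (s.1 i)))).surjective j
    exact congrFun (hidx i _ _ (h1.1 i) (h2.1 i) (congrFun h3 i)) l
  tot := fun S h hV {m} u => by
    have h1 : ∀ i, ∃ (κ : G.K ⊕ G.C) (w : Fin (G.wk κ) → ℕ), G.ck κ S (u i) w := by
      intro i
      rcases G.tot S h hV (u i) with ⟨κ, w, hw⟩ | ⟨c, hc⟩
      · exact ⟨Sum.inl κ, w, hw⟩
      · exact ⟨Sum.inr c, fun j => 0, hc⟩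
    choose κ w hw using h1
    let w0 : (Σ i : Fin m, Fin (G.wk (κ i))) → ℕ := fun x => w x.1 x.2
    have hw0 : ∀ i, G.ck (κ i) S (u i) (fun j => w0 ⟨i, j⟩) := hw
    refine ⟨(κ, fun i i' => u i = u i'),
      fun j => w0 ((Finite.equivFin (Σ i : Fin m, Fin (G.wk (κ i)))).symm j), fun i => ?_,
      fun i i' => Iff.rfl⟩
    simp only [Equiv.symm_apply_apply]
    exact hw0 i
  up := fun S S' h h' hj e => by
    obtain ⟨π, h1, h2⟩ := pi_of h h' e
    obtain ⟨g, hg⟩ := G.up S S' h h' hj π h1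
    exact ⟨g, fun n x hx => by
      rw [hg x hx.1]
      exact h2 n x hx.1 hx⟩
  lift := fun {m} s S S' h h' hj u w u' w' hχ hχ' e he => by
    obtain ⟨π, h1, h2⟩ := pi_of h h' e
    obtain ⟨g, hg⟩ := G.up S S' h h' hj π h1
    have key : ∀ x : Σ i : Fin m, Fin (G.wk (s.1 i)),
        g (w (Finite.equivFin _ x)) = w' (Finite.equivFin _ x) := by
      rintro ⟨i, l⟩
      have hd : I.dom S (w (Finite.equivFin _ ⟨i, l⟩)) := G.dom_ck _ S _ _ h (hχ.1 i) l
      obtain ⟨n, hn⟩ := (tq I).ex_lab h hd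
      have h3 := h2 n _ hd hn
      rw [← hg _ hd] at h3
      have h4 := he _ n hn
      exact ((tq I).lab_eq h' h3 h4).2 rfl
    refine G.move s.1 h h' u u' (fun i i' => (hχ.2 i i').trans (hχ'.2 i i').symm)
      (fun i c hc => ?_) g (fun i k hk => ?_)
    · have h5 := hχ.1 i
      have h6 := hχ'.1 i
      revert h5 h6
      generalize (fun j => w (Finite.equivFin (Σ i : Fin m, Fin (G.wk (s.1 i))) ⟨i, j⟩)) = a
      generalize (fun j => w' (Finite.equivFin (Σ i : Fin m, Fin (G.wk (s.1 i))) ⟨i, j⟩)) = b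
      revert a b
      rw [hc]
      exact fun a b h5 h6 => ⟨h5, h6⟩
    · have h5 := (G.fd_ck (s.1 i)).iso h h' g (Sum.elim (fun _ => u i)
        (fun j => w (Finite.equivFin (Σ i : Fin m, Fin (G.wk (s.1 i))) ⟨i, j⟩)))
      have h6 : G.ck (s.1 i) S' (g (u i))
          (fun j => g (w (Finite.equivFin (Σ i : Fin m, Fin (G.wk (s.1 i))) ⟨i, j⟩))) :=
        h5.1 (hχ.1 i)
      simp only [key] at h6
      have h7 := hχ'.1 i
      revert h6 h7
      generalize (fun j => w' (Finite.equivFin (Σ i : Fin m, Fin (G.wk (s.1 i))) ⟨i, j⟩)) = b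
      revert b
      rw [hk]
      exact fun b h6 h7 => G.fx k S' _ _ _ h' h6 h7
  rich := fun S S' h h' hV hV' hE => G.rich S S' h h' hV hV' fun φ => by
    rw [← D_tq, ← D_tq]
    exact hE φ

end Gt

end Pool.Agent.TH686.MC
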