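import Pool.Agent.TH686.MC.Rich
import Pool.Agent.W889.FO.StB3

set_option autoImplicit false

/-! From languages with unary and binary relations to a finite language: isomorphisms. -/

namespace Pool.Agent.TH686.JB

open FirstOrder FirstOrder.Language
open Pool.Agent.W889.FO Pool.Agent.W889.FO.StB

variable {L : FirstOrder.Language.{0, 0}} {B : Bin L} {S S' : LB.Structure ℕ}

theorem upB (h : StB.W B S) (h' : StB.W B S') (π : {u // D S u} ≃ {u // D S' u})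
    (hπ : ∀ {n : ℕ} (R : L.Relations n) (u : Fin n → {u // D S u}),
        rl B R S (fun i => u i) ↔ rl B R S' (fun i => π (u i)))
    (hc1 : cnt (JM S) = cnt (JM S')) (hc2 : cnt (R0 S) = cnt (R0 S')) :
    ∃ g : @FirstOrder.Language.Equiv LB ℕ ℕ S S', ∀ u (hu : D S u), g u = π ⟨u, hu⟩ := by
  classical
  obtain ⟨ρ⟩ := cnt_equiv hc1
  obtain ⟨τ⟩ := cnt_equiv hc2
  have hπ1 : ∀ {n : ℕ} (R : L.Relations n) (u : Fin n → {u // D S u}),
      rl B R S (fun i => u i) → rl B R S' (fun i => π (u i)) := fun R u => (hπ R u).1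
  have hπ2 : ∀ {n : ℕ} (R : L.Relations n) (u : Fin n → {u // D S' u}),
      rl B R S' (fun i => u i) → rl B R S (fun i => π.symm (u i)) := fun R u hu => by
    refine (hπ R fun i => π.symm (u i)).2 ?_
    have e : (fun i => (π (π.symm (u i)) : ℕ)) = fun i => (u i : ℕ) :=
      funext fun i => by rw [Equiv.apply_symm_apply]
    show rl B R S' (fun i => (π (π.symm (u i)) : ℕ))
    rw [e]
    exact hu
  -- the matching of the components
  let Mt : X S → X S' → Prop := fun b b' =>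
    (∃ a1 a2, bin RB.fs S b a1 ∧ bin RB.sn S b a2 ∧ ∃ (h1 : D S a1) (h2 : D S a2),
      bin RB.fs S' b' (π ⟨a1, h1⟩) ∧ bin RB.sn S' b' (π ⟨a2, h2⟩)) ∨
    (∃ hb : JM S b, (ρ ⟨b, hb⟩ : ℕ) = b') ∨ (∃ hb : R0 S b, (τ ⟨b, hb⟩ : ℕ) = b')
  have hB1 : ∀ b b', Mt b b' → Bs S b := by
    rintro b b' (⟨a1, a2, h1, _⟩ | ⟨hb, -⟩ | ⟨hb, -⟩)
    · exact Or.inl (h.w0.f1 _ _ h1).1
    · exact Or.inr (Or.inl hb)
    · exact Or.inr (Or.inr hb)
  have hB2 : ∀ b b', Mt b b' → Bs S' b' := by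
    rintro b b' (⟨a1, a2, h1, h2, h3, h4, h5, h6⟩ | ⟨hb, h1⟩ | ⟨hb, h1⟩)
    · exact Or.inl (h'.w0.f1 _ _ h5).1
    · refine Or.inr (Or.inl ?_)
      rw [← h1]
      exact (ρ ⟨b, hb⟩).2
    · refine Or.inr (Or.inr ?_)
      rw [← h1]
      exact (τ ⟨b, hb⟩).2
  have hE1 : ∀ b, Bs S b → ∃ hb : ¬ D S b, ∃ b', Mt ⟨b, hb⟩ b' := by
    rintro b (hb | hb | hb)
    · obtain ⟨a1, h1⟩ := h.w0.f2 b hb
      obtain ⟨a2, h2⟩ := h.w0.s2 b hb
      have d1 := (h.w0.f1 _ _ h1).2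
      have d2 := (h.w0.s1 _ _ h2).2
      obtain ⟨c, h3, h4⟩ := h'.w0.e1 _ _ (π ⟨a1, d1⟩).2 (π ⟨a2, d2⟩).2
      exact ⟨h.w0.c1 b hb, ⟨c, h'.w0.c1 c (h'.w0.f1 _ _ h3).1⟩,
        Or.inl ⟨a1, a2, h1, h2, d1, d2, h3, h4⟩⟩
    · exact ⟨h.w0.m0 b hb.1, ⟨_, h'.w0.m0 _ (ρ ⟨b, hb⟩).2.1⟩, Or.inr (Or.inl ⟨hb, rfl⟩)⟩
    · exact ⟨hb.1, ⟨_, (τ ⟨b, hb⟩).2.1⟩, Or.inr (Or.inr ⟨hb, rfl⟩)⟩
  have hE2 : ∀ b', Bs S' b' → ∃ hb : ¬ D S' b', ∃ b, Mt b ⟨b', hb⟩ := by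
    rintro b (hb | hb | hb)
    · obtain ⟨a1, h1⟩ := h'.w0.f2 b hb
      obtain ⟨a2, h2⟩ := h'.w0.s2 b hb
      have d1 := (h'.w0.f1 _ _ h1).2
      have d2 := (h'.w0.s1 _ _ h2).2
      obtain ⟨c, h3, h4⟩ := h.w0.e1 _ _ (π.symm ⟨a1, d1⟩).2 (π.symm ⟨a2, d2⟩).2
      refine ⟨h'.w0.c1 b hb, ⟨c, h.w0.c1 c (h.w0.f1 _ _ h3).1⟩,
        Or.inl ⟨_, _, h3, h4, (π.symm ⟨a1, d1⟩).2, (π.symm ⟨a2, d2⟩).2, ?_, ?_⟩⟩
      · rw [Subtype.coe_eta, Equiv.apply_symm_apply]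
        exact h1
      · rw [Subtype.coe_eta, Equiv.apply_symm_apply]
        exact h2
    · refine ⟨h'.w0.m0 b hb.1, ⟨_, h.w0.m0 _ (ρ.symm ⟨b, hb⟩).2.1⟩,
        Or.inr (Or.inl ⟨(ρ.symm ⟨b, hb⟩).2, ?_⟩)⟩
      rw [Subtype.coe_eta, Equiv.apply_symm_apply]
    · refine ⟨hb.1, ⟨_, (τ.symm ⟨b, hb⟩).2.1⟩, Or.inr (Or.inr ⟨(τ.symm ⟨b, hb⟩).2, ?_⟩)⟩
      rw [Subtype.coe_eta, Equiv.apply_symm_apply]
  have hU1 : ∀ b b' c', Mt b b' → Mt b c' → b' = c' := by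
    rintro b b' c' (⟨a1, a2, h1, h2, d1, d2, h3, h4⟩ | ⟨hb, hb'⟩ | ⟨hb, hb'⟩)
      (⟨a3, a4, k1, k2, d3, d4, k3, k4⟩ | ⟨hc, hc'⟩ | ⟨hc, hc'⟩)
    · have e1 := h.w0.f3 _ _ _ h1 k1
      have e2 := h.w0.s3 _ _ _ h2 k2
      subst e1
      subst e2
      exact Subtype.ext (h'.w0.e2 _ _ _ _ h3 k3 h4 k4)
    · exact (C_nJM (h.w0.f1 _ _ h1).1 hc).elim
    · exact (C_nR0 (h.w0.f1 _ _ h1).1 hc).elim
    · exact (C_nJM (h.w0.f1 _ _ k1).1 hb).elim
    · exact Subtype.ext (hb'.symm.trans hc')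
    · exact (JM_nR0 hb hc).elim
    · exact (C_nR0 (h.w0.f1 _ _ k1).1 hb).elim
    · exact (JM_nR0 hc hb).elim
    · exact Subtype.ext (hb'.symm.trans hc')
  have hρ : ∀ b (hb : JM S b), JM S' (ρ ⟨b, hb⟩ : ℕ) := fun b hb => (ρ ⟨b, hb⟩).2
  have hτ : ∀ b (hb : R0 S b), R0 S' (τ ⟨b, hb⟩ : ℕ) := fun b hb => (τ ⟨b, hb⟩).2
  have hU2 : ∀ b c b', Mt b b' → Mt c b' → b = c := by
    rintro b c b' (⟨a1, a2, h1, h2, d1, d2, h3, h4⟩ | ⟨hb, hb'⟩ | ⟨hb, hb'⟩)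
      (⟨a3, a4, k1, k2, d3, d4, k3, k4⟩ | ⟨hc, hc'⟩ | ⟨hc, hc'⟩)
    · have e1 := congrArg Subtype.val (π.injective (Subtype.ext (h'.w0.f3 _ _ _ h3 k3)))
      have e2 := congrArg Subtype.val (π.injective (Subtype.ext (h'.w0.s3 _ _ _ h4 k4)))
      simp only at e1 e2
      subst e1
      subst e2
      exact Subtype.ext (h.w0.e2 _ _ _ _ h1 k1 h2 k2)
    · exact (C_nJM (h'.w0.f1 _ _ h3).1 (hc' ▸ hρ _ hc)).elim
    · exact (C_nR0 (h'.w0.f1 _ _ h3).1 (hc' ▸ hτ _ hc)).elim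
    · exact (C_nJM (h'.w0.f1 _ _ k3).1 (hb' ▸ hρ _ hb)).elim
    · have e := congrArg Subtype.val (ρ.injective (Subtype.ext (hb'.trans hc'.symm)))
      exact Subtype.ext e
    · exact (JM_nR0 (hb' ▸ hρ _ hb) (hc' ▸ hτ _ hc)).elim
    · exact (C_nR0 (h'.w0.f1 _ _ k3).1 (hb' ▸ hτ _ hb)).elim
    · exact (JM_nR0 (hc' ▸ hρ _ hc) (hb' ▸ hτ _ hb)).elim
    · have e := congrArg Subtype.val (τ.injective (Subtype.ext (hb'.trans hc'.symm)))
      exact Subtype.ext e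
  obtain ⟨σ, hσ1, hσ2⟩ := match_exists (injMap h.w0) (injMap h'.w0) Mt
    (fun x => by
      obtain ⟨b, z, hb, hz⟩ := cover h.w0 x
      obtain ⟨_, b', hb'⟩ := hE1 b hb
      exact ⟨b, b', z, hb', hz⟩)
    (fun x' => by
      obtain ⟨b', z, hb', hz⟩ := cover h'.w0 x'
      obtain ⟨_, b, hb⟩ := hE2 b' hb'
      exact ⟨b, b', z, hb, hz⟩)
    (fun b b' c c' z hm hm' ho => by
      have e := bs_uniq h.w0 (hB1 _ _ hm) (hB1 _ _ hm') ho
      subst e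
      exact ⟨rfl, hU1 _ _ _ hm hm'⟩)
    (fun b b' c c' z hm hm' ho => by
      have e := bs_uniq h'.w0 (hB2 _ _ hm) (hB2 _ _ hm') ho
      subst e
      exact ⟨hU2 _ _ _ hm hm', rfl⟩)
    (fun b b' z hm => by
      rcases hm with ⟨a1, a2, h1, h2, h3, h4, h5, h6⟩ | ⟨hb, h1⟩ | ⟨hb, h1⟩
      · rw [ex_C h.w0 (h.w0.f1 _ _ h1).1, ex_C h'.w0 (h'.w0.f1 _ _ h5).1]
      · have hb2 : JM S' b' := h1 ▸ hρ _ hb
        exact ⟨fun _ => ex_J h'.w0 (Or.inl hb2) z, fun _ => ex_J h.w0 (Or.inl hb) z⟩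
      · have hb2 : R0 S' b' := h1 ▸ hτ _ hb
        exact ⟨fun _ => ex_J h'.w0 (Or.inr hb2) z, fun _ => ex_J h.w0 (Or.inr hb) z⟩)
  have hMt : ∀ b b', Mt b b' → σ b = b' := fun b b' hm =>
    ((injMap h'.w0).uniq_x (hσ1 b b' 0 b hm (off_zero _ b)) (off_zero _ b'))
  -- the bijection
  let F : Equiv.Perm ℕ := Equiv.subtypeCongr π σ
  have hF1 : ∀ u (hu : D S u), F u = π ⟨u, hu⟩ := by
    intro u hu
    simp [F, Equiv.subtypeCongr, hu]
  have hF2 : ∀ u (hu : ¬ D S u), F u = σ ⟨u, hu⟩ := by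
    intro u hu
    simp [F, Equiv.subtypeCongr, hu]
  have hD : ∀ u, D S' (F u) ↔ D S u := by
    intro u
    by_cases hu : D S u
    · rw [hF1 u hu]
      exact ⟨fun _ => hu, fun _ => (π ⟨u, hu⟩).2⟩
    · rw [hF2 u hu]
      exact ⟨fun h => absurd h (σ ⟨u, hu⟩).2, fun h => absurd h hu⟩
  have hfs : ∀ c a, bin RB.fs S c a → bin RB.fs S' (F c) (F a) := by
    intro c a hca
    have hc := (h.w0.f1 _ _ hca).1
    obtain ⟨hb, b', hm⟩ := hE1 c (Or.inl hc)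
    have hm2 := hm
    rcases hm with ⟨a1, a2, h1, h2, h3, h4, h5, h6⟩ | ⟨hb, h1⟩ | ⟨hb, h1⟩
    · have e := h.w0.f3 _ _ _ h1 hca
      subst e
      rw [hF2 c hb, hMt _ _ hm2, hF1 a1 h3]
      exact h5
    · exact (C_nJM hc hb).elim
    · exact (C_nR0 hc hb).elim
  have hsn : ∀ c a, bin RB.sn S c a → bin RB.sn S' (F c) (F a) := by
    intro c a hca
    have hc := (h.w0.s1 _ _ hca).1
    obtain ⟨hb, b', hm⟩ := hE1 c (Or.inl hc)
    have hm2 := hm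
    rcases hm with ⟨a1, a2, h1, h2, h3, h4, h5, h6⟩ | ⟨hb, h1⟩ | ⟨hb, h1⟩
    · have e := h.w0.s3 _ _ _ h2 hca
      subst e
      rw [hF2 c hb, hMt _ _ hm2, hF1 a2 h4]
      exact h6
    · exact (C_nJM hc hb).elim
    · exact (C_nR0 hc hb).elim
  have hC : ∀ c, C S' (F c) ↔ C S c := by
    intro c
    constructor
    · intro hc
      have hnd : ¬ D S' (F c) := h'.w0.c1 _ hc
      have hnd' : ¬ D S c := fun hd => hnd ((hD c).2 hd)
      obtain ⟨hb, b, hm⟩ := hE2 (F c) (Or.inl hc)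
      have e := hMt _ _ hm
      have e2 : σ ⟨c, hnd'⟩ = ⟨F c, hb⟩ := Subtype.ext (hF2 c hnd').symm
      have e3 : b = ⟨c, hnd'⟩ := σ.injective (e.trans e2.symm)
      subst e3
      rcases hB1 _ _ hm with k | k | k
      · exact k
      · rcases hm with ⟨a1, a2, h1, _⟩ | ⟨hb, h1⟩ | ⟨hb, h1⟩
        · exact (h.w0.f1 _ _ h1).1
        · exact (C_nJM hc ((show (ρ ⟨c, hb⟩ : ℕ) = F c from h1) ▸ hρ _ hb)).elim
        · exact (C_nR0 hc ((show (τ ⟨c, hb⟩ : ℕ) = F c from h1) ▸ hτ _ hb)).elim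
      · rcases hm with ⟨a1, a2, h1, _⟩ | ⟨hb, h1⟩ | ⟨hb, h1⟩
        · exact (h.w0.f1 _ _ h1).1
        · exact (C_nJM hc ((show (ρ ⟨c, hb⟩ : ℕ) = F c from h1) ▸ hρ _ hb)).elim
        · exact (C_nR0 hc ((show (τ ⟨c, hb⟩ : ℕ) = F c from h1) ▸ hτ _ hb)).elim
    · intro hc
      obtain ⟨a, ha⟩ := h.w0.f2 c hc
      exact (h'.w0.f1 _ _ (hfs _ _ ha)).1
  have hfs' : ∀ c a, bin RB.fs S' (F c) (F a) ↔ bin RB.fs S c a := by
    refine fun c a => ⟨fun hca => ?_, hfs c a⟩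
    have hc := (hC c).1 (h'.w0.f1 _ _ hca).1
    obtain ⟨b, hb⟩ := h.w0.f2 c hc
    have := F.injective (h'.w0.f3 _ _ _ (hfs _ _ hb) hca)
    rw [← this]
    exact hb
  have hsn' : ∀ c a, bin RB.sn S' (F c) (F a) ↔ bin RB.sn S c a := by
    refine fun c a => ⟨fun hca => ?_, hsn c a⟩
    have hc := (hC c).1 (h'.w0.s1 _ _ hca).1
    obtain ⟨b, hb⟩ := h.w0.s2 c hc
    have := F.injective (h'.w0.s3 _ _ _ (hsn _ _ hb) hca)
    rw [← this]
    exact hb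
  have hsc : ∀ x y, bin RB.sc S' (F x) (F y) ↔ bin RB.sc S x y := by
    intro x y
    by_cases hx : D S x
    · exact ⟨fun k => absurd ((hD x).2 hx) (h'.w0.n1 _ _ k).1,
        fun k => absurd hx (h.w0.n1 _ _ k).1⟩
    · have k1 := sc_iff h.w0 ⟨x, hx⟩ y
      have k2 := sc_iff h'.w0 (σ ⟨x, hx⟩) (F y)
      rw [← hF2 x hx] at k2
      rw [k2, k1, ← hσ2]
      rw [← hF2 _ (nx h.w0 ⟨x, hx⟩).2]
      exact F.apply_eq_iff_eq
  have hMk : ∀ x, M S' (F x) ↔ M S x := by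
    intro x
    by_cases hx : D S x
    · exact ⟨fun k => absurd ((hD x).2 hx) (h'.w0.m0 _ k),
        fun k => absurd hx (h.w0.m0 _ k)⟩
    · rw [hF2 x hx]
      obtain ⟨b, z, hb, hz⟩ := cover h.w0 ⟨x, hx⟩
      obtain ⟨_, b', hm⟩ := hE1 b hb
      have hz' : Off (nx h'.w0) z b' (σ ⟨x, hx⟩) := hσ1 b b' z _ hm hz
      have hb' := hB2 _ _ hm
      rcases hm with ⟨a1, a2, h1, h2, h3, h4, h5, h6⟩ | ⟨hb1, h1⟩ | ⟨hb1, h1⟩
      · obtain ⟨n, rfl, hn⟩ := start h.w0 (h.w0.f1 _ _ h1).1 hz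
        obtain ⟨n', hn1, hn'⟩ := start h'.w0 (h'.w0.f1 _ _ h5).1 hz'
        have e : n = n' := by exact_mod_cast hn1
        subst e
        have c1 := (ch_iff h.w0 n b x).2 (congrArg Subtype.val hn)
        have c2 := (ch_iff h'.w0 n b' (σ ⟨x, hx⟩)).2 (congrArg Subtype.val hn')
        constructor
        · refine mark h' h π.symm hπ2 (a := π ⟨a1, h3⟩) (b := π ⟨a2, h4⟩) h5 h6 ?_ ?_ c2 c1
          · rw [Equiv.symm_apply_apply]
            exact h1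
          · rw [Equiv.symm_apply_apply]
            exact h2
        · exact mark h h' π hπ1 (a := ⟨a1, h3⟩) (b := ⟨a2, h4⟩) h1 h2 h5 h6 c1 c2
      · have hj' : JM S' b' := h1 ▸ hρ _ hb1
        -- a mark in the component is the base
        have key : ∀ {T : LB.Structure ℕ} (hT : W0 T) {b x : X T} {z : ℤ} (hb : JM T b)
            (ho : Off (nx hT) z b x), M T x → b = x := by
          intro T hT b x z hb ho hmx
          refine bs_uniq hT (Or.inr (Or.inl hb)) (Or.inr (Or.inl ⟨hmx, fun n c hc hch => ?_⟩)) ho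
          have h3 : (nx hT)^[n] ⟨c, hT.c1 c hc⟩ = x :=
            Subtype.ext ((ch_iff hT n ⟨c, hT.c1 c hc⟩ x).1 hch)
          have h4 : Off (nx hT) n ⟨c, hT.c1 c hc⟩ x := by
            rw [← h3]
            exact off_iter _ _ _
          exact nC_comp hT (Or.inl hb) (ho.trans h4.symm) hc
        constructor
        · intro k
          have e1 := key h'.w0 hj' hz' k
          rw [← e1] at hz'
          have e2 := (injMap h'.w0).uniq_z hz' (off_zero _ _)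
          subst e2
          have e3 := (injMap h.w0).uniq_x hz (off_zero _ _)
          have e4 : x = b := congrArg Subtype.val e3
          rw [e4]
          exact hb1.1
        · intro k
          have e1 := key h.w0 hb1 hz k
          rw [← e1] at hz
          have e2 := (injMap h.w0).uniq_z hz (off_zero _ _)
          subst e2
          have e3 := (injMap h'.w0).uniq_x hz' (off_zero _ _)
          rw [e3]
          exact hj'.1
      · have hj' : R0 S' b' := h1 ▸ hτ _ hb1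
        exact ⟨fun k => absurd k (hj'.2 _ (sm_of_off h'.w0 hz')).1,
          fun k => absurd k (hb1.2 _ (sm_of_off h.w0 hz)).1⟩
  have un : ∀ (Q : RB 1), (∀ u, @Structure.RelMap LB ℕ S' _ Q (fun _ => F u) ↔
      @Structure.RelMap LB ℕ S _ Q (fun _ => u)) → ∀ v : Fin 1 → ℕ,
      @Structure.RelMap LB ℕ S' _ Q (fun i => F (v i)) ↔ @Structure.RelMap LB ℕ S _ Q v := by
    intro Q k v
    have := k (v 0)
    have e1 : (fun _ : Fin 1 => v 0) = v := funext fun i => by rw [Subsingleton.elim i 0]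
    have e2 : (fun _ : Fin 1 => F (v 0)) = fun i => F (v i) :=
      funext fun i => by rw [Subsingleton.elim i 0]
    rw [e1, e2] at this
    exact this
  have bi : ∀ (Q : RB 2), (∀ a b, bin Q S' (F a) (F b) ↔ bin Q S a b) → ∀ v : Fin 2 → ℕ,
      @Structure.RelMap LB ℕ S' _ Q (fun i => F (v i)) ↔ @Structure.RelMap LB ℕ S _ Q v := by
    intro Q k v
    have := k (v 0) (v 1)
    unfold bin at this
    have e1 : (fun m : Fin 2 => if m = 0 then v 0 else v 1) = v := by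
      funext m
      fin_cases m <;> rfl
    have e2 : (fun m : Fin 2 => if m = 0 then F (v 0) else F (v 1)) = fun i => F (v i) := by
      funext m
      fin_cases m <;> rfl
    rw [e1, e2] at this
    exact this
  obtain ⟨f, hf⟩ := siso_of (S := S) (S' := S') F (fun n Q v => by
    cases Q with
    | D => exact un RB.D hD v
    | C => exact un RB.C hC v
    | M => exact un RB.M hMk v
    | fs => exact bi RB.fs hfs' v
    | sn => exact bi RB.sn hsn' v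
    | sc => exact bi RB.sc hsc v)
  exact ⟨f, fun u hu => by rw [hf, hF1 u hu]⟩

end Pool.Agent.TH686.JB
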